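import Mathlib

open MeasureTheory ProbabilityTheory Filter Topology
open scoped BigOperators ENNReal

namespace Pool.Agent.R977.FP

/-- `z` is a list of `n` points of the plane.  `z ∈ patternEvent n π` means: when the points are listed
by increasing first coordinate (the list is `z ∘ ρ`), the relative order of their second coordinates
is the one of `π`. -/
def patternEvent (n : ℕ) (π : Equiv.Perm (Fin n)) : Set (Fin n → ℝ × ℝ) :=
  {z | ∃ ρ : Equiv.Perm (Fin n), StrictMono (fun a => (z (ρ a)).1) ∧
        ∀ a b, (z (ρ a)).2 < (z (ρ b)).2 ↔ π a < π b}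

/-- The sampling entropy `H_n(μ)`: Shannon entropy (natural logarithm) of the pattern of `n`
independent points with law `μ`. -/
noncomputable def samplingEntropy (μ : Measure (ℝ × ℝ)) (n : ℕ) : ℝ :=
  ∑ π : Equiv.Perm (Fin n),
    Real.negMulLog ((Measure.pi (fun _ : Fin n => μ)).real (patternEvent n π))

/-- Labels on the vertices of the rooted `d`-ary tree: the vertices are the finite words with letters
in `Fin d`; the label of the vertex `w` is the permutation used by the refinement step in the
square with address `w`. -/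
abbrev Labels (d : ℕ) := List (Fin d) → Equiv.Perm (Fin d)

/-- The lower left corner of the square of side `d ^ (-n)` with address `w`: its `k`-th column index
is `w k`, its `k`-th row index is the image of `w k` under the permutation used in the square with address
`w 0, …, w (k-1)`. -/
noncomputable def corner {d : ℕ} (L : Labels d) {n : ℕ} (w : Fin n → Fin d) : ℝ × ℝ :=
  (∑ k : Fin n, ((w k : ℕ) : ℝ) / (d : ℝ) ^ ((k : ℕ) + 1),
   ∑ k : Fin n, ((L ((List.ofFn w).take k) (w k) : ℕ) : ℝ) / (d : ℝ) ^ ((k : ℕ) + 1))

/-- The measure `μ_n` obtained from Lebesgue measure on the unit square after `n` rounds of refinement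
steps: mass `d ^ (-n)` uniformly on each of the `d ^ n` kept squares of side `d ^ (-n)`. -/
noncomputable def approx {d : ℕ} (L : Labels d) (n : ℕ) : Measure (ℝ × ℝ) :=
  ∑ w : Fin n → Fin d, ((d : ℝ≥0∞) ^ n)⁻¹ •
    ((volume : Measure (ℝ × ℝ)).restrict (Set.Icc (0:ℝ) 1 ×ˢ Set.Icc (0:ℝ) 1)).map
      (fun z => ((corner L w).1 + z.1 / (d:ℝ) ^ n, (corner L w).2 + z.2 / (d:ℝ) ^ n))

/-- Weak convergence of measures on the plane. -/
def IsWeakLimit (m : ℕ → Measure (ℝ × ℝ)) (μ : Measure (ℝ × ℝ)) : Prop :=
  ∀ f : BoundedContinuousFunction (ℝ × ℝ) ℝ,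
    Tendsto (fun n => ∫ z, f z ∂(m n)) atTop (𝓝 (∫ z, f z ∂μ))

/-- All subsets of the finite set of permutations of `Fin d` are measurable. -/
instance (d : ℕ) : MeasurableSpace (Equiv.Perm (Fin d)) := ⊤

end Pool.Agent.R977.FP
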