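import Mathlib

open MeasureTheory ProbabilityTheory Filter Topology
open scoped BigOperators

namespace Pool.Agent.R977.FP

/-! ## Numbers with digits in base `b` -/

/-- the integer with the first `K` digits -/
def cnum {b : ℕ} (a : ℕ → Fin b) : ℕ → ℕ
  | 0 => 0
  | (K+1) => b * cnum a K + (a K : ℕ)

lemma cnum_lt {b : ℕ} (a : ℕ → Fin b) (K : ℕ) : cnum a K < b ^ K := by
  induction K with
  | zero => simp [cnum]
  | succ K ih =>
    simp only [cnum]
    have h1 : (a K : ℕ) < b := (a K).isLt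
    have h2 : b * cnum a K + b ≤ b ^ (K+1) := by
      calc b * cnum a K + b = b * (cnum a K + 1) := by ring
        _ ≤ b * b ^ K := Nat.mul_le_mul_left _ ih
        _ = b ^ (K+1) := by ring
    omega

lemma cnum_congr {b : ℕ} {a a' : ℕ → Fin b} {K : ℕ} (h : ∀ j < K, a j = a' j) :
    cnum a K = cnum a' K := by
  induction K with
  | zero => simp [cnum]
  | succ K ih =>
    simp only [cnum]
    rw [ih (fun j hj => h j (by omega)), h K (by omega)]

lemma cnum_inj {b : ℕ} {a a' : ℕ → Fin b} {K : ℕ} (h : cnum a K = cnum a' K) :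
    ∀ j < K, a j = a' j := by
  induction K with
  | zero => intro j hj; omega
  | succ K ih =>
    simp only [cnum] at h
    have h1 : (a K : ℕ) < b := (a K).isLt
    have h2 : (a' K : ℕ) < b := (a' K).isLt
    have hb : 0 < b := by omega
    have e1 : (b * cnum a K + (a K : ℕ)) / b = cnum a K := by
      rw [Nat.mul_add_div hb, Nat.div_eq_of_lt h1, add_zero]
    have e2 : (b * cnum a' K + (a' K : ℕ)) / b = cnum a' K := by
      rw [Nat.mul_add_div hb, Nat.div_eq_of_lt h2, add_zero]
    have e3 : cnum a K = cnum a' K := by rw [← e1, ← e2, h]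
    have e4 : (a K : ℕ) = a' K := by rw [e3] at h; omega
    intro j hj
    rcases Nat.lt_succ_iff_lt_or_eq.mp hj with hj | rfl
    · exact ih e3 j hj
    · exact Fin.ext e4

lemma sum_eq_cnum {b : ℕ} (hb : 0 < b) (a : ℕ → Fin b) (K : ℕ) :
    ∑ i ∈ Finset.range K, Real.ofDigitsTerm a i = (cnum a K : ℝ) / (b:ℝ) ^ K := by
  induction K with
  | zero => simp [cnum]
  | succ K ih =>
    have hb' : (b : ℝ) ≠ 0 := by positivity
    rw [Finset.sum_range_succ, ih, Real.ofDigitsTerm]
    simp only [cnum]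
    push_cast
    field_simp
    ring

lemma cnum_le_ofDigits {b : ℕ} (hb : 0 < b) (a : ℕ → Fin b) (K : ℕ) :
    (cnum a K : ℝ) / (b:ℝ) ^ K ≤ Real.ofDigits a := by
  rw [Real.ofDigits_eq_sum_add_ofDigits a K, sum_eq_cnum hb]
  have := Real.ofDigits_nonneg (fun i => a (i + K))
  have : (0:ℝ) ≤ ((b:ℝ)^K)⁻¹ * Real.ofDigits (fun i => a (i+K)) := by positivity
  linarith

lemma ofDigits_le_cnum {b : ℕ} (hb : 0 < b) (a : ℕ → Fin b) (K : ℕ) :
    Real.ofDigits a ≤ ((cnum a K : ℝ) + 1) / (b:ℝ) ^ K := by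
  rw [Real.ofDigits_eq_sum_add_ofDigits a K, sum_eq_cnum hb]
  have h1 := Real.ofDigits_le_one (fun i => a (i + K))
  have h2 : ((b:ℝ)^K)⁻¹ * Real.ofDigits (fun i => a (i+K)) ≤ ((b:ℝ)^K)⁻¹ * 1 := by
    gcongr
  rw [add_div]
  have : (1:ℝ) / (b:ℝ)^K = ((b:ℝ)^K)⁻¹ * 1 := by simp
  linarith

lemma le_of_cnum_lt {b : ℕ} (hb : 0 < b) {a a' : ℕ → Fin b} {K : ℕ} (h : cnum a K < cnum a' K) :
    Real.ofDigits a ≤ Real.ofDigits a' := by
  refine (ofDigits_le_cnum hb a K).trans (le_trans ?_ (cnum_le_ofDigits hb a' K))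
  have : (cnum a K : ℝ) + 1 ≤ cnum a' K := by exact_mod_cast h
  gcongr

/-- With no tie, the order is given by the first digits, when they differ. -/
lemma lt_iff_cnum_lt {b : ℕ} (hb : 0 < b) {a a' : ℕ → Fin b} {K : ℕ}
    (hne : Real.ofDigits a ≠ Real.ofDigits a') (h : cnum a K ≠ cnum a' K) :
    Real.ofDigits a < Real.ofDigits a' ↔ cnum a K < cnum a' K := by
  constructor
  · intro h1
    rcases lt_or_gt_of_ne h with h2 | h2
    · exact h2
    · exact absurd (le_of_cnum_lt hb h2) (not_le.mpr h1)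
  · intro h1
    exact lt_of_le_of_ne (le_of_cnum_lt hb h1) hne

lemma cnum_le_of_lt {b : ℕ} (hb : 0 < b) {a a' : ℕ → Fin b} {K : ℕ}
    (h : Real.ofDigits a < Real.ofDigits a') : cnum a K ≤ cnum a' K := by
  by_contra h1
  exact absurd (le_of_cnum_lt hb (not_le.mp h1)) (not_le.mpr h)

/-! ## The digits of the point -/

variable {N : ℕ}

/-- half-digits of a point -/
abbrev HD (N : ℕ) := ℕ × Bool → Fin N

/-- digits of the first coordinate -/
def dx (a : HD N) : ℕ → Fin (N * N) := fun j => finProdFinEquiv (a (j, false), a (j, true))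

/-- digits of the second coordinate -/
def dy (a : HD N) : ℕ → Fin (N * N) := fun j => finProdFinEquiv (a (j, true), a (j, false))

lemma dx_val (a : HD N) (j : ℕ) : (dx a j : ℕ) = (a (j, true) : ℕ) + N * (a (j, false) : ℕ) := rfl
lemma dy_val (a : HD N) (j : ℕ) : (dy a j : ℕ) = (a (j, false) : ℕ) + N * (a (j, true) : ℕ) := rfl

lemma dx_eq_iff {a a' : HD N} {j : ℕ} :
    dx a j = dx a' j ↔ a (j, false) = a' (j, false) ∧ a (j, true) = a' (j, true) := by
  simp [dx]

lemma dy_eq_iff {a a' : HD N} {j : ℕ} :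
    dy a j = dy a' j ↔ a (j, false) = a' (j, false) ∧ a (j, true) = a' (j, true) := by
  simp [dy, and_comm]

lemma dx_lt_of_lt {a a' : HD N} {j : ℕ} (h : a (j, false) < a' (j, false)) :
    dx a j < dx a' j := by
  rw [Fin.lt_def, dx_val, dx_val]
  have h1 : (a (j, false) : ℕ) + 1 ≤ a' (j, false) := h
  have h2 : (a (j, true) : ℕ) < N := (a (j, true)).isLt
  have h3 : N * ((a (j, false) : ℕ) + 1) ≤ N * (a' (j, false) : ℕ) := Nat.mul_le_mul_left _ h1
  nlinarith

lemma dy_lt_of_lt {a a' : HD N} {j : ℕ} (h : a (j, true) < a' (j, true)) :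
    dy a j < dy a' j := by
  rw [Fin.lt_def, dy_val, dy_val]
  have h1 : (a (j, true) : ℕ) + 1 ≤ a' (j, true) := h
  have h2 : (a (j, false) : ℕ) < N := (a (j, false)).isLt
  have h3 : N * ((a (j, true) : ℕ) + 1) ≤ N * (a' (j, true) : ℕ) := Nat.mul_le_mul_left _ h1
  nlinarith

/-- first coordinate of the point -/
noncomputable def X (a : HD N) : ℝ := Real.ofDigits (dx a)
/-- second coordinate of the point -/
noncomputable def Y (a : HD N) : ℝ := Real.ofDigits (dy a)

lemma cx_eq_iff {a a' : HD N} {K : ℕ} :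
    cnum (dx a) K = cnum (dx a') K ↔ ∀ j < K, a (j, false) = a' (j, false) ∧ a (j, true) = a' (j, true) := by
  constructor
  · intro h j hj
    exact dx_eq_iff.mp (cnum_inj h j hj)
  · intro h
    exact cnum_congr (fun j hj => dx_eq_iff.mpr (h j hj))

lemma cy_eq_iff {a a' : HD N} {K : ℕ} :
    cnum (dy a) K = cnum (dy a') K ↔ ∀ j < K, a (j, false) = a' (j, false) ∧ a (j, true) = a' (j, true) := by
  constructor
  · intro h j hj
    exact dy_eq_iff.mp (cnum_inj h j hj)
  · intro h
    exact cnum_congr (fun j hj => dy_eq_iff.mpr (h j hj))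

lemma cy_eq_iff_cx {a a' : HD N} {K : ℕ} :
    cnum (dy a) K = cnum (dy a') K ↔ cnum (dx a) K = cnum (dx a') K := by
  rw [cy_eq_iff, cx_eq_iff]

lemma measurable_X : Measurable (X : HD N → ℝ) := by
  have h1 : Measurable (fun a : HD N => dx a) := by
    refine measurable_pi_lambda _ (fun j => ?_)
    have : Measurable (fun p : Fin N × Fin N => finProdFinEquiv p) := measurable_of_finite _
    exact this.comp (by fun_prop)
  exact Real.continuous_ofDigits.measurable.comp h1

lemma measurable_Y : Measurable (Y : HD N → ℝ) := by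
  have h1 : Measurable (fun a : HD N => dy a) := by
    refine measurable_pi_lambda _ (fun j => ?_)
    have : Measurable (fun p : Fin N × Fin N => finProdFinEquiv p) := measurable_of_finite _
    exact this.comp (by fun_prop)
  exact Real.continuous_ofDigits.measurable.comp h1

lemma measurable_cx (K : ℕ) : Measurable (fun a : HD N => cnum (dx a) K) := by
  induction K with
  | zero => simp [cnum]
  | succ K ih =>
    simp only [cnum]
    have : Measurable (fun p : Fin N × Fin N => ((finProdFinEquiv p : Fin (N * N)) : ℕ)) :=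
      measurable_of_finite _
    have h2 : Measurable (fun a : HD N => ((dx a K : Fin (N * N)) : ℕ)) := this.comp (by fun_prop)
    exact (ih.const_mul _).add h2

end Pool.Agent.R977.FP
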