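import Mathlib

open MeasureTheory ProbabilityTheory Filter Topology
open scoped BigOperators

namespace Pool.Agent.R977.FP

/-! ## Abstract entropy bounds -/

section upper

variable {Ω : Type*} [MeasurableSpace Ω] (P : Measure Ω) [IsProbabilityMeasure P]
variable {ι γ : Type*} [Fintype ι] [DecidableEq ι] [Fintype γ] [Nonempty γ]

/-- upper bound for the entropy of a partition `A` when, up to `γ`-many choices, only few pieces are
possible. -/
lemma entropy_upper (A : ι → Set Ω) (hAm : ∀ i, MeasurableSet (A i))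
    (hdisj : ∀ i j, i ≠ j → Disjoint (A i) (A j))
    (hcover : ∀ᵐ ω ∂P, ∃ i, ω ∈ A i)
    (Comp : γ → Finset ι) (B : Ω → ℝ) (hB : Integrable B P)
    (h : ∀ᵐ ω ∂P, ∀ i, ω ∈ A i → ∃ c, i ∈ Comp c ∧ Real.log ((Comp c).card) ≤ B ω) :
    ∑ i, Real.negMulLog (P.real (A i)) ≤ Real.log (Fintype.card γ) + ∫ ω, B ω ∂P := by
  classical
  -- the sub-probability
  set q : ι → ℝ := fun i => ∑ c : γ, if i ∈ Comp c then ((Fintype.card γ : ℝ) * (Comp c).card)⁻¹ else 0
    with hq
  have hγ : (0:ℝ) < Fintype.card γ := by exact_mod_cast Fintype.card_pos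
  have hq0 : ∀ i, 0 ≤ q i := by
    intro i
    refine Finset.sum_nonneg (fun c _ => ?_)
    split_ifs <;> positivity
  have hqsum : ∑ i, q i ≤ 1 := by
    rw [hq]
    simp only
    rw [Finset.sum_comm]
    have : ∀ c : γ, (∑ i, if i ∈ Comp c then ((Fintype.card γ : ℝ) * (Comp c).card)⁻¹ else 0)
        ≤ (Fintype.card γ : ℝ)⁻¹ := by
      intro c
      rw [← Finset.sum_filter]
      rw [Finset.sum_const, nsmul_eq_mul]
      have e : (Finset.univ.filter (fun i => i ∈ Comp c)) = Comp c := by ext; simp
      rw [e, mul_inv]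
      rcases (Nat.eq_zero_or_pos (Comp c).card) with h0 | h0
      · rw [h0]; simp
      · have : (0:ℝ) < (Comp c).card := by exact_mod_cast h0
        apply le_of_eq
        field_simp
    calc ∑ c : γ, ∑ i, (if i ∈ Comp c then ((Fintype.card γ : ℝ) * (Comp c).card)⁻¹ else 0)
        ≤ ∑ c : γ, (Fintype.card γ : ℝ)⁻¹ := Finset.sum_le_sum (fun c _ => this c)
      _ = 1 := by
        rw [Finset.sum_const, nsmul_eq_mul, Finset.card_univ]
        field_simp
  -- lower bound for q on the pieces
  have hqlow : ∀ i c, i ∈ Comp c → ((Fintype.card γ : ℝ) * (Comp c).card)⁻¹ ≤ q i := by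
    intro i c hic
    rw [hq]
    simp only
    calc ((Fintype.card γ : ℝ) * (Comp c).card)⁻¹
        = (if i ∈ Comp c then ((Fintype.card γ : ℝ) * (Comp c).card)⁻¹ else 0) := by rw [if_pos hic]
      _ ≤ _ := Finset.single_le_sum
          (f := fun c => if i ∈ Comp c then ((Fintype.card γ : ℝ) * (Comp c).card)⁻¹ else 0)
          (fun c _ => by split_ifs <;> positivity) (Finset.mem_univ c)
  have hpt : ∀ᵐ ω ∂P, ∀ i, ω ∈ A i → -Real.log (q i) ≤ Real.log (Fintype.card γ) + B ω := by
    filter_upwards [h] with ω hω i hi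
    obtain ⟨c, hic, hc⟩ := hω i hi
    have hcard : (0:ℝ) < (Comp c).card := by exact_mod_cast Finset.card_pos.mpr ⟨i, hic⟩
    have h1 := hqlow i c hic
    have h2 : Real.log (((Fintype.card γ : ℝ) * (Comp c).card)⁻¹) ≤ Real.log (q i) :=
      Real.log_le_log (by positivity) h1
    rw [Real.log_inv, Real.log_mul (by positivity) (by positivity)] at h2
    linarith
  have hsum1 : ∑ i, P.real (A i) = 1 := by
    have h1 : P.real (⋃ i, A i) = ∑ i, P.real (A i) := by
      rw [measureReal_iUnion_fintype (fun i j hij => hdisj i j hij) hAm]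
    rw [← h1]
    have h2 : P (⋃ i, A i) = 1 := by
      rw [prob_compl_eq_zero_iff (MeasurableSet.iUnion hAm) |>.symm]
      rw [← mem_ae_iff]
      filter_upwards [hcover] with ω hω
      simpa using hω
    simp [Measure.real, h2]
  have hposq : ∀ i, P.real (A i) ≠ 0 → 0 < q i := by
    intro i hi
    have hne : P (A i) ≠ 0 := by
      intro h0; apply hi; simp [Measure.real, h0]
    have : ∃ ω ∈ A i, ∀ j, ω ∈ A j → ∃ c, j ∈ Comp c ∧ Real.log ((Comp c).card) ≤ B ω := by
      by_contra hcon
      push Not at hcon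
      apply hne
      refine measure_mono_null (t := {ω | ¬ ∀ i, ω ∈ A i → ∃ c, i ∈ Comp c ∧ Real.log ((Comp c).card) ≤ B ω}) ?_ h
      intro ω hω
      obtain ⟨j, hj, hj2⟩ := hcon ω hω
      simp only [Set.mem_ofPred_eq, not_forall]
      exact ⟨j, hj, by push Not; exact hj2⟩
    obtain ⟨ω, hω, h2⟩ := this
    obtain ⟨c, hic, -⟩ := h2 i hω
    have hcard : (0:ℝ) < (Comp c).card := by exact_mod_cast Finset.card_pos.mpr ⟨i, hic⟩
    exact lt_of_lt_of_le (by positivity) (hqlow i c hic)
  clear_value q
  -- Gibbs inequality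
  have hgibbs : ∑ i, Real.negMulLog (P.real (A i)) ≤ ∑ i, P.real (A i) * (-Real.log (q i)) := by
    have hterm : ∀ i, Real.negMulLog (P.real (A i)) ≤
        P.real (A i) * (-Real.log (q i)) + (q i - P.real (A i)) := by
      intro i
      have hp0 : 0 ≤ P.real (A i) := measureReal_nonneg
      by_cases hp : P.real (A i) = 0
      · rw [hp, Real.negMulLog_zero, zero_mul, zero_add, sub_zero]
        exact hq0 i
      · have hpp : 0 < P.real (A i) := lt_of_le_of_ne hp0 (Ne.symm hp)
        have hqp := hposq i hp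
        have h1 : Real.log (q i / P.real (A i)) ≤ q i / P.real (A i) - 1 :=
          Real.log_le_sub_one_of_pos (by positivity)
        rw [Real.log_div hqp.ne' hpp.ne'] at h1
        have h2 := mul_le_mul_of_nonneg_left h1 hp0
        rw [Real.negMulLog]
        have h3 : P.real (A i) * (q i / P.real (A i) - 1) = q i - P.real (A i) := by
          rw [mul_sub, mul_div_cancel₀ _ hp, mul_one]
        rw [h3] at h2
        linarith
    calc ∑ i, Real.negMulLog (P.real (A i))
        ≤ ∑ i, (P.real (A i) * (-Real.log (q i)) + (q i - P.real (A i))) :=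
          Finset.sum_le_sum (fun i _ => hterm i)
      _ = ∑ i, P.real (A i) * (-Real.log (q i)) + (∑ i, q i - 1) := by
          rw [Finset.sum_add_distrib, Finset.sum_sub_distrib, hsum1]
      _ ≤ _ := by linarith
  refine hgibbs.trans ?_
  -- integrate
  have hint : Integrable (fun ω => Real.log (Fintype.card γ) + B ω) P :=
    (integrable_const _).add hB
  have h1 : ∀ i, P.real (A i) * (-Real.log (q i)) ≤
      ∫ ω in A i, (Real.log (Fintype.card γ) + B ω) ∂P := by
    intro i
    have e : P.real (A i) * (-Real.log (q i)) = ∫ ω in A i, (-Real.log (q i)) ∂P := by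
      rw [setIntegral_const, smul_eq_mul]
    rw [e]
    refine setIntegral_mono_on_ae (integrableOn_const (by finiteness)) hint.integrableOn (hAm i) ?_
    filter_upwards [hpt] with ω hω hi
    exact hω i hi
  calc ∑ i, P.real (A i) * (-Real.log (q i))
      ≤ ∑ i, ∫ ω in A i, (Real.log (Fintype.card γ) + B ω) ∂P := Finset.sum_le_sum (fun i _ => h1 i)
    _ = ∫ ω in ⋃ i, A i, (Real.log (Fintype.card γ) + B ω) ∂P := by
        rw [integral_iUnion_fintype (fun i => hAm i) (fun i j hij => hdisj i j hij)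
          (fun i => hint.integrableOn)]
    _ = ∫ ω, (Real.log (Fintype.card γ) + B ω) ∂P := by
        have h2 : (⋃ i, A i) =ᵐ[P] Set.univ := by
          rw [ae_eq_univ]
          have : (⋃ i, A i)ᶜ = {ω | ¬ ∃ i, ω ∈ A i} := by ext; simp
          rw [this]
          exact hcover
        rw [Measure.restrict_congr_set h2, Measure.restrict_univ]
    _ = Real.log (Fintype.card γ) + ∫ ω, B ω ∂P := by
        rw [integral_add (integrable_const _) hB]
        simp

end upper

section lower

variable {Ω : Type*} [MeasurableSpace Ω] (P : Measure Ω) [IsProbabilityMeasure P]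
variable {ι G : Type*} [Fintype ι] [Fintype G] [DecidableEq G]

/-- lower bound for the entropy of a partition `A`, when there are partial symmetries `Γ ω` of the
probability space that change the piece. -/
lemma entropy_lower (A : ι → Set Ω) (hAm : ∀ i, MeasurableSet (A i))
    (hdisj : ∀ i j, i ≠ j → Disjoint (A i) (A j))
    (hcover : ∀ᵐ ω ∂P, ∃ i, ω ∈ A i)
    (T : G → Ω → Ω) (hT : ∀ τ, MeasurePreserving (T τ) P P)
    (Γ : Ω → Finset G) (hΓm : ∀ τ, MeasurableSet {ω | τ ∈ Γ ω}) (hne : ∀ ω, (Γ ω).Nonempty)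
    (e : G ≃ G) (h1 : ∀ ω τ, τ ∈ Γ ω → Γ (T τ ω) = Γ ω ∧ e τ ∈ Γ ω)
    (h2 : ∀ ω τ, e τ ∈ Γ (T τ ω) → τ ∈ Γ ω)
    (hinj : ∀ᵐ ω ∂P, ∀ τ ∈ Γ ω, ∀ τ' ∈ Γ ω, ∀ i, T τ ω ∈ A i → T τ' ω ∈ A i → τ = τ') :
    ∫ ω, Real.log (Γ ω).card ∂P ≤ ∑ i, Real.negMulLog (P.real (A i)) := by
  classical
  set w : Ω → ℝ := fun ω => ((Γ ω).card : ℝ)⁻¹ with hw
  have hcard : ∀ ω, ((Γ ω).card : ℝ) = ∑ τ : G, Set.indicator {ω | τ ∈ Γ ω} (fun _ => (1:ℝ)) ω := by
    intro ω
    simp only [Set.indicator_apply, Set.mem_ofPred_eq]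
    rw [Finset.sum_ite_mem, Finset.univ_inter, Finset.sum_const, nsmul_eq_mul, mul_one]
  have hcm : Measurable (fun ω => ((Γ ω).card : ℝ)) := by
    have : (fun ω => ((Γ ω).card : ℝ)) =
        fun ω => ∑ τ : G, Set.indicator {ω | τ ∈ Γ ω} (fun _ => (1:ℝ)) ω := funext hcard
    rw [this]
    refine Finset.measurable_sum _ (fun τ _ => ?_)
    exact measurable_const.indicator (hΓm τ)
  have hwm : Measurable w := hcm.inv
  have hc1 : ∀ ω, (1:ℝ) ≤ (Γ ω).card := fun ω => by
    exact_mod_cast Finset.card_pos.mpr (hne ω)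
  have hw0 : ∀ ω, 0 ≤ w ω := fun ω => by simp only [hw]; positivity
  have hw1 : ∀ ω, w ω ≤ 1 := fun ω => inv_le_one_of_one_le₀ (hc1 ω)
  -- the conditional probabilities
  set W : ι → Ω → ℝ := fun i ω => ∑ τ : G, Set.indicator {ω | τ ∈ Γ ω} (fun ω =>
    w ω * Set.indicator (T τ ⁻¹' A i) (fun _ => (1:ℝ)) ω) ω with hW
  have hWm : ∀ i, Measurable (W i) := by
    intro i
    refine Finset.measurable_sum _ (fun τ _ => ?_)
    refine Measurable.indicator ?_ (hΓm τ)
    exact hwm.mul (measurable_const.indicator ((hT τ).measurable (hAm i)))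
  -- W i is the w times the number
  have hWcount : ∀ i ω, W i ω = w ω * (((Γ ω).filter (fun τ => T τ ω ∈ A i)).card : ℝ) := by
    intro i ω
    simp only [hW, Set.indicator_apply, Set.mem_ofPred_eq, Set.mem_preimage]
    rw [Finset.sum_ite_mem, Finset.univ_inter, ← Finset.mul_sum]
    congr 1
    rw [← Finset.sum_filter, Finset.sum_const, nsmul_eq_mul, mul_one]
  have hW0 : ∀ i ω, 0 ≤ W i ω := by
    intro i ω
    rw [hWcount]
    exact mul_nonneg (hw0 ω) (by positivity)
  have hW1 : ∀ i ω, W i ω ≤ 1 := by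
    intro i ω
    rw [hWcount]
    calc w ω * (((Γ ω).filter (fun τ => T τ ω ∈ A i)).card : ℝ)
        ≤ w ω * ((Γ ω).card : ℝ) := by
          refine mul_le_mul_of_nonneg_left ?_ (hw0 ω)
          exact_mod_cast Finset.card_le_card (Finset.filter_subset _ _)
      _ = 1 := by
          simp only [hw]
          exact inv_mul_cancel₀ (by linarith [hc1 ω])
  have hWint : ∀ i, Integrable (W i) P := by
    intro i
    refine Integrable.of_bound (hWm i).aestronglyMeasurable 1 (Eventually.of_forall (fun ω => ?_))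
    rw [Real.norm_eq_abs, abs_of_nonneg (hW0 i ω)]
    exact hW1 i ω
  -- integral of W i
  have hWmean : ∀ i, ∫ ω, W i ω ∂P = P.real (A i) := by
    intro i
    set g : G → Ω → ℝ := fun τ => Set.indicator {ω | e τ ∈ Γ ω} (fun ω =>
      w ω * Set.indicator (A i) (fun _ => (1:ℝ)) ω) with hg
    have hgm : ∀ τ, Measurable (g τ) := by
      intro τ
      refine Measurable.indicator ?_ (hΓm _)
      exact hwm.mul (measurable_const.indicator (hAm i))
    have hgint : ∀ τ, Integrable (g τ) P := by
      intro τ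
      refine Integrable.of_bound (hgm τ).aestronglyMeasurable 1 (Eventually.of_forall (fun ω => ?_))
      simp only [hg, Set.indicator_apply]
      have a0 := hw0 ω
      have a1 := hw1 ω
      split_ifs <;> simp [abs_of_nonneg a0, a1]
    have hgT : ∀ τ ω, g τ (T τ ω) = Set.indicator {ω | τ ∈ Γ ω} (fun ω =>
        w ω * Set.indicator (T τ ⁻¹' A i) (fun _ => (1:ℝ)) ω) ω := by
      intro τ ω
      simp only [hg, Set.indicator_apply, Set.mem_ofPred_eq, Set.mem_preimage]
      by_cases hτ : τ ∈ Γ ω
      · obtain ⟨b1, b2⟩ := h1 ω τ hτ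
        have b3 : w (T τ ω) = w ω := by simp only [hw, b1]
        rw [if_pos (by rw [b1]; exact b2), if_pos hτ, b3]
      · rw [if_neg (fun hh => hτ (h2 ω τ hh)), if_neg hτ]
    have step1 : ∫ ω, W i ω ∂P = ∑ τ : G, ∫ ω, g τ ω ∂P := by
      simp only [hW]
      rw [integral_finsetSum]
      · refine Finset.sum_congr rfl (fun τ _ => ?_)
        have : (fun ω => Set.indicator {ω | τ ∈ Γ ω} (fun ω =>
            w ω * Set.indicator (T τ ⁻¹' A i) (fun _ => (1:ℝ)) ω) ω) = fun ω => g τ (T τ ω) :=
          funext (fun ω => (hgT τ ω).symm)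
        rw [this]
        have h3 := (integral_map (hT τ).measurable.aemeasurable (μ := P)
          (f := g τ) (by rw [(hT τ).map_eq]; exact (hgm τ).aestronglyMeasurable))
        rw [(hT τ).map_eq] at h3
        exact h3.symm
      · intro τ _
        have : (fun ω => Set.indicator {ω | τ ∈ Γ ω} (fun ω =>
            w ω * Set.indicator (T τ ⁻¹' A i) (fun _ => (1:ℝ)) ω) ω) = (g τ) ∘ (T τ) :=
          funext (fun ω => (hgT τ ω).symm)
        change Integrable (fun ω => Set.indicator {ω | τ ∈ Γ ω} (fun ω =>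
            w ω * Set.indicator (T τ ⁻¹' A i) (fun _ => (1:ℝ)) ω) ω) P
        rw [this]
        exact (hT τ).integrable_comp_of_integrable (hgint τ)
    rw [step1, ← integral_finsetSum _ (fun τ _ => hgint τ)]
    have : ∀ ω, ∑ τ : G, g τ ω = Set.indicator (A i) (fun _ => (1:ℝ)) ω := by
      intro ω
      have e1 : ∑ τ : G, g τ ω = ∑ τ : G, Set.indicator {ω | τ ∈ Γ ω} (fun ω =>
          w ω * Set.indicator (A i) (fun _ => (1:ℝ)) ω) ω := by
        exact Equiv.sum_comp e (fun τ => Set.indicator {ω | τ ∈ Γ ω} (fun ω =>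
          w ω * Set.indicator (A i) (fun _ => (1:ℝ)) ω) ω)
      rw [e1]
      simp only [Set.indicator_apply, Set.mem_ofPred_eq]
      rw [Finset.sum_ite_mem, Finset.univ_inter, Finset.sum_const, nsmul_eq_mul, ← mul_assoc]
      have : ((Γ ω).card : ℝ) * w ω = 1 := by
        simp only [hw]
        exact mul_inv_cancel₀ (by linarith [hc1 ω])
      rw [this, one_mul]
    simp_rw [this]
    rw [integral_indicator_const _ (hAm i)]
    simp
  have hnW : ∀ i, Integrable (fun ω => Real.negMulLog (W i ω)) P := by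
    intro i
    refine Integrable.of_bound (Real.continuous_negMulLog.measurable.comp (hWm i)).aestronglyMeasurable
      1 (Eventually.of_forall (fun ω => ?_))
    rw [Real.norm_eq_abs, abs_of_nonneg (Real.negMulLog_nonneg (hW0 i ω) (hW1 i ω))]
    rw [Real.negMulLog]
    rcases eq_or_lt_of_le (hW0 i ω) with h0 | h0
    · rw [← h0]; simp
    · have h3 : Real.log ((W i ω)⁻¹) ≤ (W i ω)⁻¹ - 1 := Real.log_le_sub_one_of_pos (by positivity)
      rw [Real.log_inv] at h3
      have h4 := mul_le_mul_of_nonneg_left h3 h0.le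
      rw [mul_sub, mul_inv_cancel₀ h0.ne'] at h4
      linarith
  have hjensen : ∀ i, ∫ ω, Real.negMulLog (W i ω) ∂P ≤ Real.negMulLog (P.real (A i)) := by
    intro i
    rw [← hWmean i]
    exact Real.concaveOn_negMulLog.le_map_integral Real.continuous_negMulLog.continuousOn isClosed_Ici
      (Eventually.of_forall (fun ω => hW0 i ω)) (hWint i) (hnW i)
  have hall : ∀ᵐ ω ∂P, ∀ τ, ∃ i, T τ ω ∈ A i := by
    rw [ae_all_iff]
    intro τ
    exact (hT τ).quasiMeasurePreserving.ae hcover
  calc ∫ ω, Real.log (Γ ω).card ∂P = ∫ ω, ∑ i, Real.negMulLog (W i ω) ∂P := by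
        apply integral_congr_ae
        filter_upwards [hall, hinj] with ω hω hi
        have k1 : ∀ i, ((Γ ω).filter (fun τ => T τ ω ∈ A i)).card ≤ 1 := by
          intro i
          rw [Finset.card_le_one]
          intro a ha b hb
          rw [Finset.mem_filter] at ha hb
          exact hi a ha.1 b hb.1 i ha.2 hb.2
        have k2 : ∀ i, Real.negMulLog (W i ω) =
            w ω * Real.log (Γ ω).card * (((Γ ω).filter (fun τ => T τ ω ∈ A i)).card : ℝ) := by
          intro i
          rw [hWcount]
          have hk := k1 i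
          have : ((Γ ω).filter (fun τ => T τ ω ∈ A i)).card = 0 ∨
              ((Γ ω).filter (fun τ => T τ ω ∈ A i)).card = 1 := by omega
          rcases this with h0 | h0
          · rw [h0]; simp
          · rw [h0]
            simp only [Nat.cast_one, mul_one, hw, Real.negMulLog, Real.log_inv]
            ring
        simp_rw [k2]
        rw [← Finset.mul_sum]
        have k3 : ∑ i, (((Γ ω).filter (fun τ => T τ ω ∈ A i)).card : ℝ) = (Γ ω).card := by
          norm_cast
          have k4 : (Γ ω) = Finset.univ.biUnion (fun i => (Γ ω).filter (fun τ => T τ ω ∈ A i)) := by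
            ext τ
            simp only [Finset.mem_biUnion, Finset.mem_univ, true_and, Finset.mem_filter]
            constructor
            · intro hτ
              obtain ⟨i, hi⟩ := hω τ
              exact ⟨i, hτ, hi⟩
            · rintro ⟨i, hτ, -⟩
              exact hτ
          conv_rhs => rw [k4]
          rw [Finset.card_biUnion]
          intro i _ j _ hij
          change Disjoint _ _
          rw [Finset.disjoint_left]
          intro τ h3 h4
          rw [Finset.mem_filter] at h3 h4
          exact (Set.disjoint_left.mp (hdisj i j hij)) h3.2 h4.2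
        rw [k3]
        simp only [hw]
        have := hc1 ω
        field_simp
    _ = ∑ i, ∫ ω, Real.negMulLog (W i ω) ∂P := integral_finsetSum _ (fun i _ => hnW i)
    _ ≤ ∑ i, Real.negMulLog (P.real (A i)) := Finset.sum_le_sum (fun i _ => hjensen i)

end lower

end Pool.Agent.R977.FP
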