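import Pool.Agent.R977.FPSpace

open MeasureTheory ProbabilityTheory Filter Topology
open scoped BigOperators Nat ENNReal

namespace Pool.Agent.R977.FP

set_option linter.unusedSectionVars false

/-! ### numbers -/

lemma factorial_line (m N : ℕ) :
    Real.log (m !) + ((N : ℝ) - m) * Real.log m ≤ Real.log (N !) := by
  rcases Nat.eq_zero_or_pos m with rfl | hm
  · simp only [Nat.factorial_zero, Nat.cast_one, Real.log_one, CharP.cast_eq_zero, Real.log_zero,
      mul_zero, add_zero]
    exact Real.log_nonneg (by exact_mod_cast Nat.factorial_pos N)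
  have hmpos : (0:ℝ) < m := by exact_mod_cast hm
  have hmf : (0:ℝ) < (m ! : ℝ) := by exact_mod_cast Nat.factorial_pos m
  have hNf : (0:ℝ) < (N ! : ℝ) := by exact_mod_cast Nat.factorial_pos N
  rcases le_total m N with h | h
  · have h1 : ((m ! * m ^ (N - m) : ℕ) : ℝ) ≤ (N ! : ℝ) := by
      exact_mod_cast Nat.factorial_mul_pow_sub_le_factorial h
    have h2 := Real.log_le_log (by positivity) h1
    push_cast at h2
    rw [Real.log_mul hmf.ne' (by positivity), Real.log_pow, Nat.cast_sub h] at h2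
    exact h2
  · have h1 : (m ! : ℝ) ≤ ((N ! * m ^ (m - N) : ℕ) : ℝ) := by
      have h3 := Nat.factorial_mul_descFactorial (Nat.sub_le m N)
      rw [Nat.sub_sub_self h] at h3
      have h4 := Nat.descFactorial_le_pow m (m - N)
      have : m ! ≤ N ! * m ^ (m - N) := by
        rw [← h3]; exact Nat.mul_le_mul_left _ h4
      exact_mod_cast this
    have h2 := Real.log_le_log (by positivity) h1
    push_cast at h2
    rw [Real.log_mul hNf.ne' (by positivity), Real.log_pow, Nat.cast_sub h] at h2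
    linarith

lemma log_stabilizer_ge {n M : ℕ} (m : ℕ) (f : Fin n → Fin M ⊕ Fin n) (bad : ℝ)
    (hbad : (n : ℝ) ≤ bad + ∑ c : Fin M, (Fintype.card {a // f a = Sum.inl c} : ℝ))
    (hm : 1 ≤ m) (hn : n = m * M) :
    M * Real.log (m !) - bad * Real.log m ≤
      Real.log (Fintype.card {g : Equiv.Perm (Fin n) // f ∘ g = f}) := by
  rw [DomMulAct.stabilizer_card, Nat.cast_prod,
    Real.log_prod (fun c _ => by exact_mod_cast (Nat.factorial_pos _).ne')]
  rw [Fintype.sum_sum_type]
  have h1 : 0 ≤ ∑ q : Fin n, Real.log ((Fintype.card {a // f a = Sum.inr q})! : ℝ) :=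
    Finset.sum_nonneg (fun q _ => Real.log_nonneg (by exact_mod_cast Nat.factorial_pos _))
  have h2 : ∑ c : Fin M, (Real.log (m !) + ((Fintype.card {a // f a = Sum.inl c} : ℝ) - m) * Real.log m)
      ≤ ∑ c : Fin M, Real.log ((Fintype.card {a // f a = Sum.inl c})! : ℝ) :=
    Finset.sum_le_sum (fun c _ => factorial_line m _)
  rw [Finset.sum_add_distrib, ← Finset.sum_mul, Finset.sum_sub_distrib] at h2
  simp only [Finset.sum_const, Finset.card_univ, Fintype.card_fin, nsmul_eq_mul] at h2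
  have h3 := hbad
  have h4 : (n : ℝ) = m * M := by exact_mod_cast hn
  have h5 : 0 ≤ Real.log m := Real.log_nonneg (by exact_mod_cast hm)
  nlinarith [mul_le_mul_of_nonneg_right h3 h5]

variable {N : ℕ} [NeZero N]

/-! ### permuting the half digits of level `k` -/

/-- the action of the permutation `τ` on the sample space -/
def Tk {n : ℕ} (k : ℕ) (τ : Equiv.Perm (Fin n)) (ω : Samp N n) : Samp N n :=
  fun i => if i.2 = (k, true) then ω (τ i.1, i.2) else ω i

/-- the permutation of the coordinates -/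
def ek {n : ℕ} (k : ℕ) (τ : Equiv.Perm (Fin n)) : Equiv.Perm (Fin n × (ℕ × Bool)) where
  toFun i := if i.2 = (k, true) then (τ i.1, i.2) else i
  invFun i := if i.2 = (k, true) then (τ.symm i.1, i.2) else i
  left_inv i := by
    obtain ⟨p, j⟩ := i
    by_cases h : j = (k, true) <;> simp [h]
  right_inv i := by
    obtain ⟨p, j⟩ := i
    by_cases h : j = (k, true) <;> simp [h]

lemma measurePreserving_comp_perm {ι : Type*} (e : Equiv.Perm ι) :
    MeasurePreserving (fun (ω : ι → Fin N) i => ω (e i)) (Measure.infinitePi (fun _ : ι => unif N))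
      (Measure.infinitePi (fun _ : ι => unif N)) := by
  have hm : Measurable (fun (ω : ι → Fin N) i => ω (e i)) :=
    measurable_pi_lambda _ (fun i => measurable_pi_apply _)
  refine ⟨hm, ?_⟩
  refine Measure.eq_infinitePi _ (fun s t ht => ?_)
  rw [Measure.map_apply hm (MeasurableSet.pi s.countable_toSet (fun i _ => ht i))]
  have : (fun (ω : ι → Fin N) i => ω (e i)) ⁻¹' (Set.pi (s : Set ι) t) =
      Set.pi ((s.map e.toEmbedding : Finset ι) : Set ι) (fun i => t (e.symm i)) := by
    ext ω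
    simp only [Set.mem_preimage, Set.mem_pi, Finset.mem_coe, Finset.mem_map_equiv]
    constructor
    · intro h i hi
      have := h (e.symm i) hi
      simpa using this
    · intro h i hi
      have := h (e i) (by simpa using hi)
      simpa using this
  rw [this, Measure.infinitePi_pi _ (fun i _ => ht _), Finset.prod_map]
  simp

lemma measurePreserving_Tk {n : ℕ} (k : ℕ) (τ : Equiv.Perm (Fin n)) :
    MeasurePreserving (Tk (N := N) k τ) (PP N n) (PP N n) := by
  have h := measurePreserving_comp_perm (N := N) (ek k τ)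
  have : (fun (ω : Samp N n) i => ω (ek k τ i)) = Tk k τ := by
    funext ω i
    simp only [ek, Tk, Equiv.coe_fn_mk]
    split_ifs <;> rfl
  rw [this] at h
  exact h

lemma Tk_inv {n : ℕ} (k : ℕ) (τ : Equiv.Perm (Fin n)) (ω : Samp N n) :
    Tk k τ⁻¹ (Tk k τ ω) = ω := by
  funext i
  obtain ⟨p, j⟩ := i
  simp only [Tk]
  by_cases h : j = (k, true)
  · simp [h]
  · simp [h]

lemma Tk_true {n : ℕ} (k : ℕ) (τ : Equiv.Perm (Fin n)) (ω : Samp N n) (p : Fin n) :
    Tk k τ ω (p, (k, true)) = ω (τ p, (k, true)) := by simp [Tk]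

lemma Tk_other {n : ℕ} (k : ℕ) (τ : Equiv.Perm (Fin n)) (ω : Samp N n) (p : Fin n) (j : ℕ × Bool)
    (hj : j ≠ (k, true)) : Tk k τ ω (p, j) = ω (p, j) := by simp [Tk, hj]

lemma cx_Tk {n : ℕ} (k : ℕ) (τ : Equiv.Perm (Fin n)) (ω : Samp N n) (p : Fin n) :
    cnum (dx (pt (Tk k τ ω) p)) k = cnum (dx (pt ω p)) k := by
  rw [cx_eq_iff]
  intro j hj
  have h1 : (j, false) ≠ (k, true) := by simp
  have h2 : (j, true) ≠ (k, true) := by
    intro h
    have := congrArg Prod.fst h
    simp only at this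
    omega
  exact ⟨Tk_other k τ ω p _ h1, Tk_other k τ ω p _ h2⟩

/-- `p` is good when no other point of its cell of level `k` shares one of its two half-digits of
level `k` -/
def good {n : ℕ} (k : ℕ) (ω : Samp N n) (p : Fin n) : Prop :=
  ∀ q, q ≠ p → cnum (dx (pt ω q)) k = cnum (dx (pt ω p)) k →
    ω (q, (k, false)) ≠ ω (p, (k, false)) ∧ ω (q, (k, true)) ≠ ω (p, (k, true))

open Classical in
/-- the label: the cell for good points, the point itself for bad points -/
noncomputable def lab {n : ℕ} (k : ℕ) (ω : Samp N n) (p : Fin n) : Fin ((N * N) ^ k) ⊕ Fin n :=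
  if good k ω p then Sum.inl ⟨cnum (dx (pt ω p)) k, cnum_lt _ _⟩ else Sum.inr p

lemma lab_inl {n : ℕ} {k : ℕ} {ω : Samp N n} {p : Fin n} (h : good k ω p) :
    lab k ω p = Sum.inl ⟨cnum (dx (pt ω p)) k, cnum_lt _ _⟩ := by rw [lab, if_pos h]

lemma lab_inr {n : ℕ} {k : ℕ} {ω : Samp N n} {p : Fin n} (h : ¬ good k ω p) :
    lab k ω p = Sum.inr p := by rw [lab, if_neg h]

open Classical in
/-- the partial symmetries -/
noncomputable def Gam {n : ℕ} (k : ℕ) (ω : Samp N n) : Finset (Equiv.Perm (Fin n)) :=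
  Finset.univ.filter (fun τ => ∀ p, lab k ω (τ p) = lab k ω p)

lemma mem_Gam {n : ℕ} {k : ℕ} {ω : Samp N n} {τ : Equiv.Perm (Fin n)} :
    τ ∈ Gam k ω ↔ ∀ p, lab k ω (τ p) = lab k ω p := by simp [Gam]

lemma one_mem_Gam {n : ℕ} (k : ℕ) (ω : Samp N n) : 1 ∈ Gam k ω := by
  rw [mem_Gam]; intro p; rfl

lemma inv_mem_Gam {n : ℕ} {k : ℕ} {ω : Samp N n} {τ : Equiv.Perm (Fin n)} (h : τ ∈ Gam k ω) :
    τ⁻¹ ∈ Gam k ω := by
  rw [mem_Gam] at h ⊢
  intro p
  have := h (τ⁻¹ p)
  simpa using this.symm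

lemma mul_mem_Gam {n : ℕ} {k : ℕ} {ω : Samp N n} {τ τ' : Equiv.Perm (Fin n)} (h : τ ∈ Gam k ω)
    (h' : τ' ∈ Gam k ω) : τ * τ' ∈ Gam k ω := by
  rw [mem_Gam] at h h' ⊢
  intro p
  rw [Equiv.Perm.mul_apply, h, h']

lemma Gam_bad {n : ℕ} {k : ℕ} {ω : Samp N n} {τ : Equiv.Perm (Fin n)} (h : τ ∈ Gam k ω) {p : Fin n}
    (hp : ¬ good k ω p) : τ p = p := by
  have h1 := mem_Gam.mp h p
  rw [lab_inr hp] at h1
  by_cases h2 : good k ω (τ p)
  · rw [lab_inl h2] at h1
    exact absurd h1 (by simp)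
  · rw [lab_inr h2] at h1
    exact Sum.inr_injective h1

lemma Gam_good {n : ℕ} {k : ℕ} {ω : Samp N n} {τ : Equiv.Perm (Fin n)} (h : τ ∈ Gam k ω) {p : Fin n}
    (hp : good k ω p) : good k ω (τ p) := by
  have h1 := mem_Gam.mp h p
  by_contra h2
  rw [lab_inl hp, lab_inr h2] at h1
  exact absurd h1 (by simp)

lemma Gam_cell {n : ℕ} {k : ℕ} {ω : Samp N n} {τ : Equiv.Perm (Fin n)} (h : τ ∈ Gam k ω) (p : Fin n) :
    cnum (dx (pt ω (τ p))) k = cnum (dx (pt ω p)) k := by
  by_cases hp : good k ω p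
  · have h1 := mem_Gam.mp h p
    rw [lab_inl hp, lab_inl (Gam_good h hp)] at h1
    have h2 := Sum.inl_injective h1
    exact congrArg (fun t : Fin _ => (t : ℕ)) h2
  · rw [Gam_bad h hp]

lemma good_Tk {n : ℕ} {k : ℕ} {ω : Samp N n} {τ : Equiv.Perm (Fin n)} (h : τ ∈ Gam k ω) (p : Fin n) :
    good k (Tk k τ ω) p ↔ good k ω p := by
  constructor
  · intro hg
    by_contra hb
    have hb' := hb
    unfold good at hb'
    push Not at hb'
    obtain ⟨q, hqp, hcell, hor⟩ := hb'
    have hg' := hg q hqp (by rw [cx_Tk, cx_Tk]; exact hcell)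
    rw [Tk_other k τ ω q _ (by simp), Tk_other k τ ω p _ (by simp), Tk_true, Tk_true,
      Gam_bad h hb] at hg'
    have hv := hor hg'.1
    have hqb : ¬ good k ω q := by
      intro hgq
      exact (hgq p (Ne.symm hqp) hcell.symm).2 hv.symm
    rw [Gam_bad h hqb] at hg'
    exact hg'.2 hv
  · intro hg q hqp hcell
    rw [cx_Tk, cx_Tk] at hcell
    rw [Tk_other k τ ω q _ (by simp), Tk_other k τ ω p _ (by simp), Tk_true, Tk_true]
    refine ⟨(hg q hqp hcell).1, ?_⟩
    refine (Gam_good h hg (τ q) (fun hh => hqp (τ.injective hh)) ?_).2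
    rw [Gam_cell h, Gam_cell h, hcell]

lemma lab_Tk {n : ℕ} {k : ℕ} {ω : Samp N n} {τ : Equiv.Perm (Fin n)} (h : τ ∈ Gam k ω) (p : Fin n) :
    lab k (Tk k τ ω) p = lab k ω p := by
  by_cases hp : good k ω p
  · rw [lab_inl hp, lab_inl ((good_Tk h p).mpr hp)]
    congr 1
    exact Fin.ext (cx_Tk k τ ω p)
  · rw [lab_inr hp, lab_inr (fun hh => hp ((good_Tk h p).mp hh))]

lemma Gam_Tk {n : ℕ} {k : ℕ} {ω : Samp N n} {τ : Equiv.Perm (Fin n)} (h : τ ∈ Gam k ω) :
    Gam k (Tk k τ ω) = Gam k ω := by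
  ext τ'
  rw [mem_Gam, mem_Gam]
  simp_rw [lab_Tk h]

lemma Gam_of_inv {n : ℕ} {k : ℕ} {ω : Samp N n} {τ : Equiv.Perm (Fin n)}
    (h : τ⁻¹ ∈ Gam k (Tk k τ ω)) : τ ∈ Gam k ω := by
  have h1 := Gam_Tk h
  rw [Tk_inv] at h1
  rw [h1]
  have := inv_mem_Gam h
  simpa using this

/-! ### orders of the coordinates -/

lemma X_lt_iff {a a' : HD N} {k : ℕ} (hc : cnum (dx a) k = cnum (dx a') k)
    (hu : a (k, false) ≠ a' (k, false)) (hne : X a ≠ X a') :
    X a < X a' ↔ a (k, false) < a' (k, false) := by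
  have hb : 0 < N * N := by have := NeZero.pos N; positivity
  have hlt : ∀ a a' : HD N, cnum (dx a) k = cnum (dx a') k → a (k, false) < a' (k, false) →
      cnum (dx a) (k+1) < cnum (dx a') (k+1) := by
    intro a a' hc h
    simp only [cnum]
    rw [hc]
    have := Fin.lt_def.mp (dx_lt_of_lt h)
    omega
  rcases lt_or_gt_of_ne hu with h | h
  · have h1 := hlt a a' hc h
    simp only [h, iff_true]
    exact (lt_iff_cnum_lt hb hne h1.ne).mpr h1
  · have h1 := hlt a' a hc.symm h
    simp only [not_lt.mpr h.le, iff_false, not_lt]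
    exact le_of_cnum_lt hb h1

lemma Y_lt_iff {a a' : HD N} {k : ℕ} (hc : cnum (dx a) k = cnum (dx a') k)
    (hu : a (k, true) ≠ a' (k, true)) (hne : Y a ≠ Y a') :
    Y a < Y a' ↔ a (k, true) < a' (k, true) := by
  have hb : 0 < N * N := by have := NeZero.pos N; positivity
  have hc' : cnum (dy a) k = cnum (dy a') k := cy_eq_iff_cx.mpr hc
  have hlt : ∀ a a' : HD N, cnum (dy a) k = cnum (dy a') k → a (k, true) < a' (k, true) →
      cnum (dy a) (k+1) < cnum (dy a') (k+1) := by
    intro a a' hc h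
    simp only [cnum]
    rw [hc]
    have := Fin.lt_def.mp (dy_lt_of_lt h)
    omega
  rcases lt_or_gt_of_ne hu with h | h
  · have h1 := hlt a a' hc' h
    simp only [h, iff_true]
    exact (lt_iff_cnum_lt hb hne h1.ne).mpr h1
  · have h1 := hlt a' a hc'.symm h
    simp only [not_lt.mpr h.le, iff_false, not_lt]
    exact le_of_cnum_lt hb h1

lemma pt_Tk_bad {n : ℕ} {k : ℕ} {ω : Samp N n} {τ : Equiv.Perm (Fin n)} (h : τ ∈ Gam k ω) {p : Fin n}
    (hp : ¬ good k ω p) : pt (Tk k τ ω) p = pt ω p := by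
  funext j
  simp only [pt, Tk]
  split_ifs with hj
  · rw [Gam_bad h hp]
  · rfl

/-- the order of the first coordinates does not change -/
lemma X_order {n : ℕ} {k : ℕ} {ω : Samp N n} {τ : Equiv.Perm (Fin n)} (h : τ ∈ Gam k ω)
    (hnt : ∀ p q : Fin n, p ≠ q → X (pt ω p) ≠ X (pt ω q))
    (hnt' : ∀ p q : Fin n, p ≠ q → X (pt (Tk k τ ω) p) ≠ X (pt (Tk k τ ω) q)) (p q : Fin n) :
    X (pt (Tk k τ ω) p) < X (pt (Tk k τ ω) q) ↔ X (pt ω p) < X (pt ω q) := by
  have hb : 0 < N * N := by have := NeZero.pos N; positivity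
  by_cases hpq : p = q
  · subst hpq; simp
  by_cases hc : cnum (dx (pt ω p)) k = cnum (dx (pt ω q)) k
  · by_cases hbad : good k ω p ∨ good k ω q
    · have hu : ω (p, (k, false)) ≠ ω (q, (k, false)) := by
        rcases hbad with hg | hg
        · exact Ne.symm (hg q (Ne.symm hpq) hc.symm).1
        · exact (hg p hpq hc).1
      rw [X_lt_iff (k := k) hc hu (hnt p q hpq)]
      rw [X_lt_iff (k := k) (by rw [cx_Tk, cx_Tk]; exact hc) (by
        simp only [pt]
        rw [Tk_other k τ ω p _ (by simp), Tk_other k τ ω q _ (by simp)]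
        exact hu) (hnt' p q hpq)]
      simp only [pt]
      rw [Tk_other k τ ω p _ (by simp), Tk_other k τ ω q _ (by simp)]
    · push Not at hbad
      rw [pt_Tk_bad h hbad.1, pt_Tk_bad h hbad.2]
  · have h4 : X (pt ω p) < X (pt ω q) ↔ _ := lt_iff_cnum_lt (K := k) hb (hnt p q hpq) hc
    rw [h4]
    have e1 := cx_Tk k τ ω p
    have e2 := cx_Tk k τ ω q
    have h3 : X (pt (Tk k τ ω) p) < X (pt (Tk k τ ω) q) ↔ _ :=
      lt_iff_cnum_lt (K := k) hb (hnt' p q hpq) (by rw [e1, e2]; exact hc)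
    rw [e1, e2] at h3
    exact h3

/-- the patterns of `Tk k τ ω`, `τ ∈ Gam k ω` are different -/
lemma Gam_inj {n : ℕ} {k : ℕ} {ω : Samp N n}
    (hnt : ∀ τ : Equiv.Perm (Fin n), ∀ p q : Fin n, p ≠ q →
      X (pt (Tk k τ ω) p) ≠ X (pt (Tk k τ ω) q) ∧ Y (pt (Tk k τ ω) p) ≠ Y (pt (Tk k τ ω) q))
    {τ τ' : Equiv.Perm (Fin n)} (h : τ ∈ Gam k ω) (h' : τ' ∈ Gam k ω) {π : Equiv.Perm (Fin n)}
    (hπ : zz (Tk k τ ω) ∈ patternEvent n π) (hπ' : zz (Tk k τ' ω) ∈ patternEvent n π) : τ = τ' := by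
  classical
  have hnt1 : ∀ p q : Fin n, p ≠ q → X (pt ω p) ≠ X (pt ω q) := by
    intro p q hpq
    have := (hnt 1 p q hpq).1
    have e : Tk (N := N) k (1 : Equiv.Perm (Fin n)) ω = ω := by
      funext i; simp [Tk]
    rwa [e] at this
  obtain ⟨ρ, h1, h2⟩ := hπ
  obtain ⟨ρ', h1', h2'⟩ := hπ'
  have hs : StrictMono (fun a => X (pt ω (ρ a))) := by
    intro a b hab
    exact (X_order h hnt1 (fun p q hpq => (hnt τ p q hpq).1) _ _).mp (h1 hab)
  have hs' : StrictMono (fun a => X (pt ω (ρ' a))) := by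
    intro a b hab
    exact (X_order h' hnt1 (fun p q hpq => (hnt τ' p q hpq).1) _ _).mp (h1' hab)
  have hρ : ρ = ρ' := perm_eq_of_strictMono_comp (x := fun p => X (pt ω p)) hs hs'
  subst hρ
  have hY : ∀ p q : Fin n, Y (pt (Tk k τ ω) p) < Y (pt (Tk k τ ω) q) ↔
      Y (pt (Tk k τ' ω) p) < Y (pt (Tk k τ' ω) q) := by
    intro p q
    have e1 := h2 (ρ⁻¹ p) (ρ⁻¹ q)
    have e2 := h2' (ρ⁻¹ p) (ρ⁻¹ q)
    have e3 := e1.trans e2.symm
    simpa [zz] using e3
  -- order of the half digits
  have hv : ∀ p q : Fin n, good k ω p → good k ω q → p ≠ q →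
      cnum (dx (pt ω p)) k = cnum (dx (pt ω q)) k →
      (ω (τ p, (k, true)) < ω (τ q, (k, true)) ↔ ω (τ' p, (k, true)) < ω (τ' q, (k, true))) := by
    intro p q hp hq hpq hc
    have a1 : ∀ σ ∈ Gam k ω, (Y (pt (Tk k σ ω) p) < Y (pt (Tk k σ ω) q) ↔
        ω (σ p, (k, true)) < ω (σ q, (k, true))) := by
      intro σ hσ
      have hne : ω (σ p, (k, true)) ≠ ω (σ q, (k, true)) := by
        refine (Gam_good hσ hq (σ p) (fun hh => hpq (σ.injective hh)) ?_).2
        rw [Gam_cell hσ, Gam_cell hσ, hc]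
      rw [Y_lt_iff (k := k) (by rw [cx_Tk, cx_Tk]; exact hc) (by
        simp only [pt]
        rw [Tk_true, Tk_true]
        exact hne) (hnt σ p q hpq).2]
      simp only [pt]
      rw [Tk_true, Tk_true]
    rw [← a1 τ h, ← a1 τ' h']
    exact hY p q
  -- the quotient
  set σ := τ' * τ⁻¹ with hσdef
  have hσ : σ ∈ Gam k ω := mul_mem_Gam h' (inv_mem_Gam h)
  have hσv : ∀ p q : Fin n, good k ω p → good k ω q → p ≠ q →
      cnum (dx (pt ω p)) k = cnum (dx (pt ω q)) k →
      (ω (p, (k, true)) < ω (q, (k, true)) ↔ ω (σ p, (k, true)) < ω (σ q, (k, true))) := by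
    intro p q hp hq hpq hc
    have hi := inv_mem_Gam h
    have := hv (τ⁻¹ p) (τ⁻¹ q) (Gam_good hi hp) (Gam_good hi hq)
      (fun hh => hpq (τ⁻¹.injective hh)) (by rw [Gam_cell hi, Gam_cell hi, hc])
    simpa [hσdef] using this
  by_contra hne
  have hex : (Finset.univ.filter (fun p => σ p ≠ p)).Nonempty := by
    by_contra hcon
    rw [Finset.not_nonempty_iff_eq_empty] at hcon
    apply hne
    have hσ1 : σ = 1 := by
      ext p
      by_contra hp
      have : p ∈ Finset.univ.filter (fun p => σ p ≠ p) := by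
        simp only [Finset.mem_filter, Finset.mem_univ, true_and]
        intro hh
        exact hp (by rw [hh]; rfl)
      rw [hcon] at this
      exact absurd this (Finset.notMem_empty _)
    rw [hσdef] at hσ1
    exact (mul_inv_eq_one.mp hσ1).symm
  obtain ⟨p, hp, hmin⟩ := Finset.exists_min_image _ (fun p => ω (p, (k, true))) hex
  simp only [Finset.mem_filter, Finset.mem_univ, true_and] at hp hmin
  have hpg : good k ω p := by
    by_contra hb
    exact hp (Gam_bad hσ hb)
  have hσi := inv_mem_Gam hσ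
  have hq1 : σ (σ p) ≠ σ p := fun hh => hp (σ.injective hh)
  have hr : σ⁻¹ p ≠ p := by
    intro hh
    apply hp
    have := congrArg σ hh
    simpa using this.symm
  have hr1 : σ (σ⁻¹ p) ≠ σ⁻¹ p := by
    simpa using hr.symm
  have hlt1 : ω (p, (k, true)) < ω (σ p, (k, true)) := by
    refine lt_of_le_of_ne (hmin _ hq1) ?_
    exact Ne.symm (hpg (σ p) hp (Gam_cell hσ p)).2
  have hlt2 : ω (p, (k, true)) < ω (σ⁻¹ p, (k, true)) := by
    refine lt_of_le_of_ne (hmin _ hr1) ?_
    exact Ne.symm (hpg (σ⁻¹ p) hr (Gam_cell hσi p)).2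
  have h5 := (hσv p (σ⁻¹ p) hpg (Gam_good hσi hpg) (Ne.symm hr) (Gam_cell hσi p).symm).mp hlt2
  have e6 : σ (σ⁻¹ p) = p := by simp
  rw [e6] at h5
  exact absurd hlt1 (not_lt.mpr h5.le)

/-! ### measurability -/

lemma measurableSet_good {n : ℕ} (k : ℕ) (p : Fin n) : MeasurableSet {ω : Samp N n | good k ω p} := by
  have : {ω : Samp N n | good k ω p} = ⋂ q : Fin n, {ω : Samp N n | q ≠ p →
      cnum (dx (pt ω q)) k = cnum (dx (pt ω p)) k →
      ω (q, (k, false)) ≠ ω (p, (k, false)) ∧ ω (q, (k, true)) ≠ ω (p, (k, true))} := by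
    ext ω; simp [good]
  rw [this]
  refine MeasurableSet.iInter (fun q => ?_)
  by_cases hq : q = p
  · simp [hq]
  · simp only [ne_eq, hq, not_false_eq_true, forall_const]
    have h1 : MeasurableSet {ω : Samp N n | cnum (dx (pt ω q)) k = cnum (dx (pt ω p)) k} :=
      measurableSet_eq_fun ((measurable_cx k).comp (measurable_pt q))
        ((measurable_cx k).comp (measurable_pt p))
    have h2 : ∀ b, MeasurableSet {ω : Samp N n | ω (q, (k, b)) = ω (p, (k, b))} := fun b =>
      measurableSet_eq_fun (measurable_pi_apply _) (measurable_pi_apply _)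
    have : {ω : Samp N n | cnum (dx (pt ω q)) k = cnum (dx (pt ω p)) k →
        ¬ ω (q, (k, false)) = ω (p, (k, false)) ∧ ¬ ω (q, (k, true)) = ω (p, (k, true))} =
        {ω : Samp N n | cnum (dx (pt ω q)) k = cnum (dx (pt ω p)) k}ᶜ ∪
        ({ω : Samp N n | ω (q, (k, false)) = ω (p, (k, false))}ᶜ ∩
         {ω : Samp N n | ω (q, (k, true)) = ω (p, (k, true))}ᶜ) := by
      ext ω
      simp only [Set.mem_ofPred_eq, Set.mem_union, Set.mem_compl_iff, Set.mem_inter_iff]
      tauto
    rw [this]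
    exact h1.compl.union ((h2 false).compl.inter (h2 true).compl)

lemma measurableSet_lab {n : ℕ} (k : ℕ) (p : Fin n) (s : Fin ((N * N) ^ k) ⊕ Fin n) :
    MeasurableSet {ω : Samp N n | lab k ω p = s} := by
  rcases s with c | q
  · have : {ω : Samp N n | lab k ω p = Sum.inl c} =
        {ω | good k ω p} ∩ {ω | cnum (dx (pt ω p)) k = (c : ℕ)} := by
      ext ω
      simp only [Set.mem_ofPred_eq, Set.mem_inter_iff]
      by_cases hg : good k ω p
      · rw [lab_inl hg]
        simp [hg, Fin.ext_iff]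
      · rw [lab_inr hg]
        simp [hg]
    rw [this]
    exact (measurableSet_good k p).inter
      (measurableSet_eq_fun ((measurable_cx k).comp (measurable_pt p)) measurable_const)
  · have : {ω : Samp N n | lab k ω p = Sum.inr q} =
        {ω | good k ω p}ᶜ ∩ {ω | p = q} := by
      ext ω
      simp only [Set.mem_ofPred_eq, Set.mem_inter_iff, Set.mem_compl_iff]
      by_cases hg : good k ω p
      · rw [lab_inl hg]
        simp [hg]
      · rw [lab_inr hg]
        simp [hg]
    rw [this]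
    exact (measurableSet_good k p).compl.inter (MeasurableSet.const _)

lemma measurableSet_Gam {n : ℕ} (k : ℕ) (τ : Equiv.Perm (Fin n)) :
    MeasurableSet {ω : Samp N n | τ ∈ Gam k ω} := by
  have : {ω : Samp N n | τ ∈ Gam k ω} = ⋂ p : Fin n, ⋃ s : Fin ((N * N) ^ k) ⊕ Fin n,
      ({ω : Samp N n | lab k ω (τ p) = s} ∩ {ω : Samp N n | lab k ω p = s}) := by
    ext ω
    simp only [Set.mem_ofPred_eq, mem_Gam, Set.mem_iInter, Set.mem_iUnion, Set.mem_inter_iff]
    constructor
    · intro h p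
      exact ⟨lab k ω p, h p, rfl⟩
    · intro h p
      obtain ⟨s, h1, h2⟩ := h p
      rw [h1, h2]
  rw [this]
  exact MeasurableSet.iInter (fun p => MeasurableSet.iUnion (fun s =>
    (measurableSet_lab k _ s).inter (measurableSet_lab k _ s)))

/-! ### the lower bound -/

/-- indicator of a coincidence -/
noncomputable def coin {n : ℕ} (k : ℕ) (b : Bool) (p q : Fin n) : Samp N n → ℝ :=
  Set.indicator {ω : Samp N n | p ≠ q ∧ (cnum (dx (pt ω p)) k = cnum (dx (pt ω q)) k ∧
    ω (p, (k, b)) = ω (q, (k, b)))} (fun _ => (1:ℝ))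

lemma measurableSet_coin {n : ℕ} (k : ℕ) (b : Bool) (p q : Fin n) :
    MeasurableSet {ω : Samp N n | p ≠ q ∧ (cnum (dx (pt ω p)) k = cnum (dx (pt ω q)) k ∧
      ω (p, (k, b)) = ω (q, (k, b)))} := by
  refine (MeasurableSet.const _).inter (MeasurableSet.inter ?_ ?_)
  · exact measurableSet_eq_fun ((measurable_cx k).comp (measurable_pt p))
        ((measurable_cx k).comp (measurable_pt q))
  · exact measurableSet_eq_fun (measurable_pi_apply _) (measurable_pi_apply _)

lemma integrable_coin {n : ℕ} (k : ℕ) (b : Bool) (p q : Fin n) :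
    Integrable (coin (N := N) k b p q) (PP N n) :=
  (integrable_const (1:ℝ)).indicator (measurableSet_coin k b p q)

lemma integral_coin_le {n : ℕ} (k : ℕ) (b : Bool) (p q : Fin n) :
    ∫ ω, coin (N := N) k b p q ω ∂(PP N n) ≤ (((N * N : ℕ) : ℝ) ^ k * N)⁻¹ := by
  unfold coin
  rw [integral_indicator_const _ (measurableSet_coin k b p q)]
  simp only [smul_eq_mul, mul_one]
  by_cases hpq : p = q
  · have : {ω : Samp N n | p ≠ q ∧ (cnum (dx (pt ω p)) k = cnum (dx (pt ω q)) k ∧
      ω (p, (k, b)) = ω (q, (k, b)))} = ∅ := by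
      ext ω; simp [hpq]
    rw [this]
    simp only [measureReal_empty]
    positivity
  · simp only [ne_eq, hpq, not_false_eq_true, true_and]
    exact same_cell_and hpq k b

lemma coin_nonneg {n : ℕ} (k : ℕ) (b : Bool) (p q : Fin n) (ω : Samp N n) : 0 ≤ coin k b p q ω := by
  unfold coin
  exact Set.indicator_nonneg (fun _ _ => zero_le_one) ω

lemma hbad_aux {n : ℕ} (k : ℕ) (ω : Samp N n) :
    (n : ℝ) ≤ (∑ p : Fin n, ∑ q : Fin n, (coin k false p q ω + coin k true p q ω)) +
      ∑ c : Fin ((N * N) ^ k), (Fintype.card {a // lab k ω a = Sum.inl c} : ℝ) := by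
  classical
  have h1 : ∑ c : Fin ((N * N) ^ k), (Fintype.card {a // lab k ω a = Sum.inl c} : ℝ) =
      ∑ p : Fin n, if good k ω p then (1:ℝ) else 0 := by
    have e1 : ∀ c : Fin ((N * N) ^ k), (Fintype.card {a // lab k ω a = Sum.inl c} : ℝ) =
        ∑ p : Fin n, if lab k ω p = Sum.inl c then (1:ℝ) else 0 := by
      intro c
      rw [Fintype.card_subtype, ← Finset.sum_filter, Finset.sum_const, nsmul_eq_mul, mul_one]
    simp_rw [e1]
    rw [Finset.sum_comm]
    refine Finset.sum_congr rfl (fun p _ => ?_)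
    by_cases hg : good k ω p
    · rw [lab_inl hg, if_pos hg]
      rw [Finset.sum_eq_single (⟨cnum (dx (pt ω p)) k, cnum_lt _ _⟩ : Fin ((N * N) ^ k))]
      · simp
      · intro c _ hc
        rw [if_neg]
        intro hh
        exact hc (Sum.inl_injective hh).symm
      · simp
    · rw [lab_inr hg, if_neg hg]
      simp
  rw [h1, ← Finset.sum_add_distrib]
  calc (n : ℝ) = ∑ p : Fin n, (1:ℝ) := by simp
    _ ≤ _ := by
      refine Finset.sum_le_sum (fun p _ => ?_)
      have hnn : 0 ≤ ∑ q : Fin n, (coin k false p q ω + coin k true p q ω) :=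
        Finset.sum_nonneg (fun q _ => add_nonneg (coin_nonneg _ _ _ _ _) (coin_nonneg _ _ _ _ _))
      by_cases hg : good k ω p
      · rw [if_pos hg]
        linarith
      · rw [if_neg hg, add_zero]
        have hb' := hg
        unfold good at hb'
        push Not at hb'
        obtain ⟨q, hqp, hcell, hor⟩ := hb'
        have h2 : (1:ℝ) ≤ coin k false p q ω + coin k true p q ω := by
          by_cases hu : ω (q, (k, false)) = ω (p, (k, false))
          · have : coin k false p q ω = 1 := by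
              unfold coin
              rw [Set.indicator_of_mem]
              exact ⟨Ne.symm hqp, hcell.symm, hu.symm⟩
            rw [this]
            linarith [coin_nonneg k true p q ω]
          · have hv := hor hu
            have : coin k true p q ω = 1 := by
              unfold coin
              rw [Set.indicator_of_mem]
              exact ⟨Ne.symm hqp, hcell.symm, hv.symm⟩
            rw [this]
            linarith [coin_nonneg k false p q ω]
        refine h2.trans ?_
        exact Finset.single_le_sum (f := fun q => coin k false p q ω + coin k true p q ω)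
          (fun q _ => add_nonneg (coin_nonneg _ _ _ _ _) (coin_nonneg _ _ _ _ _)) (Finset.mem_univ q)

/-- Lower bound for the sampling entropy. -/
theorem entropy_ge (hN : 1 < N) (m k n : ℕ) (hm : 1 ≤ m) (hn : n = m * (N * N) ^ k) :
    ((N * N : ℕ) : ℝ) ^ k * Real.log (m !) -
      (n : ℝ) ^ 2 * (2 * (((N * N : ℕ) : ℝ) ^ k * N)⁻¹) * Real.log m ≤ samplingEntropy (mu N) n := by
  classical
  have hlogm : 0 ≤ Real.log m := Real.log_nonneg (by exact_mod_cast hm)
  rw [entropy_eq]
  have key := entropy_lower (PP N n) (ι := Equiv.Perm (Fin n)) (G := Equiv.Perm (Fin n))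
    (fun π => zz ⁻¹' patternEvent n π)
    (fun π => measurable_zz (measurableSet_patternEvent π))
    (fun π π' h => (patternEvent_disjoint h).preimage _)
    (by
      filter_upwards [ae_noties hN n] with ω hω
      refine exists_pattern (z := zz ω) ?_ ?_
      · intro p q hpq
        by_contra hne
        exact (hω p q hne).1 hpq
      · intro p q hpq
        by_contra hne
        exact (hω p q hne).2 hpq)
    (Tk k) (measurePreserving_Tk k) (Gam k) (measurableSet_Gam k) (fun ω => ⟨1, one_mem_Gam k ω⟩)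
    (Equiv.inv _) (fun ω τ h => ⟨Gam_Tk h, inv_mem_Gam h⟩) (fun ω τ h => Gam_of_inv h)
    (by
      have h1 : ∀ᵐ ω ∂(PP N n), ∀ τ : Equiv.Perm (Fin n), ∀ p q : Fin n, p ≠ q →
          X (pt (Tk k τ ω) p) ≠ X (pt (Tk k τ ω) q) ∧ Y (pt (Tk k τ ω) p) ≠ Y (pt (Tk k τ ω) q) := by
        rw [ae_all_iff]
        intro τ
        exact (measurePreserving_Tk k τ).quasiMeasurePreserving.ae (ae_noties hN n)
      filter_upwards [h1] with ω hω τ hτ τ' hτ' π hπ hπ'
      exact Gam_inj hω hτ hτ' hπ hπ')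
  refine le_trans ?_ key
  set bad : Samp N n → ℝ := fun ω =>
    ∑ p : Fin n, ∑ q : Fin n, (coin k false p q ω + coin k true p q ω) with hbad
  have hci : ∀ p q : Fin n, Integrable (fun ω => coin k false p q ω + coin k true p q ω) (PP N n) :=
    fun p q => (integrable_coin k false p q).add (integrable_coin k true p q)
  have hbadint : Integrable bad (PP N n) :=
    integrable_finsetSum _ (fun p _ => integrable_finsetSum _ (fun q _ => hci p q))
  have hbadmean : ∫ ω, bad ω ∂(PP N n) ≤ (n : ℝ) ^ 2 * (2 * (((N * N : ℕ) : ℝ) ^ k * N)⁻¹) := by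
    simp only [hbad]
    rw [integral_finsetSum _ (fun p _ => integrable_finsetSum _ (fun q _ => hci p q))]
    calc _ ≤ ∑ p : Fin n, ∑ q : Fin n, (2 * (((N * N : ℕ) : ℝ) ^ k * N)⁻¹) := by
          refine Finset.sum_le_sum (fun p _ => ?_)
          rw [integral_finsetSum _ (fun q _ => hci p q)]
          refine Finset.sum_le_sum (fun q _ => ?_)
          rw [integral_add (integrable_coin k false p q) (integrable_coin k true p q)]
          have e1 := integral_coin_le (N := N) k false p q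
          have e2 := integral_coin_le (N := N) k true p q
          linarith
      _ = (n : ℝ) ^ 2 * (2 * (((N * N : ℕ) : ℝ) ^ k * N)⁻¹) := by
          simp only [Finset.sum_const, Finset.card_univ, Fintype.card_fin, nsmul_eq_mul]
          ring
  have hcard : ∀ ω : Samp N n, (Gam k ω).card =
      Fintype.card {g : Equiv.Perm (Fin n) // lab k ω ∘ g = lab k ω} := by
    intro ω
    rw [Fintype.card_subtype]
    congr 1
    ext τ
    simp only [mem_Gam, Finset.mem_filter, Finset.mem_univ, true_and]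
    constructor
    · intro h; funext p; exact h p
    · intro h p; exact congrFun h p
  have hpt : ∀ ω : Samp N n, ((N * N : ℕ) : ℝ) ^ k * Real.log (m !) - bad ω * Real.log m ≤
      Real.log (Gam k ω).card := by
    intro ω
    rw [hcard ω]
    have h2 := log_stabilizer_ge (M := (N * N) ^ k) m (lab k ω) (bad ω) (hbad_aux k ω) hm hn
    push_cast at h2 ⊢
    exact h2
  have hint1 : Integrable (fun ω : Samp N n => ((N * N : ℕ) : ℝ) ^ k * Real.log (m !) -
      bad ω * Real.log m) (PP N n) := (integrable_const _).sub (hbadint.mul_const _)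
  have hGm : Measurable (fun ω : Samp N n => Real.log (Gam k ω).card) := by
    refine Real.measurable_log.comp ?_
    have : (fun ω : Samp N n => ((Gam k ω).card : ℝ)) =
        fun ω => ∑ τ : Equiv.Perm (Fin n), Set.indicator {ω | τ ∈ Gam k ω} (fun _ => (1:ℝ)) ω := by
      funext ω
      simp only [Set.indicator_apply, Set.mem_ofPred_eq]
      rw [Finset.sum_ite_mem, Finset.univ_inter, Finset.sum_const, nsmul_eq_mul, mul_one]
    rw [this]
    refine Finset.measurable_sum _ (fun τ _ => ?_)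
    exact measurable_const.indicator (measurableSet_Gam k τ)
  have hint2 : Integrable (fun ω : Samp N n => Real.log (Gam k ω).card) (PP N n) := by
    refine Integrable.of_bound hGm.aestronglyMeasurable
      (Real.log (Fintype.card (Equiv.Perm (Fin n)))) (Eventually.of_forall (fun ω => ?_))
    have h1 : 1 ≤ (Gam k ω).card := Finset.card_pos.mpr ⟨1, one_mem_Gam k ω⟩
    rw [Real.norm_eq_abs, abs_of_nonneg (Real.log_nonneg (by exact_mod_cast h1))]
    refine Real.log_le_log (by exact_mod_cast h1) ?_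
    exact_mod_cast Finset.card_le_univ _
  calc ((N * N : ℕ) : ℝ) ^ k * Real.log (m !) -
      (n : ℝ) ^ 2 * (2 * (((N * N : ℕ) : ℝ) ^ k * N)⁻¹) * Real.log m
      ≤ ((N * N : ℕ) : ℝ) ^ k * Real.log (m !) - (∫ ω, bad ω ∂(PP N n)) * Real.log m := by
        have := mul_le_mul_of_nonneg_right hbadmean hlogm
        linarith
    _ = ∫ ω, (((N * N : ℕ) : ℝ) ^ k * Real.log (m !) - bad ω * Real.log m) ∂(PP N n) := by
        have e1 : ∫ ω, bad ω * Real.log m ∂(PP N n) = (∫ ω, bad ω ∂(PP N n)) * Real.log m :=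
          integral_mul_const _ _
        rw [integral_sub (integrable_const _) (hbadint.mul_const _), e1]
        simp
    _ ≤ ∫ ω, Real.log (Gam k ω).card ∂(PP N n) := integral_mono hint1 hint2 hpt

end Pool.Agent.R977.FP
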