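import Pool.Agent.R977.FPDefs

open MeasureTheory ProbabilityTheory Filter Topology
open scoped BigOperators Nat

namespace Pool.Agent.R977.FP

/-! ## Patterns -/

lemma perm_eq_of_strictMono_comp {n : ℕ} {x : Fin n → ℝ} {ρ ρ' : Equiv.Perm (Fin n)}
    (h : StrictMono (fun a => x (ρ a))) (h' : StrictMono (fun a => x (ρ' a))) : ρ = ρ' := by
  have hinj : Function.Injective x := by
    intro a b hab
    have h1 := h.injective (a₁ := ρ.symm a) (a₂ := ρ.symm b) (by simpa using hab)
    exact ρ.symm.injective h1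
  have hr : Set.range (fun a => x (ρ a)) = Set.range (fun a => x (ρ' a)) := by
    have e1 : Set.range (fun a => x (ρ a)) = Set.range x := ρ.surjective.range_comp x
    have e2 : Set.range (fun a => x (ρ' a)) = Set.range x := ρ'.surjective.range_comp x
    rw [e1, e2]
  have h2 := (StrictMono.range_inj h h').mp hr
  ext a
  exact congrArg _ (hinj (congrFun h2 a))

lemma perm_eq_of_lt_iff {n : ℕ} {π π' : Equiv.Perm (Fin n)}
    (h : ∀ a b, π a < π b ↔ π' a < π' b) : π = π' := by
  have h1 : StrictMono (fun a => π' (π.symm a)) := by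
    intro a b hab
    have := (h (π.symm a) (π.symm b)).mp (by simpa using hab)
    exact this
  have h2 : (fun a => π' (π.symm a)) = fun a => a := by
    refine (StrictMono.range_inj h1 (fun a b hab => hab)).mp ?_
    rw [Set.range_id', Set.range_eq_univ]
    exact π'.surjective.comp π.symm.surjective
  ext a
  have := congrFun h2 (π a)
  simp only [Equiv.symm_apply_apply] at this
  rw [this]

lemma patternEvent_unique {n : ℕ} {z : Fin n → ℝ × ℝ} {π π' : Equiv.Perm (Fin n)}
    (h : z ∈ patternEvent n π) (h' : z ∈ patternEvent n π') : π = π' := by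
  obtain ⟨ρ, h1, h2⟩ := h
  obtain ⟨ρ', h1', h2'⟩ := h'
  have : ρ = ρ' := perm_eq_of_strictMono_comp (x := fun a => (z a).1) h1 h1'
  subst this
  exact perm_eq_of_lt_iff (fun a b => (h2 a b).symm.trans (h2' a b))

lemma patternEvent_disjoint {n : ℕ} {π π' : Equiv.Perm (Fin n)} (h : π ≠ π') :
    Disjoint (patternEvent n π) (patternEvent n π') := by
  rw [Set.disjoint_left]
  intro z h1 h2
  exact h (patternEvent_unique h1 h2)

lemma measurableSet_patternEvent {n : ℕ} (π : Equiv.Perm (Fin n)) :
    MeasurableSet (patternEvent n π) := by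
  have : patternEvent n π = ⋃ ρ : Equiv.Perm (Fin n),
      ((⋂ a : Fin n, ⋂ b : Fin n, {z : Fin n → ℝ × ℝ | a < b → (z (ρ a)).1 < (z (ρ b)).1}) ∩
       (⋂ a : Fin n, ⋂ b : Fin n, {z : Fin n → ℝ × ℝ | (z (ρ a)).2 < (z (ρ b)).2 ↔ π a < π b})) := by
    ext z
    simp only [patternEvent, Set.mem_iUnion, Set.mem_inter_iff, Set.mem_iInter,
      Set.mem_ofPred_eq]
    constructor
    · rintro ⟨ρ, h1, h2⟩
      exact ⟨ρ, fun a b hab => h1 hab, h2⟩
    · rintro ⟨ρ, h1, h2⟩
      exact ⟨ρ, fun a b hab => h1 a b hab, h2⟩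
  rw [this]
  refine MeasurableSet.iUnion (fun ρ => MeasurableSet.inter ?_ ?_)
  · refine MeasurableSet.iInter (fun a => MeasurableSet.iInter (fun b => ?_))
    by_cases hab : a < b
    · simp only [hab, forall_const]
      exact measurableSet_lt (by fun_prop) (by fun_prop)
    · simp [hab]
  · refine MeasurableSet.iInter (fun a => MeasurableSet.iInter (fun b => ?_))
    have hm : MeasurableSet {z : Fin n → ℝ × ℝ | (z (ρ a)).2 < (z (ρ b)).2} :=
      measurableSet_lt (by fun_prop) (by fun_prop)
    by_cases hab : π a < π b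
    · simp only [hab, iff_true]
      exact hm
    · simp only [hab, iff_false]
      exact hm.compl

lemma exists_pattern {n : ℕ} {z : Fin n → ℝ × ℝ} (hx : Function.Injective (fun a => (z a).1))
    (hy : Function.Injective (fun a => (z a).2)) : ∃ π, z ∈ patternEvent n π := by
  set ρ := Tuple.sort (fun a => (z a).1) with hρ
  have h1 : StrictMono (fun a => (z (ρ a)).1) := by
    have hm : Monotone ((fun a => (z a).1) ∘ ρ) := Tuple.monotone_sort _
    exact hm.strictMono_of_injective (hx.comp ρ.injective)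
  set s := Tuple.sort (fun a => (z (ρ a)).2) with hs
  have h2 : StrictMono (fun a => (z (ρ (s a))).2) := by
    have hm : Monotone ((fun a => (z (ρ a)).2) ∘ s) := Tuple.monotone_sort _
    exact hm.strictMono_of_injective ((hy.comp ρ.injective).comp s.injective)
  refine ⟨s⁻¹, ρ, h1, fun a b => ?_⟩
  have h3 := h2.lt_iff_lt (a := s⁻¹ a) (b := s⁻¹ b)
  simpa using h3

/-! ## Counting patterns compatible with a map to cells -/

open Classical in
/-- patterns compatible with the cells `C` and the vertical order `g` of the cells -/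
noncomputable def compat {n : ℕ} {γ : Type*} (g : γ → ℕ) (C : Fin n → γ) :
    Finset (Equiv.Perm (Fin n)) :=
  Finset.univ.filter (fun π => ∀ a b, C a ≠ C b → (π a < π b ↔ g (C a) < g (C b)))

lemma compat_fiber {n : ℕ} {γ : Type*} [DecidableEq γ] (g : γ → ℕ) (C : Fin n → γ)
    {π π₀ : Equiv.Perm (Fin n)} (h : π ∈ compat g C) (h₀ : π₀ ∈ compat g C) (a b : Fin n)
    (hab : π₀ b = π a) : C b = C a := by
  classical
  simp only [compat, Finset.mem_filter, Finset.mem_univ, true_and] at h h₀
  by_contra hne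
  have key : ∀ (π π₀ : Equiv.Perm (Fin n)), (∀ a b, C a ≠ C b → (π a < π b ↔ g (C a) < g (C b))) →
      (∀ a b, C a ≠ C b → (π₀ a < π₀ b ↔ g (C a) < g (C b))) →
      ∀ a b, g (C a) < g (C b) → π a < π₀ b := by
    intro π π₀ h h₀ a b hlt
    -- elements weakly below `a` for π
    have h1 : (Finset.univ.filter (fun e => π e ≤ π a)) ⊆
        Finset.univ.filter (fun e => g (C e) ≤ g (C a)) := by
      intro e he
      rw [Finset.mem_filter] at he ⊢
      refine ⟨Finset.mem_univ _, ?_⟩
      by_contra hcon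
      push Not at hcon
      have hce : C a ≠ C e := by intro hh; rw [hh] at hcon; exact lt_irrefl _ hcon
      have := (h a e hce).mpr hcon
      exact absurd he.2 (not_le.mpr this)
    have h2 : (Finset.univ.filter (fun e => g (C e) ≤ g (C a))) ⊆
        Finset.univ.filter (fun e => π₀ e < π₀ b) := by
      intro e he
      rw [Finset.mem_filter] at he ⊢
      refine ⟨Finset.mem_univ _, ?_⟩
      have hlt2 : g (C e) < g (C b) := lt_of_le_of_lt he.2 hlt
      have hce : C e ≠ C b := by intro hh; rw [hh] at hlt2; exact lt_irrefl _ hlt2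
      exact (h₀ e b hce).mpr hlt2
    have h3 : (Finset.univ.filter (fun e => π e ≤ π a)).card = (π a : ℕ) + 1 := by
      have : (Finset.univ.filter (fun e => π e ≤ π a)) = (Finset.Iic (π a)).map π.symm.toEmbedding := by
        ext e
        simp only [Finset.mem_filter, Finset.mem_univ, true_and, Finset.mem_map_equiv,
          Equiv.symm_symm, Finset.mem_Iic]
      rw [this, Finset.card_map, Fin.card_Iic]
    have h4 : (Finset.univ.filter (fun e => π₀ e < π₀ b)).card = (π₀ b : ℕ) := by
      have : (Finset.univ.filter (fun e => π₀ e < π₀ b)) = (Finset.Iio (π₀ b)).map π₀.symm.toEmbedding := by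
        ext e
        simp only [Finset.mem_filter, Finset.mem_univ, true_and, Finset.mem_map_equiv,
          Equiv.symm_symm, Finset.mem_Iio]
      rw [this, Finset.card_map, Fin.card_Iio]
    have h5 := Finset.card_le_card (h1.trans h2)
    rw [h3, h4] at h5
    exact Fin.lt_def.mpr h5
  have hne2 : g (C a) ≠ g (C b) := by
    intro heq
    have hπ : π a ≠ π b := by
      intro hh
      exact hne (congrArg C (π.injective hh)).symm
    rcases lt_or_gt_of_ne hπ with h1 | h1
    · have := (h a b (Ne.symm hne)).mp h1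
      omega
    · have := (h b a hne).mp h1
      omega
  rcases lt_or_gt_of_ne hne2 with h1 | h1
  · exact absurd hab (ne_of_gt (key π π₀ h h₀ a b h1))
  · exact absurd hab (ne_of_lt (key π₀ π h₀ h b a h1))

lemma card_compat_le {n : ℕ} {γ : Type*} [DecidableEq γ] [Fintype γ] (g : γ → ℕ) (C : Fin n → γ) :
    (compat g C).card ≤ ∏ c : γ, (Fintype.card {a // C a = c})! := by
  classical
  rw [← DomMulAct.stabilizer_card C]
  by_cases hne : (compat g C).Nonempty
  · obtain ⟨π₀, h₀⟩ := hne
    rw [← Fintype.card_coe]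
    refine Fintype.card_le_of_injective
      (fun π : (compat g C : Finset _) => (⟨π₀⁻¹ * π.1, ?_⟩ : {τ : Equiv.Perm (Fin n) // C ∘ τ = C})) ?_
    · funext a
      simp only [Function.comp_apply, Equiv.Perm.coe_mul]
      exact compat_fiber g C π.2 h₀ a _ (by simp)
    · intro π π' hh
      simp only [Subtype.mk.injEq, mul_right_inj] at hh
      exact Subtype.ext hh
  · rw [Finset.not_nonempty_iff_eq_empty.mp hne]
    simp

lemma factorial_le_two_pow (N : ℕ) : (N ! : ℝ) ≤ 2 ^ (N * (N - 1) / 2) := by
  have : N ! ≤ 2 ^ (N * (N - 1) / 2) := by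
    induction N with
    | zero => simp
    | succ N ih =>
      rw [Nat.factorial_succ]
      have h1 : N + 1 ≤ 2 ^ N := Nat.lt_two_pow_self
      have h2 : (N + 1) * (N + 1 - 1) / 2 = N + N * (N - 1) / 2 := by
        have : (N + 1) * (N + 1 - 1) = N * 2 + N * (N - 1) := by
          cases N with
          | zero => rfl
          | succ k => simp only [Nat.add_sub_cancel]; ring
        rw [this, add_comm (N * 2), Nat.add_mul_div_right _ _ (by norm_num : 0 < 2)]
        ring
      rw [h2, pow_add]
      exact Nat.mul_le_mul h1 ih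
  exact_mod_cast this

lemma log_factorial_le (N : ℕ) : Real.log (N !) ≤ Real.log 2 / 2 * ((N : ℝ) * (N - 1)) := by
  have h1 : Real.log (N !) ≤ Real.log (2 ^ (N * (N - 1) / 2)) :=
    Real.log_le_log (by exact_mod_cast Nat.factorial_pos N) (factorial_le_two_pow N)
  rw [Real.log_pow] at h1
  refine h1.trans ?_
  have h2 : ((N * (N - 1) / 2 : ℕ) : ℝ) ≤ ((N * (N - 1) : ℕ) : ℝ) / 2 := Nat.cast_div_le
  have h3 : ((N * (N - 1) : ℕ) : ℝ) = (N : ℝ) * (N - 1) := by
    cases N with
    | zero => simp
    | succ k => push_cast; simp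
  rw [h3] at h2
  have h4 : 0 ≤ Real.log 2 := Real.log_nonneg (by norm_num)
  nlinarith

lemma sum_fiber_pairs {n : ℕ} {γ : Type*} [DecidableEq γ] [Fintype γ] (C : Fin n → γ) :
    ∑ c : γ, ((Fintype.card {a // C a = c} : ℝ) * ((Fintype.card {a // C a = c} : ℝ) - 1)) =
      ∑ a : Fin n, ∑ b : Fin n, if a ≠ b ∧ C a = C b then (1:ℝ) else 0 := by
  classical
  have h1 : ∀ c : γ, (Fintype.card {a // C a = c} : ℝ) = ∑ a : Fin n, if C a = c then (1:ℝ) else 0 := by
    intro c
    rw [Fintype.card_subtype, ← Finset.sum_filter, Finset.sum_const, nsmul_eq_mul, mul_one]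
  have h2 : ∀ c : γ, ((Fintype.card {a // C a = c} : ℝ) * ((Fintype.card {a // C a = c} : ℝ) - 1)) =
      ∑ a : Fin n, ∑ b : Fin n, if a ≠ b ∧ C a = c ∧ C b = c then (1:ℝ) else 0 := by
    intro c
    have e1 : ∑ a : Fin n, ∑ b : Fin n, (if C a = c ∧ C b = c then (1:ℝ) else 0) =
        (Fintype.card {a // C a = c} : ℝ) * (Fintype.card {a // C a = c} : ℝ) := by
      rw [h1, Finset.sum_mul_sum]
      refine Finset.sum_congr rfl (fun a _ => Finset.sum_congr rfl (fun b _ => ?_))
      by_cases ha : C a = c <;> by_cases hb : C b = c <;> simp [ha, hb]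
    have e2 : ∑ a : Fin n, ∑ b : Fin n, (if a = b ∧ C a = c then (1:ℝ) else 0) =
        (Fintype.card {a // C a = c} : ℝ) := by
      rw [h1]
      refine Finset.sum_congr rfl (fun a _ => ?_)
      by_cases ha : C a = c
      · simp [ha]
      · simp [ha]
    rw [mul_sub, mul_one, ← e1]
    nth_rewrite 1 [← e2]
    rw [← Finset.sum_sub_distrib]
    refine Finset.sum_congr rfl (fun a _ => ?_)
    rw [← Finset.sum_sub_distrib]
    refine Finset.sum_congr rfl (fun b _ => ?_)
    by_cases hab : a = b
    · subst hab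
      by_cases ha : C a = c <;> simp [ha]
    · by_cases ha : C a = c <;> by_cases hb : C b = c <;> simp [ha, hb, hab]
  simp_rw [h2]
  rw [Finset.sum_comm]
  refine Finset.sum_congr rfl (fun a _ => ?_)
  rw [Finset.sum_comm]
  refine Finset.sum_congr rfl (fun b _ => ?_)
  by_cases hab : a ≠ b ∧ C a = C b
  · rw [if_pos hab]
    rw [Finset.sum_eq_single (C a)]
    · simp [hab.1, hab.2]
    · intro c _ hc
      rw [if_neg]
      rintro ⟨-, h, -⟩
      exact hc h.symm
    · simp
  · rw [if_neg hab]
    refine Finset.sum_eq_zero (fun c _ => ?_)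
    rw [if_neg]
    rintro ⟨h, h', h''⟩
    exact hab ⟨h, h'.trans h''.symm⟩

lemma log_card_compat_le {n : ℕ} {γ : Type*} [DecidableEq γ] [Fintype γ] (g : γ → ℕ) (C : Fin n → γ)
    (hne : (compat g C).Nonempty) :
    Real.log ((compat g C).card) ≤
      Real.log 2 / 2 * ∑ a : Fin n, ∑ b : Fin n, if a ≠ b ∧ C a = C b then (1:ℝ) else 0 := by
  have h1 : Real.log ((compat g C).card) ≤ Real.log ((∏ c : γ, (Fintype.card {a // C a = c})! : ℕ) : ℝ) := by
    refine Real.log_le_log (by exact_mod_cast Finset.card_pos.mpr hne) ?_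
    exact_mod_cast card_compat_le g C
  refine h1.trans ?_
  rw [Nat.cast_prod, Real.log_prod (fun c _ => by exact_mod_cast (Nat.factorial_pos _).ne'),
    ← sum_fiber_pairs, Finset.mul_sum]
  exact Finset.sum_le_sum (fun c _ => log_factorial_le _)

/-! ## Number of monotone maps -/

lemma card_monotone_le (n M : ℕ) :
    Fintype.card {f : Fin n → Fin M // Monotone f} ≤ 2 ^ (n + M) := by
  classical
  have h2 : Fintype.card (Finset (Fin (n + M))) = 2 ^ (n + M) := by simp
  rw [← h2]
  let s : {f : Fin n → Fin M // Monotone f} → Fin n → Fin (n + M) := fun f a =>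
    ⟨(f.1 a : ℕ) + (a : ℕ), by have := (f.1 a).isLt; have := a.isLt; omega⟩
  have hs : ∀ f, StrictMono (s f) := by
    intro f a b hab
    have h3 : (f.1 a : ℕ) ≤ f.1 b := f.2 hab.le
    simp only [s, Fin.lt_def] at *
    omega
  refine Fintype.card_le_of_injective (fun f => Finset.univ.image (s f)) ?_
  intro f f' hh
  have h3 : Set.range (s f) = Set.range (s f') := by
    have := congrArg (fun t : Finset (Fin (n+M)) => (t : Set (Fin (n+M)))) hh
    simpa using this
  have h4 := (StrictMono.range_inj (hs f) (hs f')).mp h3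
  apply Subtype.ext
  funext a
  have h5 := congrArg (fun t : Fin (n+M) => (t : ℕ)) (congrFun h4 a)
  simp only [s] at h5
  exact Fin.ext (by omega)

end Pool.Agent.R977.FP
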