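import Pool.Agent.R977.FPDigits
import Pool.Agent.R977.FPPattern
import Pool.Agent.R977.FPEntropy

open MeasureTheory ProbabilityTheory Filter Topology
open scoped BigOperators Nat ENNReal

namespace Pool.Agent.R977.FP

set_option linter.unusedSectionVars false

variable (N : ℕ) [NeZero N]

/-- uniform measure on `Fin N` -/
noncomputable def unif : Measure (Fin N) := (PMF.uniformOfFintype (Fin N)).toMeasure

instance : IsProbabilityMeasure (unif N) := by unfold unif; infer_instance

lemma unif_singleton (a : Fin N) : unif N {a} = (N : ℝ≥0∞)⁻¹ := by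
  rw [unif, PMF.toMeasure_apply_singleton _ _ (MeasurableSet.singleton a),
    PMF.uniformOfFintype_apply, Fintype.card_fin]

/-- measure of a cylinder -/
lemma cyl_measure {ι : Type*} (S : Finset ι) (t : ι → Fin N) :
    Measure.infinitePi (fun _ : ι => unif N) {ω | ∀ i ∈ S, ω i = t i} = ((N : ℝ≥0∞)⁻¹) ^ S.card := by
  have : {ω : ι → Fin N | ∀ i ∈ S, ω i = t i} = Set.pi (S : Set ι) (fun i => {t i}) := by
    ext ω; simp [Set.mem_pi]
  rw [this, Measure.infinitePi_pi _ (fun i _ => MeasurableSet.singleton _)]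
  simp_rw [unif_singleton]
  rw [Finset.prod_const]

/-- law of the half-digits of a point -/
noncomputable def Q : Measure (HD N) := Measure.infinitePi (fun _ => unif N)

instance : IsProbabilityMeasure (Q N) := by unfold Q; infer_instance

/-- the permuton -/
noncomputable def mu : Measure (ℝ × ℝ) := (Q N).map (fun a => (X a, Y a))

lemma measurable_XY : Measurable (fun a : HD N => (X a, Y a)) :=
  measurable_X.prodMk measurable_Y

instance : IsProbabilityMeasure (mu N) :=
  Measure.isProbabilityMeasure_map (measurable_XY N).aemeasurable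

/-- sample space for `n` points -/
abbrev Samp (n : ℕ) := Fin n × (ℕ × Bool) → Fin N

/-- the probability on the sample space -/
noncomputable def PP (n : ℕ) : Measure (Samp N n) := Measure.infinitePi (fun _ => unif N)

instance (n : ℕ) : IsProbabilityMeasure (PP N n) := by unfold PP; infer_instance

variable {N}

/-- half-digits of the `p`-th point -/
def pt {n : ℕ} (ω : Samp N n) (p : Fin n) : HD N := fun j => ω (p, j)

/-- the sample -/
noncomputable def zz {n : ℕ} (ω : Samp N n) : Fin n → ℝ × ℝ := fun p => (X (pt ω p), Y (pt ω p))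

lemma measurable_pt {n : ℕ} (p : Fin n) : Measurable (fun ω : Samp N n => pt ω p) := by
  refine measurable_pi_lambda _ (fun j => ?_)
  exact measurable_pi_apply _

lemma measurable_zz {n : ℕ} : Measurable (zz : Samp N n → Fin n → ℝ × ℝ) := by
  refine measurable_pi_lambda _ (fun p => ?_)
  exact (measurable_XY N).comp (measurable_pt p)

lemma map_zz (n : ℕ) : (PP N n).map zz = Measure.pi (fun _ : Fin n => mu N) := by
  have h1 : (PP N n).map (MeasurableEquiv.curry (Fin n) (ℕ × Bool) (Fin N)) =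
      Measure.infinitePi (fun _ : Fin n => Q N) := by
    unfold PP Q
    exact Measure.infinitePi_map_curry (fun _ _ => unif N)
  have h2 : (zz : Samp N n → Fin n → ℝ × ℝ) = (fun x : Fin n → HD N => fun p => (X (x p), Y (x p))) ∘
      (MeasurableEquiv.curry (Fin n) (ℕ × Bool) (Fin N)) := by
    funext ω p
    rfl
  have hm : Measurable (fun x : Fin n → HD N => fun p => (X (x p), Y (x p))) := by
    refine measurable_pi_lambda _ (fun p => ?_)
    exact (measurable_XY N).comp (measurable_pi_apply _)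
  rw [h2, ← Measure.map_map hm (MeasurableEquiv.measurable _), h1,
    Measure.infinitePi_map_pi (fun _ => Q N) (fun _ => measurable_XY N)]
  have : (fun _ : Fin n => (Q N).map (fun a => (X a, Y a))) = fun _ => mu N := rfl
  rw [this, Measure.infinitePi_eq_pi]

lemma entropy_eq (n : ℕ) : samplingEntropy (mu N) n =
    ∑ π : Equiv.Perm (Fin n), Real.negMulLog ((PP N n).real (zz ⁻¹' patternEvent n π)) := by
  unfold samplingEntropy
  refine Finset.sum_congr rfl (fun π _ => ?_)
  rw [← map_zz, map_measureReal_apply measurable_zz (measurableSet_patternEvent π)]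

/-! ### no ties -/

lemma card_JJ (k : ℕ) : ((Finset.range k) ×ˢ (Finset.univ : Finset Bool)).card = 2 * k := by
  simp [mul_comm]

lemma inv_pow_two_mul (k : ℕ) : ((N : ℝ≥0∞)⁻¹) ^ (2 * k) = (((N * N : ℕ) : ℝ≥0∞) ^ k)⁻¹ := by
  rw [← ENNReal.inv_pow, Nat.cast_mul, pow_mul, pow_two]

/-- the measure of a column -/
lemma Q_cx_le (k m : ℕ) : Q N {a | cnum (dx a) k = m} ≤ (((N * N : ℕ) : ℝ≥0∞) ^ k)⁻¹ := by
  by_cases h : ∃ a₀ : HD N, cnum (dx a₀) k = m
  · obtain ⟨a₀, h₀⟩ := h
    rw [← inv_pow_two_mul, ← card_JJ, ← cyl_measure N _ a₀]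
    refine measure_mono (fun a ha => ?_)
    simp only [Set.mem_ofPred_eq] at ha ⊢
    rw [← h₀] at ha
    have := cx_eq_iff.mp ha
    rintro ⟨j, b⟩ hj
    simp only [Finset.mem_product, Finset.mem_range, Finset.mem_univ, and_true] at hj
    cases b
    · exact (this j hj).1
    · exact (this j hj).2
  · have : {a : HD N | cnum (dx a) k = m} = ∅ := by
      ext a
      simp only [Set.mem_ofPred_eq, Set.mem_empty_iff_false, iff_false]
      exact fun ha => h ⟨a, ha⟩
    rw [this]; simp

lemma Q_cy_le (k m : ℕ) : Q N {a | cnum (dy a) k = m} ≤ (((N * N : ℕ) : ℝ≥0∞) ^ k)⁻¹ := by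
  by_cases h : ∃ a₀ : HD N, cnum (dy a₀) k = m
  · obtain ⟨a₀, h₀⟩ := h
    rw [← inv_pow_two_mul, ← card_JJ, ← cyl_measure N _ a₀]
    refine measure_mono (fun a ha => ?_)
    simp only [Set.mem_ofPred_eq] at ha ⊢
    rw [← h₀] at ha
    have := cy_eq_iff.mp ha
    rintro ⟨j, b⟩ hj
    simp only [Finset.mem_product, Finset.mem_range, Finset.mem_univ, and_true] at hj
    cases b
    · exact (this j hj).1
    · exact (this j hj).2
  · have : {a : HD N | cnum (dy a) k = m} = ∅ := by
      ext a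
      simp only [Set.mem_ofPred_eq, Set.mem_empty_iff_false, iff_false]
      exact fun ha => h ⟨a, ha⟩
    rw [this]; simp

/-- generic: a number whose `k`-digit truncations have small atoms has no atoms -/
lemma no_atom_aux {b : ℕ} (hb : 1 < b) (dig : HD N → ℕ → Fin b)
    (h : ∀ k m : ℕ, Q N {a | cnum (dig a) k = m} ≤ ((b : ℝ≥0∞) ^ k)⁻¹) (x : ℝ) :
    Q N {a | Real.ofDigits (dig a) = x} = 0 := by
  have hb0 : 0 < b := by omega
  have h1 : ∀ k : ℕ, Q N {a | Real.ofDigits (dig a) = x} ≤ 2 * ((b : ℝ≥0∞) ^ k)⁻¹ := by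
    intro k
    set m := ⌊x * (b:ℝ) ^ k⌋₊ with hm
    have hsub : {a | Real.ofDigits (dig a) = x} ⊆
        {a | cnum (dig a) k = m} ∪ {a | cnum (dig a) k = m - 1} := by
      intro a ha
      simp only [Set.mem_ofPred_eq] at ha
      have hbk : (0:ℝ) < (b:ℝ) ^ k := by positivity
      have e1 := cnum_le_ofDigits hb0 (dig a) k
      have e2 := ofDigits_le_cnum hb0 (dig a) k
      rw [ha] at e1 e2
      rw [div_le_iff₀ hbk] at e1
      rw [le_div_iff₀ hbk] at e2
      have e3 : cnum (dig a) k ≤ m := Nat.le_floor e1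
      have e4 : m ≤ cnum (dig a) k + 1 := by
        have : m ≤ ⌊((cnum (dig a) k + 1 : ℕ) : ℝ)⌋₊ := by
          apply Nat.floor_le_floor
          push_cast
          exact e2
        rwa [Nat.floor_natCast] at this
      simp only [Set.mem_union, Set.mem_ofPred_eq]
      omega
    calc Q N {a | Real.ofDigits (dig a) = x} ≤ _ := measure_mono hsub
      _ ≤ _ := measure_union_le _ _
      _ ≤ ((b : ℝ≥0∞) ^ k)⁻¹ + ((b : ℝ≥0∞) ^ k)⁻¹ := add_le_add (h k m) (h k (m-1))
      _ = 2 * ((b : ℝ≥0∞) ^ k)⁻¹ := by ring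
  have h2 : Tendsto (fun k : ℕ => 2 * ((b : ℝ≥0∞) ^ k)⁻¹) atTop (𝓝 0) := by
    have h3 : Tendsto (fun k : ℕ => ((b : ℝ≥0∞)⁻¹) ^ k) atTop (𝓝 0) :=
      ENNReal.tendsto_pow_atTop_nhds_zero_of_lt_one (ENNReal.inv_lt_one.mpr (by exact_mod_cast hb))
    have h4 := ENNReal.Tendsto.const_mul (a := 2) h3 (Or.inr (by simp))
    simpa [ENNReal.inv_pow] using h4
  exact le_antisymm (ge_of_tendsto' h2 h1) zero_le

lemma Q_X_eq (hN : 1 < N) (x : ℝ) : Q N {a | X a = x} = 0 :=
  no_atom_aux (by nlinarith) (fun a => dx a) (fun k m => Q_cx_le k m) x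

lemma Q_Y_eq (hN : 1 < N) (x : ℝ) : Q N {a | Y a = x} = 0 :=
  no_atom_aux (by nlinarith) (fun a => dy a) (fun k m => Q_cy_le k m) x

/-- the diagonal is null for two independent points -/
lemma tie_null {n : ℕ} (f : ℝ × ℝ → ℝ) (hf : Measurable f)
    (hat : ∀ x, (mu N) {z | f z = x} = 0) {p q : Fin n} (hpq : p ≠ q) :
    ∀ᵐ ω ∂(PP N n), f (zz ω p) ≠ f (zz ω q) := by
  have h1 : iIndepFun (fun (i : Fin n) (z : Fin n → ℝ × ℝ) => f (z i))
      (Measure.pi (fun _ : Fin n => mu N)) :=
    iIndepFun_pi (fun i => hf.aemeasurable)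
  have h2 := h1.indepFun hpq
  have hm : ∀ i : Fin n, Measurable (fun z : Fin n → ℝ × ℝ => f (z i)) :=
    fun i => hf.comp (measurable_pi_apply i)
  rw [indepFun_iff_map_prod_eq_prod_map_map (hm p).aemeasurable (hm q).aemeasurable] at h2
  have hlaw : ∀ i : Fin n, (Measure.pi (fun _ : Fin n => mu N)).map (fun z => f (z i)) = (mu N).map f := by
    intro i
    have : (fun z : Fin n → ℝ × ℝ => f (z i)) = f ∘ (Function.eval i) := rfl
    rw [this, ← Measure.map_map hf (measurable_pi_apply i), (measurePreserving_eval _ i).map_eq]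
  rw [hlaw p, hlaw q] at h2
  have hprob : IsProbabilityMeasure ((mu N).map f) := Measure.isProbabilityMeasure_map hf.aemeasurable
  have hdiag : MeasurableSet {x : ℝ × ℝ | x.1 = x.2} :=
    measurableSet_eq_fun measurable_fst measurable_snd
  have h3 : ((mu N).map f).prod ((mu N).map f) {x : ℝ × ℝ | x.1 = x.2} = 0 := by
    rw [Measure.measure_prod_null hdiag]
    refine Eventually.of_forall (fun x => ?_)
    have : (Prod.mk x ⁻¹' {x : ℝ × ℝ | x.1 = x.2}) = {y | y = x} := by
      ext y; simp [eq_comm]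
    simp only [Pi.zero_apply]
    rw [this, Measure.map_apply hf (measurableSet_eq)]
    exact hat x
  rw [← h2, Measure.map_apply ((hm p).prodMk (hm q)) hdiag, ← map_zz,
    Measure.map_apply measurable_zz (((hm p).prodMk (hm q)) hdiag)] at h3
  rw [ae_iff]
  convert h3 using 2
  ext ω
  simp

/-- Almost surely there are no ties. -/
lemma ae_noties (hN : 1 < N) (n : ℕ) : ∀ᵐ ω ∂(PP N n), ∀ p q : Fin n, p ≠ q →
    X (pt ω p) ≠ X (pt ω q) ∧ Y (pt ω p) ≠ Y (pt ω q) := by
  rw [ae_all_iff]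
  intro p
  rw [ae_all_iff]
  intro q
  by_cases hpq : p = q
  · exact Eventually.of_forall (fun ω h => absurd hpq h)
  · have h1 : ∀ x, (mu N) {z | z.1 = x} = 0 := by
      intro x
      rw [mu, Measure.map_apply (measurable_XY N) (measurableSet_eq_fun measurable_fst measurable_const)]
      exact Q_X_eq hN x
    have h2 : ∀ x, (mu N) {z | z.2 = x} = 0 := by
      intro x
      rw [mu, Measure.map_apply (measurable_XY N) (measurableSet_eq_fun measurable_snd measurable_const)]
      exact Q_Y_eq hN x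
    filter_upwards [tie_null Prod.fst measurable_fst h1 hpq, tie_null Prod.snd measurable_snd h2 hpq]
      with ω h3 h4 _
    exact ⟨h3, h4⟩

/-! ### coincidences -/

lemma coincidence {n : ℕ} {p q : Fin n} (hpq : p ≠ q) (J : Finset (ℕ × Bool)) :
    PP N n {ω | ∀ j ∈ J, ω (p, j) = ω (q, j)} ≤ ((N : ℝ≥0∞)⁻¹) ^ J.card := by
  classical
  set S : Finset (Fin n × (ℕ × Bool)) := ({p, q} : Finset (Fin n)) ×ˢ J with hS
  have hScard : S.card = 2 * J.card := by
    rw [hS, Finset.card_product, Finset.card_pair hpq]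
  let t' : (J → Fin N) → (Fin n × (ℕ × Bool)) → Fin N := fun t i =>
    if h : i.2 ∈ J then t ⟨i.2, h⟩ else 0
  have hsub : {ω : Samp N n | ∀ j ∈ J, ω (p, j) = ω (q, j)} ⊆
      ⋃ t ∈ (Finset.univ : Finset (J → Fin N)), {ω | ∀ i ∈ S, ω i = t' t i} := by
    intro ω hω
    simp only [Set.mem_ofPred_eq] at hω
    simp only [Finset.mem_univ, Set.iUnion_true, Set.mem_iUnion, Set.mem_ofPred_eq]
    refine ⟨fun j => ω (p, j.1), ?_⟩
    rintro ⟨r, j⟩ hi
    rw [hS, Finset.mem_product, Finset.mem_insert, Finset.mem_singleton] at hi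
    obtain ⟨hr, hj⟩ := hi
    simp only at hr hj
    simp only [t', hj, dif_pos]
    rcases hr with rfl | rfl
    · rfl
    · exact (hω j hj).symm
  calc PP N n {ω | ∀ j ∈ J, ω (p, j) = ω (q, j)} ≤ _ := measure_mono hsub
    _ ≤ ∑ t : (J → Fin N), PP N n {ω | ∀ i ∈ S, ω i = t' t i} := measure_biUnion_finset_le _ _
    _ = ∑ t : (J → Fin N), ((N : ℝ≥0∞)⁻¹) ^ S.card := by
        refine Finset.sum_congr rfl (fun t _ => ?_)
        exact cyl_measure N S (t' t)
    _ = (N : ℝ≥0∞) ^ J.card * ((N : ℝ≥0∞)⁻¹) ^ (2 * J.card) := by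
        rw [Finset.sum_const, nsmul_eq_mul, hScard]
        simp
    _ = ((N : ℝ≥0∞)⁻¹) ^ J.card := by
        have hN0 : (N : ℝ≥0∞) ≠ 0 := by exact_mod_cast NeZero.ne N
        rw [two_mul, pow_add, ← mul_assoc, ← mul_pow, ENNReal.mul_inv_cancel hN0 (by simp), one_pow,
          one_mul]

/-- same cell of level `k` -/
lemma same_cell {n : ℕ} {p q : Fin n} (hpq : p ≠ q) (k : ℕ) :
    (PP N n).real {ω | cnum (dx (pt ω p)) k = cnum (dx (pt ω q)) k} ≤ (((N * N : ℕ) : ℝ) ^ k)⁻¹ := by
  have h1 : PP N n {ω | cnum (dx (pt ω p)) k = cnum (dx (pt ω q)) k} ≤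
      (((N * N : ℕ) : ℝ≥0∞) ^ k)⁻¹ := by
    rw [← inv_pow_two_mul, ← card_JJ]
    refine (measure_mono (fun ω hω => ?_)).trans (coincidence hpq _)
    simp only [Set.mem_ofPred_eq] at hω ⊢
    have := cx_eq_iff.mp hω
    rintro ⟨j, b⟩ hj
    simp only [Finset.mem_product, Finset.mem_range, Finset.mem_univ, and_true] at hj
    cases b
    · exact (this j hj).1
    · exact (this j hj).2
  have h2 := ENNReal.toReal_mono ?_ h1
  · simpa [Measure.real] using h2
  · simp [NeZero.ne N]

/-- same cell of level `k` and one more half-digit -/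
lemma same_cell_and {n : ℕ} {p q : Fin n} (hpq : p ≠ q) (k : ℕ) (b : Bool) :
    (PP N n).real {ω | cnum (dx (pt ω p)) k = cnum (dx (pt ω q)) k ∧ ω (p, (k, b)) = ω (q, (k, b))}
      ≤ (((N * N : ℕ) : ℝ) ^ k * N)⁻¹ := by
  have h1 : PP N n {ω | cnum (dx (pt ω p)) k = cnum (dx (pt ω q)) k ∧ ω (p, (k, b)) = ω (q, (k, b))} ≤
      (((N * N : ℕ) : ℝ≥0∞) ^ k)⁻¹ * (N : ℝ≥0∞)⁻¹ := by
    have hnot : (k, b) ∉ ((Finset.range k) ×ˢ (Finset.univ : Finset Bool)) := by simp
    have hcard : (insert (k, b) ((Finset.range k) ×ˢ (Finset.univ : Finset Bool))).card = 2 * k + 1 := by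
      rw [Finset.card_insert_of_notMem hnot, card_JJ]
    rw [← inv_pow_two_mul, ← pow_succ, ← hcard]
    refine (measure_mono (fun ω hω => ?_)).trans (coincidence hpq _)
    simp only [Set.mem_ofPred_eq] at hω ⊢
    have := cx_eq_iff.mp hω.1
    intro j hj
    rw [Finset.mem_insert] at hj
    rcases hj with rfl | hj
    · exact hω.2
    · obtain ⟨j, b⟩ := j
      simp only [Finset.mem_product, Finset.mem_range, Finset.mem_univ, and_true] at hj
      cases b
      · exact (this j hj).1
      · exact (this j hj).2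
  have h2 := ENNReal.toReal_mono ?_ h1
  · rw [mul_inv]
    simpa [Measure.real] using h2
  · simp [ENNReal.mul_eq_top, NeZero.ne N]

end Pool.Agent.R977.FP
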