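import Pool.Agent.R977.FPSpace

open MeasureTheory ProbabilityTheory Filter Topology
open scoped BigOperators Nat ENNReal

namespace Pool.Agent.R977.FP

set_option linter.unusedSectionVars false

variable {N : ℕ} [NeZero N]

open Classical in
/-- row number of the kept square of level `k` in column `c` -/
noncomputable def gg (N k : ℕ) (c : Fin ((N * N) ^ k)) : ℕ :=
  if h : ∃ a : HD N, cnum (dx a) k = c then cnum (dy h.choose) k else 0

lemma gg_eq (k : ℕ) (a : HD N) (c : Fin ((N * N) ^ k)) (hc : (c : ℕ) = cnum (dx a) k) :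
    gg N k c = cnum (dy a) k := by
  have h : ∃ a' : HD N, cnum (dx a') k = c := ⟨a, hc.symm⟩
  rw [gg, dif_pos h]
  rw [cy_eq_iff_cx, h.choose_spec, hc]

lemma measurableSet_same (n k : ℕ) (p q : Fin n) :
    MeasurableSet {ω : Samp N n | cnum (dx (pt ω p)) k = cnum (dx (pt ω q)) k} :=
  measurableSet_eq_fun ((measurable_cx k).comp (measurable_pt p))
    ((measurable_cx k).comp (measurable_pt q))

/-- Upper bound for the sampling entropy. -/
theorem entropy_le (hN : 1 < N) (n k : ℕ) :
    samplingEntropy (mu N) n ≤ (n + (N * N : ℕ) ^ k : ℕ) * Real.log 2 +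
      Real.log 2 / 2 * ((n : ℝ) ^ 2 / ((N * N : ℕ) : ℝ) ^ k) := by
  classical
  set M := (N * N) ^ k with hM
  have hMpos : 0 < M := by rw [hM]; have := NeZero.pos N; positivity
  have : Nonempty {f : Fin n → Fin M // Monotone f} := ⟨⟨fun _ => ⟨0, hMpos⟩, fun _ _ _ => le_refl _⟩⟩
  have hb : 0 < N * N := by have := NeZero.pos N; positivity
  have hlog2 : 0 ≤ Real.log 2 := Real.log_nonneg (by norm_num)
  set B : Samp N n → ℝ := fun ω => Real.log 2 / 2 * ∑ p : Fin n, ∑ q : Fin n,
    Set.indicator {ω : Samp N n | p ≠ q ∧ cnum (dx (pt ω p)) k = cnum (dx (pt ω q)) k}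
      (fun _ => (1:ℝ)) ω with hB
  have hmeas : ∀ p q : Fin n,
      MeasurableSet {ω : Samp N n | p ≠ q ∧ cnum (dx (pt ω p)) k = cnum (dx (pt ω q)) k} := by
    intro p q
    by_cases hpq : p = q
    · simp [hpq]
    · simp only [ne_eq, hpq, not_false_eq_true, true_and]
      exact measurableSet_same n k p q
  have hBint : Integrable B (PP N n) := by
    refine Integrable.const_mul ?_ _
    refine integrable_finsetSum _ (fun p _ => integrable_finsetSum _ (fun q _ => ?_))
    exact (integrable_const (1:ℝ)).indicator (hmeas p q)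
  have hBmean : ∫ ω, B ω ∂(PP N n) ≤ Real.log 2 / 2 * ((n : ℝ) ^ 2 / ((N * N : ℕ) : ℝ) ^ k) := by
    simp only [hB]
    rw [integral_const_mul]
    refine mul_le_mul_of_nonneg_left ?_ (by positivity)
    rw [integral_finsetSum _ (fun p _ => integrable_finsetSum _ (fun q _ =>
      (integrable_const (1:ℝ)).indicator (hmeas p q)))]
    calc ∑ p : Fin n, ∫ ω, ∑ q : Fin n, Set.indicator
          {ω : Samp N n | p ≠ q ∧ cnum (dx (pt ω p)) k = cnum (dx (pt ω q)) k}
            (fun _ => (1:ℝ)) ω ∂(PP N n)
        ≤ ∑ p : Fin n, ∑ q : Fin n, (((N * N : ℕ) : ℝ) ^ k)⁻¹ := by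
          refine Finset.sum_le_sum (fun p _ => ?_)
          rw [integral_finsetSum _ (fun q _ => (integrable_const (1:ℝ)).indicator (hmeas p q))]
          refine Finset.sum_le_sum (fun q _ => ?_)
          rw [integral_indicator_const _ (hmeas p q)]
          simp only [smul_eq_mul, mul_one]
          by_cases hpq : p = q
          · have : {ω : Samp N n | p ≠ q ∧ cnum (dx (pt ω p)) k = cnum (dx (pt ω q)) k} = ∅ := by
              ext ω; simp [hpq]
            rw [this]
            simp only [measureReal_empty]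
            positivity
          · simp only [ne_eq, hpq, not_false_eq_true, true_and]
            exact same_cell hpq k
      _ = (n : ℝ) ^ 2 / ((N * N : ℕ) : ℝ) ^ k := by
          simp only [Finset.sum_const, Finset.card_univ, Fintype.card_fin, nsmul_eq_mul]
          rw [div_eq_mul_inv]; ring
  rw [entropy_eq]
  have key := entropy_upper (PP N n) (ι := Equiv.Perm (Fin n)) (γ := {f : Fin n → Fin M // Monotone f})
    (fun π => zz ⁻¹' patternEvent n π)
    (fun π => measurable_zz (measurableSet_patternEvent π))
    (fun π π' h => (patternEvent_disjoint h).preimage _)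
    (by
      filter_upwards [ae_noties hN n] with ω hω
      refine exists_pattern (z := zz ω) ?_ ?_
      · intro p q hpq
        by_contra hne
        exact (hω p q hne).1 hpq
      · intro p q hpq
        by_contra hne
        exact (hω p q hne).2 hpq)
    (fun f => compat (gg N k) f.1) B hBint
    (by
      filter_upwards [ae_noties hN n] with ω hω π hπ
      obtain ⟨ρ, h1, h2⟩ := hπ
      have hX : ∀ a b, a < b → X (pt ω (ρ a)) < X (pt ω (ρ b)) := fun a b hab => h1 hab
      have hY : ∀ a b, Y (pt ω (ρ a)) < Y (pt ω (ρ b)) ↔ π a < π b := h2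
      let C : Fin n → Fin M := fun a => ⟨cnum (dx (pt ω (ρ a))) k, cnum_lt _ _⟩
      have hC : Monotone C := by
        intro a b hab
        rcases eq_or_lt_of_le hab with rfl | hab
        · exact le_refl _
        · exact cnum_le_of_lt hb (hX a b hab)
      have hmem : π ∈ compat (gg N k) C := by
        simp only [compat, Finset.mem_filter, Finset.mem_univ, true_and]
        intro a b hab
        rw [← hY a b, gg_eq k (pt ω (ρ a)) (C a) rfl, gg_eq k (pt ω (ρ b)) (C b) rfl]
        have hne : cnum (dx (pt ω (ρ a))) k ≠ cnum (dx (pt ω (ρ b))) k := by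
          intro hh; exact hab (Fin.ext hh)
        have hρ : ρ a ≠ ρ b := by
          intro hh; apply hne; rw [hh]
        refine lt_iff_cnum_lt hb (hω _ _ hρ).2 ?_
        intro hh
        exact hne (cy_eq_iff_cx.mp hh)
      refine ⟨⟨C, hC⟩, hmem, ?_⟩
      refine (log_card_compat_le (gg N k) C ⟨π, hmem⟩).trans (le_of_eq ?_)
      simp only [hB]
      congr 1
      symm
      rw [← Equiv.sum_comp ρ]
      refine Finset.sum_congr rfl (fun a _ => ?_)
      rw [← Equiv.sum_comp ρ]
      refine Finset.sum_congr rfl (fun b _ => ?_)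
      rw [Set.indicator_apply]
      congr 1
      simp only [Set.mem_ofPred_eq, C, Fin.mk.injEq, ne_eq, EmbeddingLike.apply_eq_iff_eq])
  refine key.trans (add_le_add ?_ hBmean)
  have h3 := card_monotone_le n M
  have h4 : (0:ℝ) < (Fintype.card {f : Fin n → Fin M // Monotone f} : ℝ) := by
    exact_mod_cast Fintype.card_pos
  calc Real.log (Fintype.card {f : Fin n → Fin M // Monotone f}) ≤ Real.log ((2:ℝ) ^ (n + M)) := by
        refine Real.log_le_log h4 ?_
        exact_mod_cast h3
    _ = ((n + M : ℕ) : ℝ) * Real.log 2 := by rw [Real.log_pow]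

end Pool.Agent.R977.FP
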