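import Pool.Agent.R977.FPSpace

open MeasureTheory ProbabilityTheory Filter Topology
open scoped BigOperators Nat ENNReal

namespace Pool.Agent.R977.FP

set_option linter.unusedSectionVars false

/-- the permutation of the digits that exchanges the two half-digits -/
def swapPerm (N : ℕ) : Equiv.Perm (Fin (N * N)) :=
  finProdFinEquiv.symm.trans ((Equiv.prodComm (Fin N) (Fin N)).trans finProdFinEquiv)

lemma swapPerm_dx {N : ℕ} (a : HD N) (j : ℕ) : swapPerm N (dx a j) = dy a j := by
  simp [swapPerm, dx, dy]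

variable {N : ℕ} [NeZero N]

/-- the first `n` digits -/
def wd (n : ℕ) (a : HD N) : Fin n → Fin (N * N) := fun k => dx a k

lemma measurable_wd (n : ℕ) : Measurable (wd (N := N) n) := by
  refine measurable_pi_lambda _ (fun j => ?_)
  have : Measurable (fun p : Fin N × Fin N => finProdFinEquiv p) := measurable_of_finite _
  exact this.comp (by fun_prop)

lemma law_wd (n : ℕ) (w : Fin n → Fin (N * N)) :
    ((Q N).map (wd n)).real {w} = (((N * N : ℕ) : ℝ) ^ n)⁻¹ := by
  rw [map_measureReal_apply (measurable_wd n) (MeasurableSet.singleton w)]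
  let t : ℕ × Bool → Fin N := fun j => if h : j.1 < n then
    (if j.2 = true then (finProdFinEquiv.symm (w ⟨j.1, h⟩)).2 else (finProdFinEquiv.symm (w ⟨j.1, h⟩)).1)
    else 0
  have h1 : wd n ⁻¹' {w} = {a : HD N | ∀ i ∈ (Finset.range n) ×ˢ (Finset.univ : Finset Bool), a i = t i} := by
    ext a
    simp only [Set.mem_preimage, Set.mem_singleton_iff, Set.mem_ofPred_eq, Finset.mem_product,
      Finset.mem_range, Finset.mem_univ, and_true]
    constructor
    · rintro rfl ⟨j, b⟩ hj
      simp only at hj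
      simp only [t, hj, dif_pos, wd, dx, Equiv.symm_apply_apply]
      cases b <;> simp
    · intro h
      funext k
      have h2 := h (k, false) k.isLt
      have h3 := h (k, true) k.isLt
      simp only [t, k.isLt, dif_pos, Bool.false_eq_true, if_false, if_true] at h2 h3
      simp only [wd, dx]
      rw [h2, h3]
      exact finProdFinEquiv.apply_symm_apply (w k)
  rw [h1]
  have h2 := cyl_measure N ((Finset.range n) ×ˢ (Finset.univ : Finset Bool)) t
  rw [card_JJ, inv_pow_two_mul] at h2
  rw [Measure.real, Q, h2]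
  simp

/-- the uniform measure on the unit square -/
noncomputable def sqm : Measure (ℝ × ℝ) :=
  (volume : Measure (ℝ × ℝ)).restrict (Set.Icc (0:ℝ) 1 ×ˢ Set.Icc (0:ℝ) 1)

instance : IsProbabilityMeasure sqm := by
  constructor
  rw [sqm, Measure.restrict_apply_univ, Measure.volume_eq_prod, Measure.prod_prod]
  simp

lemma corner_eq (n : ℕ) (a : HD N) :
    corner (fun _ => swapPerm N) (wd n a) =
      (∑ i ∈ Finset.range n, Real.ofDigitsTerm (dx a) i,
       ∑ i ∈ Finset.range n, Real.ofDigitsTerm (dy a) i) := by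
  unfold corner
  ext
  · simp only [wd]
    rw [Fin.sum_univ_eq_sum_range (fun k => ((dx a k : ℕ) : ℝ) / ((N * N : ℕ) : ℝ) ^ (k + 1))]
    refine Finset.sum_congr rfl (fun i _ => ?_)
    rw [Real.ofDigitsTerm, div_eq_mul_inv]
  · simp only [wd, swapPerm_dx]
    rw [Fin.sum_univ_eq_sum_range (fun k => ((dy a k : ℕ) : ℝ) / ((N * N : ℕ) : ℝ) ^ (k + 1))]
    refine Finset.sum_congr rfl (fun i _ => ?_)
    rw [Real.ofDigitsTerm, div_eq_mul_inv]

/-- integral over a square of level `n` -/
noncomputable def Phi (f : BoundedContinuousFunction (ℝ × ℝ) ℝ) (n : ℕ) (w : Fin n → Fin (N * N)) : ℝ :=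
  ∫ z, f ((corner (fun _ => swapPerm N) w).1 + z.1 / ((N * N : ℕ) : ℝ) ^ n,
    (corner (fun _ => swapPerm N) w).2 + z.2 / ((N * N : ℕ) : ℝ) ^ n) ∂sqm

lemma integral_approx (f : BoundedContinuousFunction (ℝ × ℝ) ℝ) (n : ℕ) :
    ∫ z, f z ∂(approx (fun _ => swapPerm N) n) =
      ∑ w : Fin n → Fin (N * N), (((N * N : ℕ) : ℝ) ^ n)⁻¹ * Phi f n w := by
  have hN : (0:ℝ) < ((N * N : ℕ) : ℝ) := by
    have := NeZero.pos N
    positivity
  have hne : ((N * N : ℕ) : ℝ≥0∞) ^ n ≠ 0 := by
    have : ((N * N : ℕ) : ℝ≥0∞) ≠ 0 := by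
      have := NeZero.pos N
      exact_mod_cast (Nat.mul_pos this this).ne'
    exact pow_ne_zero _ this
  have hm : ∀ w : Fin n → Fin (N * N), Measurable (fun z : ℝ × ℝ =>
      ((corner (fun _ => swapPerm N) w).1 + z.1 / ((N * N : ℕ) : ℝ) ^ n,
        (corner (fun _ => swapPerm N) w).2 + z.2 / ((N * N : ℕ) : ℝ) ^ n)) := by
    intro w
    fun_prop
  unfold approx
  rw [integral_finsetSum_measure]
  · refine Finset.sum_congr rfl (fun w _ => ?_)
    rw [integral_smul_measure, integral_map (hm w).aemeasurable f.continuous.aestronglyMeasurable]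
    unfold Phi sqm
    rw [smul_eq_mul]
    congr 1
    simp
  · intro w _
    have : IsFiniteMeasure (((volume : Measure (ℝ × ℝ)).restrict
        (Set.Icc (0:ℝ) 1 ×ˢ Set.Icc (0:ℝ) 1)).map
      (fun z => ((corner (fun _ => swapPerm N) w).1 + z.1 / ((N * N : ℕ) : ℝ) ^ n,
        (corner (fun _ => swapPerm N) w).2 + z.2 / ((N * N : ℕ) : ℝ) ^ n))) := by
      have : IsFiniteMeasure ((volume : Measure (ℝ × ℝ)).restrict
        (Set.Icc (0:ℝ) 1 ×ˢ Set.Icc (0:ℝ) 1)) := by
        change IsFiniteMeasure sqm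
        infer_instance
      infer_instance
    exact (f.integrable _).smul_measure (ENNReal.inv_ne_top.mpr hne)

lemma integral_approx_eq (f : BoundedContinuousFunction (ℝ × ℝ) ℝ) (n : ℕ) :
    ∫ z, f z ∂(approx (fun _ => swapPerm N) n) = ∫ a, Phi f n (wd n a) ∂(Q N) := by
  have hprob : IsProbabilityMeasure ((Q N).map (wd n)) :=
    Measure.isProbabilityMeasure_map (measurable_wd n).aemeasurable
  have h1 : ∫ w, Phi f n w ∂((Q N).map (wd n)) = ∫ a, Phi f n (wd n a) ∂(Q N) :=
    integral_map (measurable_wd n).aemeasurable (measurable_of_finite _).aestronglyMeasurable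
  have h2 := integral_fintype (μ := (Q N).map (wd n)) (f := Phi f n) Integrable.of_finite
  rw [← h1, h2, integral_approx]
  refine Finset.sum_congr rfl (fun w _ => ?_)
  rw [law_wd, smul_eq_mul]

lemma tendsto_partial (a : ℕ → Fin (N * N)) (hN : 1 < N) (x : ℝ) :
    Tendsto (fun n : ℕ => ∑ i ∈ Finset.range n, Real.ofDigitsTerm a i + x / ((N * N : ℕ) : ℝ) ^ n) atTop
      (𝓝 (Real.ofDigits a)) := by
  have h1 : Tendsto (fun n : ℕ => ∑ i ∈ Finset.range n, Real.ofDigitsTerm a i) atTop
      (𝓝 (Real.ofDigits a)) := Real.summable_ofDigitsTerm.hasSum.tendsto_sum_nat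
  have h2 : Tendsto (fun n : ℕ => x / ((N * N : ℕ) : ℝ) ^ n) atTop (𝓝 0) := by
    have hb : (1:ℝ) < ((N * N : ℕ) : ℝ) := by
      have : 1 < N * N := by nlinarith
      exact_mod_cast this
    exact Tendsto.const_div_atTop (tendsto_pow_atTop_atTop_of_one_lt hb) x
  simpa using h1.add h2

theorem weakLimit (hN : 1 < N) : IsWeakLimit (approx (fun _ => swapPerm N)) (mu N) := by
  intro f
  have h0 : ∫ z, f z ∂(mu N) = ∫ a, f (X a, Y a) ∂(Q N) :=
    integral_map (measurable_XY N).aemeasurable f.continuous.aestronglyMeasurable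
  rw [h0]
  simp_rw [integral_approx_eq]
  have hb : ∀ (n : ℕ) (w : Fin n → Fin (N * N)), ‖Phi f n w‖ ≤ ‖f‖ := by
    intro n w
    unfold Phi
    refine (norm_integral_le_of_norm_le_const (Eventually.of_forall (fun z => f.norm_coe_le_norm _))).trans ?_
    simp
  refine tendsto_integral_of_dominated_convergence (fun _ => ‖f‖) ?_ (integrable_const _) ?_ ?_
  · intro n
    have hm : Measurable (Phi (N := N) f n) := measurable_of_finite _
    exact (hm.comp (measurable_wd (N := N) n)).aestronglyMeasurable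
  · intro n
    exact Eventually.of_forall (fun a => hb n _)
  · refine Eventually.of_forall (fun a => ?_)
    have h1 : ∫ _ : ℝ × ℝ, f (X a, Y a) ∂sqm = f (X a, Y a) := by simp
    rw [← h1]
    unfold Phi
    refine tendsto_integral_of_dominated_convergence (fun _ => ‖f‖) ?_ (integrable_const _) ?_ ?_
    · intro n
      exact (f.continuous.comp (by fun_prop)).aestronglyMeasurable
    · intro n
      exact Eventually.of_forall (fun z => f.norm_coe_le_norm _)
    · refine Eventually.of_forall (fun z => ?_)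
      simp_rw [corner_eq]
      refine (f.continuous.tendsto _).comp ?_
      exact (tendsto_partial (dx a) hN z.1).prodMk_nhds (tendsto_partial (dy a) hN z.2)

end Pool.Agent.R977.FP
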