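import Pool.Agent.R977.GWTree

/-!
# Finite typed forests and their weights

Combinatorics for MP_e34f63_pr: `Forest S q₀ Γ l w c` says that there is a finite forest with root
types `l`, all of whose words are allowed (`S`) or special (equal to `q₀.2` at a vertex of type
`q₀.1`), of total weight `w` and with `c` special vertices.
-/

set_option autoImplicit false

open Set

namespace Pool.Agent.R977.GWTree

variable {K : ℕ}

inductive Forest (S : Fin K → List (Fin K) → Prop) (q : Fin K × List (Fin K)) (Γ : Fin K → ℕ) :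
    List (Fin K) → ℕ → ℕ → Prop
  | nil : Forest S q Γ [] 0 0
  | cons {i : Fin K} {x l : List (Fin K)} {a b c d : ℕ} (h : S i x) (hx : Forest S q Γ x a c)
      (hl : Forest S q Γ l b d) : Forest S q Γ (i :: l) (Γ i + a + b) (c + d)
  | special {l : List (Fin K)} {a b c d : ℕ} (hx : Forest S q Γ q.2 a c)
      (hl : Forest S q Γ l b d) : Forest S q Γ (q.1 :: l) (Γ q.1 + a + b) (c + d + 1)

section

variable {S : Fin K → List (Fin K) → Prop} {q : Fin K × List (Fin K)} {Γ : Fin K → ℕ}

theorem Forest.append {l l' : List (Fin K)} {a b c d : ℕ} (h : Forest S q Γ l a c)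
    (h' : Forest S q Γ l' b d) : Forest S q Γ (l ++ l') (a + b) (c + d) := by
  induction h with
  | nil => simpa using h'
  | @cons i x l a1 b1 c1 d1 h hx hl _ ih2 =>
    have := Forest.cons h hx ih2
    have e1 : Γ i + a1 + (b1 + b) = Γ i + a1 + b1 + b := by ring
    have e2 : c1 + (d1 + d) = c1 + d1 + d := by ring
    rw [e1, e2] at this
    exact this
  | @special l a1 b1 c1 d1 hx hl _ ih2 =>
    have := Forest.special hx ih2
    have e1 : Γ q.1 + a1 + (b1 + b) = Γ q.1 + a1 + b1 + b := by ring
    have e2 : c1 + (d1 + d) + 1 = c1 + d1 + 1 + d := by ring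
    rw [e1, e2] at this
    exact this

theorem Forest.weight_zero {l : List (Fin K)} {w c : ℕ} (h : Forest S q Γ l w c)
    (h0 : ∀ i, Γ i = 0) : w = 0 := by
  induction h with
  | nil => rfl
  | cons h hx hl ih1 ih2 => rw [h0, ih1, ih2]
  | special hx hl ih1 ih2 => rw [h0, ih1, ih2]

/-- Completions of single types give completions of words. -/
theorem complete_word (hs : ∀ i, ∃ s, Forest S q Γ [i] s 0) (l : List (Fin K)) :
    ∃ s, Forest S q Γ l s 0 := by
  induction l with
  | nil => exact ⟨0, Forest.nil⟩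
  | cons i l ih =>
    obtain ⟨s, hs'⟩ := hs i
    obtain ⟨t, ht⟩ := ih
    exact ⟨_, hs'.append ht⟩

/-- Contexts: a forest with one root `i` and a hole for a tree with root type `j`. -/
def Context (S : Fin K → List (Fin K) → Prop) (q : Fin K × List (Fin K)) (Γ : Fin K → ℕ)
    (i j : Fin K) (w : ℕ) : Prop :=
  ∀ a c, Forest S q Γ [j] a c → Forest S q Γ [i] (w + a) c

theorem context_step (hs : ∀ i, ∃ s, Forest S q Γ [i] s 0) {i j : Fin K}
    (h : ∃ x, S i x ∧ j ∈ x) : ∃ w, Γ i ≤ w ∧ Context S q Γ i j w := by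
  obtain ⟨x, hx, hj⟩ := h
  obtain ⟨l1, l2, rfl⟩ := List.append_of_mem hj
  obtain ⟨s1, h1⟩ := complete_word hs l1
  obtain ⟨s2, h2⟩ := complete_word hs l2
  refine ⟨Γ i + s1 + s2, by omega, fun a c ha => ?_⟩
  have h3 := Forest.cons hx (h1.append (ha.append h2)) Forest.nil
  have e1 : Γ i + (s1 + (a + s2)) + 0 = Γ i + s1 + s2 + a := by ring
  have e2 : 0 + (c + 0) + 0 = c := by ring
  rw [e1, e2] at h3
  exact h3

theorem Context.trans {i j k : Fin K} {w w' : ℕ} (h : Context S q Γ i j w)
    (h' : Context S q Γ j k w') : Context S q Γ i k (w + w') := by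
  intro a c ha
  have := h _ _ (h' _ _ ha)
  rwa [← add_assoc] at this

theorem context_of_transGen (hs : ∀ i, ∃ s, Forest S q Γ [i] s 0) {i j : Fin K}
    (h : Relation.TransGen (fun a b => ∃ x, S a x ∧ b ∈ x) i j) :
    ∃ w, Γ i ≤ w ∧ Context S q Γ i j w := by
  induction h with
  | single h => exact context_step hs h
  | tail _ h ih =>
    obtain ⟨w, hw, hc⟩ := ih
    obtain ⟨w', _, hc'⟩ := context_step hs h
    exact ⟨w + w', by omega, hc.trans hc'⟩

theorem Context.iterate {i : Fin K} {w : ℕ} (h : Context S q Γ i i w) (n : ℕ) :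
    Context S q Γ i i (n * w) := by
  induction n with
  | zero =>
    intro a c ha
    simpa using ha
  | succ n ih =>
    have := h.trans ih
    have e : w + n * w = (n + 1) * w := by ring
    rwa [e] at this

/-- Contexts with `M` holes. -/
theorem multi_context {i : Fin K}
    (hD : ∃ w, ∀ a c a' c', Forest S q Γ [i] a c → Forest S q Γ [i] a' c' →
      Forest S q Γ [i] (w + a + a') (c + c')) (M : ℕ) (hM : 1 ≤ M) :
    ∃ w, ∀ a c, Forest S q Γ [i] a c → Forest S q Γ [i] (w + M * a) (M * c) := by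
  induction M, hM using Nat.le_induction with
  | base => exact ⟨0, fun a c h => by simpa using h⟩
  | succ M hM ih =>
    obtain ⟨w, hw⟩ := ih
    obtain ⟨w0, hw0⟩ := hD
    refine ⟨w0 + w, fun a c h => ?_⟩
    have := hw0 _ _ _ _ (hw a c h) h
    have e1 : w0 + (w + M * a) + a = w0 + w + (M + 1) * a := by ring
    have e2 : M * c + c = (M + 1) * c := by ring
    rwa [e1, e2] at this

/-- The combinatorial core: if the types communicate and some allowed word has two letters, then
there are two finite trees with the same root type and the same weight, one with a special vertex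
and one without. -/
theorem exists_same_weight (hs : ∀ i, ∃ s, Forest S q Γ [i] s 0)
    (hirr : ∀ i j, Relation.TransGen (fun a b => ∃ x, S a x ∧ b ∈ x) i j)
    (hbr : ∃ i x, S i x ∧ 2 ≤ x.length) :
    ∃ w c, 1 ≤ c ∧ Forest S q Γ [q.1] w c ∧ Forest S q Γ [q.1] w 0 := by
  -- a special tree and a normal tree
  obtain ⟨sx, hsx⟩ := complete_word hs q.2
  have hsp : Forest S q Γ [q.1] (Γ q.1 + sx) 1 := by
    have := Forest.special hsx Forest.nil
    simpa using this
  obtain ⟨s0, hs0⟩ := hs q.1
  -- double context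
  have hD : ∃ w, ∀ a c a' c', Forest S q Γ [q.1] a c → Forest S q Γ [q.1] a' c' →
      Forest S q Γ [q.1] (w + a + a') (c + c') := by
    obtain ⟨i, x, hx, hlen⟩ := hbr
    obtain ⟨w1, _, h1⟩ := context_of_transGen hs (hirr q.1 i)
    match x, hlen, hx with
    | j1 :: j2 :: r, _, hx =>
      obtain ⟨w2, _, h2⟩ := context_of_transGen hs (hirr j1 q.1)
      obtain ⟨w3, _, h3⟩ := context_of_transGen hs (hirr j2 q.1)
      obtain ⟨s, hr⟩ := complete_word hs r
      refine ⟨w1 + Γ i + w2 + w3 + s, fun a c a' c' ha ha' => ?_⟩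
      have h4 : Forest S q Γ (j1 :: j2 :: r) ((w2 + a) + ((w3 + a') + s)) (c + (c' + 0)) := by
        have := (h2 _ _ ha).append ((h3 _ _ ha').append hr)
        simpa using this
      have h5 := h1 _ _ (Forest.cons hx h4 Forest.nil)
      have e1 : w1 + (Γ i + ((w2 + a) + ((w3 + a') + s)) + 0) =
          w1 + Γ i + w2 + w3 + s + a + a' := by ring
      have e2 : c + (c' + 0) + 0 = c + c' := by ring
      rw [e1, e2] at h5
      exact h5
  by_cases hΓ : ∀ i, Γ i = 0
  · have e1 := hsp.weight_zero hΓ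
    have e2 := hs0.weight_zero hΓ
    rw [e1] at hsp
    rw [e2] at hs0
    exact ⟨0, 1, le_rfl, hsp, hs0⟩
  · push Not at hΓ
    obtain ⟨k, hk⟩ := hΓ
    obtain ⟨wa, _, ha⟩ := context_of_transGen hs (hirr q.1 k)
    obtain ⟨wb, hwb, hb⟩ := context_of_transGen hs (hirr k q.1)
    have hloop := ha.trans hb
    obtain ⟨ℓ, hℓ⟩ : ∃ ℓ, ℓ = wa + wb := ⟨_, rfl⟩
    rw [← hℓ] at hloop
    have hℓ1 : 1 ≤ ℓ := by omega
    obtain ⟨w, hw⟩ := multi_context hD ℓ hℓ1
    have t1 := (hloop.iterate s0) _ _ (hw _ _ hsp)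
    have t2 := (hloop.iterate (Γ q.1 + sx)) _ _ (hw _ _ hs0)
    refine ⟨_, _, ?_, t1, ?_⟩
    · omega
    · have e1 : (Γ q.1 + sx) * ℓ + (w + ℓ * s0) = s0 * ℓ + (w + ℓ * (Γ q.1 + sx)) := by ring
      rw [e1] at t2
      simpa using t2

end

/-! ### Shifts and grafts -/

/-- The words of the subtree of the `k`-th child of the root. -/
def shift (k : ℕ) (Y : List ℕ × Fin K → List (Fin K)) : List ℕ × Fin K → List (Fin K) :=
  fun p => Y (p.1 ++ [k], p.2)

theorem typ_append (i : Fin K) (Y : List ℕ × Fin K → List (Fin K)) (k : ℕ) (v : List ℕ) :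
    typ i Y (v ++ [k]) = ((Y ([], i))[k]?).bind fun j => typ j (shift k Y) v := by
  induction v with
  | nil => simp [typ]
  | cons m v ih =>
    simp only [List.cons_append, typ, ih]
    cases (Y ([], i))[k]? with
    | none => rfl
    | some j => rfl

/-- The tree with root word `x` and with the subtree of the `k`-th child given by `Ys k`. -/
def graft (x : List (Fin K)) (Ys : ℕ → List ℕ × Fin K → List (Fin K)) :
    List ℕ × Fin K → List (Fin K) :=
  fun p => if h : p.1 = [] then x else Ys (p.1.getLast h) (p.1.dropLast, p.2)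

theorem shift_graft (x : List (Fin K)) (Ys : ℕ → List ℕ × Fin K → List (Fin K)) (k : ℕ) :
    shift k (graft x Ys) = Ys k := by
  funext p
  simp [shift, graft]

theorem graft_root (x : List (Fin K)) (Ys : ℕ → List ℕ × Fin K → List (Fin K)) (i : Fin K) :
    graft x Ys ([], i) = x := by
  simp [graft]

/-- The vertices of a tree: the root and the vertices of the subtrees of its children. -/
theorem mem_tree_iff (i : Fin K) (Y : List ℕ × Fin K → List (Fin K)) (u : List ℕ) (j : Fin K) :
    (u, j) ∈ tree i Y ↔ (u = [] ∧ j = i) ∨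
      ∃ k, ∃ h : k < (Y ([], i)).length, ∃ v, u = v ++ [k] ∧
        (v, j) ∈ tree ((Y ([], i))[k]) (shift k Y) := by
  rw [mem_tree]
  rcases List.eq_nil_or_concat' u with rfl | ⟨v, k, rfl⟩
  · simp only [typ, Option.some.injEq, true_and]
    constructor
    · intro h
      exact Or.inl h.symm
    · rintro (h | ⟨k, _, v, h, _⟩)
      · exact h.symm
      · simp at h
  · rw [typ_append]
    constructor
    · intro h
      rw [Option.bind_eq_some_iff] at h
      obtain ⟨j', h1, h2⟩ := h
      obtain ⟨hk, h3⟩ := List.getElem?_eq_some_iff.1 h1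
      refine Or.inr ⟨k, hk, v, rfl, ?_⟩
      rw [h3]
      exact h2
    · rintro (⟨h, _⟩ | ⟨k', hk, v', h, h'⟩)
      · simp at h
      · obtain ⟨rfl, h2⟩ := List.append_inj' h rfl
        simp only [List.cons.injEq, and_true] at h2
        subst h2
        rw [List.getElem?_eq_getElem hk]
        exact h'

/-- The vertex set of the grafted tree. -/
noncomputable def graftSet (i : Fin K) (n : ℕ) (Fs : ℕ → Finset (List ℕ × Fin K)) :
    Finset (List ℕ × Fin K) := by
  classical
  exact insert ([], i) ((Finset.range n).biUnion fun k => (Fs k).image fun p => (p.1 ++ [k], p.2))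

theorem mem_graftSet {i : Fin K} {n : ℕ} {Fs : ℕ → Finset (List ℕ × Fin K)}
    {p : List ℕ × Fin K} : p ∈ graftSet i n Fs ↔ p = ([], i) ∨
      ∃ k < n, ∃ r ∈ Fs k, (r.1 ++ [k], r.2) = p := by
  classical
  unfold graftSet
  simp only [Finset.mem_insert, Finset.mem_biUnion, Finset.mem_range, Finset.mem_image]

theorem tree_graft {i : Fin K} {x : List (Fin K)} {Ys : ℕ → List ℕ × Fin K → List (Fin K)}
    {Fs : ℕ → Finset (List ℕ × Fin K)}
    (h : ∀ k (hk : k < x.length), tree x[k] (Ys k) = (Fs k : Set (List ℕ × Fin K))) :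
    tree i (graft x Ys) = (graftSet i x.length Fs : Set (List ℕ × Fin K)) := by
  ext ⟨u, j⟩
  rw [mem_tree_iff, Finset.mem_coe, mem_graftSet]
  have hx : graft x Ys ([], i) = x := graft_root x Ys i
  constructor
  · rintro (⟨rfl, rfl⟩ | ⟨k, hk, v, rfl, hv⟩)
    · exact Or.inl rfl
    · rw [shift_graft] at hv
      have hk' : k < x.length := by rwa [hx] at hk
      simp only [hx] at hv
      rw [h k hk', Finset.mem_coe] at hv
      exact Or.inr ⟨k, hk', (v, j), hv, rfl⟩
  · rintro (h1 | ⟨k, hk, ⟨v, j'⟩, hr, h1⟩)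
    · rw [Prod.mk.injEq] at h1
      exact Or.inl h1
    · rw [Prod.mk.injEq] at h1
      obtain ⟨h2, h3⟩ := h1
      subst h3
      refine Or.inr ⟨k, by rw [hx]; exact hk, v, h2.symm, ?_⟩
      rw [shift_graft]
      have e : (graft x Ys ([], i))[k]'(by rw [hx]; exact hk) = x[k] := by simp only [hx]
      rw [e, h k hk, Finset.mem_coe]
      exact hr

theorem sum_graftSet {i : Fin K} {n : ℕ} {Fs : ℕ → Finset (List ℕ × Fin K)} (Γ : Fin K → ℕ) :
    ∑ p ∈ graftSet i n Fs, Γ p.2 = Γ i + ∑ k ∈ Finset.range n, ∑ p ∈ Fs k, Γ p.2 := by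
  classical
  unfold graftSet
  rw [Finset.sum_insert, Finset.sum_biUnion]
  · congr 1
    refine Finset.sum_congr rfl fun k _ => ?_
    rw [Finset.sum_image]
    rintro ⟨u, j⟩ _ ⟨u', j'⟩ _ h
    simp only [Prod.mk.injEq, List.append_cancel_right_eq] at h
    rw [Prod.mk.injEq]
    exact h
  · intro k _ k' _ hne
    rw [Function.onFun, Finset.disjoint_left]
    intro p hp hp'
    simp only [Finset.mem_image] at hp hp'
    obtain ⟨r, _, rfl⟩ := hp
    obtain ⟨r', _, h⟩ := hp'
    rw [Prod.mk.injEq] at h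
    have := (List.append_inj' h.1 rfl).2
    simp only [List.cons.injEq, and_true] at this
    exact hne this.symm
  · simp only [Finset.mem_biUnion, Finset.mem_image, not_exists, not_and, Prod.mk.injEq]
    intro k _ r _ h
    simp at h

/-- Every forest is realised by words. -/
theorem Forest.realize {S : Fin K → List (Fin K) → Prop} {q : Fin K × List (Fin K)}
    {Γ : Fin K → ℕ} {l : List (Fin K)} {w c : ℕ} (h : Forest S q Γ l w c) :
    ∃ (Ys : ℕ → List ℕ × Fin K → List (Fin K)) (Fs : ℕ → Finset (List ℕ × Fin K)),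
      (∀ k (hk : k < l.length), tree l[k] (Ys k) = (Fs k : Set (List ℕ × Fin K)) ∧
        ∀ p ∈ Fs k, S p.2 (Ys k p) ∨ (p.2, Ys k p) = q) ∧
      ∑ k ∈ Finset.range l.length, ∑ p ∈ Fs k, Γ p.2 = w ∧
      (1 ≤ c → ∃ k < l.length, ∃ p ∈ Fs k, (p.2, Ys k p) = q) ∧
      (c = 0 → ∀ k < l.length, ∀ p ∈ Fs k, S p.2 (Ys k p)) := by
  -- the common step
  have step : ∀ (i : Fin K) (x l : List (Fin K)) (a b c d e : ℕ),
      (S i x ∧ e = 0 ∨ (i, x) = q ∧ e = 1) →
      (∃ (Ys : ℕ → List ℕ × Fin K → List (Fin K)) (Fs : ℕ → Finset (List ℕ × Fin K)),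
      (∀ k (hk : k < x.length), tree x[k] (Ys k) = (Fs k : Set (List ℕ × Fin K)) ∧
        ∀ p ∈ Fs k, S p.2 (Ys k p) ∨ (p.2, Ys k p) = q) ∧
      ∑ k ∈ Finset.range x.length, ∑ p ∈ Fs k, Γ p.2 = a ∧
      (1 ≤ c → ∃ k < x.length, ∃ p ∈ Fs k, (p.2, Ys k p) = q) ∧
      (c = 0 → ∀ k < x.length, ∀ p ∈ Fs k, S p.2 (Ys k p))) →
      (∃ (Ys : ℕ → List ℕ × Fin K → List (Fin K)) (Fs : ℕ → Finset (List ℕ × Fin K)),
      (∀ k (hk : k < l.length), tree l[k] (Ys k) = (Fs k : Set (List ℕ × Fin K)) ∧
        ∀ p ∈ Fs k, S p.2 (Ys k p) ∨ (p.2, Ys k p) = q) ∧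
      ∑ k ∈ Finset.range l.length, ∑ p ∈ Fs k, Γ p.2 = b ∧
      (1 ≤ d → ∃ k < l.length, ∃ p ∈ Fs k, (p.2, Ys k p) = q) ∧
      (d = 0 → ∀ k < l.length, ∀ p ∈ Fs k, S p.2 (Ys k p))) →
      (∃ (Ys : ℕ → List ℕ × Fin K → List (Fin K)) (Fs : ℕ → Finset (List ℕ × Fin K)),
      (∀ k (hk : k < (i :: l).length), tree (i :: l)[k] (Ys k) = (Fs k : Set (List ℕ × Fin K)) ∧
        ∀ p ∈ Fs k, S p.2 (Ys k p) ∨ (p.2, Ys k p) = q) ∧
      ∑ k ∈ Finset.range (i :: l).length, ∑ p ∈ Fs k, Γ p.2 = Γ i + a + b ∧
      (1 ≤ c + d + e → ∃ k < (i :: l).length, ∃ p ∈ Fs k, (p.2, Ys k p) = q) ∧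
      (c + d + e = 0 → ∀ k < (i :: l).length, ∀ p ∈ Fs k, S p.2 (Ys k p))) := by
    rintro i x l a b c d e he ⟨Yx, Fx, hx1, hx2, hx3, hx4⟩ ⟨Yl, Fl, hl1, hl2, hl3, hl4⟩
    have hword : ∀ k r, r ∈ Fx k → graft x Yx (r.1 ++ [k], r.2) = Yx k r := by
      intro k r _
      have := congrFun (shift_graft x Yx k) r
      exact this
    refine ⟨fun k => Nat.casesOn k (graft x Yx) Yl,
      fun k => Nat.casesOn k (graftSet i x.length Fx) Fl, ?_, ?_, ?_, ?_⟩
    · intro k hk
      cases k with
      | zero =>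
        refine ⟨tree_graft fun k hk => (hx1 k hk).1, ?_⟩
        intro p hp
        rcases mem_graftSet.1 hp with rfl | ⟨k, hk, r, hr, rfl⟩
        · change S i (graft x Yx ([], i)) ∨ (i, graft x Yx ([], i)) = q
          rw [graft_root]
          rcases he with he | he
          · exact Or.inl he.1
          · exact Or.inr he.1
        · change S r.2 (graft x Yx (r.1 ++ [k], r.2)) ∨ (r.2, graft x Yx (r.1 ++ [k], r.2)) = q
          rw [hword k r hr]
          exact (hx1 k hk).2 r hr
      | succ k => exact hl1 k (by simpa using hk)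
    · rw [List.length_cons, Finset.sum_range_succ', add_comm]
      change ∑ p ∈ graftSet i x.length Fx, Γ p.2 + ∑ k ∈ Finset.range l.length,
        ∑ p ∈ Fl k, Γ p.2 = _
      rw [sum_graftSet, hx2, hl2]
    · intro hc
      by_cases he1 : e = 1
      · rcases he with he | he
        · omega
        · refine ⟨0, by simp, ([], i), mem_graftSet.2 (Or.inl rfl), ?_⟩
          change (i, graft x Yx ([], i)) = q
          rw [graft_root]
          exact he.1
      · have he0 : e = 0 := by
          rcases he with he | he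
          · exact he.2
          · exact absurd he.2 he1
        by_cases hc1 : 1 ≤ c
        · obtain ⟨k, hk, r, hr, h4⟩ := hx3 hc1
          refine ⟨0, by simp, (r.1 ++ [k], r.2), mem_graftSet.2 (Or.inr ⟨k, hk, r, hr, rfl⟩), ?_⟩
          change (r.2, graft x Yx (r.1 ++ [k], r.2)) = q
          rw [hword k r hr]
          exact h4
        · obtain ⟨k, hk, r, hr, h4⟩ := hl3 (by omega)
          exact ⟨k + 1, by simpa using hk, r, hr, h4⟩
    · intro hc k hk p hp
      cases k with
      | zero =>
        rcases mem_graftSet.1 hp with rfl | ⟨k, hk, r, hr, rfl⟩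
        · change S i (graft x Yx ([], i))
          rw [graft_root]
          rcases he with he | he
          · exact he.1
          · omega
        · change S r.2 (graft x Yx (r.1 ++ [k], r.2))
          rw [hword k r hr]
          exact hx4 (by omega) k hk r hr
      | succ k => exact hl4 (by omega) k (by simpa using hk) p hp
  induction h with
  | nil =>
    exact ⟨fun _ _ => [], fun _ => ∅, fun k hk => absurd hk (by simp), by simp, by simp, by simp⟩
  | @cons i x l a b c d h _ _ ih1 ih2 =>
    have := step i x l a b c d 0 (Or.inl ⟨h, rfl⟩) ih1 ih2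
    simpa using this
  | @special l a b c d _ _ ih1 ih2 =>
    exact step q.1 q.2 l a b c d 1 (Or.inr ⟨rfl, rfl⟩) ih1 ih2

/-- Conversely, every finite tree whose words are allowed gives a forest. -/
theorem forest_of_tree {S : Fin K → List (Fin K) → Prop} {q : Fin K × List (Fin K)}
    {Γ : Fin K → ℕ} : ∀ (n : ℕ) (i : Fin K) (Y : List ℕ × Fin K → List (Fin K))
      (F : Finset (List ℕ × Fin K)), F.card ≤ n → tree i Y = (F : Set (List ℕ × Fin K)) →
      (∀ p ∈ F, S p.2 (Y p)) → ∃ w, Forest S q Γ [i] w 0 := by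
  classical
  intro n
  induction n with
  | zero =>
    intro i Y F hF hT _
    have : (([], i) : List ℕ × Fin K) ∈ F := by
      rw [← Finset.mem_coe, ← hT, mem_tree]
      rfl
    have := Finset.card_pos.2 ⟨_, this⟩
    omega
  | succ n ih =>
    intro i Y F hF hT hS
    have hroot : (([], i) : List ℕ × Fin K) ∈ F := by
      rw [← Finset.mem_coe, ← hT, mem_tree]
      rfl
    have hword : S i (Y ([], i)) := hS _ hroot
    have hsub : ∀ k (hk : k < (Y ([], i)).length),
        ∃ w, Forest S q Γ [(Y ([], i))[k]] w 0 := by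
      intro k hk
      -- the vertices of the subtree
      have hinj : Function.Injective fun p : List ℕ × Fin K => (p.1 ++ [k], p.2) := by
        rintro ⟨u, j⟩ ⟨u', j'⟩ h
        simp only [Prod.mk.injEq, List.append_cancel_right_eq] at h
        rw [Prod.mk.injEq]
        exact h
      have hmem : ∀ p, p ∈ F.preimage (fun p : List ℕ × Fin K => (p.1 ++ [k], p.2))
          hinj.injOn ↔ p ∈ tree ((Y ([], i))[k]) (shift k Y) := by
        rintro ⟨v, j⟩
        rw [Finset.mem_preimage, ← Finset.mem_coe, ← hT, mem_tree_iff]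
        constructor
        · rintro (⟨h, _⟩ | ⟨k', hk', v', h, h'⟩)
          · simp at h
          · obtain ⟨rfl, h2⟩ := List.append_inj' h rfl
            simp only [List.cons.injEq, and_true] at h2
            subst h2
            exact h'
        · intro h
          exact Or.inr ⟨k, hk, v, rfl, h⟩
      refine ih _ (shift k Y) (F.preimage _ hinj.injOn) ?_ ?_ ?_
      · have h1 : (F.preimage (fun p : List ℕ × Fin K => (p.1 ++ [k], p.2)) hinj.injOn).card ≤
            (F.erase ([], i)).card := by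
          refine Finset.card_le_card_of_injOn (fun p => (p.1 ++ [k], p.2)) ?_ hinj.injOn
          intro p hp
          rw [Finset.mem_coe, Finset.mem_preimage] at hp
          rw [Finset.mem_coe, Finset.mem_erase]
          refine ⟨?_, hp⟩
          simp
        rw [Finset.card_erase_of_mem hroot] at h1
        omega
      · ext p
        rw [Finset.mem_coe, hmem]
      · intro p hp
        rw [Finset.mem_preimage] at hp
        exact hS _ hp
    have hall : ∀ m, m ≤ (Y ([], i)).length → ∃ w, Forest S q Γ ((Y ([], i)).drop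
        ((Y ([], i)).length - m)) w 0 := by
      intro m
      induction m with
      | zero => exact fun _ => ⟨0, by simpa using Forest.nil⟩
      | succ m ihm =>
        intro hm
        obtain ⟨w, hw⟩ := ihm (by omega)
        have hlt : (Y ([], i)).length - (m + 1) < (Y ([], i)).length := by omega
        obtain ⟨w', hw'⟩ := hsub _ hlt
        refine ⟨w' + w, ?_⟩
        have e : (Y ([], i)).drop ((Y ([], i)).length - (m + 1)) =
            [(Y ([], i))[(Y ([], i)).length - (m + 1)]] ++
              (Y ([], i)).drop ((Y ([], i)).length - m) := by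
          rw [List.drop_eq_getElem_cons hlt]
          have : (Y ([], i)).length - (m + 1) + 1 = (Y ([], i)).length - m := by omega
          rw [this]
          rfl
        rw [e]
        exact hw'.append hw
    obtain ⟨w, hw⟩ := hall _ le_rfl
    rw [Nat.sub_self, List.drop_zero] at hw
    exact ⟨_, Forest.cons hword hw Forest.nil⟩

end Pool.Agent.R977.GWTree
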