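import Mathlib

/-!
# Multitype Bienaymé-Galton-Watson trees, conditioned on a weight

Definitions used for MP_e34f63_pr, with basic measurability facts.
-/

set_option autoImplicit false

open MeasureTheory ProbabilityTheory Set
open scoped ENNReal

namespace Pool.Agent.R977.GWTree

variable {K : ℕ}

/-- Words over the alphabet `Fin K` carry the discrete sigma-algebra. -/
instance wordMeasurableSpace : MeasurableSpace (List (Fin K)) := ⊤

/-- The type of the vertex with address `u` in the tree with root type `i`, given for every
address `v` and every type `j` the word `X (v, j)` that lists the types of the children of `v` if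
`v` has type `j`. An address is the list of the child indices read from the vertex to the root:
`[]` is the root and `m :: u` is the `m`-th child of `u` (starting with `m = 0`). The value is
`none` if there is no vertex with this address. -/
def typ (i : Fin K) (X : List ℕ × Fin K → List (Fin K)) : List ℕ → Option (Fin K)
  | [] => some i
  | m :: u => (typ i X u).bind fun j => (X (u, j))[m]?

/-- The plane tree with types, as the set of all pairs (address of a vertex, type of this
vertex). -/
def tree (i : Fin K) (X : List ℕ × Fin K → List (Fin K)) : Set (List ℕ × Fin K) :=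
  {p | typ i X p.1 = some p.2}

/-- The law of the `ζ`-BGW tree with root type `i`: the words `X (u, j)` are independent with laws
`ζ j`. -/
noncomputable def treeLaw (ζ : Fin K → PMF (List (Fin K))) (i : Fin K) :
    Measure (Set (List ℕ × Fin K)) :=
  (Measure.infinitePi fun p : List ℕ × Fin K => (ζ p.2).toMeasure).map (tree i)

/-- `N_k(T)`, the number of vertices of type `k` of `T`, possibly infinite. -/
noncomputable def numType (T : Set (List ℕ × Fin K)) (k : Fin K) : ℕ∞ := {u | (u, k) ∈ T}.encard

/-- The event `Γ (N_1, ..., N_K)ᵀ = g` for a matrix `Γ` with one row, with entries in `ℕ`. As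
`Γ (N_1, ..., N_K)ᵀ` is a natural number or infinite, only the natural numbers `g` matter. -/
def weightEvent (Γ : Fin K → ℕ) (g : ℕ) : Set (Set (List ℕ × Fin K)) :=
  {T | ∑ k, (Γ k : ℕ∞) * numType T k = g}

/-- Condition (ii): for every root type `i` and every `g` such that the event
`Γ (N_1, ..., N_K)ᵀ = g` has positive probability under `ζ`, the trees conditioned on this event
have the same law under `ζ` and `ζ'`. (If the event has probability `0` under `ζ'`, then the right
side is the zero measure and the equality fails.) -/
def CondLawsAgree (Γ : Fin K → ℕ) (ζ ζ' : Fin K → PMF (List (Fin K))) : Prop :=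
  ∀ (i : Fin K) (g : ℕ), treeLaw ζ i (weightEvent Γ g) ≠ 0 →
    (treeLaw ζ i)[|weightEvent Γ g] = (treeLaw ζ' i)[|weightEvent Γ g]

/-- Condition (i): the supports of the offspring laws agree. -/
def SupportsAgree (ζ ζ' : Fin K → PMF (List (Fin K))) : Prop :=
  ∀ (i : Fin K) (x : List (Fin K)), ζ i x = 0 ↔ ζ' i x = 0

/-! ### Measurability -/

theorem measurableSet_typ (i : Fin K) (u : List ℕ) :
    ∀ j : Fin K, MeasurableSet {X : List ℕ × Fin K → List (Fin K) | typ i X u = some j} := by
  induction u with
  | nil =>
    intro j
    simp only [typ]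
    exact MeasurableSet.const _
  | cons m u ih =>
    intro j
    have h : {X : List ℕ × Fin K → List (Fin K) | typ i X (m :: u) = some j} =
        ⋃ j' : Fin K, {X | typ i X u = some j'} ∩
          (fun X : List ℕ × Fin K → List (Fin K) => X (u, j')) ⁻¹' {x | x[m]? = some j} := by
      ext X
      simp only [typ, mem_ofPred_eq, Option.bind_eq_some_iff, mem_iUnion, mem_inter_iff,
        mem_preimage]
    rw [h]
    exact MeasurableSet.iUnion fun j' => (ih j').inter
      (measurable_pi_apply _ (MeasurableSpace.measurableSet_top))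

theorem measurable_tree (i : Fin K) : Measurable (tree i) := by
  refine measurable_set_iff.2 fun p => ?_
  exact measurableSet_setOfPred.1 (measurableSet_typ i p.1 p.2)

theorem measurable_numType (k : Fin K) :
    Measurable fun T : Set (List ℕ × Fin K) => numType T k := by
  have h1 : ∀ F : Finset (List ℕ), MeasurableSet {T : Set (List ℕ × Fin K) |
      {u | (u, k) ∈ T} = (F : Set (List ℕ))} := by
    intro F
    have : {T : Set (List ℕ × Fin K) | {u | (u, k) ∈ T} = (F : Set (List ℕ))} =
        ⋂ u : List ℕ, {T | (u, k) ∈ T ↔ u ∈ F} := by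
      ext T
      simp only [mem_ofPred_eq, mem_iInter, Set.ext_iff, Finset.mem_coe]
    rw [this]
    refine MeasurableSet.iInter fun u => ?_
    by_cases hu : u ∈ F
    · simp only [hu, iff_true]
      exact measurableSet_setOfPred.2 (measurable_set_mem _)
    · simp only [hu, iff_false]
      exact (measurableSet_setOfPred.2 (measurable_set_mem _)).compl
  have hn : ∀ n : ℕ, MeasurableSet ((fun T : Set (List ℕ × Fin K) => numType T k) ⁻¹' {(n : ℕ∞)}) := by
    intro n
    have : (fun T : Set (List ℕ × Fin K) => numType T k) ⁻¹' {(n : ℕ∞)} =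
        ⋃ F : {F : Finset (List ℕ) // F.card = n}, {T | {u | (u, k) ∈ T} = (F.1 : Set (List ℕ))} := by
      ext T
      simp only [mem_preimage, mem_singleton_iff, mem_iUnion, numType, mem_ofPred_eq]
      constructor
      · intro h
        have hfin : {u | (u, k) ∈ T}.Finite := by
          rw [← encard_lt_top_iff, h]
          exact ENat.natCast_lt_top n
        refine ⟨⟨hfin.toFinset, ?_⟩, by simp⟩
        rw [← Nat.cast_inj (R := ℕ∞), ← h, hfin.encard_eq_coe_toFinset_card]
      · rintro ⟨⟨F, hF⟩, h⟩
        rw [h, encard_coe_eq_coe_finsetCard, hF]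
    rw [this]
    exact MeasurableSet.iUnion fun F => h1 F.1
  refine measurable_to_countable' fun n => ?_
  induction n using ENat.recTopCoe with
  | top =>
    have : (fun T : Set (List ℕ × Fin K) => numType T k) ⁻¹' {(⊤ : ℕ∞)} =
        (⋃ n : ℕ, (fun T : Set (List ℕ × Fin K) => numType T k) ⁻¹' {(n : ℕ∞)})ᶜ := by
      ext T
      simp only [mem_preimage, mem_singleton_iff, mem_compl_iff, mem_iUnion, not_exists]
      constructor
      · intro h n
        rw [h]
        exact (ENat.natCast_ne_top n).symm
      · intro h
        by_contra hne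
        obtain ⟨n, hn⟩ := ENat.ne_top_iff_exists.1 hne
        exact h n hn.symm
    rw [this]
    exact (MeasurableSet.iUnion hn).compl
  | coe n => exact hn n

theorem measurableSet_weightEvent (Γ : Fin K → ℕ) (g : ℕ) :
    MeasurableSet (weightEvent Γ g) := by
  have h : Measurable fun T : Set (List ℕ × Fin K) => ∑ k, (Γ k : ℕ∞) * numType T k := by
    refine Finset.measurable_sum _ fun k _ => ?_
    exact (measurable_from_top (f := fun n : ℕ∞ => (Γ k : ℕ∞) * n)).comp (measurable_numType k)
  exact h (measurableSet_singleton _)

/-! ### The probability of a finite tree -/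

theorem mem_tree {i : Fin K} {X : List ℕ × Fin K → List (Fin K)} {u : List ℕ} {j : Fin K} :
    (u, j) ∈ tree i X ↔ typ i X u = some j := Iff.rfl

theorem typ_eq_of_tree_eq {i : Fin K} {X Y : List ℕ × Fin K → List (Fin K)}
    (h : tree i X = tree i Y) (u : List ℕ) : typ i X u = typ i Y u := by
  have h1 : ∀ j, typ i X u = some j ↔ typ i Y u = some j := fun j => by
    rw [← mem_tree, ← mem_tree, h]
  cases hX : typ i X u with
  | none =>
    cases hY : typ i Y u with
    | none => rfl
    | some j => rw [(h1 j).2 hY] at hX; exact absurd hX (by simp)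
  | some j => rw [(h1 j).1 hX]

theorem tree_eq_iff {i : Fin K} {X Y : List ℕ × Fin K → List (Fin K)} :
    tree i X = tree i Y ↔ ∀ p ∈ tree i Y, X p = Y p := by
  constructor
  · rintro h ⟨u, j⟩ hp
    have hY : typ i Y u = some j := hp
    have hX : typ i X u = some j := by rw [typ_eq_of_tree_eq h, hY]
    apply List.ext_getElem?
    intro m
    have hm := typ_eq_of_tree_eq h (m :: u)
    simp only [typ, hX, hY, Option.bind_some] at hm
    exact hm
  · intro h
    have h1 : ∀ u, typ i X u = typ i Y u := by
      intro u
      induction u with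
      | nil => rfl
      | cons m u ih =>
        simp only [typ]
        rw [ih]
        cases hY : typ i Y u with
        | none => rfl
        | some j =>
          simp only [Option.bind_some]
          rw [h (u, j) hY]
    ext ⟨u, j⟩
    rw [mem_tree, mem_tree, h1]

theorem preimage_tree {i : Fin K} (Y : List ℕ × Fin K → List (Fin K)) :
    tree i ⁻¹' {tree i Y} = Set.pi (tree i Y) fun p => {Y p} := by
  ext X
  rw [mem_preimage, mem_singleton_iff, tree_eq_iff]
  simp [Set.mem_pi]

theorem measurableSet_singleton_tree (T : Set (List ℕ × Fin K)) :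
    MeasurableSet ({T} : Set (Set (List ℕ × Fin K))) := by
  have : ({T} : Set (Set (List ℕ × Fin K))) = ⋂ p : List ℕ × Fin K, {T' | p ∈ T' ↔ p ∈ T} := by
    ext T'
    simp only [mem_singleton_iff, mem_iInter, mem_ofPred_eq, Set.ext_iff]
  rw [this]
  refine MeasurableSet.iInter fun p => ?_
  by_cases hp : p ∈ T
  · simp only [hp, iff_true]
    exact measurableSet_setOfPred.2 (measurable_set_mem _)
  · simp only [hp, iff_false]
    exact (measurableSet_setOfPred.2 (measurable_set_mem _)).compl

/-- The probability of a finite tree is the product of the probabilities of its words. -/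
theorem treeLaw_singleton (ζ : Fin K → PMF (List (Fin K))) (i : Fin K)
    (Y : List ℕ × Fin K → List (Fin K)) (F : Finset (List ℕ × Fin K))
    (hF : tree i Y = (F : Set (List ℕ × Fin K))) :
    treeLaw ζ i {(F : Set (List ℕ × Fin K))} = ∏ p ∈ F, ζ p.2 (Y p) := by
  unfold treeLaw
  rw [Measure.map_apply (measurable_tree i) (measurableSet_singleton_tree _), ← hF, preimage_tree,
    hF, Measure.infinitePi_pi]
  · refine Finset.prod_congr rfl fun p _ => ?_
    rw [PMF.toMeasure_apply_singleton _ _ MeasurableSpace.measurableSet_top]
  · exact fun _ _ => MeasurableSpace.measurableSet_top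

/-- A set that is not the tree of any family of words has probability zero. -/
theorem treeLaw_singleton_of_not (ζ : Fin K → PMF (List (Fin K))) (i : Fin K)
    (T : Set (List ℕ × Fin K)) (hT : ∀ Y, tree i Y ≠ T) : treeLaw ζ i {T} = 0 := by
  unfold treeLaw
  rw [Measure.map_apply (measurable_tree i) (measurableSet_singleton_tree _)]
  have : tree i ⁻¹' {T} = (∅ : Set (List ℕ × Fin K → List (Fin K))) := by
    ext X
    simp only [mem_preimage, mem_singleton_iff, mem_empty_iff_false, iff_false]
    exact hT X
  rw [this, measure_empty]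

instance (ζ : Fin K → PMF (List (Fin K))) (i : Fin K) : IsProbabilityMeasure (treeLaw ζ i) := by
  unfold treeLaw
  exact Measure.isProbabilityMeasure_map (measurable_tree i).aemeasurable

/-- The number of vertices is one plus the sum of the lengths of the words. -/
theorem card_tree {i : Fin K} {Y : List ℕ × Fin K → List (Fin K)}
    {F : Finset (List ℕ × Fin K)} (hF : tree i Y = (F : Set (List ℕ × Fin K))) :
    F.card = 1 + ∑ p ∈ F, (Y p).length := by
  classical
  have hmem : ∀ u j, (u, j) ∈ F ↔ typ i Y u = some j := fun u j => by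
    rw [← Finset.mem_coe, ← hF, mem_tree]
  have hroot : (([], i) : List ℕ × Fin K) ∈ F := (hmem _ _).2 rfl
  have h1 : F.erase ([], i) = F.biUnion fun p =>
      (Finset.univ : Finset (Fin (Y p).length)).image fun m => (m.1 :: p.1, (Y p).get m) := by
    ext ⟨u, j⟩
    simp only [Finset.mem_erase, Finset.mem_biUnion, Finset.mem_image, Finset.mem_univ, true_and,
      Prod.mk.injEq, ne_eq]
    constructor
    · rintro ⟨hne, hm⟩
      rw [hmem] at hm
      cases u with
      | nil =>
        simp only [typ, Option.some.injEq] at hm
        exact absurd ⟨rfl, hm.symm⟩ hne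
      | cons m u =>
        simp only [typ, Option.bind_eq_some_iff] at hm
        obtain ⟨j', h1, h2⟩ := hm
        obtain ⟨hlt, h3⟩ := List.getElem?_eq_some_iff.1 h2
        exact ⟨(u, j'), (hmem _ _).2 h1, ⟨m, hlt⟩, rfl, h3⟩
    · rintro ⟨⟨v, j'⟩, hv, m, h1, h2⟩
      subst h1
      refine ⟨by simp, ?_⟩
      rw [hmem] at hv ⊢
      simp only [typ, hv, Option.bind_some]
      rw [List.getElem?_eq_some_iff]
      exact ⟨m.2, h2⟩
  have h2 : (F.erase ([], i)).card = ∑ p ∈ F, (Y p).length := by
    rw [h1, Finset.card_biUnion]
    · refine Finset.sum_congr rfl fun p _ => ?_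
      rw [Finset.card_image_of_injective, Finset.card_univ, Fintype.card_fin]
      intro m m' h
      simp only [Prod.mk.injEq, List.cons.injEq, and_true] at h
      exact Fin.ext h.1
    · rintro ⟨u, j⟩ hp ⟨u', j'⟩ hp' hne
      rw [Function.onFun, Finset.disjoint_left]
      intro q hq hq'
      simp only [Finset.mem_image, Finset.mem_univ, true_and] at hq hq'
      obtain ⟨m, hm⟩ := hq
      obtain ⟨m', hm'⟩ := hq'
      rw [← hm'] at hm
      simp only [Prod.mk.injEq, List.cons.injEq] at hm
      obtain ⟨⟨_, h3⟩, _⟩ := hm
      subst h3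
      apply hne
      have e1 := (hmem _ _).1 hp
      have e2 := (hmem _ _).1 hp'
      rw [e1] at e2
      simp only [Option.some.injEq] at e2
      rw [e2]
  rw [← h2, Finset.card_erase_of_mem hroot]
  have : 0 < F.card := Finset.card_pos.2 ⟨_, hroot⟩
  omega

theorem countable_finite_trees : {T : Set (List ℕ × Fin K) | T.Finite}.Countable := by
  have := Set.countable_ofPred_finite_subset (s := (Set.univ : Set (List ℕ × Fin K)))
    Set.countable_univ
  simpa using this

theorem measure_eq_tsum_singleton (μ : Measure (Set (List ℕ × Fin K)))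
    {B : Set (Set (List ℕ × Fin K))} (hB : B.Countable) : μ B = ∑' T : B, μ {T.1} := by
  have h := measure_biUnion (μ := μ) (f := fun T => ({T} : Set (Set (List ℕ × Fin K)))) hB
    (fun a _ b _ hab => by simpa [Function.onFun] using hab)
    (fun T _ => measurableSet_singleton_tree T)
  rwa [Set.biUnion_of_singleton] at h

/-- If `μ' = c μ` on the singletons of a set `E` of finite trees, then the conditional laws given
`E` agree. -/
theorem cond_eq_of_ratio {μ μ' : Measure (Set (List ℕ × Fin K))}
    {E : Set (Set (List ℕ × Fin K))} (hE : MeasurableSet E) (hfin : ∀ T ∈ E, T.Finite)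
    {c : ℝ≥0∞} (hc0 : c ≠ 0) (hc : c ≠ ∞) (h : ∀ T ∈ E, μ' {T} = c * μ {T}) :
    μ[|E] = μ'[|E] := by
  have hB : ∀ B : Set (Set (List ℕ × Fin K)), B ⊆ E → μ' B = c * μ B := by
    intro B hBE
    have hcB : B.Countable := countable_finite_trees.mono fun T hT => hfin T (hBE hT)
    rw [measure_eq_tsum_singleton μ' hcB, measure_eq_tsum_singleton μ hcB, ← ENNReal.tsum_mul_left]
    exact tsum_congr fun T => h T.1 (hBE T.2)
  ext A _
  rw [cond_apply hE, cond_apply hE, hB E subset_rfl, hB _ inter_subset_left,
    ENNReal.mul_inv (Or.inl hc0) (Or.inl hc)]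
  calc (μ E)⁻¹ * μ (E ∩ A) = (c⁻¹ * c) * ((μ E)⁻¹ * μ (E ∩ A)) := by
        rw [ENNReal.inv_mul_cancel hc0 hc, one_mul]
    _ = c⁻¹ * (μ E)⁻¹ * (c * μ (E ∩ A)) := by ring

theorem encard_eq_sum (T : Set (List ℕ × Fin K)) : T.encard = ∑ k, numType T k := by
  classical
  have h : ∀ s : Finset (Fin K), {p ∈ T | p.2 ∈ s}.encard = ∑ k ∈ s, numType T k := by
    intro s
    induction s using Finset.induction_on with
    | empty => simp
    | insert k s hk ih =>
      rw [Finset.sum_insert hk, ← ih]
      have h1 : {p ∈ T | p.2 ∈ insert k s} =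
          ((fun u : List ℕ => (u, k)) '' {u | (u, k) ∈ T}) ∪ {p ∈ T | p.2 ∈ s} := by
        ext ⟨u, j⟩
        simp only [Finset.mem_insert, mem_ofPred_eq, mem_union, mem_image, Prod.mk.injEq]
        constructor
        · rintro ⟨h1, h2 | h2⟩
          · subst h2
            exact Or.inl ⟨u, h1, rfl, rfl⟩
          · exact Or.inr ⟨h1, h2⟩
        · rintro (⟨v, h1, h2, h3⟩ | ⟨h1, h2⟩)
          · subst h2
            subst h3
            exact ⟨h1, Or.inl rfl⟩
          · exact ⟨h1, Or.inr h2⟩
      rw [h1, encard_union_eq]
      · rw [Function.Injective.encard_image]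
        · rfl
        · intro u v huv
          exact (Prod.mk.inj huv).1
      · rw [Set.disjoint_left]
        rintro ⟨u, j⟩ h1 h2
        simp only [mem_image, Prod.mk.injEq] at h1
        obtain ⟨v, _, _, h3⟩ := h1
        subst h3
        exact hk h2.2
  have := h Finset.univ
  simpa using this

end Pool.Agent.R977.GWTree
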