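import Mathlib

/-! Algebra for MP_31dc4f: the double recursion `G` and the trace identity. -/

namespace R977MH

open Finset

section algebra
variable {R : Type*} [CommRing R]

/-- `G y i k` stands for `e† M^k M'^i e` with `M' = (1 - e e†) M`, in terms of `y k = e† M^k e`. -/
def G (y : ℕ → R) : ℕ → ℕ → R
  | 0, k => y k
  | (i+1), k => G y i (k+1) - y k * G y i 1

/-- trace defect `tr M^p - tr M'^p`. -/
def c (y : ℕ → R) (p : ℕ) : R := ∑ i ∈ range p, G y i (p - i)

lemma G_map {S : Type*} [CommRing S] (f : R →+* S) (y : ℕ → R) (i k : ℕ) :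
    G (fun n => f (y n)) i k = f (G y i k) := by
  induction i generalizing k with
  | zero => rfl
  | succ i ih => simp only [G]; rw [ih, ih, map_sub, map_mul]

lemma c_map {S : Type*} [CommRing S] (f : R →+* S) (y : ℕ → R) (p : ℕ) :
    c (fun n => f (y n)) p = f (c y p) := by
  unfold c
  rw [map_sum]
  exact sum_congr rfl fun i _ => G_map f y i _

end algebra

lemma G_bound (y : ℕ → ℂ) (hy : ∀ k, ‖y k‖ ≤ 1) (i k : ℕ) : ‖G y i k‖ ≤ 2 ^ i := by
  induction i generalizing k with
  | zero => simpa [G] using hy k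
  | succ i ih =>
    simp only [G]
    calc ‖G y i (k+1) - y k * G y i 1‖ ≤ ‖G y i (k+1)‖ + ‖y k * G y i 1‖ := norm_sub_le _ _
      _ ≤ 2 ^ i + 1 * 2 ^ i := by
        rw [norm_mul]
        gcongr
        · exact ih _
        · exact hy k
        · exact ih 1
      _ = 2 ^ (i+1) := by ring

lemma G_lip (y y' : ℕ → ℂ) (hy : ∀ k, ‖y k‖ ≤ 1) (hy' : ∀ k, ‖y' k‖ ≤ 1) (i k : ℕ) :
    ‖G y i k - G y' i k‖ ≤ 4 ^ i * ∑ j ∈ range (k + i + 1), ‖y j - y' j‖ := by
  induction i generalizing k with
  | zero =>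
    simp only [G, pow_zero, one_mul, Nat.add_zero]
    exact single_le_sum (f := fun j => ‖y j - y' j‖) (fun j _ => norm_nonneg _)
      (mem_range.2 (Nat.lt_succ_self k))
  | succ i ih =>
    have e : G y (i+1) k - G y' (i+1) k = (G y i (k+1) - G y' i (k+1))
        - (y k - y' k) * G y i 1 - y' k * (G y i 1 - G y' i 1) := by
      simp only [G]; ring
    have h1 := ih (k+1)
    have h2 := ih 1
    have hS1 : k + 1 + i + 1 = k + (i+1) + 1 := by ring
    rw [hS1] at h1
    set S := ∑ j ∈ range (k + (i+1) + 1), ‖y j - y' j‖ with hS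
    have h3 : ∑ j ∈ range (1 + i + 1), ‖y j - y' j‖ ≤ S := by
      apply sum_le_sum_of_subset_of_nonneg
      · intro j hj; rw [mem_range] at hj ⊢; omega
      · intros; exact norm_nonneg _
    have h4 : ‖y k - y' k‖ ≤ S :=
      single_le_sum (f := fun j => ‖y j - y' j‖) (fun j _ => norm_nonneg _)
        (mem_range.2 (by omega))
    have hS0 : 0 ≤ S := sum_nonneg fun j _ => norm_nonneg _
    have h24 : (2:ℝ)^i ≤ 4^i := pow_le_pow_left₀ (by norm_num) (by norm_num) i
    have h40 : (0:ℝ) ≤ 4^i := by positivity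
    rw [e]
    calc ‖(G y i (k+1) - G y' i (k+1)) - (y k - y' k) * G y i 1 - y' k * (G y i 1 - G y' i 1)‖
        ≤ ‖G y i (k+1) - G y' i (k+1)‖ + ‖(y k - y' k) * G y i 1‖
          + ‖y' k * (G y i 1 - G y' i 1)‖ := by
          refine (norm_sub_le _ _).trans ?_
          gcongr
          exact norm_sub_le _ _
      _ ≤ 4^i * S + S * 2^i + 1 * (4^i * S) := by
          rw [norm_mul, norm_mul]
          have := G_bound y hy i 1
          gcongr
          · exact hy' k
          · exact h2.trans (by gcongr)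
      _ ≤ 4^(i+1) * S := by
          have : S * 2^i ≤ S * 4^i := by gcongr
          have : 0 ≤ 4^i * S := by positivity
          rw [pow_succ]
          nlinarith

lemma c_lip (y y' : ℕ → ℂ) (hy : ∀ k, ‖y k‖ ≤ 1) (hy' : ∀ k, ‖y' k‖ ≤ 1) (p : ℕ) :
    ‖c y p - c y' p‖ ≤ 4 ^ p * ∑ j ∈ range (p + 1), ‖y j - y' j‖ := by
  unfold c
  rw [← sum_sub_distrib]
  set S := ∑ j ∈ range (p + 1), ‖y j - y' j‖ with hS
  have hS0 : 0 ≤ S := sum_nonneg fun j _ => norm_nonneg _
  have hg : ∀ n : ℕ, ∑ i ∈ range n, (4:ℝ)^i ≤ 4^n := by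
    intro n
    induction n with
    | zero => simp
    | succ n ih =>
      rw [sum_range_succ, pow_succ]
      have : (0:ℝ) ≤ 4^n := by positivity
      linarith
  calc ‖∑ i ∈ range p, (G y i (p - i) - G y' i (p - i))‖
      ≤ ∑ i ∈ range p, ‖G y i (p - i) - G y' i (p - i)‖ := norm_sum_le _ _
    _ ≤ ∑ i ∈ range p, 4^i * S := by
        apply sum_le_sum
        intro i hi
        rw [mem_range] at hi
        have := G_lip y y' hy hy' i (p - i)
        have e : p - i + i + 1 = p + 1 := by omega
        rwa [e] at this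
    _ = (∑ i ∈ range p, (4:ℝ)^i) * S := by rw [sum_mul]
    _ ≤ 4^p * S := by gcongr; exact hg p

section trace
variable {n : Type*} [Fintype n] [DecidableEq n]

/-- noncommutative telescoping -/
lemma pow_sub_pow_tele {A : Type*} [Ring A] (M M' : A) (p : ℕ) :
    M ^ p - M' ^ p = ∑ i ∈ range p, M' ^ i * (M - M') * M ^ (p - 1 - i) := by
  induction p with
  | zero => simp
  | succ p ih =>
    rw [sum_range_succ']
    have : ∑ k ∈ range p, M' ^ (k + 1) * (M - M') * M ^ (p + 1 - 1 - (k + 1))
        = M' * ∑ i ∈ range p, M' ^ i * (M - M') * M ^ (p - 1 - i) := by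
      rw [mul_sum]
      apply sum_congr rfl
      intro k hk
      have e : p + 1 - 1 - (k+1) = p - 1 - k := by omega
      rw [e, pow_succ']
      simp only [mul_assoc]
    rw [this, ← ih]
    simp only [pow_zero, one_mul, Nat.add_sub_cancel, Nat.sub_zero]
    rw [pow_succ', pow_succ']
    noncomm_ring

/-- For `E` with `E A E = tr(E A) E` (rank one projection), `M' = M - E M`. -/
lemma trace_G {M E : Matrix n n ℂ} (hE : ∀ A : Matrix n n ℂ, E * A * E = (E * A).trace • E)
    (i k : ℕ) :
    (E * M ^ k * (M - E * M) ^ i).trace = G (fun k => (E * M ^ k).trace) i k := by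
  induction i generalizing k with
  | zero => simp [G]
  | succ i ih =>
    simp only [G]
    rw [← ih, ← ih, pow_succ' (M - E * M)]
    have : E * M ^ k * ((M - E * M) * (M - E * M) ^ i)
        = E * M ^ (k+1) * (M - E * M) ^ i
          - (E * M ^ k).trace • (E * M ^ 1 * (M - E * M) ^ i) := by
      have h := hE (M ^ k)
      rw [pow_succ, pow_one]
      calc E * M ^ k * ((M - E * M) * (M - E * M) ^ i)
          = E * (M ^ k * M) * (M - E * M) ^ i - (E * M ^ k * E) * (M * (M - E * M) ^ i) := by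
            noncomm_ring
        _ = _ := by
            rw [h, Matrix.smul_mul]
            simp only [Matrix.mul_assoc]
    rw [this, Matrix.trace_sub, Matrix.trace_smul, smul_eq_mul]

/-- The trace identity. -/
lemma trace_defect {M E : Matrix n n ℂ} (hE : ∀ A : Matrix n n ℂ, E * A * E = (E * A).trace • E)
    (p : ℕ) :
    (M ^ p).trace - ((M - E * M) ^ p).trace = c (fun k => (E * M ^ k).trace) p := by
  rw [← Matrix.trace_sub, pow_sub_pow_tele, Matrix.trace_sum]
  unfold c
  apply sum_congr rfl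
  intro i hi
  rw [mem_range] at hi
  rw [← trace_G hE]
  have e : M - (M - E * M) = E * M := by noncomm_ring
  rw [e]
  have h1 : p - i = (p - 1 - i) + 1 := by omega
  rw [h1, pow_succ' M]
  rw [Matrix.mul_assoc ((M - E * M)^i), Matrix.trace_mul_comm]
  simp only [Matrix.mul_assoc]

end trace

end R977MH
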