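import Pool.Agent.R977.MH9

/-! Spectral side. -/

namespace R977MH

open Finset Matrix

variable {N : ℕ}

lemma eig_decomp (A : Matrix (Fin N) (Fin N) ℂ) (hA : A.IsHermitian) :
    A = rot (diagonal (fun i => ((hA.eigenvalues i : ℝ) : ℂ))) hA.eigenvectorUnitary := by
  have h := hA.spectral_theorem
  rw [Unitary.conjStarAlgAut_apply] at h
  exact h

lemma eig_decomp' (A : Matrix (Fin N) (Fin N) ℂ) (hA : A.IsHermitian) :
    rot A (star hA.eigenvectorUnitary) = diagonal (fun i => ((hA.eigenvalues i : ℝ) : ℂ)) := by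
  have h := hA.conjStarAlgAut_star_eigenvectorUnitary
  rw [Unitary.conjStarAlgAut_apply] at h
  exact h

lemma trace_pow_eig (A : Matrix (Fin N) (Fin N) ℂ) (hA : A.IsHermitian) (q : ℕ) :
    (A ^ q).trace = ((∑ i, (hA.eigenvalues i) ^ q : ℝ) : ℂ) := by
  conv_lhs => rw [eig_decomp A hA]
  rw [← rot_pow, rot_trace, diagonal_pow, trace_diagonal]
  push_cast
  rfl

open scoped Matrix.Norms.L2Operator in
lemma eig_abs_le (A : Matrix (Fin N) (Fin N) ℂ) (hA : A.IsHermitian) (hn : ‖A‖ ≤ 1) (i : Fin N) :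
    |hA.eigenvalues i| ≤ 1 := by
  have h1 := Q_norm_le (rot A (star hA.eigenvectorUnitary)) (Pi.single i 1) (by simp)
  rw [Q_single, rot_norm, eig_decomp', diagonal_apply_eq, Complex.norm_real, Real.norm_eq_abs] at h1
  exact h1.trans hn

open scoped ComplexOrder in
lemma prodB_eig_mem (P : Matrix (Fin N) (Fin N) ℂ) (h1 : Pᴴ = P) (h2 : P * P = P)
    (S : ℕ → Matrix.unitaryGroup (Fin N) ℂ) (L : ℕ) (i : Fin N) :
    (isHermitian_conjTranspose_mul_self (prodB P S L)).eigenvalues i ∈ Set.Icc (0:ℝ) 1 := by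
  constructor
  · exact (posSemidef_conjTranspose_mul_self (prodB P S L)).eigenvalues_nonneg i
  · refine (le_abs_self _).trans (eig_abs_le _ _ ?_ i)
    open scoped Matrix.Norms.L2Operator in
    have h := prodB_norm P h1 h2 S L
    open scoped Matrix.Norms.L2Operator in
    calc _ = ‖prodB P S L‖ * ‖prodB P S L‖ := Matrix.l2_opNorm_conjTranspose_mul_self _
      _ ≤ 1 * 1 := by gcongr
      _ = 1 := by norm_num

lemma trace_BB (B : Matrix (Fin N) (Fin N) ℂ) (q : ℕ) :
    ((Bᴴ * B) ^ q).trace = ((B * Bᴴ) ^ q).trace := by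
  cases q with
  | zero => simp
  | succ q =>
    have h : ∀ q : ℕ, (Bᴴ * B) ^ (q+1) = Bᴴ * (B * Bᴴ) ^ q * B := by
      intro q
      induction q with
      | zero => simp
      | succ q ih =>
        rw [pow_succ, ih, pow_succ (B * Bᴴ)]
        simp only [Matrix.mul_assoc]
    rw [h, Matrix.mul_assoc, Matrix.trace_mul_comm, Matrix.mul_assoc, ← pow_succ]

/-- `∫ f dμ_{N,L}`: the average of `f` over the eigenvalues of `B_L† B_L`. -/
noncomputable def empInt (P : Matrix (Fin N) (Fin N) ℂ) (S : ℕ → Matrix.unitaryGroup (Fin N) ℂ)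
    (L : ℕ) (f : ℝ → ℝ) : ℝ :=
  (1 / (N:ℝ)) * ∑ k, f ((isHermitian_conjTranspose_mul_self (prodB P S L)).eigenvalues k)

lemma empInt_pow (P : Matrix (Fin N) (Fin N) ℂ) (S : ℕ → Matrix.unitaryGroup (Fin N) ℂ) (L q : ℕ) :
    ((empInt P S L (fun x => x ^ q) : ℝ) : ℂ) = mN P S L q := by
  unfold empInt mN XX
  rw [← trace_BB, trace_pow_eig _ (isHermitian_conjTranspose_mul_self (prodB P S L))]
  push_cast
  ring

/-- structure of a rank `N-1` orthogonal projection -/
lemma proj_struct (hN : 0 < N) (P : Matrix (Fin N) (Fin N) ℂ) (h1 : P.IsHermitian) (h2 : P * P = P)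
    (h3 : P.rank = N - 1) : ∃ e : Fin N → ℂ, star e ⬝ᵥ e = 1 ∧ P = 1 - E1 e := by
  have hdec := eig_decomp P h1
  have hdec' := eig_decomp' P h1
  set V := h1.eigenvectorUnitary with hV
  have hidem : ∀ i, h1.eigenvalues i * h1.eigenvalues i = h1.eigenvalues i := by
    intro i
    have h4 : rot P (star V) * rot P (star V) = rot P (star V) := by
      have h5 := rot_pow P (star V) 2
      rw [pow_two, pow_two, h2] at h5
      exact h5.symm
    rw [hdec', diagonal_mul_diagonal] at h4
    have h6 := congrFun (congrFun h4 i) i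
    rw [diagonal_apply_eq, diagonal_apply_eq] at h6
    exact_mod_cast h6
  have hcard := h1.rank_eq_card_non_zero_eigs
  rw [h3] at hcard
  have hc1 : Fintype.card {i // ¬ (h1.eigenvalues i ≠ 0)} = 1 := by
    rw [Fintype.card_subtype_compl, ← hcard, Fintype.card_fin]
    omega
  obtain ⟨⟨i0, hi0⟩, huniq⟩ := Fintype.card_eq_one_iff.1 hc1
  have hi0' : h1.eigenvalues i0 = 0 := not_not.1 hi0
  have hother : ∀ i, i ≠ i0 → h1.eigenvalues i = 1 := by
    intro i hi
    by_contra hne
    have h4 : h1.eigenvalues i = 0 := by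
      have := hidem i
      have h5 : h1.eigenvalues i * (h1.eigenvalues i - 1) = 0 := by linarith
      rcases mul_eq_zero.1 h5 with h6 | h6
      · exact h6
      · exact absurd (by linarith) hne
    have := huniq ⟨i, not_not.2 h4⟩
    exact hi (congrArg Subtype.val this)
  refine ⟨(V : Matrix (Fin N) (Fin N) ℂ) *ᵥ Pi.single i0 1, ?_, ?_⟩
  · have h := Q_mulVec (V : Matrix (Fin N) (Fin N) ℂ) (Pi.single i0 1) 1
    unfold Q at h
    rw [one_mulVec] at h
    rw [h]
    have h' : (V : Matrix (Fin N) (Fin N) ℂ)ᴴ * (V : Matrix (Fin N) (Fin N) ℂ) = 1 :=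
      Matrix.mem_unitaryGroup_iff'.1 V.2
    rw [Matrix.mul_one, h', one_mulVec]
    simp
  · have hD : diagonal (fun i => ((h1.eigenvalues i : ℝ) : ℂ)) = 1 - E1 (Pi.single i0 1) := by
      ext i j
      rw [Matrix.sub_apply, diagonal_apply, Matrix.one_apply]
      unfold E1
      rw [vecMulVec_apply]
      by_cases hij : i = j
      · subst hij
        rw [if_pos rfl, if_pos rfl]
        by_cases hi : i = i0
        · subst hi; simp [hi0']
        · rw [hother i hi]; simp [hi]
      · rw [if_neg hij, if_neg hij]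
        by_cases hi : i = i0
        · subst hi
          have : j ≠ i := fun h => hij h.symm
          simp [this]
        · simp [hi]
    have hE : E1 ((V : Matrix (Fin N) (Fin N) ℂ) *ᵥ Pi.single i0 1) = rot (E1 (Pi.single i0 1)) V := by
      unfold E1 rot
      rw [mul_vecMulVec, vecMulVec_mul, star_mulVec]
    have h' : (V : Matrix (Fin N) (Fin N) ℂ) * (V : Matrix (Fin N) (Fin N) ℂ)ᴴ = 1 :=
      Matrix.mem_unitaryGroup_iff.1 V.2
    rw [hE]
    conv_lhs => rw [hdec, hD]
    unfold rot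
    rw [Matrix.mul_sub, Matrix.sub_mul, Matrix.mul_one, h']

end R977MH
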