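import Pool.Agent.R977.MH10

/-! Convergence of moments and of the empirical law. -/

namespace R977MH

open Finset Matrix MeasureTheory ProbabilityTheory Filter Topology

/-- `m_p(τ)` of the problem file. -/
noncomputable def mTau (p : ℕ) (τ : ℝ) : ℝ :=
  Real.exp (-(p * τ)) * ∑ k ∈ range p, (1 - (k:ℝ) / p) * ((p * τ) ^ k / (k.factorial : ℝ))

/-- `μ = μ_τ`: a probability measure on `[0,1]` with the moments `m_p(τ)`, `p ≥ 1`. -/
def IsMuTau (τ : ℝ) (μ : Measure ℝ) : Prop :=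
  IsProbabilityMeasure μ ∧ μ (Set.Icc 0 1)ᶜ = 0 ∧ ∀ p : ℕ, 1 ≤ p → ∫ x, x ^ p ∂μ = mTau p τ

section main
universe v
variable {Ω : ℕ → Type v} [mΩ : ∀ N, MeasurableSpace (Ω N)] (Pr : ∀ N, Measure (Ω N))
  [hPr : ∀ N, IsProbabilityMeasure (Pr N)]
  [mU : ∀ N, MeasurableSpace (Matrix.unitaryGroup (Fin N) ℂ)]
  [bU : ∀ N, BorelSpace (Matrix.unitaryGroup (Fin N) ℂ)]
  (S : ∀ N, ℕ → Ω N → Matrix.unitaryGroup (Fin N) ℂ) (hmeas : ∀ N i, Measurable (S N i))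
  (hind : ∀ N, iIndepFun (S N) (Pr N))
  (hHaar : ∀ N i, ((Pr N).map (S N i)).IsMulLeftInvariant)
  (P : ∀ N, Matrix (Fin N) (Fin N) ℂ)
  (hP : ∀ N, 2 ≤ N → (P N).IsHermitian ∧ P N * P N = P N ∧ (P N).rank = N - 1)
  (L : ℕ → ℕ) (τ : ℝ) (hL : Tendsto (fun N => (L N : ℝ) / N) atTop (𝓝 τ))

/-- the error bound -/
noncomputable def bnd (Qm : ℕ) (L N : ℕ) : ℝ :=
  L * (((Qm+1) * (4 ^ Qm * ((Qm+1) * (Real.sqrt (N + 1))⁻¹)) + (Qm+1) * (Qm / N)) / N)
        * Real.exp ((Qm+1) * 4 ^ Qm / N * L)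

include hL in
lemma bnd_tendsto (Qm : ℕ) : Tendsto (fun N => bnd Qm (L N) N) atTop (𝓝 0) := by
  have h1 : ∀ N, bnd Qm (L N) N = ((L N : ℝ) / N) *
      ((Qm+1) * (4 ^ Qm * ((Qm+1) * (Real.sqrt (N + 1))⁻¹)) + (Qm+1) * (Qm / N))
      * Real.exp ((Qm+1) * 4 ^ Qm * ((L N : ℝ) / N)) := by
    intro N
    unfold bnd
    have e1 : ((Qm:ℝ)+1) * 4 ^ Qm / N * (L N) = (Qm+1) * 4 ^ Qm * ((L N : ℝ) / N) := by ring
    rw [e1]
    ring
  simp_rw [h1]
  have hs : Tendsto (fun N : ℕ => (Real.sqrt ((N:ℝ) + 1))⁻¹) atTop (𝓝 0) := by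
    apply Tendsto.inv_tendsto_atTop
    apply Real.tendsto_sqrt_atTop.comp
    exact tendsto_atTop_add_const_right _ _ tendsto_natCast_atTop_atTop
  have hq : Tendsto (fun N : ℕ => (Qm:ℝ) / N) atTop (𝓝 0) := tendsto_const_div_atTop_nhds_zero_nat _
  have h2 := ((hs.const_mul ((Qm:ℝ)+1)).const_mul ((4:ℝ) ^ Qm)).const_mul ((Qm:ℝ)+1)
  have h3 := hq.const_mul ((Qm:ℝ)+1)
  have h4 := h2.add h3
  have h5 : Tendsto (fun N => Real.exp (((Qm:ℝ)+1) * 4 ^ Qm * ((L N : ℝ) / N))) atTop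
      (𝓝 (Real.exp (((Qm:ℝ)+1) * 4 ^ Qm * τ))) :=
    (Real.continuous_exp.tendsto _).comp (hL.const_mul _)
  have h6 := (hL.mul h4).mul h5
  simpa using h6

include hmeas hind hHaar hP hL in
/-- all moments converge in L¹ -/
lemma moment_conv (j : ℕ) : Tendsto (fun N => ∫ ω, ‖mN (P N) (fun i => S N i ω) (L N) j
    - ((mm τ j : ℝ) : ℂ)‖ ∂(Pr N)) atTop (𝓝 0) := by
  have hmmc : Tendsto (fun N => |mm ((L N : ℝ) / N) j - mm τ j|) atTop (𝓝 0) := by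
    have h1 : Tendsto (fun N => mm ((L N : ℝ) / N) j) atTop (𝓝 (mm τ j)) :=
      ((mm_continuous j).tendsto τ).comp hL
    have h2 := (h1.sub_const (mm τ j)).abs
    simpa using h2
  have hb := (bnd_tendsto L τ hL j).add hmmc
  rw [add_zero] at hb
  refine squeeze_zero' (Eventually.of_forall fun N => integral_nonneg fun _ => norm_nonneg _) ?_ hb
  filter_upwards [eventually_ge_atTop 2] with N hN
  obtain ⟨p1, p2, p3⟩ := hP N hN
  obtain ⟨e, he, hPe⟩ := proj_struct (by omega) (P N) p1 p2 p3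
  rw [hPe]
  have hT := DD_total (Pr N) (S N) (hmeas N) (hind N) (hHaar N) e he (by omega) j (L N)
  have hD : DD (Pr N) (S N) e j (L N) ≤ bnd j (L N) N := by
    refine le_trans ?_ hT
    exact single_le_sum (f := fun q => DD (Pr N) (S N) e q (L N)) (fun q _ => DD_nonneg _ _ _ _ _)
      (mem_range.2 (Nat.lt_succ_self j))
  have hi := err_integrable (Pr N) (S N) (hmeas N) e he j (L N) ((mm ((L N : ℝ) / N) j : ℝ) : ℂ)
  calc ∫ ω, ‖mN (1 - E1 e) (fun i => S N i ω) (L N) j - ((mm τ j : ℝ) : ℂ)‖ ∂(Pr N)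
      ≤ ∫ ω, (‖mN (1 - E1 e) (fun i => S N i ω) (L N) j - ((mm ((L N : ℝ) / N) j : ℝ) : ℂ)‖
          + |mm ((L N : ℝ) / N) j - mm τ j|) ∂(Pr N) := by
        refine integral_mono (err_integrable (Pr N) (S N) (hmeas N) e he j (L N) _)
          (hi.add (integrable_const _)) ?_
        intro ω
        simp only
        have h1 : ‖((mm ((L N : ℝ) / N) j : ℝ) : ℂ) - ((mm τ j : ℝ) : ℂ)‖
            = |mm ((L N : ℝ) / N) j - mm τ j| := by
          rw [← Complex.ofReal_sub, Complex.norm_real, Real.norm_eq_abs]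
        rw [← h1]
        have h2 : mN (1 - E1 e) (fun i => S N i ω) (L N) j - ((mm τ j : ℝ) : ℂ)
            = (mN (1 - E1 e) (fun i => S N i ω) (L N) j - ((mm ((L N : ℝ) / N) j : ℝ) : ℂ))
              + (((mm ((L N : ℝ) / N) j : ℝ) : ℂ) - ((mm τ j : ℝ) : ℂ)) := by ring
        rw [h2]
        exact norm_add_le _ _
    _ = DD (Pr N) (S N) e j (L N) + |mm ((L N : ℝ) / N) j - mm τ j| := by
        rw [integral_add hi (integrable_const _)]
        simp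
        rfl
    _ ≤ _ := by gcongr

/-- weighted moment error -/
noncomputable def Gerr (N : ℕ) (a : ℕ → ℝ) (n : ℕ) (ω : Ω N) : ℝ :=
  ∑ j ∈ range n, |a j| * ‖mN (P N) (fun i => S N i ω) (L N) j - ((mm τ j : ℝ) : ℂ)‖

include hmeas hP in
lemma mom_integrable (N : ℕ) (hN : 2 ≤ N) (j : ℕ) : Integrable (fun ω =>
    ‖mN (P N) (fun i => S N i ω) (L N) j - ((mm τ j : ℝ) : ℂ)‖) (Pr N) := by
  obtain ⟨p1, p2, p3⟩ := hP N hN
  obtain ⟨e, he, hPe⟩ := proj_struct (by omega) (P N) p1 p2 p3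
  rw [hPe]
  exact err_integrable (Pr N) (S N) (hmeas N) e he j (L N) _

include hmeas hP in
lemma Gerr_integrable (N : ℕ) (hN : 2 ≤ N) (a : ℕ → ℝ) (n : ℕ) :
    Integrable (Gerr S P L τ N a n) (Pr N) := by
  unfold Gerr
  exact integrable_finsetSum _ fun j _ => (mom_integrable Pr S hmeas P hP L τ N hN j).const_mul _

lemma Gerr_nonneg (N : ℕ) (a : ℕ → ℝ) (n : ℕ) (ω : Ω N) : 0 ≤ Gerr S P L τ N a n ω := by
  unfold Gerr
  exact sum_nonneg fun j _ => by positivity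

include hmeas hind hHaar hP hL in
lemma Gerr_conv (a : ℕ → ℝ) (n : ℕ) :
    Tendsto (fun N => ∫ ω, Gerr S P L τ N a n ω ∂(Pr N)) atTop (𝓝 0) := by
  have h1 : Tendsto (fun N => ∑ j ∈ range n, |a j| * ∫ ω, ‖mN (P N) (fun i => S N i ω) (L N) j
      - ((mm τ j : ℝ) : ℂ)‖ ∂(Pr N)) atTop (𝓝 0) := by
    have h2 : ∀ j ∈ range n, Tendsto (fun N => |a j| * ∫ ω, ‖mN (P N) (fun i => S N i ω) (L N) j
      - ((mm τ j : ℝ) : ℂ)‖ ∂(Pr N)) atTop (𝓝 (|a j| * 0)) := fun j _ =>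
      (moment_conv Pr S hmeas hind hHaar P hP L τ hL j).const_mul _
    have h3 := tendsto_finsetSum (range n) h2
    simpa using h3
  refine h1.congr' ?_
  filter_upwards [eventually_ge_atTop 2] with N hN
  unfold Gerr
  rw [integral_finsetSum _ fun j _ => (mom_integrable Pr S hmeas P hP L τ N hN j).const_mul _]
  simp_rw [integral_const_mul]

end main
end R977MH
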