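import Pool.Agent.R977.MH11

/-! Convergence in probability of the empirical law. -/

namespace R977MH

open Finset Matrix MeasureTheory ProbabilityTheory Filter Topology

section mu
variable {τ : ℝ} {μ : Measure ℝ}

lemma mu_ae (h : IsMuTau τ μ) : ∀ᵐ x ∂μ, x ∈ Set.Icc (0:ℝ) 1 := by
  rw [ae_iff]
  exact h.2.1

lemma mu_restrict (h : IsMuTau τ μ) : μ.restrict (Set.Icc 0 1) = μ :=
  Measure.restrict_eq_self_of_ae_mem (mu_ae h)

lemma mu_pow_integrable (h : IsMuTau τ μ) (j : ℕ) : Integrable (fun x : ℝ => x ^ j) μ := by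
  have := h.1
  refine Integrable.of_bound (continuous_pow j).aestronglyMeasurable 1 ?_
  filter_upwards [mu_ae h] with x hx
  rw [norm_pow, Real.norm_eq_abs, abs_of_nonneg hx.1]
  exact pow_le_one₀ hx.1 hx.2

lemma mu_moment (h : IsMuTau τ μ) (j : ℕ) : ∫ x, x ^ j ∂μ = mm τ j := by
  have := h.1
  rcases Nat.eq_zero_or_pos j with rfl | hj
  · simp [mm_zero]
  · rw [h.2.2 j hj, mm_formula j hj]
    rfl

lemma mu_poly (h : IsMuTau τ μ) (p : Polynomial ℝ) :
    ∫ x in Set.Icc 0 1, p.eval x ∂μ = ∑ j ∈ range (p.natDegree + 1), p.coeff j * mm τ j := by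
  rw [mu_restrict h]
  simp_rw [Polynomial.eval_eq_sum_range]
  rw [integral_finsetSum _ fun j _ => (mu_pow_integrable h j).const_mul _]
  simp_rw [integral_const_mul, mu_moment h]

lemma mu_close (h : IsMuTau τ μ) {f : ℝ → ℝ} (hf : ContinuousOn f (Set.Icc 0 1)) (p : Polynomial ℝ)
    (η : ℝ) (hp : ∀ x ∈ Set.Icc (0:ℝ) 1, |p.eval x - f x| < η) :
    |∫ x in Set.Icc 0 1, p.eval x ∂μ - ∫ x in Set.Icc 0 1, f x ∂μ| ≤ η := by
  have := h.1
  have hfi : IntegrableOn f (Set.Icc 0 1) μ := hf.integrableOn_compact isCompact_Icc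
  have hpi : IntegrableOn (fun x => p.eval x) (Set.Icc 0 1) μ :=
    p.continuous.continuousOn.integrableOn_compact isCompact_Icc
  rw [← integral_sub hpi hfi]
  have h1 : ‖∫ x in Set.Icc 0 1, (p.eval x - f x) ∂μ‖ ≤ η * μ.real (Set.Icc 0 1) := by
    apply norm_setIntegral_le_of_norm_le_const
    · exact measure_lt_top _ _
    · intro x hx
      rw [Real.norm_eq_abs]
      exact (hp x hx).le
  have h2 : μ.real (Set.Icc 0 1) ≤ 1 := measureReal_le_one
  have hη : 0 ≤ η := (abs_nonneg _).trans (hp 0 (by simp)).le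
  rw [Real.norm_eq_abs] at h1
  refine h1.trans ?_
  nlinarith
end mu

section emp
variable {N : ℕ}

lemma emp_poly (P : Matrix (Fin N) (Fin N) ℂ) (S : ℕ → Matrix.unitaryGroup (Fin N) ℂ) (L : ℕ)
    (p : Polynomial ℝ) :
    empInt P S L (fun x => p.eval x)
      = ∑ j ∈ range (p.natDegree + 1), p.coeff j * empInt P S L (fun x => x ^ j) := by
  unfold empInt
  simp_rw [Polynomial.eval_eq_sum_range]
  rw [sum_comm, mul_sum]
  apply sum_congr rfl
  intro j _
  rw [← mul_sum]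
  ring

lemma emp_close (hN : 0 < N) (P : Matrix (Fin N) (Fin N) ℂ) (h1 : Pᴴ = P) (h2 : P * P = P)
    (S : ℕ → Matrix.unitaryGroup (Fin N) ℂ) (L : ℕ) (f g : ℝ → ℝ) (η : ℝ)
    (hp : ∀ x ∈ Set.Icc (0:ℝ) 1, |g x - f x| < η) :
    |empInt P S L g - empInt P S L f| ≤ η := by
  have hNr : (0:ℝ) < N := by exact_mod_cast hN
  unfold empInt
  rw [← mul_sub, ← sum_sub_distrib, abs_mul, abs_of_pos (by positivity : (0:ℝ) < 1 / N)]
  calc _ ≤ 1 / (N:ℝ) * ∑ k : Fin N, η := by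
        gcongr
        refine (abs_sum_le_sum_abs _ _).trans (sum_le_sum fun k _ => ?_)
        exact (hp _ (prodB_eig_mem P h1 h2 S L k)).le
    _ = η := by simp; field_simp

lemma emp_pow_err (P : Matrix (Fin N) (Fin N) ℂ) (S : ℕ → Matrix.unitaryGroup (Fin N) ℂ) (L j : ℕ)
    (t : ℝ) : |empInt P S L (fun x => x ^ j) - t| = ‖mN P S L j - ((t : ℝ) : ℂ)‖ := by
  rw [← empInt_pow, ← Complex.ofReal_sub, Complex.norm_real, Real.norm_eq_abs]

end emp

section main
universe v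
variable {Ω : ℕ → Type v} [mΩ : ∀ N, MeasurableSpace (Ω N)] (Pr : ∀ N, Measure (Ω N))
  [hPr : ∀ N, IsProbabilityMeasure (Pr N)]
  [mU : ∀ N, MeasurableSpace (Matrix.unitaryGroup (Fin N) ℂ)]
  [bU : ∀ N, BorelSpace (Matrix.unitaryGroup (Fin N) ℂ)]
  (S : ∀ N, ℕ → Ω N → Matrix.unitaryGroup (Fin N) ℂ) (hmeas : ∀ N i, Measurable (S N i))
  (hind : ∀ N, iIndepFun (S N) (Pr N))
  (hHaar : ∀ N i, ((Pr N).map (S N i)).IsMulLeftInvariant)
  (P : ∀ N, Matrix (Fin N) (Fin N) ℂ)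
  (hP : ∀ N, 2 ≤ N → (P N).IsHermitian ∧ P N * P N = P N ∧ (P N).rank = N - 1)
  (L : ℕ → ℕ) (τ : ℝ) (hL : Tendsto (fun N => (L N : ℝ) / N) atTop (𝓝 τ))

include hP in
lemma pt_bound (N : ℕ) (hN : 2 ≤ N) {μ : Measure ℝ} (hμ : IsMuTau τ μ) {f : ℝ → ℝ}
    (hf : ContinuousOn f (Set.Icc 0 1)) (p : Polynomial ℝ) (η : ℝ)
    (hp : ∀ x ∈ Set.Icc (0:ℝ) 1, |p.eval x - f x| < η) (ω : Ω N) :
    |empInt (P N) (fun i => S N i ω) (L N) f - ∫ x in Set.Icc 0 1, f x ∂μ|
      ≤ 2 * η + Gerr S P L τ N p.coeff (p.natDegree + 1) ω := by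
  obtain ⟨p1, p2, p3⟩ := hP N hN
  have h1 := emp_close (by omega) (P N) p1 p2 (fun i => S N i ω) (L N) f (fun x => p.eval x) η hp
  have h2 := mu_close hμ hf p η hp
  have h3 : |empInt (P N) (fun i => S N i ω) (L N) (fun x => p.eval x)
      - ∫ x in Set.Icc 0 1, p.eval x ∂μ| ≤ Gerr S P L τ N p.coeff (p.natDegree + 1) ω := by
    rw [emp_poly, mu_poly hμ, ← sum_sub_distrib]
    unfold Gerr
    refine (abs_sum_le_sum_abs _ _).trans (sum_le_sum fun j _ => ?_)
    rw [← mul_sub, abs_mul, emp_pow_err]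
  have e : empInt (P N) (fun i => S N i ω) (L N) f - ∫ x in Set.Icc 0 1, f x ∂μ
      = -(empInt (P N) (fun i => S N i ω) (L N) (fun x => p.eval x)
          - empInt (P N) (fun i => S N i ω) (L N) f)
        + (empInt (P N) (fun i => S N i ω) (L N) (fun x => p.eval x)
          - ∫ x in Set.Icc 0 1, p.eval x ∂μ)
        + (∫ x in Set.Icc 0 1, p.eval x ∂μ - ∫ x in Set.Icc 0 1, f x ∂μ) := by ring
  rw [e]
  refine (abs_add_le _ _).trans ?_
  have h4 := abs_add_le (-(empInt (P N) (fun i => S N i ω) (L N) (fun x => p.eval x)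
          - empInt (P N) (fun i => S N i ω) (L N) f)) (empInt (P N) (fun i => S N i ω) (L N)
          (fun x => p.eval x) - ∫ x in Set.Icc 0 1, p.eval x ∂μ)
  rw [abs_neg] at h4
  linarith

include hmeas hind hHaar hP hL in
/-- main convergence -/
theorem conv_in_prob {μ : Measure ℝ} (hμ : IsMuTau τ μ) (f : ℝ → ℝ)
    (hf : ContinuousOn f (Set.Icc 0 1)) (ε : ℝ) (hε : 0 < ε) :
    Tendsto (fun N => Pr N {ω | ε < |empInt (P N) (fun i => S N i ω) (L N) f
      - ∫ x in Set.Icc 0 1, f x ∂μ|}) atTop (𝓝 0) := by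
  obtain ⟨p, hp⟩ := exists_polynomial_near_of_continuousOn 0 1 f hf (ε / 4) (by positivity)
  have hG := Gerr_conv Pr S hmeas hind hHaar P hP L τ hL p.coeff (p.natDegree + 1)
  have hG2 : Tendsto (fun N => ENNReal.ofReal ((2 / ε) * ∫ ω, Gerr S P L τ N p.coeff
      (p.natDegree + 1) ω ∂(Pr N))) atTop (𝓝 0) := by
    have h1 := (hG.const_mul (2 / ε))
    rw [mul_zero] at h1
    have h2 := (ENNReal.continuous_ofReal.tendsto 0).comp h1
    rw [ENNReal.ofReal_zero] at h2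
    exact h2
  refine tendsto_of_tendsto_of_tendsto_of_le_of_le' tendsto_const_nhds hG2
    (Eventually.of_forall fun N => zero_le) ?_
  filter_upwards [eventually_ge_atTop 2] with N hN
  have hGi := Gerr_integrable Pr S hmeas P hP L τ N hN p.coeff (p.natDegree + 1)
  have hG0 := Gerr_nonneg (Ω := Ω) S P L τ N p.coeff (p.natDegree + 1)
  have hsub : {ω | ε < |empInt (P N) (fun i => S N i ω) (L N) f - ∫ x in Set.Icc 0 1, f x ∂μ|}
      ⊆ {ω | ENNReal.ofReal (ε / 2) ≤ ENNReal.ofReal (Gerr S P L τ N p.coeff (p.natDegree + 1) ω)} := by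
    intro ω hω
    rw [Set.mem_ofPred_eq] at hω ⊢
    apply ENNReal.ofReal_le_ofReal
    have := pt_bound S P hP L τ N hN hμ hf p (ε / 4) hp ω
    linarith
  refine (measure_mono hsub).trans ?_
  have hM := mul_meas_ge_le_lintegral₀ (μ := Pr N)
    (f := fun ω => ENNReal.ofReal (Gerr S P L τ N p.coeff (p.natDegree + 1) ω))
    (hGi.aestronglyMeasurable.aemeasurable.ennreal_ofReal) (ENNReal.ofReal (ε / 2))
  rw [← ofReal_integral_eq_lintegral_ofReal hGi (Eventually.of_forall hG0)] at hM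
  have hε2 : ENNReal.ofReal (ε / 2) ≠ 0 := by
    rw [Ne, ENNReal.ofReal_eq_zero, not_le]; positivity
  calc _ ≤ ENNReal.ofReal (∫ ω, Gerr S P L τ N p.coeff (p.natDegree + 1) ω ∂(Pr N))
        / ENNReal.ofReal (ε / 2) := by
        rw [ENNReal.le_div_iff_mul_le (Or.inl hε2) (Or.inl ENNReal.ofReal_ne_top), mul_comm]
        exact hM
    _ = ENNReal.ofReal ((2 / ε) * ∫ ω, Gerr S P L τ N p.coeff (p.natDegree + 1) ω ∂(Pr N)) := by
        rw [← ENNReal.ofReal_div_of_pos (by positivity)]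
        congr 1
        field_simp

end main
end R977MH
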