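import Pool.Agent.R977.MH12

/-! Existence of `μ_τ`. -/

namespace R977MH

open Finset Matrix MeasureTheory ProbabilityTheory Filter Topology
open scoped BoundedContinuousFunction

/-- the uniform law on finitely many points of `[0,1]` -/
noncomputable def unifPts {N : ℕ} (x : Fin N → Set.Icc (0:ℝ) 1) : Measure (Set.Icc (0:ℝ) 1) :=
  ∑ k, ((N:ENNReal)⁻¹) • Measure.dirac (x k)

lemma unifPts_prob {N : ℕ} (hN : 0 < N) (x : Fin N → Set.Icc (0:ℝ) 1) :
    IsProbabilityMeasure (unifPts x) := by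
  constructor
  unfold unifPts
  rw [Measure.finsetSum_apply]
  simp only [Measure.smul_apply, measure_univ, smul_eq_mul, mul_one, sum_const, card_univ,
    Fintype.card_fin, nsmul_eq_mul]
  exact ENNReal.mul_inv_cancel (by exact_mod_cast hN.ne') (by simp)

lemma unifPts_integral {N : ℕ} (hN : 0 < N) (x : Fin N → Set.Icc (0:ℝ) 1) (f : Set.Icc (0:ℝ) 1 → ℝ) :
    ∫ y, f y ∂(unifPts x) = (1 / (N:ℝ)) * ∑ k, f (x k) := by
  unfold unifPts
  rw [integral_finsetSum_measure]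
  · simp_rw [integral_smul_measure, integral_dirac]
    rw [mul_sum]
    apply sum_congr rfl
    intro k _
    simp
  · intro k _
    refine Integrable.smul_measure ?_ (by simp; omega)
    exact integrable_dirac (by simp)

/-- the function `x ↦ x^j` on `[0,1]` -/
noncomputable def powB (j : ℕ) : Set.Icc (0:ℝ) 1 →ᵇ ℝ :=
  BoundedContinuousFunction.mkOfCompact ⟨fun x => (x:ℝ) ^ j, by fun_prop⟩

lemma exists_of_moments (m : ℕ → ℝ) (ρ : ℕ → ProbabilityMeasure (Set.Icc (0:ℝ) 1))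
    (h : ∀ j, Tendsto (fun n => ∫ x, (x:ℝ) ^ j ∂(ρ n : Measure (Set.Icc (0:ℝ) 1))) atTop (𝓝 (m j))) :
    ∃ μ : Measure ℝ, IsProbabilityMeasure μ ∧ μ (Set.Icc 0 1)ᶜ = 0 ∧ ∀ j, ∫ x, x ^ j ∂μ = m j := by
  obtain ⟨σ, hσ⟩ := exists_clusterPt_of_compactSpace (map ρ atTop)
  have hm : ∀ j, ∫ x, (x:ℝ) ^ j ∂(σ : Measure (Set.Icc (0:ℝ) 1)) = m j := by
    intro j
    have hc : Continuous (fun s : ProbabilityMeasure (Set.Icc (0:ℝ) 1) =>
        ∫ x, powB j x ∂(s : Measure (Set.Icc (0:ℝ) 1))) :=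
      ProbabilityMeasure.continuous_integral_boundedContinuousFunction (powB j)
    have h1 : MapClusterPt σ atTop ρ := hσ
    have h2 := h1.tendsto_comp (hc.tendsto σ)
    have h3 : Tendsto ((fun s : ProbabilityMeasure (Set.Icc (0:ℝ) 1) =>
        ∫ x, powB j x ∂(s : Measure (Set.Icc (0:ℝ) 1))) ∘ ρ) atTop (𝓝 (m j)) := h j
    have h4 : ClusterPt (∫ x, powB j x ∂(σ : Measure (Set.Icc (0:ℝ) 1))) (𝓝 (m j)) :=
      ClusterPt.mono h2 h3
    have h5 : NeBot (𝓝 (∫ x, powB j x ∂(σ : Measure (Set.Icc (0:ℝ) 1))) ⊓ 𝓝 (m j)) := h4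
    exact eq_of_nhds_neBot h5
  refine ⟨(σ : Measure (Set.Icc (0:ℝ) 1)).map Subtype.val, ?_, ?_, ?_⟩
  · exact Measure.isProbabilityMeasure_map measurable_subtype_coe.aemeasurable
  · rw [Measure.map_apply measurable_subtype_coe measurableSet_Icc.compl]
    have he : (Subtype.val ⁻¹' (Set.Icc (0:ℝ) 1)ᶜ : Set (Set.Icc (0:ℝ) 1)) = ∅ := by
      ext x
      simp only [Set.mem_preimage, Set.mem_compl_iff, Set.mem_empty_iff_false, iff_false, not_not]
      exact x.2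
    rw [he, measure_empty]
  · intro j
    rw [integral_map measurable_subtype_coe.aemeasurable (by fun_prop)]
    exact hm j

section main
universe v
variable {Ω : ℕ → Type v} [mΩ : ∀ N, MeasurableSpace (Ω N)] (Pr : ∀ N, Measure (Ω N))
  [hPr : ∀ N, IsProbabilityMeasure (Pr N)]
  [mU : ∀ N, MeasurableSpace (Matrix.unitaryGroup (Fin N) ℂ)]
  [bU : ∀ N, BorelSpace (Matrix.unitaryGroup (Fin N) ℂ)]
  (S : ∀ N, ℕ → Ω N → Matrix.unitaryGroup (Fin N) ℂ) (hmeas : ∀ N i, Measurable (S N i))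
  (hind : ∀ N, iIndepFun (S N) (Pr N))
  (hHaar : ∀ N i, ((Pr N).map (S N i)).IsMulLeftInvariant)
  (P : ∀ N, Matrix (Fin N) (Fin N) ℂ)
  (hP : ∀ N, 2 ≤ N → (P N).IsHermitian ∧ P N * P N = P N ∧ (P N).rank = N - 1)
  (L : ℕ → ℕ) (τ : ℝ) (hL : Tendsto (fun N => (L N : ℝ) / N) atTop (𝓝 τ))

include hmeas hind hHaar hP hL in
lemma exists_good (n : ℕ) : ∃ ρ : ProbabilityMeasure (Set.Icc (0:ℝ) 1), ∀ j, j ≤ n →
    |∫ x, (x:ℝ) ^ j ∂(ρ : Measure (Set.Icc (0:ℝ) 1)) - mm τ j| ≤ 1 / ((n:ℝ) + 1) := by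
  have hG := Gerr_conv Pr S hmeas hind hHaar P hP L τ hL (fun _ => 1) (n+1)
  have h1 : ∀ᶠ N in atTop, ∫ ω, Gerr S P L τ N (fun _ => 1) (n+1) ω ∂(Pr N) < 1 / ((n:ℝ) + 1) :=
    hG.eventually_lt_const (by positivity)
  obtain ⟨N, hN1, hN2⟩ := (h1.and (eventually_ge_atTop 2)).exists
  have hGi := Gerr_integrable Pr S hmeas P hP L τ N hN2 (fun _ => 1) (n+1)
  obtain ⟨ω, hω⟩ := exists_le_integral hGi
  obtain ⟨p1, p2, p3⟩ := hP N hN2
  have hN0 : 0 < N := by omega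
  let x : Fin N → Set.Icc (0:ℝ) 1 := fun k =>
    ⟨(isHermitian_conjTranspose_mul_self (prodB (P N) (fun i => S N i ω) (L N))).eigenvalues k,
      prodB_eig_mem (P N) p1 p2 (fun i => S N i ω) (L N) k⟩
  refine ⟨⟨unifPts x, unifPts_prob hN0 x⟩, ?_⟩
  intro j hj
  have h2 : ∫ y, (y:ℝ) ^ j ∂(unifPts x) = empInt (P N) (fun i => S N i ω) (L N) (fun x => x ^ j) := by
    rw [unifPts_integral hN0 x (fun y => (y:ℝ) ^ j)]
    rfl
  change |∫ y, (y:ℝ) ^ j ∂(unifPts x) - mm τ j| ≤ 1 / ((n:ℝ) + 1)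
  rw [h2, emp_pow_err]
  have h3 : ‖mN (P N) (fun i => S N i ω) (L N) j - ((mm τ j : ℝ) : ℂ)‖
      ≤ Gerr S P L τ N (fun _ => 1) (n+1) ω := by
    unfold Gerr
    simp only [abs_one, one_mul]
    exact single_le_sum (f := fun j => ‖mN (P N) (fun i => S N i ω) (L N) j - ((mm τ j : ℝ) : ℂ)‖)
      (fun _ _ => norm_nonneg _) (mem_range.2 (by omega))
  linarith

include hmeas hind hHaar hP hL in
/-- existence of `μ_τ` -/
theorem exists_muTau : ∃ μ : Measure ℝ, IsMuTau τ μ := by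
  choose ρ hρ using exists_good Pr S hmeas hind hHaar P hP L τ hL
  obtain ⟨μ, h1, h2, h3⟩ := exists_of_moments (mm τ) ρ (by
    intro j
    rw [tendsto_iff_norm_sub_tendsto_zero]
    refine squeeze_zero' (Eventually.of_forall fun n => norm_nonneg _) ?_
      tendsto_one_div_add_atTop_nhds_zero_nat
    filter_upwards [eventually_ge_atTop j] with n hn
    rw [Real.norm_eq_abs]
    exact hρ n j hn)
  refine ⟨μ, h1, h2, ?_⟩
  intro p hp
  rw [h3 p, mm_formula p hp]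
  rfl

end main

end R977MH
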