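import Pool.Agent.R977.MH1

/-! Abel identities and the explicit solution `m_p(t)` for MP_31dc4f. -/

namespace R977MH

open Finset

/-- Abel polynomials `x (x+n)^(n-1)`. -/
noncomputable def Ab : ℕ → ℝ → ℝ
  | 0, _ => 1
  | (n+1), x => x * (x + (n+1)) ^ n

lemma Ab_succ_zero (n : ℕ) : Ab (n+1) 0 = 0 := by simp [Ab]

lemma Ab_deriv (n : ℕ) (x : ℝ) : HasDerivAt (Ab (n+1)) ((n+1) * Ab n (x+1)) x := by
  cases n with
  | zero =>
    have h : Ab (0+1) = fun x : ℝ => x := by funext z; simp [Ab]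
    rw [h]
    have h2 : HasDerivAt (fun x : ℝ => x) 1 x := hasDerivAt_id x
    simpa [Ab] using h2
  | succ n =>
    have h : Ab (n+1+1) = fun x : ℝ => x * (x + ((n+1 : ℕ) + 1)) ^ (n+1) := by
      funext z; simp [Ab]
    rw [h]
    have h1 : HasDerivAt (fun x : ℝ => (x + ((n+1 : ℕ) + 1)) ^ (n+1))
        (((n+1 : ℕ) : ℝ) * (x + ((n+1 : ℕ) + 1)) ^ n * 1) x := by
      have := ((hasDerivAt_id x).add_const (((n+1 : ℕ) : ℝ) + 1)).fun_pow (n+1)
      simpa using this
    have h2 := (hasDerivAt_id x).fun_mul h1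
    refine h2.congr_deriv ?_
    simp only [Ab, id, Nat.cast_add, Nat.cast_one]
    ring

/-- `F u n y = Σ_k C(n,k) u_k Ab_{n-k}(y)`. -/
noncomputable def F (u : ℕ → ℝ) (n : ℕ) (y : ℝ) : ℝ :=
  ∑ k ∈ range (n+1), (n.choose k : ℝ) * u k * Ab (n - k) y

lemma F_zero (u : ℕ → ℝ) (y : ℝ) : F u 0 y = u 0 := by simp [F, Ab]

lemma F_at_zero (u : ℕ → ℝ) (n : ℕ) : F u n 0 = u n := by
  unfold F
  rw [sum_range_succ, sum_eq_zero]
  · simp [Ab]
  · intro k hk
    rw [mem_range] at hk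
    obtain ⟨m, hm⟩ : ∃ m, n - k = m + 1 := ⟨n - k - 1, by omega⟩
    rw [hm, Ab_succ_zero, mul_zero]

lemma F_deriv (u : ℕ → ℝ) (n : ℕ) (y : ℝ) :
    HasDerivAt (F u (n+1)) ((n+1) * F u n (y+1)) y := by
  have h : F u (n+1) = fun y => (∑ k ∈ range (n+1), ((n+1).choose k : ℝ) * u k * Ab (n - k + 1) y)
      + u (n+1) := by
    funext z
    unfold F
    rw [sum_range_succ]
    congr 1
    · apply sum_congr rfl
      intro k hk
      rw [mem_range] at hk
      have e : n + 1 - k = n - k + 1 := by omega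
      rw [e]
    · simp [Ab]
  rw [h]
  apply HasDerivAt.add_const
  have h1 : ∀ k ∈ range (n+1), HasDerivAt
      (fun y => ((n+1).choose k : ℝ) * u k * Ab (n - k + 1) y)
      (((n+1).choose k : ℝ) * u k * (((n - k : ℕ) + 1) * Ab (n - k) (y+1))) y := fun k _ =>
    (Ab_deriv (n-k) y).const_mul _
  have h2 := HasDerivAt.fun_sum h1
  refine h2.congr_deriv ?_
  unfold F
  rw [mul_sum]
  apply sum_congr rfl
  intro k hk
  rw [mem_range] at hk
  have e : ((n+1).choose k : ℝ) * ((n - k : ℕ) + 1) = (n+1) * (n.choose k : ℝ) := by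
    have h3 := Nat.add_one_mul_choose_eq n (n-k)
    have e1 : n.choose (n-k) = n.choose k := Nat.choose_symm (by omega)
    have e2 : (n+1).choose (n-k+1) = (n+1).choose k := by
      have := Nat.choose_symm_of_eq_add (n := n+1) (a := (n-k)+1) (b := k) (by omega)
      simpa using this
    rw [e1, e2] at h3
    have h4 : (((n+1) * n.choose k : ℕ) : ℝ) = (((n+1).choose k * (n-k+1) : ℕ) : ℝ) := by
      exact_mod_cast h3
    push_cast at h4
    linarith
  calc ((n+1).choose k : ℝ) * u k * (((n - k : ℕ) + 1) * Ab (n - k) (y+1))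
      = (((n+1).choose k : ℝ) * ((n - k : ℕ) + 1)) * (u k * Ab (n - k) (y+1)) := by ring
    _ = (n+1) * ((n.choose k : ℝ) * u k * Ab (n - k) (y+1)) := by rw [e]; ring

lemma eq_of_same_deriv {f g f' : ℝ → ℝ} (hf : ∀ x, HasDerivAt f (f' x) x)
    (hg : ∀ x, HasDerivAt g (f' x) x) (h0 : f 0 = g 0) (x : ℝ) : f x = g x := by
  have h : ∀ x, HasDerivAt (fun z => f z - g z) (f' x - f' x) x := fun x => (hf x).fun_sub (hg x)
  have hd : Differentiable ℝ (fun z => f z - g z) := fun x => (h x).differentiableAt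
  have h2 := is_const_of_deriv_eq_zero hd (fun x => by rw [(h x).deriv, sub_self]) x 0
  linarith

/-- uniqueness of the solution of `R_{n+1}' = (n+1) R_n(·+1)`. -/
lemma F_unique (u : ℕ → ℝ) (Rr : ℕ → ℝ → ℝ) (h0 : ∀ y, Rr 0 y = u 0)
    (hd : ∀ n y, HasDerivAt (Rr (n+1)) ((n+1) * Rr n (y+1)) y)
    (hz : ∀ n, Rr n 0 = u n) (n : ℕ) (y : ℝ) : F u n y = Rr n y := by
  induction n generalizing y with
  | zero => rw [F_zero, h0]
  | succ n ih =>
    refine eq_of_same_deriv (f' := fun y => (n+1) * F u n (y+1)) (F_deriv u n) ?_ ?_ y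
    · intro x
      have := hd n x
      rwa [ih]
    · rw [F_at_zero, hz]

/-- First Abel identity. -/
lemma abel1 (x : ℝ) (n : ℕ) (y : ℝ) : F (fun k => Ab k x) n y = Ab n (x + y) := by
  apply F_unique (fun k => Ab k x) (fun n y => Ab n (x + y))
  · intro y; simp [Ab]
  · intro n y
    have h := Ab_deriv n (x + y)
    have h2 : HasDerivAt (fun y => x + y) 1 y := by simpa using (hasDerivAt_id y).const_add x
    have h3 := HasDerivAt.comp y h h2
    rw [mul_one] at h3
    have e : x + (y + 1) = x + y + 1 := by ring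
    simp only [e]
    exact h3
  · intro n; simp

/-- Second Abel identity. -/
lemma abel2 (x : ℝ) (n : ℕ) (y : ℝ) : F (fun k => (x + k) ^ k) n y = (x + y + n) ^ n := by
  apply F_unique (fun k => (x + k) ^ k) (fun n y => (x + y + n) ^ n)
  · intro y; simp
  · intro n y
    have h2 : HasDerivAt (fun y => x + y + ((n+1 : ℕ) : ℝ)) 1 y := by
      simpa using ((hasDerivAt_id y).const_add x).add_const (((n+1 : ℕ) : ℝ))
    have h3 := h2.fun_pow (n+1)
    refine h3.congr_deriv ?_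
    simp only [Nat.cast_add, Nat.cast_one, Nat.add_sub_cancel, mul_one]
    congr 2
    ring
  · intro n; simp

/-- `M_p(t)` -/
noncomputable def Mp (p : ℕ) (t : ℝ) : ℝ :=
  ∑ s ∈ range (p+1), Ab s ((p:ℝ) - s) * t ^ s / (s.factorial : ℝ)

lemma Mp_zero (t : ℝ) : Mp 0 t = 1 := by simp [Mp, Ab]

lemma conv_general (u : ℕ → ℝ) (p : ℕ) (t : ℝ) :
    ∑ k ∈ range (p+1), u k * t ^ k / (k.factorial : ℝ) * Mp (p - k) t
      = ∑ r ∈ range (p+1), F u r ((p:ℝ) - r) * t ^ r / (r.factorial : ℝ) := by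
  have h1 : ∀ k ∈ range (p+1), u k * t ^ k / (k.factorial : ℝ) * Mp (p - k) t
      = ∑ s ∈ range (p + 1 - k), (fun k s => u k * t ^ k / (k.factorial : ℝ) *
        (Ab s ((p:ℝ) - k - s) * t ^ s / (s.factorial : ℝ))) k s := by
    intro k hk
    rw [mem_range] at hk
    unfold Mp
    rw [mul_sum]
    have e : p - k + 1 = p + 1 - k := by omega
    rw [e]
    apply sum_congr rfl
    intro s _
    have e2 : ((p - k : ℕ) : ℝ) = (p:ℝ) - k := by rw [Nat.cast_sub (by omega)]
    rw [e2]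
  rw [sum_congr rfl h1, ← sum_range_diag_flip]
  apply sum_congr rfl
  intro r hr
  rw [mem_range] at hr
  unfold F
  rw [sum_mul, sum_div]
  apply sum_congr rfl
  intro k hk
  rw [mem_range] at hk
  have e3 : ((r - k : ℕ) : ℝ) = (r:ℝ) - k := by rw [Nat.cast_sub (by omega)]
  have e4 : (p:ℝ) - k - ((r:ℝ) - k) = p - r := by ring
  rw [e3, e4, Nat.cast_choose ℝ (by omega : k ≤ r)]
  have hr0 : (r.factorial : ℝ) ≠ 0 := by positivity
  have hk0 : (k.factorial : ℝ) ≠ 0 := by positivity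
  have hrk : ((r-k).factorial : ℝ) ≠ 0 := by positivity
  have e5 : t ^ r = t ^ k * t ^ (r - k) := by rw [← pow_add]; congr 1; omega
  rw [e5]
  field_simp

/-- (I1) -/
lemma I1 (p : ℕ) (t : ℝ) :
    Mp (p+1) t = ∑ k ∈ range (p+1), Ab k 1 * t ^ k / (k.factorial : ℝ) * Mp (p - k) t := by
  rw [conv_general (fun k => Ab k 1)]
  unfold Mp
  rw [sum_range_succ]
  have : Ab (p+1) (((p+1 : ℕ) : ℝ) - ((p+1 : ℕ) : ℝ)) = 0 := by rw [sub_self, Ab_succ_zero]
  rw [this]
  simp only [zero_mul, zero_div, add_zero]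
  apply sum_congr rfl
  intro r _
  rw [abel1]
  have : ((p+1 : ℕ) : ℝ) - r = 1 + ((p:ℝ) - r) := by push_cast; ring
  rw [this]

/-- (I2) -/
lemma I2 (p : ℕ) (t : ℝ) :
    ∑ r ∈ range (p+1), (((p:ℝ) + 1) * t) ^ r / (r.factorial : ℝ)
      = ∑ k ∈ range (p+1), (1 + (k:ℝ)) ^ k * t ^ k / (k.factorial : ℝ) * Mp (p - k) t := by
  rw [conv_general (fun k => (1 + (k:ℝ)) ^ k)]
  apply sum_congr rfl
  intro r _
  rw [abel2]
  have : 1 + ((p:ℝ) - r) + r = p + 1 := by ring
  rw [this, mul_pow]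

/-- `m_p(t)` -/
noncomputable def mm (t : ℝ) (p : ℕ) : ℝ := Real.exp (-(p * t)) * Mp p t

/-- `h_{n+1}(t)` -/
noncomputable def hh (t : ℝ) (n : ℕ) : ℝ :=
  Real.exp (-((n+1) * t)) * (Ab n 1 * t ^ n / (n.factorial : ℝ))

/-- `a_p(t)` -/
noncomputable def aa (p : ℕ) (t : ℝ) : ℝ :=
  Real.exp (-(p * t)) * ∑ k ∈ range p, (p * t) ^ k / (k.factorial : ℝ)

lemma mm_zero (t : ℝ) : mm t 0 = 1 := by simp [mm, Mp_zero]

lemma exp_split (t : ℝ) (p k : ℕ) (hk : k ≤ p) :
    Real.exp (-(((p+1 : ℕ) : ℝ) * t)) = Real.exp (-((k+1) * t)) * Real.exp (-(((p - k : ℕ) : ℝ) * t)) := by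
  rw [← Real.exp_add]
  congr 1
  rw [Nat.cast_sub hk]
  push_cast
  ring

lemma mm_conv (t : ℝ) (p : ℕ) :
    mm t (p+1) = ∑ k ∈ range (p+1), hh t k * mm t (p - k) := by
  unfold mm hh
  rw [I1, mul_sum]
  apply sum_congr rfl
  intro k hk
  rw [mem_range] at hk
  rw [exp_split t p k (by omega)]
  ring

/-- closed form for `G` at the explicit solution. -/
lemma G_mm (t : ℝ) (i k : ℕ) : G (mm t) i (k+1) = ∑ j ∈ range (k+1), hh t (i+j) * mm t (k - j) := by
  induction i generalizing k with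
  | zero =>
    simp only [G, Nat.zero_add]
    exact mm_conv t k
  | succ i ih =>
    simp only [G]
    have h1 := ih 0
    rw [Nat.zero_add] at h1
    rw [ih (k+1), h1]
    simp only [sum_range_one, Nat.add_zero, Nat.sub_zero, mm_zero, mul_one]
    rw [sum_range_succ' _ (k+1)]
    simp only [Nat.add_zero, Nat.sub_zero]
    have : ∀ j ∈ range (k+1), hh t (i + (j+1)) * mm t (k + 1 - (j+1)) = hh t (i+1+j) * mm t (k - j) := by
      intro j _
      congr 2
      · ring
      · omega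
    rw [sum_congr rfl this]
    ring

lemma c_mm_aux (t : ℝ) (p : ℕ) : c (mm t) (p+1) = ∑ r ∈ range (p+1), (r+1) * hh t r * mm t (p - r) := by
  unfold c
  have h1 : ∀ i ∈ range (p+1), G (mm t) i (p + 1 - i)
      = ∑ j ∈ range (p + 1 - i), (fun i j => hh t (i+j) * mm t (p - (i + j))) i j := by
    intro i hi
    rw [mem_range] at hi
    have e : p + 1 - i = (p - i) + 1 := by omega
    rw [e, G_mm]
    apply sum_congr rfl
    intro j _
    have e2 : p - i - j = p - (i + j) := by omega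
    rw [e2]
  rw [sum_congr rfl h1, ← sum_range_diag_flip]
  apply sum_congr rfl
  intro r hr
  rw [mem_range] at hr
  have h2 : ∀ k ∈ range (r+1), (fun i j => hh t (i+j) * mm t (p - (i + j))) k (r - k)
      = hh t r * mm t (p - r) := by
    intro k hk
    rw [mem_range] at hk
    have e : k + (r - k) = r := by omega
    simp only [e]
  rw [sum_congr rfl h2, sum_const, card_range, nsmul_eq_mul]
  push_cast
  ring

lemma Ab_one (r : ℕ) : ((r:ℝ) + 1) * Ab r 1 = (1 + (r:ℝ)) ^ r := by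
  cases r with
  | zero => simp [Ab]
  | succ r =>
    simp only [Ab, Nat.cast_add, Nat.cast_one]
    ring

/-- the explicit solution satisfies `c_p(m(t)) = a_p(t)`. -/
lemma c_mm (t : ℝ) (p : ℕ) : c (mm t) p = aa p t := by
  cases p with
  | zero => simp [c, aa]
  | succ p =>
    rw [c_mm_aux]
    unfold aa
    have e : ((p + 1 : ℕ) : ℝ) = (p:ℝ) + 1 := by push_cast; ring
    have h2 := I2 p t
    rw [e, h2, mul_sum]
    apply sum_congr rfl
    intro r hr
    rw [mem_range] at hr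
    unfold hh mm
    have h3 := exp_split t p r (by omega)
    rw [e] at h3
    rw [h3, ← Ab_one]
    ring

end R977MH
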