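import Pool.Agent.R977.MH2

/-! Analytic properties of the explicit solution. -/

namespace R977MH

open Finset

noncomputable def En (n : ℕ) (x : ℝ) : ℝ := ∑ k ∈ range n, x ^ k / (k.factorial : ℝ)
noncomputable def Dn (n : ℕ) (x : ℝ) : ℝ := ∑ k ∈ range n, ((n:ℝ) - k) * (x ^ k / (k.factorial : ℝ))

lemma Dn_succ (n : ℕ) (x : ℝ) : Dn (n+1) x = Dn n x + En (n+1) x := by
  have h : Dn n x = ∑ k ∈ range (n+1), ((n:ℝ) - k) * (x ^ k / (k.factorial : ℝ)) := by
    unfold Dn; rw [sum_range_succ]; simp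
  rw [h]
  unfold Dn En
  rw [← sum_add_distrib]
  apply sum_congr rfl
  intro k _
  push_cast
  ring

lemma En_deriv (n : ℕ) (x : ℝ) : HasDerivAt (En (n+1)) (En n x) x := by
  induction n with
  | zero =>
    have h : En (0+1) = fun _ => (1:ℝ) := by funext z; simp [En]
    rw [h]
    simpa [En] using hasDerivAt_const x (1:ℝ)
  | succ n ih =>
    have h : En (n+1+1) = fun z => En (n+1) z + z ^ (n+1) / ((n+1).factorial : ℝ) := by
      funext z; unfold En; rw [sum_range_succ]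
    rw [h]
    have h2 : HasDerivAt (fun z : ℝ => z ^ (n+1) / ((n+1).factorial : ℝ))
        (x ^ n / (n.factorial : ℝ)) x := by
      have h3 := (hasDerivAt_pow (n+1) x).div_const (((n+1).factorial : ℝ))
      refine h3.congr_deriv ?_
      simp only [Nat.add_sub_cancel, Nat.factorial_succ, Nat.cast_mul]
      have h4 : ((n+1 : ℕ):ℝ) ≠ 0 := by positivity
      field_simp
    have h5 := ih.fun_add h2
    refine h5.congr_deriv ?_
    unfold En
    rw [sum_range_succ]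

lemma Dn_deriv (n : ℕ) (x : ℝ) : HasDerivAt (Dn (n+1)) (Dn n x) x := by
  induction n with
  | zero =>
    have h : Dn (0+1) = fun _ => (1:ℝ) := by funext z; simp [Dn]
    rw [h]
    simpa [Dn] using hasDerivAt_const x (1:ℝ)
  | succ n ih =>
    have h : Dn (n+1+1) = fun z => Dn (n+1) z + En (n+1+1) z := by
      funext z; rw [Dn_succ]
    rw [h]
    have h5 := ih.fun_add (En_deriv (n+1) x)
    refine h5.congr_deriv ?_
    rw [Dn_succ]

lemma aa_eq (p : ℕ) (t : ℝ) : aa p t = Real.exp (-(p * t)) * En p (p * t) := rfl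

lemma Mp_eq (p : ℕ) (hp : 1 ≤ p) (t : ℝ) : Mp p t = Dn p (p * t) / p := by
  obtain ⟨q, rfl⟩ : ∃ q, p = q + 1 := ⟨p - 1, by omega⟩
  unfold Mp Dn
  rw [sum_range_succ]
  have : Ab (q+1) (((q+1 : ℕ) : ℝ) - ((q+1 : ℕ) : ℝ)) = 0 := by rw [sub_self, Ab_succ_zero]
  rw [this]
  simp only [zero_mul, zero_div, add_zero]
  rw [sum_div]
  apply sum_congr rfl
  intro k _
  have hq : ((q+1 : ℕ):ℝ) ≠ 0 := by positivity
  cases k with
  | zero => simp [Ab]; field_simp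
  | succ k =>
    simp only [Ab]
    have e : ((q+1:ℕ):ℝ) - ((k+1:ℕ):ℝ) + ((k:ℝ)+1) = ((q+1:ℕ):ℝ) := by push_cast; ring
    rw [e, mul_pow]
    have hk : (((k+1).factorial : ℕ):ℝ) ≠ 0 := by positivity
    field_simp
    ring

/-- the formula of the problem file -/
lemma mm_formula (p : ℕ) (hp : 1 ≤ p) (t : ℝ) :
    mm t p = Real.exp (-(p * t)) * ∑ k ∈ range p, (1 - (k:ℝ) / p) * ((p * t) ^ k / (k.factorial : ℝ)) := by
  unfold mm
  rw [Mp_eq p hp]
  unfold Dn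
  rw [sum_div]
  congr 1
  apply sum_congr rfl
  intro k _
  have hp0 : (p:ℝ) ≠ 0 := by positivity
  field_simp

lemma mm_deriv (p : ℕ) (t : ℝ) : HasDerivAt (fun t => mm t p) (-aa p t) t := by
  cases p with
  | zero =>
    have h : (fun t => mm t 0) = fun _ => (1:ℝ) := by funext z; exact mm_zero z
    rw [h]
    simpa [aa] using hasDerivAt_const t (1:ℝ)
  | succ p =>
    have h : (fun t => mm t (p+1)) = fun t => Real.exp (-(((p+1:ℕ):ℝ) * t)) *
        (Dn (p+1) (((p+1:ℕ):ℝ) * t) / ((p+1:ℕ):ℝ)) := by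
      funext z; unfold mm; rw [Mp_eq (p+1) (by omega)]
    rw [h]
    have hlin : HasDerivAt (fun t : ℝ => ((p+1:ℕ):ℝ) * t) ((p+1:ℕ):ℝ) t := by
      simpa using (hasDerivAt_id t).const_mul (((p+1:ℕ):ℝ))
    have h1 : HasDerivAt (fun t : ℝ => Real.exp (-(((p+1:ℕ):ℝ) * t)))
        (Real.exp (-(((p+1:ℕ):ℝ) * t)) * (-((p+1:ℕ):ℝ))) t := hlin.fun_neg.exp
    have h2 : HasDerivAt (fun t : ℝ => Dn (p+1) (((p+1:ℕ):ℝ) * t))
        (Dn p (((p+1:ℕ):ℝ) * t) * ((p+1:ℕ):ℝ)) t :=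
      HasDerivAt.comp t (Dn_deriv p (((p+1:ℕ):ℝ) * t)) hlin
    have h3 := h1.fun_mul (h2.div_const ((p+1:ℕ):ℝ))
    refine h3.congr_deriv ?_
    rw [aa_eq, Dn_succ]
    have hq : ((p+1 : ℕ):ℝ) ≠ 0 := by positivity
    field_simp
    ring

lemma aa_deriv (p : ℕ) (t : ℝ) : HasDerivAt (aa (p+1))
    (-(((p+1:ℕ):ℝ) * (Real.exp (-(((p+1:ℕ):ℝ) * t)) * ((((p+1:ℕ):ℝ) * t) ^ p / (p.factorial : ℝ))))) t := by
  have h : aa (p+1) = fun t => Real.exp (-(((p+1:ℕ):ℝ) * t)) * En (p+1) (((p+1:ℕ):ℝ) * t) := by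
    funext z; exact aa_eq (p+1) z
  rw [h]
  have hlin : HasDerivAt (fun t : ℝ => ((p+1:ℕ):ℝ) * t) ((p+1:ℕ):ℝ) t := by
    simpa using (hasDerivAt_id t).const_mul (((p+1:ℕ):ℝ))
  have h1 : HasDerivAt (fun t : ℝ => Real.exp (-(((p+1:ℕ):ℝ) * t)))
      (Real.exp (-(((p+1:ℕ):ℝ) * t)) * (-((p+1:ℕ):ℝ))) t := hlin.fun_neg.exp
  have h2 : HasDerivAt (fun t : ℝ => En (p+1) (((p+1:ℕ):ℝ) * t))
      (En p (((p+1:ℕ):ℝ) * t) * ((p+1:ℕ):ℝ)) t :=
    HasDerivAt.comp t (En_deriv p (((p+1:ℕ):ℝ) * t)) hlin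
  have h3 := h1.fun_mul h2
  refine h3.congr_deriv ?_
  have : En (p+1) (((p+1:ℕ):ℝ) * t) = En p (((p+1:ℕ):ℝ) * t)
      + (((p+1:ℕ):ℝ) * t) ^ p / (p.factorial : ℝ) := by
    unfold En; rw [sum_range_succ]
  rw [this]
  ring

lemma aa_deriv_bound (p : ℕ) (t : ℝ) (ht : 0 ≤ t) :
    |(-(((p+1:ℕ):ℝ) * (Real.exp (-(((p+1:ℕ):ℝ) * t)) * ((((p+1:ℕ):ℝ) * t) ^ p / (p.factorial : ℝ)))))|
      ≤ ((p+1:ℕ):ℝ) := by
  have hx : 0 ≤ ((p+1:ℕ):ℝ) * t := by positivity
  have h1 := Real.pow_div_factorial_le_exp _ hx p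
  rw [abs_neg, abs_of_nonneg (by positivity)]
  have h2 : Real.exp (-(((p+1:ℕ):ℝ) * t)) * ((((p+1:ℕ):ℝ) * t) ^ p / (p.factorial : ℝ)) ≤ 1 := by
    calc _ ≤ Real.exp (-(((p+1:ℕ):ℝ) * t)) * Real.exp (((p+1:ℕ):ℝ) * t) := by gcongr
      _ = 1 := by rw [← Real.exp_add]; simp
  have h3 : (0:ℝ) ≤ ((p+1:ℕ):ℝ) := by positivity
  nlinarith

lemma aa_lip (p : ℕ) {s t : ℝ} (hs : 0 ≤ s) (ht : 0 ≤ t) : |aa p t - aa p s| ≤ p * |t - s| := by
  cases p with
  | zero => simp [aa]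
  | succ p =>
    have h := (convex_Ici (0:ℝ)).norm_image_sub_le_of_norm_hasDerivWithin_le (f := aa (p+1))
      (f' := fun t => (-(((p+1:ℕ):ℝ) * (Real.exp (-(((p+1:ℕ):ℝ) * t)) * ((((p+1:ℕ):ℝ) * t) ^ p / (p.factorial : ℝ))))))
      (C := ((p+1:ℕ):ℝ)) (x := s) (y := t)
      (fun x _ => (aa_deriv p x).hasDerivWithinAt)
      (fun x hx => by rw [Real.norm_eq_abs]; exact aa_deriv_bound p x hx) hs ht
    simpa [Real.norm_eq_abs] using h

lemma mm_taylor (p : ℕ) {t δ : ℝ} (ht : 0 ≤ t) (hδ : 0 ≤ δ) :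
    |mm (t + δ) p - mm t p + δ * aa p t| ≤ p * δ ^ 2 := by
  have h := (convex_Icc t (t+δ)).norm_image_sub_le_of_norm_hasDerivWithin_le
    (f := fun s => mm s p + s * aa p t)
    (f' := fun s => -aa p s + aa p t)
    (C := p * δ) (x := t) (y := t + δ)
    (fun x _ => by
      have h1 : HasDerivAt (fun s : ℝ => s * aa p t) (aa p t) x := by
        simpa using (hasDerivAt_id x).mul_const (aa p t)
      exact ((mm_deriv p x).fun_add h1).hasDerivWithinAt)
    (fun x hx => by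
      rw [Real.norm_eq_abs]
      have h1 := aa_lip p (s := x) (t := t) (le_trans ht hx.1) ht
      have e : -aa p x + aa p t = aa p t - aa p x := by ring
      rw [e]
      refine h1.trans ?_
      have : |t - x| ≤ δ := by rw [abs_le]; constructor <;> linarith [hx.1, hx.2]
      gcongr)
    (by constructor <;> linarith) (by constructor <;> linarith)
  simp only [Real.norm_eq_abs] at h
  have e1 : mm (t+δ) p + (t+δ) * aa p t - (mm t p + t * aa p t) = mm (t + δ) p - mm t p + δ * aa p t := by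
    ring
  have e2 : |t + δ - t| = δ := by rw [add_sub_cancel_left, abs_of_nonneg hδ]
  rw [e1, e2] at h
  nlinarith [h]

lemma mm_nonneg (p : ℕ) {t : ℝ} (ht : 0 ≤ t) : 0 ≤ mm t p := by
  rcases Nat.eq_zero_or_pos p with rfl | hp
  · rw [mm_zero]; norm_num
  · rw [mm_formula p hp]
    apply mul_nonneg (Real.exp_pos _).le
    apply sum_nonneg
    intro k hk
    rw [mem_range] at hk
    have hp0 : (0:ℝ) < p := by positivity
    have : (k:ℝ) / p ≤ 1 := by rw [div_le_one hp0]; exact_mod_cast hk.le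
    have : 0 ≤ 1 - (k:ℝ)/p := by linarith
    positivity

lemma mm_le_one (p : ℕ) {t : ℝ} (ht : 0 ≤ t) : mm t p ≤ 1 := by
  rcases Nat.eq_zero_or_pos p with rfl | hp
  · rw [mm_zero]
  · rw [mm_formula p hp]
    have hp0 : (0:ℝ) < p := by positivity
    have hx : 0 ≤ (p:ℝ) * t := by positivity
    have h1 : ∑ k ∈ range p, (1 - (k:ℝ) / p) * ((p * t) ^ k / (k.factorial : ℝ))
        ≤ ∑ k ∈ range p, ((p * t) ^ k / (k.factorial : ℝ)) := by
      apply sum_le_sum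
      intro k hk
      have h0 : 0 ≤ (p * t) ^ k / (k.factorial : ℝ) := by positivity
      have h00 : 0 ≤ (k:ℝ) / p := by positivity
      nlinarith
    have h2 := Real.sum_le_exp_of_nonneg hx p
    calc _ ≤ Real.exp (-(p * t)) * Real.exp (p * t) := by
          gcongr
          exact h1.trans h2
      _ = 1 := by rw [← Real.exp_add]; simp

lemma mm_continuous (p : ℕ) : Continuous (fun t => mm t p) :=
  continuous_iff_continuousAt.2 fun t => (mm_deriv p t).continuousAt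

end R977MH
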