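import Pool.Agent.R977.MH3

/-! Second moment of a quadratic form of a Haar-rotated matrix, from left invariance only. -/

namespace R977MH

open Finset MeasureTheory Matrix
open scoped ComplexConjugate

/-- `u† B u`. -/
noncomputable def Q {N : ℕ} (u : Fin N → ℂ) (B : Matrix (Fin N) (Fin N) ℂ) : ℂ :=
  star u ⬝ᵥ (B *ᵥ u)

lemma exists_unitary_col {N : ℕ} (i0 : Fin N) (u : Fin N → ℂ) (hu : star u ⬝ᵥ u = 1) :
    ∃ V : Matrix.unitaryGroup (Fin N) ℂ, (V : Matrix (Fin N) (Fin N) ℂ) *ᵥ Pi.single i0 1 = u := by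
  classical
  let v : Fin N → EuclideanSpace ℂ (Fin N) := fun _ => WithLp.toLp 2 u
  have hnorm : ‖(WithLp.toLp 2 u : EuclideanSpace ℂ (Fin N))‖ = 1 := by
    have h1 : inner ℂ (WithLp.toLp 2 u : EuclideanSpace ℂ (Fin N)) (WithLp.toLp 2 u) = 1 := by
      rw [EuclideanSpace.inner_eq_star_dotProduct]
      rw [dotProduct_comm]
      exact hu
    have h2 := inner_self_eq_norm_sq_to_K (𝕜 := ℂ) (WithLp.toLp 2 u : EuclideanSpace ℂ (Fin N))
    rw [h1] at h2
    have h3 : ‖(WithLp.toLp 2 u : EuclideanSpace ℂ (Fin N))‖ ^ 2 = 1 := by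
      have h4 : ((‖(WithLp.toLp 2 u : EuclideanSpace ℂ (Fin N))‖ ^ 2 : ℝ) : ℂ) = ((1:ℝ) : ℂ) := by
        push_cast
        exact h2.symm
      exact_mod_cast h4
    exact (pow_eq_one_iff_of_nonneg (norm_nonneg _) two_ne_zero).1 h3
  have hv : Orthonormal ℂ (Set.domRestrict ({i0} : Set (Fin N)) v) := by
    constructor
    · intro i; exact hnorm
    · intro i j hij
      exact absurd (Subsingleton.elim i j) hij
  obtain ⟨b, hb⟩ := hv.exists_orthonormalBasis_extension_of_card_eq (by simp)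
  refine ⟨⟨(EuclideanSpace.basisFun (Fin N) ℂ).toBasis.toMatrix b,
    OrthonormalBasis.toMatrix_orthonormalBasis_mem_unitary _ _⟩, ?_⟩
  funext i
  rw [mulVec_single_one]
  have h1 := hb i0 rfl
  simp [Matrix.col, Module.Basis.toMatrix_apply, h1, v]

lemma Q_mulVec {N : ℕ} (V : Matrix (Fin N) (Fin N) ℂ) (u : Fin N → ℂ) (B : Matrix (Fin N) (Fin N) ℂ) :
    Q (V *ᵥ u) B = Q u (Vᴴ * B * V) := by
  unfold Q
  rw [star_mulVec, ← dotProduct_mulVec, mulVec_mulVec, mulVec_mulVec, Matrix.mul_assoc]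

/-- rotated matrix -/
noncomputable def rot {N : ℕ} (A : Matrix (Fin N) (Fin N) ℂ) (S : Matrix.unitaryGroup (Fin N) ℂ) :
    Matrix (Fin N) (Fin N) ℂ := (S : Matrix (Fin N) (Fin N) ℂ) * A * (S : Matrix (Fin N) (Fin N) ℂ)ᴴ

lemma rot_trace {N : ℕ} (A : Matrix (Fin N) (Fin N) ℂ) (S : Matrix.unitaryGroup (Fin N) ℂ) :
    (rot A S).trace = A.trace := by
  unfold rot
  rw [Matrix.mul_assoc, Matrix.trace_mul_comm, Matrix.mul_assoc]
  have h : (S : Matrix (Fin N) (Fin N) ℂ)ᴴ * (S : Matrix (Fin N) (Fin N) ℂ) = 1 :=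
    Matrix.mem_unitaryGroup_iff'.1 S.2
  rw [h, Matrix.mul_one]

lemma rot_hs {N : ℕ} (A : Matrix (Fin N) (Fin N) ℂ) (S : Matrix.unitaryGroup (Fin N) ℂ) :
    (rot A S * (rot A S)ᴴ).trace = (A * Aᴴ).trace := by
  have h : (S : Matrix (Fin N) (Fin N) ℂ)ᴴ * (S : Matrix (Fin N) (Fin N) ℂ) = 1 :=
    Matrix.mem_unitaryGroup_iff'.1 S.2
  have h2 : rot A S * (rot A S)ᴴ = rot (A * Aᴴ) S := by
    unfold rot
    rw [conjTranspose_mul, conjTranspose_mul, conjTranspose_conjTranspose]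
    calc _ = (S : Matrix (Fin N) (Fin N) ℂ) * A * ((S : Matrix (Fin N) (Fin N) ℂ)ᴴ *
          (S : Matrix (Fin N) (Fin N) ℂ)) * Aᴴ * (S : Matrix (Fin N) (Fin N) ℂ)ᴴ := by
          simp only [Matrix.mul_assoc]
      _ = _ := by rw [h]; simp only [Matrix.mul_assoc, Matrix.mul_one]
  rw [h2, rot_trace]

lemma hs_eq_sum {N : ℕ} (B : Matrix (Fin N) (Fin N) ℂ) :
    (B * Bᴴ).trace = ((∑ i, ∑ j, ‖B i j‖ ^ 2 : ℝ) : ℂ) := by
  rw [Matrix.trace]
  push_cast
  apply sum_congr rfl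
  intro i _
  rw [Matrix.diag_apply, Matrix.mul_apply]
  apply sum_congr rfl
  intro j _
  rw [conjTranspose_apply, ← Complex.conj_mul', mul_comm]
  rfl

lemma rot_sum {N : ℕ} (A : Matrix (Fin N) (Fin N) ℂ) (S : Matrix.unitaryGroup (Fin N) ℂ) :
    ∑ i, ∑ j, ‖rot A S i j‖ ^ 2 = ∑ i, ∑ j, ‖A i j‖ ^ 2 := by
  have h := rot_hs A S
  rw [hs_eq_sum, hs_eq_sum] at h
  exact_mod_cast h

lemma rot_continuous {N : ℕ} (A : Matrix (Fin N) (Fin N) ℂ) : Continuous (rot A) := by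
  unfold rot
  exact (continuous_subtype_val.matrix_mul continuous_const).matrix_mul
    continuous_subtype_val.matrix_conjTranspose

section invariance
variable {N : ℕ} [MeasurableSpace (Matrix.unitaryGroup (Fin N) ℂ)]
  [BorelSpace (Matrix.unitaryGroup (Fin N) ℂ)]
  (ν : Measure (Matrix.unitaryGroup (Fin N) ℂ)) [ν.IsMulLeftInvariant]

/-- base point independence -/
lemma base_point (A : Matrix (Fin N) (Fin N) ℂ) (i0 : Fin N) (u : Fin N → ℂ) (hu : star u ⬝ᵥ u = 1) :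
    ∫ S, ‖Q u (rot A S)‖ ^ 2 ∂ν = ∫ S, ‖Q (Pi.single i0 1) (rot A S)‖ ^ 2 ∂ν := by
  obtain ⟨V, hV⟩ := exists_unitary_col i0 u hu
  have h1 : ∀ S, ‖Q u (rot A S)‖ ^ 2 = (fun S => ‖Q (Pi.single i0 1) (rot A S)‖ ^ 2) (V⁻¹ * S) := by
    intro S
    simp only
    congr 2
    conv_lhs => rw [← hV]
    rw [Q_mulVec]
    congr 1
    unfold rot
    have e : ((V⁻¹ * S : Matrix.unitaryGroup (Fin N) ℂ) : Matrix (Fin N) (Fin N) ℂ)
        = (V : Matrix (Fin N) (Fin N) ℂ)ᴴ * (S : Matrix (Fin N) (Fin N) ℂ) := rfl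
    rw [e, conjTranspose_mul, conjTranspose_conjTranspose]
    simp only [Matrix.mul_assoc]
  simp_rw [h1]
  exact integral_mul_left_eq_self (μ := ν) (fun S => ‖Q (Pi.single i0 1) (rot A S)‖ ^ 2) V⁻¹

/-- the vector `(ε_i + ω ε_j)/√2` -/
noncomputable def uvec (i j : Fin N) (ω : ℂ) : Fin N → ℂ :=
  (((Real.sqrt 2)⁻¹ : ℝ) : ℂ) • (Pi.single i 1 + ω • Pi.single j 1)

omit [MeasurableSpace (Matrix.unitaryGroup (Fin N) ℂ)] [BorelSpace (Matrix.unitaryGroup (Fin N) ℂ)] in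
lemma Q_single (i : Fin N) (B : Matrix (Fin N) (Fin N) ℂ) : Q (Pi.single i 1) B = B i i := by
  unfold Q
  rw [Pi.star_single, star_one, single_one_dotProduct, mulVec_single_one]
  rfl

omit [MeasurableSpace (Matrix.unitaryGroup (Fin N) ℂ)] [BorelSpace (Matrix.unitaryGroup (Fin N) ℂ)] in
lemma Q_uvec (i j : Fin N) (ω : ℂ) (hω : star ω * ω = 1) (B : Matrix (Fin N) (Fin N) ℂ) :
    Q (uvec i j ω) B = (B i i + B j j + ω * B i j + star ω * B j i) / 2 := by
  unfold Q uvec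
  have h2 : (((Real.sqrt 2)⁻¹ : ℝ) : ℂ) * (((Real.sqrt 2)⁻¹ : ℝ) : ℂ) = 1 / 2 := by
    rw [← Complex.ofReal_mul, ← mul_inv, Real.mul_self_sqrt (by norm_num)]
    push_cast
    norm_num
  rw [star_smul, smul_dotProduct, mulVec_smul, dotProduct_smul, smul_eq_mul, smul_eq_mul,
    star_add, star_smul, Pi.star_single, Pi.star_single, star_one, mulVec_add, mulVec_smul,
    mulVec_single_one, mulVec_single_one]
  simp only [add_dotProduct, dotProduct_add, smul_dotProduct, dotProduct_smul,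
    single_one_dotProduct, smul_eq_mul, Matrix.col_apply]
  have h3 : star (((Real.sqrt 2)⁻¹ : ℝ) : ℂ) = (((Real.sqrt 2)⁻¹ : ℝ) : ℂ) := Complex.conj_ofReal _
  rw [h3, ← mul_assoc, h2]
  linear_combination (1/2) * B j j * hω

omit [MeasurableSpace (Matrix.unitaryGroup (Fin N) ℂ)] [BorelSpace (Matrix.unitaryGroup (Fin N) ℂ)] in
lemma uvec_unit (i j : Fin N) (hij : i ≠ j) (ω : ℂ) (hω : star ω * ω = 1) :
    star (uvec i j ω) ⬝ᵥ uvec i j ω = 1 := by
  have h := Q_uvec i j ω hω (1 : Matrix (Fin N) (Fin N) ℂ)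
  unfold Q at h
  rw [one_mulVec] at h
  rw [h]
  simp [hij, hij.symm]

lemma four_avg (a b c : ℂ) :
    ‖(a + 1 * b + star (1:ℂ) * c) / 2‖ ^ 2 + ‖(a + (-1) * b + star (-1:ℂ) * c) / 2‖ ^ 2
      + ‖(a + Complex.I * b + star Complex.I * c) / 2‖ ^ 2
      + ‖(a + (-Complex.I) * b + star (-Complex.I) * c) / 2‖ ^ 2
      = ‖a‖ ^ 2 + ‖b‖ ^ 2 + ‖c‖ ^ 2 := by
  simp only [Complex.sq_norm, Complex.normSq_apply, Complex.star_def]
  simp
  ring

omit [MeasurableSpace (Matrix.unitaryGroup (Fin N) ℂ)] [BorelSpace (Matrix.unitaryGroup (Fin N) ℂ)] in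
lemma sum_sq_real (x : Fin N → ℝ) :
    ∑ i, ∑ j, (x i + x j) ^ 2 = 2 * N * ∑ i, x i ^ 2 + 2 * (∑ i, x i) ^ 2 := by
  have h1 : ∀ i j : Fin N, (x i + x j) ^ 2 = x i ^ 2 + 2 * (x i * x j) + x j ^ 2 := by
    intro i j; ring
  simp_rw [h1, sum_add_distrib, ← mul_sum, sum_const, card_univ, Fintype.card_fin, nsmul_eq_mul,
    ← sum_mul, ← mul_sum]
  ring

omit [MeasurableSpace (Matrix.unitaryGroup (Fin N) ℂ)] [BorelSpace (Matrix.unitaryGroup (Fin N) ℂ)] in
lemma sum_sq_complex (b : Fin N → ℂ) :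
    ∑ i, ∑ j, ‖b i + b j‖ ^ 2 = 2 * N * ∑ i, ‖b i‖ ^ 2 + 2 * ‖∑ i, b i‖ ^ 2 := by
  have h1 : ∀ z : ℂ, ‖z‖ ^ 2 = z.re ^ 2 + z.im ^ 2 := by
    intro z; rw [Complex.sq_norm, Complex.normSq_apply]; ring
  simp_rw [h1, Complex.add_re, Complex.add_im, Complex.re_sum, Complex.im_sum, sum_add_distrib]
  have h2 := sum_sq_real (fun i => (b i).re)
  have h3 := sum_sq_real (fun i => (b i).im)
  rw [h2, h3]
  ring

omit [MeasurableSpace (Matrix.unitaryGroup (Fin N) ℂ)] [BorelSpace (Matrix.unitaryGroup (Fin N) ℂ)] in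
lemma entry_sq_le (A : Matrix (Fin N) (Fin N) ℂ) (S : Matrix.unitaryGroup (Fin N) ℂ) (i j : Fin N) :
    ‖rot A S i j‖ ^ 2 ≤ ∑ i, ∑ j, ‖A i j‖ ^ 2 := by
  rw [← rot_sum A S]
  calc ‖rot A S i j‖ ^ 2 ≤ ∑ j, ‖rot A S i j‖ ^ 2 :=
        single_le_sum (f := fun j => ‖rot A S i j‖ ^ 2) (fun _ _ => by positivity) (mem_univ j)
    _ ≤ _ := single_le_sum (f := fun i => ∑ j, ‖rot A S i j‖ ^ 2)
        (fun _ _ => sum_nonneg fun _ _ => by positivity) (mem_univ i)

lemma integrable_aux [IsProbabilityMeasure ν] (A : Matrix (Fin N) (Fin N) ℂ)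
    (f : Matrix (Fin N) (Fin N) ℂ → ℝ) (hf : Continuous f) (K : ℝ)
    (hb : ∀ S, |f (rot A S)| ≤ K) : Integrable (fun S => f (rot A S)) ν := by
  refine Integrable.of_bound (hf.comp (rot_continuous A)).measurable.aestronglyMeasurable K ?_
  exact Filter.Eventually.of_forall fun S => by rw [Real.norm_eq_abs]; exact hb S

lemma entry_integrable [IsProbabilityMeasure ν] (A : Matrix (Fin N) (Fin N) ℂ) (i j : Fin N) :
    Integrable (fun S => ‖rot A S i j‖ ^ 2) ν := by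
  refine integrable_aux ν A (fun B => ‖B i j‖ ^ 2) (by fun_prop) (∑ i, ∑ j, ‖A i j‖ ^ 2) ?_
  intro S
  rw [abs_of_nonneg (by positivity)]
  exact entry_sq_le A S i j

lemma pair_integrable [IsProbabilityMeasure ν] (A : Matrix (Fin N) (Fin N) ℂ) (i j : Fin N) :
    Integrable (fun S => ‖rot A S i i + rot A S j j‖ ^ 2) ν := by
  refine integrable_aux ν A (fun B => ‖B i i + B j j‖ ^ 2) (by fun_prop)
    (4 * ∑ i, ∑ j, ‖A i j‖ ^ 2) ?_
  intro S
  rw [abs_of_nonneg (by positivity)]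
  have h1 := entry_sq_le A S i i
  have h2 := entry_sq_le A S j j
  have h3 := norm_add_le (rot A S i i) (rot A S j j)
  have h4 := norm_nonneg (rot A S i i + rot A S j j)
  have h5 : ‖rot A S i i + rot A S j j‖ ^ 2 ≤ (‖rot A S i i‖ + ‖rot A S j j‖) ^ 2 := by gcongr
  nlinarith [sq_nonneg (‖rot A S i i‖ - ‖rot A S j j‖)]

lemma diag_moment (A : Matrix (Fin N) (Fin N) ℂ) (i0 i : Fin N) :
    ∫ S, ‖rot A S i i‖ ^ 2 ∂ν = ∫ S, ‖rot A S i0 i0‖ ^ 2 ∂ν := by
  have h := base_point ν A i0 (Pi.single i 1) (by simp)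
  simp_rw [Q_single] at h
  exact h

lemma four_int {X : Type*} [MeasurableSpace X] (ν : Measure X) (f1 f2 f3 f4 : X → ℝ)
    (h1 : Integrable f1 ν) (h2 : Integrable f2 ν) (h3 : Integrable f3 ν) (h4 : Integrable f4 ν) :
    ∫ x, (f1 x + f2 x + f3 x + f4 x) ∂ν = ∫ x, f1 x ∂ν + ∫ x, f2 x ∂ν + ∫ x, f3 x ∂ν + ∫ x, f4 x ∂ν := by
  have h12 : Integrable (fun x => f1 x + f2 x) ν := h1.add h2
  have h123 : Integrable (fun x => f1 x + f2 x + f3 x) ν := h12.add h3
  rw [integral_add h123 h4, integral_add h12 h3, integral_add h1 h2]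

lemma pair_moment [IsProbabilityMeasure ν] (A : Matrix (Fin N) (Fin N) ℂ) (i0 i j : Fin N) :
    ∫ S, (‖rot A S i i + rot A S j j‖ ^ 2 + ‖rot A S i j‖ ^ 2 + ‖rot A S j i‖ ^ 2) ∂ν
      = (4 + if i = j then 2 else 0) * ∫ S, ‖rot A S i0 i0‖ ^ 2 ∂ν := by
  by_cases hij : i = j
  · subst hij
    rw [if_pos rfl, ← diag_moment ν A i0 i, ← integral_const_mul]
    apply integral_congr_ae
    apply Filter.Eventually.of_forall
    intro S
    simp only
    have : rot A S i i + rot A S i i = 2 * rot A S i i := by ring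
    rw [this, norm_mul]
    norm_num
    ring
  · rw [if_neg hij, add_zero]
    have key : ∀ ω : ℂ, star ω * ω = 1 →
        ∫ S, ‖(rot A S i i + rot A S j j + ω * rot A S i j + star ω * rot A S j i) / 2‖ ^ 2 ∂ν
          = ∫ S, ‖rot A S i0 i0‖ ^ 2 ∂ν := by
      intro ω hω
      have h := base_point ν A i0 (uvec i j ω) (uvec_unit i j hij ω hω)
      simp_rw [Q_single, Q_uvec i j ω hω] at h
      exact h
    have hint : ∀ ω : ℂ, star ω * ω = 1 → Integrable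
        (fun S => ‖(rot A S i i + rot A S j j + ω * rot A S i j + star ω * rot A S j i) / 2‖ ^ 2) ν := by
      intro ω hω
      refine integrable_aux ν A (fun B => ‖(B i i + B j j + ω * B i j + star ω * B j i) / 2‖ ^ 2)
        (by fun_prop) (4 * ∑ i, ∑ j, ‖A i j‖ ^ 2) ?_
      intro S
      have hn : ‖ω‖ = 1 := by
        have h1 : ‖star ω * ω‖ = 1 := by rw [hω]; exact norm_one
        rw [norm_mul, norm_star] at h1
        nlinarith [norm_nonneg ω]
      rw [abs_of_nonneg (by positivity)]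
      have h1 := entry_sq_le A S i i
      have h2 := entry_sq_le A S j j
      have h3 := entry_sq_le A S i j
      have h4 := entry_sq_le A S j i
      have h5 : ‖(rot A S i i + rot A S j j + ω * rot A S i j + star ω * rot A S j i) / 2‖
          ≤ (‖rot A S i i‖ + ‖rot A S j j‖ + ‖rot A S i j‖ + ‖rot A S j i‖) / 2 := by
        rw [norm_div]
        have h6 : ‖rot A S i i + rot A S j j + ω * rot A S i j + star ω * rot A S j i‖
            ≤ ‖rot A S i i‖ + ‖rot A S j j‖ + ‖ω * rot A S i j‖ + ‖star ω * rot A S j i‖ := by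
          refine (norm_add_le _ _).trans ?_
          gcongr
          refine (norm_add_le _ _).trans ?_
          gcongr
          exact norm_add_le _ _
        rw [norm_mul, norm_mul, norm_star, hn, one_mul, one_mul] at h6
        have h7 : ‖(2:ℂ)‖ = 2 := by norm_num
        rw [h7]
        gcongr
      have h8 : ‖(rot A S i i + rot A S j j + ω * rot A S i j + star ω * rot A S j i) / 2‖ ^ 2
          ≤ ((‖rot A S i i‖ + ‖rot A S j j‖ + ‖rot A S i j‖ + ‖rot A S j i‖) / 2) ^ 2 := by gcongr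
      nlinarith [sq_nonneg (‖rot A S i i‖ - ‖rot A S j j‖), sq_nonneg (‖rot A S i i‖ - ‖rot A S i j‖),
        sq_nonneg (‖rot A S i i‖ - ‖rot A S j i‖), sq_nonneg (‖rot A S j j‖ - ‖rot A S i j‖),
        sq_nonneg (‖rot A S j j‖ - ‖rot A S j i‖), sq_nonneg (‖rot A S i j‖ - ‖rot A S j i‖)]
    have w1 : star (1:ℂ) * 1 = 1 := by simp
    have w2 : star (-1:ℂ) * (-1) = 1 := by simp
    have w3 : star Complex.I * Complex.I = 1 := by simp
    have w4 : star (-Complex.I) * (-Complex.I) = 1 := by simp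
    have e : (fun S => ‖rot A S i i + rot A S j j‖ ^ 2 + ‖rot A S i j‖ ^ 2 + ‖rot A S j i‖ ^ 2)
        = fun S => _ := funext fun S => (four_avg (rot A S i i + rot A S j j) (rot A S i j) (rot A S j i)).symm
    rw [e]
    rw [four_int ν _ _ _ _ (hint _ w1) (hint _ w2) (hint _ w3) (hint _ w4),
      key _ w1, key _ w2, key _ w3, key _ w4]
    ring

/-- The second moment identity for traceless `A`. -/
lemma second_moment [IsProbabilityMeasure ν] (A : Matrix (Fin N) (Fin N) ℂ) (hA : A.trace = 0)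
    (i0 : Fin N) :
    (N:ℝ) * (N + 1) * ∫ S, ‖rot A S i0 i0‖ ^ 2 ∂ν = ∑ i, ∑ j, ‖A i j‖ ^ 2 := by
  set Fv := ∫ S, ‖rot A S i0 i0‖ ^ 2 ∂ν with hF
  have h1 : ∑ i : Fin N, ∑ j : Fin N,
      ∫ S, (‖rot A S i i + rot A S j j‖ ^ 2 + ‖rot A S i j‖ ^ 2 + ‖rot A S j i‖ ^ 2) ∂ν
      = (4 * N ^ 2 + 2 * N) * Fv := by
    simp_rw [pair_moment ν A i0, ← sum_mul, sum_add_distrib, sum_const, card_univ, Fintype.card_fin]
    simp
    ring
  have h2 : ∑ i : Fin N, ∑ j : Fin N,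
      ∫ S, (‖rot A S i i + rot A S j j‖ ^ 2 + ‖rot A S i j‖ ^ 2 + ‖rot A S j i‖ ^ 2) ∂ν
      = ∫ S, ∑ i : Fin N, ∑ j : Fin N,
        (‖rot A S i i + rot A S j j‖ ^ 2 + ‖rot A S i j‖ ^ 2 + ‖rot A S j i‖ ^ 2) ∂ν := by
    have hi : ∀ i j : Fin N, Integrable (fun S => ‖rot A S i i + rot A S j j‖ ^ 2
        + ‖rot A S i j‖ ^ 2 + ‖rot A S j i‖ ^ 2) ν := fun i j =>
      ((pair_integrable ν A i j).add (entry_integrable ν A i j)).add (entry_integrable ν A j i)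
    rw [integral_finsetSum]
    · apply sum_congr rfl
      intro i _
      rw [integral_finsetSum]
      intro j _
      exact hi i j
    · intro i _
      exact integrable_finsetSum _ fun j _ => hi i j
  have h3 : ∀ S, ∑ i : Fin N, ∑ j : Fin N,
        (‖rot A S i i + rot A S j j‖ ^ 2 + ‖rot A S i j‖ ^ 2 + ‖rot A S j i‖ ^ 2)
      = 2 * N * ∑ i, ‖rot A S i i‖ ^ 2 + 2 * ∑ i, ∑ j, ‖A i j‖ ^ 2 := by
    intro S
    simp_rw [sum_add_distrib]
    rw [sum_sq_complex (fun i => rot A S i i)]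
    have h4 : ∑ i, rot A S i i = 0 := by
      have := rot_trace A S
      rw [hA] at this
      exact this
    rw [h4, norm_zero, sum_comm (f := fun i j => ‖rot A S j i‖ ^ 2), rot_sum]
    ring
  simp_rw [h3] at h2
  rw [integral_add, integral_const_mul, integral_finsetSum] at h2
  · simp_rw [diag_moment ν A i0] at h2
    rw [← hF] at h2
    simp only [sum_const, card_univ, Fintype.card_fin, nsmul_eq_mul, integral_const,
      probReal_univ, one_smul] at h2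
    rw [h1] at h2
    linarith
  · intro i _
    exact entry_integrable ν A i i
  · exact (integrable_finsetSum _ fun i _ => entry_integrable ν A i i).const_mul _
  · exact integrable_const _

omit [MeasurableSpace (Matrix.unitaryGroup (Fin N) ℂ)] [BorelSpace (Matrix.unitaryGroup (Fin N) ℂ)] in
lemma hs_center (A : Matrix (Fin N) (Fin N) ℂ) (t : ℂ) (ht : A.trace = N * t) :
    ∑ i, ∑ j, ‖(A - t • (1 : Matrix (Fin N) (Fin N) ℂ)) i j‖ ^ 2 ≤ ∑ i, ∑ j, ‖A i j‖ ^ 2 := by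
  have h1 : ∀ i j : Fin N, ‖(A - t • (1 : Matrix (Fin N) (Fin N) ℂ)) i j‖ ^ 2
      = ‖A i j‖ ^ 2 + (if i = j then ‖t‖ ^ 2 - 2 * (conj t * A i j).re else 0) := by
    intro i j
    rw [Matrix.sub_apply, Matrix.smul_apply, Matrix.one_apply]
    by_cases hij : i = j
    · rw [if_pos hij, if_pos hij, smul_eq_mul, mul_one]
      simp only [Complex.sq_norm, Complex.normSq_apply, Complex.sub_re, Complex.sub_im,
        Complex.mul_re, Complex.conj_re, Complex.conj_im]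
      ring
    · rw [if_neg hij, if_neg hij]; simp
  simp_rw [h1, sum_add_distrib, sum_ite_eq, mem_univ, if_true, sum_sub_distrib, ← mul_sum]
  have h2 : ∑ i, (conj t * A i i).re = N * ‖t‖ ^ 2 := by
    rw [← Complex.re_sum, ← mul_sum]
    have : ∑ i, A i i = N * t := ht
    rw [this, ← mul_assoc, mul_comm (conj t), mul_assoc, Complex.conj_mul']
    have h3 : ((N:ℂ) * (‖t‖:ℂ) ^ 2) = ((N * ‖t‖ ^ 2 : ℝ) : ℂ) := by push_cast; ring
    rw [h3, Complex.ofReal_re]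
  rw [h2]
  simp only [sum_const, card_univ, Fintype.card_fin, nsmul_eq_mul]
  have : 0 ≤ (N:ℝ) * ‖t‖ ^ 2 := by positivity
  linarith

omit [MeasurableSpace (Matrix.unitaryGroup (Fin N) ℂ)] [BorelSpace (Matrix.unitaryGroup (Fin N) ℂ)] in
lemma rot_center (A : Matrix (Fin N) (Fin N) ℂ) (t : ℂ) (S : Matrix.unitaryGroup (Fin N) ℂ) :
    rot (A - t • (1 : Matrix (Fin N) (Fin N) ℂ)) S = rot A S - t • (1 : Matrix (Fin N) (Fin N) ℂ) := by
  have h : (S : Matrix (Fin N) (Fin N) ℂ) * (S : Matrix (Fin N) (Fin N) ℂ)ᴴ = 1 :=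
    Matrix.mem_unitaryGroup_iff.1 S.2
  unfold rot
  rw [Matrix.mul_sub, Matrix.sub_mul, Matrix.mul_smul, Matrix.smul_mul, Matrix.mul_one, h]

/-- variance bound for the quadratic form -/
lemma quad_var [IsProbabilityMeasure ν] (A : Matrix (Fin N) (Fin N) ℂ) (u : Fin N → ℂ)
    (hu : star u ⬝ᵥ u = 1) (hN : 0 < N) :
    (N:ℝ) * (N + 1) * ∫ S, ‖Q u (rot A S) - A.trace / N‖ ^ 2 ∂ν ≤ ∑ i, ∑ j, ‖A i j‖ ^ 2 := by
  have hN0 : (N:ℂ) ≠ 0 := by exact_mod_cast hN.ne'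
  set t : ℂ := A.trace / N with ht
  have htr : A.trace = N * t := by rw [ht]; field_simp
  have h1 : ∀ S, Q u (rot A S) - t = Q u (rot (A - t • (1 : Matrix (Fin N) (Fin N) ℂ)) S) := by
    intro S
    rw [rot_center]
    unfold Q
    rw [sub_mulVec, dotProduct_sub, smul_mulVec, one_mulVec, dotProduct_smul, hu, smul_eq_mul,
      mul_one]
  simp_rw [h1]
  rw [base_point ν _ ⟨0, hN⟩ u hu]
  simp_rw [Q_single]
  rw [second_moment ν]
  · exact hs_center A t htr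
  · rw [trace_sub, trace_smul, trace_one, Fintype.card_fin, htr, smul_eq_mul]
    ring

end invariance

end R977MH
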