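import Pool.Agent.R977.MH4

/-! Operator norm facts. -/

namespace R977MH

open Finset Matrix

/-- `B_L = (P S_L) ⋯ (P S_1)`; `S i` is the unitary `S_{i+1}` of the problem file. -/
noncomputable def prodB {N : ℕ} (P : Matrix (Fin N) (Fin N) ℂ)
    (S : ℕ → Matrix.unitaryGroup (Fin N) ℂ) : ℕ → Matrix (Fin N) (Fin N) ℂ
  | 0 => 1
  | (L+1) => (P * (S L : Matrix (Fin N) (Fin N) ℂ)) * prodB P S L

section norms
open scoped Matrix.Norms.L2Operator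
variable {N : ℕ}

lemma proj_norm_le (P : Matrix (Fin N) (Fin N) ℂ) (h1 : Pᴴ = P) (h2 : P * P = P) : ‖P‖ ≤ 1 := by
  have h := Matrix.l2_opNorm_conjTranspose_mul_self P
  rw [h1, h2] at h
  by_contra hc
  push Not at hc
  nlinarith

lemma one_norm_le : ‖(1 : Matrix (Fin N) (Fin N) ℂ)‖ ≤ 1 :=
  proj_norm_le 1 (by simp) (by simp)

lemma rot_norm (A : Matrix (Fin N) (Fin N) ℂ) (S : Matrix.unitaryGroup (Fin N) ℂ) :
    ‖rot A S‖ = ‖A‖ := by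
  unfold rot
  have h1 : ‖((S : Matrix (Fin N) (Fin N) ℂ) * A) * (S : Matrix (Fin N) (Fin N) ℂ)ᴴ‖
      = ‖(S : Matrix (Fin N) (Fin N) ℂ) * A‖ :=
    CStarRing.norm_mul_coe_unitary _ (star S)
  rw [h1]
  exact CStarRing.norm_coe_unitary_mul S A

lemma pow_norm_le (A : Matrix (Fin N) (Fin N) ℂ) (hA : ‖A‖ ≤ 1) (k : ℕ) : ‖A ^ k‖ ≤ 1 := by
  induction k with
  | zero => rw [pow_zero]; exact one_norm_le
  | succ k ih =>
    rw [pow_succ]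
    calc _ ≤ ‖A ^ k‖ * ‖A‖ := norm_mul_le _ _
      _ ≤ 1 * 1 := by gcongr
      _ = 1 := by norm_num

lemma prodB_norm (P : Matrix (Fin N) (Fin N) ℂ) (h1 : Pᴴ = P) (h2 : P * P = P)
    (S : ℕ → Matrix.unitaryGroup (Fin N) ℂ) (L : ℕ) : ‖prodB P S L‖ ≤ 1 := by
  induction L with
  | zero => exact one_norm_le
  | succ L ih =>
    simp only [prodB]
    rw [Matrix.mul_assoc]
    calc _ ≤ ‖P‖ * ‖(S L : Matrix (Fin N) (Fin N) ℂ) * prodB P S L‖ := norm_mul_le _ _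
      _ = ‖P‖ * ‖prodB P S L‖ := by rw [CStarRing.norm_coe_unitary_mul]
      _ ≤ 1 * 1 := by gcongr; exact proj_norm_le P h1 h2
      _ = 1 := by norm_num

lemma vec_norm (u : Fin N → ℂ) (hu : star u ⬝ᵥ u = 1) :
    ‖(WithLp.toLp 2 u : EuclideanSpace ℂ (Fin N))‖ = 1 := by
  have h1 : inner ℂ (WithLp.toLp 2 u : EuclideanSpace ℂ (Fin N)) (WithLp.toLp 2 u) = 1 := by
    rw [EuclideanSpace.inner_eq_star_dotProduct]
    rw [dotProduct_comm]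
    exact hu
  have h2 := inner_self_eq_norm_sq_to_K (𝕜 := ℂ) (WithLp.toLp 2 u : EuclideanSpace ℂ (Fin N))
  rw [h1] at h2
  have h3 : ‖(WithLp.toLp 2 u : EuclideanSpace ℂ (Fin N))‖ ^ 2 = 1 := by
    have h4 : ((‖(WithLp.toLp 2 u : EuclideanSpace ℂ (Fin N))‖ ^ 2 : ℝ) : ℂ) = ((1:ℝ) : ℂ) := by
      push_cast
      exact h2.symm
    exact_mod_cast h4
  exact (pow_eq_one_iff_of_nonneg (norm_nonneg _) two_ne_zero).1 h3

lemma Q_norm_le (C : Matrix (Fin N) (Fin N) ℂ) (u : Fin N → ℂ) (hu : star u ⬝ᵥ u = 1) :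
    ‖Q u C‖ ≤ ‖C‖ := by
  have h1 : Q u C = inner ℂ (WithLp.toLp 2 u : EuclideanSpace ℂ (Fin N)) (WithLp.toLp 2 (C *ᵥ u)) := by
    rw [EuclideanSpace.inner_eq_star_dotProduct]
    rw [dotProduct_comm]
    rfl
  rw [h1]
  have h2 := vec_norm u hu
  have h3 : ‖(WithLp.toLp 2 (C *ᵥ u) : EuclideanSpace ℂ (Fin N))‖ ≤ ‖C‖ * 1 := by
    have := Matrix.l2_opNorm_mulVec C (WithLp.toLp 2 u : EuclideanSpace ℂ (Fin N))
    rw [h2] at this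
    exact this
  calc _ ≤ ‖(WithLp.toLp 2 u : EuclideanSpace ℂ (Fin N))‖ *
        ‖(WithLp.toLp 2 (C *ᵥ u) : EuclideanSpace ℂ (Fin N))‖ := norm_inner_le_norm _ _
    _ ≤ 1 * (‖C‖ * 1) := by rw [h2]; gcongr
    _ = ‖C‖ := by ring

lemma hs_le (C : Matrix (Fin N) (Fin N) ℂ) (hC : ‖C‖ ≤ 1) : ∑ i, ∑ j, ‖C i j‖ ^ 2 ≤ N := by
  rw [sum_comm]
  have h1 : ∀ j : Fin N, ∑ i, ‖C i j‖ ^ 2 ≤ 1 := by
    intro j
    have hu : star (Pi.single j 1 : Fin N → ℂ) ⬝ᵥ Pi.single j 1 = 1 := by simp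
    have h2 := vec_norm _ hu
    have h3 := Matrix.l2_opNorm_mulVec C (WithLp.toLp 2 (Pi.single j 1) : EuclideanSpace ℂ (Fin N))
    rw [h2, mul_one] at h3
    have h4 : ‖(WithLp.toLp 2 (C *ᵥ Pi.single j 1) : EuclideanSpace ℂ (Fin N))‖ ≤ 1 := le_trans h3 hC
    have h5 := EuclideanSpace.norm_sq_eq (WithLp.toLp 2 (C *ᵥ Pi.single j 1) : EuclideanSpace ℂ (Fin N))
    have h6 : ∑ i, ‖C i j‖ ^ 2 = ‖(WithLp.toLp 2 (C *ᵥ Pi.single j 1) : EuclideanSpace ℂ (Fin N))‖ ^ 2 := by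
      rw [h5]
      apply sum_congr rfl
      intro i _
      simp
    rw [h6]
    have := norm_nonneg (WithLp.toLp 2 (C *ᵥ Pi.single j 1) : EuclideanSpace ℂ (Fin N))
    nlinarith
  calc _ ≤ ∑ j : Fin N, (1:ℝ) := sum_le_sum fun j _ => h1 j
    _ = N := by simp

lemma trace_norm_le (C : Matrix (Fin N) (Fin N) ℂ) (hC : ‖C‖ ≤ 1) : ‖C.trace‖ ≤ N := by
  have h1 : ∀ i : Fin N, ‖C i i‖ ≤ 1 := by
    intro i
    have h := Q_norm_le C (Pi.single i 1) (by simp)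
    rw [Q_single] at h
    exact h.trans hC
  calc ‖C.trace‖ = ‖∑ i, C i i‖ := rfl
    _ ≤ ∑ i, ‖C i i‖ := norm_sum_le _ _
    _ ≤ ∑ i : Fin N, (1:ℝ) := sum_le_sum fun i _ => h1 i
    _ = N := by simp

/-- `X_L = B_L B_L†` -/
noncomputable def XX (P : Matrix (Fin N) (Fin N) ℂ)
    (S : ℕ → Matrix.unitaryGroup (Fin N) ℂ) (L : ℕ) : Matrix (Fin N) (Fin N) ℂ :=
  prodB P S L * (prodB P S L)ᴴ

lemma XX_norm (P : Matrix (Fin N) (Fin N) ℂ) (h1 : Pᴴ = P) (h2 : P * P = P)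
    (S : ℕ → Matrix.unitaryGroup (Fin N) ℂ) (L : ℕ) : ‖XX P S L‖ ≤ 1 := by
  have h := prodB_norm P h1 h2 S L
  unfold XX
  calc _ ≤ ‖prodB P S L‖ * ‖(prodB P S L)ᴴ‖ := norm_mul_le _ _
    _ = ‖prodB P S L‖ * ‖prodB P S L‖ := by rw [Matrix.l2_opNorm_conjTranspose]
    _ ≤ 1 * 1 := by gcongr
    _ = 1 := by norm_num

end norms

section facts
variable {N : ℕ} (P : Matrix (Fin N) (Fin N) ℂ) (h1 : Pᴴ = P) (h2 : P * P = P)
    (S : ℕ → Matrix.unitaryGroup (Fin N) ℂ)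

include h1 h2

lemma XX_pow_hs (L k : ℕ) : ∑ i, ∑ j, ‖(XX P S L ^ k) i j‖ ^ 2 ≤ N :=
  hs_le _ (pow_norm_le _ (XX_norm P h1 h2 S L) k)

lemma XX_pow_trace (L k : ℕ) : ‖(XX P S L ^ k).trace‖ ≤ N :=
  trace_norm_le _ (pow_norm_le _ (XX_norm P h1 h2 S L) k)

lemma XX_pow_Q (L k : ℕ) (u : Fin N → ℂ) (hu : star u ⬝ᵥ u = 1) :
    ‖Q u (rot (XX P S L ^ k) (S L))‖ ≤ 1 := by
  refine (Q_norm_le _ u hu).trans ?_
  rw [rot_norm]
  exact pow_norm_le _ (XX_norm P h1 h2 S L) k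

omit h2 in
lemma XX_succ (L : ℕ) : XX P S (L+1) = P * rot (XX P S L) (S L) * P := by
  unfold XX rot
  simp only [prodB]
  rw [conjTranspose_mul, conjTranspose_mul, h1]
  simp only [Matrix.mul_assoc]

omit h1 in
lemma PYP_pow (Y : Matrix (Fin N) (Fin N) ℂ) (q : ℕ) : (P * Y * P) ^ (q+1) = (P * Y) ^ (q+1) * P := by
  induction q with
  | zero => simp
  | succ q ih =>
    rw [pow_succ, ih, pow_succ (P * Y) (q+1)]
    calc (P * Y) ^ (q+1) * P * (P * Y * P) = (P * Y) ^ (q+1) * (P * P) * Y * P := by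
          simp only [Matrix.mul_assoc]
      _ = _ := by rw [h2]; simp only [Matrix.mul_assoc]

end facts

end R977MH
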