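import Pool.Agent.R977.MH5

/-! The exact recursion for the moments. -/

namespace R977MH

open Finset Matrix

variable {N : ℕ}

/-- the rank one projection -/
noncomputable def E1 (e : Fin N → ℂ) : Matrix (Fin N) (Fin N) ℂ := vecMulVec e (star e)

lemma E1_trace (e : Fin N → ℂ) (A : Matrix (Fin N) (Fin N) ℂ) : (E1 e * A).trace = Q e A := by
  unfold E1 Q
  rw [vecMulVec_mul, trace_vecMulVec, dotProduct_comm, ← dotProduct_mulVec]

lemma E1_mid (e : Fin N → ℂ) (A : Matrix (Fin N) (Fin N) ℂ) :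
    E1 e * A * E1 e = (E1 e * A).trace • E1 e := by
  rw [E1_trace]
  unfold E1 Q
  rw [vecMulVec_mul, vecMulVec_mul_vecMulVec, ← dotProduct_mulVec, vecMulVec_smul]

lemma rot_pow (A : Matrix (Fin N) (Fin N) ℂ) (S : Matrix.unitaryGroup (Fin N) ℂ) (k : ℕ) :
    rot (A ^ k) S = rot A S ^ k := by
  have h : (S : Matrix (Fin N) (Fin N) ℂ)ᴴ * (S : Matrix (Fin N) (Fin N) ℂ) = 1 :=
    Matrix.mem_unitaryGroup_iff'.1 S.2
  have h' : (S : Matrix (Fin N) (Fin N) ℂ) * (S : Matrix (Fin N) (Fin N) ℂ)ᴴ = 1 :=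
    Matrix.mem_unitaryGroup_iff.1 S.2
  induction k with
  | zero => simp [rot, h']
  | succ k ih =>
    rw [pow_succ (rot A S), ← ih]
    unfold rot
    rw [pow_succ]
    calc (S : Matrix (Fin N) (Fin N) ℂ) * (A ^ k * A) * (S : Matrix (Fin N) (Fin N) ℂ)ᴴ
        = (S : Matrix (Fin N) (Fin N) ℂ) * A ^ k * 1 * A * (S : Matrix (Fin N) (Fin N) ℂ)ᴴ := by
          simp only [Matrix.mul_assoc, Matrix.one_mul]
      _ = _ := by rw [← h]; simp only [Matrix.mul_assoc]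

/-- normalised moment -/
noncomputable def mN (P : Matrix (Fin N) (Fin N) ℂ) (S : ℕ → Matrix.unitaryGroup (Fin N) ℂ)
    (L q : ℕ) : ℂ := (XX P S L ^ q).trace / N

/-- quadratic form sequence -/
noncomputable def yN (P : Matrix (Fin N) (Fin N) ℂ) (S : ℕ → Matrix.unitaryGroup (Fin N) ℂ)
    (e : Fin N → ℂ) (L k : ℕ) : ℂ := Q e (rot (XX P S L ^ k) (S L))

lemma E1_herm (e : Fin N → ℂ) : (E1 e)ᴴ = E1 e := by
  unfold E1
  rw [conjTranspose_vecMulVec, star_star]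

lemma E1_idem (e : Fin N → ℂ) (he : star e ⬝ᵥ e = 1) : E1 e * E1 e = E1 e := by
  have h := E1_mid e 1
  rw [Matrix.mul_one, ← Matrix.mul_one (E1 e), E1_trace, Matrix.mul_one] at h
  rw [h]
  unfold Q
  rw [one_mulVec, he, one_smul]

lemma P_herm (e : Fin N → ℂ) : (1 - E1 e)ᴴ = 1 - E1 e := by
  rw [conjTranspose_sub, conjTranspose_one, E1_herm]

lemma P_idem (e : Fin N → ℂ) (he : star e ⬝ᵥ e = 1) : (1 - E1 e) * (1 - E1 e) = 1 - E1 e := by
  have h := E1_idem e he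
  have h2 : (1 - E1 e) * (1 - E1 e) = 1 - E1 e - E1 e + E1 e * E1 e := by noncomm_ring
  rw [h2, h]
  abel

lemma recursion (e : Fin N → ℂ) (he : star e ⬝ᵥ e = 1)
    (S : ℕ → Matrix.unitaryGroup (Fin N) ℂ) (L q : ℕ) :
    mN (1 - E1 e) S (L+1) q = mN (1 - E1 e) S L q - c (yN (1 - E1 e) S e L) q / N := by
  cases q with
  | zero => simp [mN, c]
  | succ q =>
    unfold mN
    rw [XX_succ _ (P_herm e), PYP_pow _ (P_idem e he)]
    set Y := rot (XX (1 - E1 e) S L) (S L) with hY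
    have h1 : (((1 - E1 e) * Y) ^ (q+1) * (1 - E1 e)).trace = (((1 - E1 e) * Y) ^ (q+1)).trace := by
      rw [Matrix.trace_mul_comm, pow_succ', ← Matrix.mul_assoc, ← Matrix.mul_assoc, P_idem e he]
    have h2 := trace_defect (M := Y) (E := E1 e) (E1_mid e) (q+1)
    have h3 : (1 - E1 e) * Y = Y - E1 e * Y := by rw [Matrix.sub_mul, Matrix.one_mul]
    have h4 : (fun k => (E1 e * Y ^ k).trace) = yN (1 - E1 e) S e L := by
      funext k
      rw [E1_trace, hY, ← rot_pow]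
      rfl
    have h5 : (Y ^ (q+1)).trace = (XX (1 - E1 e) S L ^ (q+1)).trace := by
      rw [hY, ← rot_pow, rot_trace]
    rw [h1, h3]
    rw [h4, h5] at h2
    rw [← h2]
    ring

lemma mN_norm_le (e : Fin N → ℂ) (he : star e ⬝ᵥ e = 1)
    (S : ℕ → Matrix.unitaryGroup (Fin N) ℂ) (L q : ℕ) : ‖mN (1 - E1 e) S L q‖ ≤ 1 := by
  unfold mN
  rw [norm_div, Complex.norm_natCast]
  exact div_le_one_of_le₀ (XX_pow_trace _ (P_herm e) (P_idem e he) S L q) (by positivity)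

lemma yN_norm_le (e : Fin N → ℂ) (he : star e ⬝ᵥ e = 1)
    (S : ℕ → Matrix.unitaryGroup (Fin N) ℂ) (L q : ℕ) : ‖yN (1 - E1 e) S e L q‖ ≤ 1 :=
  XX_pow_Q _ (P_herm e) (P_idem e he) S L q e he

lemma mN_zero_L (hN : 0 < N) (P : Matrix (Fin N) (Fin N) ℂ)
    (S : ℕ → Matrix.unitaryGroup (Fin N) ℂ) (q : ℕ) : mN P S 0 q = 1 := by
  have hN0 : (N:ℂ) ≠ 0 := by exact_mod_cast hN.ne'
  unfold mN XX
  simp only [prodB]
  simp [hN0]

end R977MH
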