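import Pool.Agent.R977.MH6

/-! Independence, Fubini, and the L¹ bound. -/

namespace R977MH

open Finset Matrix MeasureTheory ProbabilityTheory

section prob
variable {N : ℕ} {Ω : Type*}
  [mU : MeasurableSpace (Matrix.unitaryGroup (Fin N) ℂ)]
  [BorelSpace (Matrix.unitaryGroup (Fin N) ℂ)]

/-- Borel structure on matrices (local). -/
noncomputable local instance matMS : MeasurableSpace (Matrix (Fin N) (Fin N) ℂ) := borel _
local instance matBS : BorelSpace (Matrix (Fin N) (Fin N) ℂ) := ⟨rfl⟩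
local instance mat2c : SecondCountableTopology (Matrix (Fin N) (Fin N) ℂ) :=
  inferInstanceAs (SecondCountableTopology (Fin N → Fin N → ℂ))
local instance uni2c : SecondCountableTopology (Matrix.unitaryGroup (Fin N) ℂ) :=
  TopologicalSpace.Subtype.secondCountableTopology (Matrix.unitaryGroup (Fin N) ℂ : Set (Matrix (Fin N) (Fin N) ℂ))

omit mU [BorelSpace (Matrix.unitaryGroup (Fin N) ℂ)] in
lemma step_cont (P : Matrix (Fin N) (Fin N) ℂ) :
    Continuous (fun x : Matrix.unitaryGroup (Fin N) ℂ × Matrix (Fin N) (Fin N) ℂ =>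
      (P * (x.1 : Matrix (Fin N) (Fin N) ℂ)) * x.2) :=
    (continuous_const.matrix_mul (continuous_subtype_val.comp continuous_fst)).matrix_mul
      continuous_snd

lemma step_meas (P : Matrix (Fin N) (Fin N) ℂ) :
    Measurable (fun x : Matrix.unitaryGroup (Fin N) ℂ × Matrix (Fin N) (Fin N) ℂ =>
      (P * (x.1 : Matrix (Fin N) (Fin N) ℂ)) * x.2) := (step_cont P).measurable

omit [BorelSpace (Matrix.unitaryGroup (Fin N) ℂ)] in
lemma pair_meas {m : MeasurableSpace Ω}
    (s : Ω → Matrix.unitaryGroup (Fin N) ℂ) (b : Ω → Matrix (Fin N) (Fin N) ℂ)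
    (hs : Measurable s) (hb : Measurable b) : Measurable (fun ω => (s ω, b ω)) := hs.prodMk hb

lemma meas_step {m : MeasurableSpace Ω} (P : Matrix (Fin N) (Fin N) ℂ)
    (s : Ω → Matrix.unitaryGroup (Fin N) ℂ) (b : Ω → Matrix (Fin N) (Fin N) ℂ)
    (hs : Measurable s) (hb : Measurable b) :
    Measurable (fun ω => (P * (s ω : Matrix (Fin N) (Fin N) ℂ)) * b ω) := by
  have h := (step_meas P).comp (pair_meas s b hs hb)
  exact h

lemma meas_prodB (P : Matrix (Fin N) (Fin N) ℂ) (S : ℕ → Ω → Matrix.unitaryGroup (Fin N) ℂ) (L : ℕ) :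
    Measurable[⨆ i ∈ {i : ℕ | i < L}, mU.comap (S i)] (fun ω => prodB P (fun i => S i ω) L) := by
  induction L with
  | zero => exact measurable_const
  | succ L ih =>
    have hS : Measurable[⨆ i ∈ {i : ℕ | i < L + 1}, mU.comap (S i)] (S L) := by
      refine (comap_measurable (S L)).mono ?_ le_rfl
      exact le_iSup₂_of_le (f := fun i (_ : i ∈ {i : ℕ | i < L + 1}) => mU.comap (S i)) L
        (Nat.lt_succ_self L) le_rfl
    have hB : Measurable[⨆ i ∈ {i : ℕ | i < L + 1}, mU.comap (S i)]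
        (fun ω => prodB P (fun i => S i ω) L) := by
      refine ih.mono ?_ le_rfl
      apply iSup₂_mono'
      intro i hi
      exact ⟨i, lt_trans hi (Nat.lt_succ_self L), le_rfl⟩
    exact meas_step P (S L) (fun ω => prodB P (fun i => S i ω) L) hS hB

lemma indep_prodB [mΩ : MeasurableSpace Ω] (P : Matrix (Fin N) (Fin N) ℂ) (S : ℕ → Ω → Matrix.unitaryGroup (Fin N) ℂ)
    (μ : Measure Ω) (hmeas : ∀ i, Measurable (S i)) (hind : iIndepFun S μ) (L : ℕ) :
    IndepFun (S L) (fun ω => prodB P (fun i => S i ω) L) μ := by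
  have h1 : iIndep (fun i => mU.comap (S i)) μ := hind
  have h2 := indep_iSup_of_disjoint (fun i => (hmeas i).comap_le) h1
    (S := {L}) (T := {i : ℕ | i < L}) (by
      rw [Set.disjoint_left]
      intro i hi hi2
      rw [Set.mem_singleton_iff] at hi
      subst hi
      exact lt_irrefl i (show i < i from hi2))
  have h3 := (meas_prodB P S L).comap_le
  have h4 : mU.comap (S L) ≤ ⨆ i ∈ ({L} : Set ℕ), mU.comap (S i) := by
    exact le_iSup₂_of_le (f := fun i (_ : i ∈ ({L} : Set ℕ)) => mU.comap (S i)) L rfl le_rfl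
  exact indep_of_indep_of_le_left (indep_of_indep_of_le_right h2 h3) h4

omit mU [BorelSpace (Matrix.unitaryGroup (Fin N) ℂ)] in
lemma Q_cont (u : Fin N → ℂ) : Continuous (fun B : Matrix (Fin N) (Fin N) ℂ => Q u B) := by
  unfold Q
  exact continuous_const.dotProduct (continuous_id.matrix_mulVec continuous_const)

omit mU [BorelSpace (Matrix.unitaryGroup (Fin N) ℂ)] in
lemma XXpow_Q_le (P : Matrix (Fin N) (Fin N) ℂ) (h1 : Pᴴ = P) (h2 : P * P = P)
    (S : ℕ → Matrix.unitaryGroup (Fin N) ℂ) (s : Matrix.unitaryGroup (Fin N) ℂ)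
    (L k : ℕ) (u : Fin N → ℂ) (hu : star u ⬝ᵥ u = 1) :
    ‖Q u (rot (XX P S L ^ k) s)‖ ≤ 1 := by
  have h := XX_pow_Q P h1 h2 (fun i => if i = L then s else S i) L k u hu
  have h3 : ∀ M, M ≤ L → prodB P (fun i => if i = L then s else S i) M = prodB P S M := by
    intro M
    induction M with
    | zero => intro _; rfl
    | succ M ih =>
      intro hM
      simp only [prodB]
      rw [ih (by omega), if_neg (by omega)]
  unfold XX at h ⊢
  rw [h3 L le_rfl, if_pos rfl] at h
  exact h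

/-- the functional -/
noncomputable def Phi (u : Fin N → ℂ) (k : ℕ)
    (x : Matrix.unitaryGroup (Fin N) ℂ × Matrix (Fin N) (Fin N) ℂ) : ℝ :=
  ‖Q u (rot ((x.2 * x.2ᴴ) ^ k) x.1) - ((x.2 * x.2ᴴ) ^ k).trace / N‖ ^ 2

omit mU [BorelSpace (Matrix.unitaryGroup (Fin N) ℂ)] in
lemma Phi_cont (u : Fin N → ℂ) (k : ℕ) : Continuous (Phi (N := N) u k) := by
  unfold Phi
  have hX : Continuous (fun x : Matrix.unitaryGroup (Fin N) ℂ × Matrix (Fin N) (Fin N) ℂ =>
      (x.2 * x.2ᴴ) ^ k) :=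
    (continuous_snd.matrix_mul continuous_snd.matrix_conjTranspose).pow k
  have hr : Continuous (fun x : Matrix.unitaryGroup (Fin N) ℂ × Matrix (Fin N) (Fin N) ℂ =>
      rot ((x.2 * x.2ᴴ) ^ k) x.1) := by
    unfold rot
    exact ((continuous_subtype_val.comp continuous_fst).matrix_mul hX).matrix_mul
      (continuous_subtype_val.comp continuous_fst).matrix_conjTranspose
  have hQ := (Q_cont u).comp hr
  have ht : Continuous (fun x : Matrix.unitaryGroup (Fin N) ℂ × Matrix (Fin N) (Fin N) ℂ =>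
      ((x.2 * x.2ᴴ) ^ k).trace / (N:ℂ)) := hX.matrix_trace.div_const _
  exact ((hQ.sub ht).norm).pow 2

lemma inner_bound (ν : Measure (Matrix.unitaryGroup (Fin N) ℂ)) [IsProbabilityMeasure ν]
    [ν.IsMulLeftInvariant] (P : Matrix (Fin N) (Fin N) ℂ) (h1 : Pᴴ = P) (h2 : P * P = P)
    (S : ℕ → Matrix.unitaryGroup (Fin N) ℂ)
    (L k : ℕ) (u : Fin N → ℂ) (hu : star u ⬝ᵥ u = 1) (hN : 0 < N) :
    ∫⁻ s, ENNReal.ofReal (Phi u k (s, prodB P S L)) ∂ν ≤ ENNReal.ofReal (1 / (N + 1)) := by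
  have hint : Integrable (fun s => Phi u k (s, prodB P S L)) ν := by
    refine integrable_aux ν (XX P S L ^ k) (fun B => ‖Q u B - (XX P S L ^ k).trace / N‖ ^ 2)
      ?_ 4 ?_
    · exact (((Q_cont u).sub continuous_const).norm).pow 2
    · intro s
      have h3 := XXpow_Q_le P h1 h2 S s L k u hu
      have h4 := XX_pow_trace P h1 h2 S L k
      have h5 : ‖(XX P S L ^ k).trace / (N:ℂ)‖ ≤ 1 := by
        rw [norm_div, Complex.norm_natCast]
        exact div_le_one_of_le₀ h4 (by positivity)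
      have h6 : ‖Q u (rot (XX P S L ^ k) s) - (XX P S L ^ k).trace / N‖ ≤ 2 := by
        refine (norm_sub_le _ _).trans ?_
        linarith
      rw [abs_of_nonneg (by positivity)]
      have h7 := norm_nonneg (Q u (rot (XX P S L ^ k) s) - (XX P S L ^ k).trace / N)
      nlinarith
  rw [← ofReal_integral_eq_lintegral_ofReal hint
    (Filter.Eventually.of_forall fun s => by unfold Phi; positivity)]
  apply ENNReal.ofReal_le_ofReal
  have h3 := quad_var ν (XX P S L ^ k) u hu hN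
  have h4 := XX_pow_hs P h1 h2 S L k
  have h5 : (N:ℝ) * (N + 1) * ∫ s, Phi u k (s, prodB P S L) ∂ν ≤ N := h3.trans h4
  have hN0 : (0:ℝ) < N := by exact_mod_cast hN
  rw [le_div_iff₀ (by positivity)]
  have h6 : (N:ℝ) * ((∫ s, Phi u k (s, prodB P S L) ∂ν) * (N + 1)) ≤ N * 1 := by linarith
  exact le_of_mul_le_mul_left h6 hN0

lemma var_bound [mΩ : MeasurableSpace Ω] (μ : Measure Ω) [IsProbabilityMeasure μ]
    (S : ℕ → Ω → Matrix.unitaryGroup (Fin N) ℂ) (hmeas : ∀ i, Measurable (S i))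
    (hind : iIndepFun S μ) (hHaar : ∀ i, (μ.map (S i)).IsMulLeftInvariant)
    (P : Matrix (Fin N) (Fin N) ℂ) (h1 : Pᴴ = P) (h2 : P * P = P)
    (L k : ℕ) (u : Fin N → ℂ) (hu : star u ⬝ᵥ u = 1) (hN : 0 < N) :
    ∫⁻ ω, ENNReal.ofReal (‖yN P (fun i => S i ω) u L k - mN P (fun i => S i ω) L k‖ ^ 2) ∂μ
      ≤ ENNReal.ofReal (1 / (N + 1)) := by
  have hB : Measurable (fun ω => prodB P (fun i => S i ω) L) := by
    refine (meas_prodB P S L).mono ?_ le_rfl
    exact iSup₂_le fun i _ => (hmeas i).comap_le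
  have hI := indep_prodB P S μ hmeas hind L
  have hmap := (indepFun_iff_map_prod_eq_prod_map_map (hmeas L).aemeasurable hB.aemeasurable).1 hI
  have hΦm : Measurable (fun x => ENNReal.ofReal (Phi (N := N) u k x)) :=
    ENNReal.measurable_ofReal.comp (Phi_cont u k).measurable
  have : IsProbabilityMeasure (μ.map (S L)) := Measure.isProbabilityMeasure_map (hmeas L).aemeasurable
  have : IsProbabilityMeasure (μ.map (fun ω => prodB P (fun i => S i ω) L)) :=
    Measure.isProbabilityMeasure_map hB.aemeasurable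
  have := hHaar L
  calc ∫⁻ ω, ENNReal.ofReal (‖yN P (fun i => S i ω) u L k - mN P (fun i => S i ω) L k‖ ^ 2) ∂μ
      = ∫⁻ ω, ENNReal.ofReal (Phi u k (S L ω, prodB P (fun i => S i ω) L)) ∂μ := rfl
    _ = ∫⁻ x, ENNReal.ofReal (Phi u k x)
          ∂(μ.map (fun ω => (S L ω, prodB P (fun i => S i ω) L))) := by
        rw [lintegral_map hΦm ((hmeas L).prodMk hB)]
    _ = ∫⁻ b, ∫⁻ s, ENNReal.ofReal (Phi u k (s, b)) ∂(μ.map (S L))
          ∂(μ.map (fun ω => prodB P (fun i => S i ω) L)) := by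
        rw [hmap, lintegral_prod_symm' _ hΦm]
    _ = ∫⁻ ω, ∫⁻ s, ENNReal.ofReal (Phi u k (s, prodB P (fun i => S i ω) L)) ∂(μ.map (S L)) ∂μ := by
        rw [lintegral_map hΦm.lintegral_prod_left' hB]
    _ ≤ ∫⁻ ω, ENNReal.ofReal (1 / (N + 1)) ∂μ := by
        apply lintegral_mono
        intro ω
        exact inner_bound (μ.map (S L)) P h1 h2 (fun i => S i ω) L k u hu hN
    _ = ENNReal.ofReal (1 / (N + 1)) := by simp

end prob
end R977MH
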