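import Pool.Agent.R977.MH7

/-! The L¹ recursion and Grönwall. -/

namespace R977MH

open Finset Matrix MeasureTheory ProbabilityTheory

section prob
variable {N : ℕ} {Ω : Type*} [mΩ : MeasurableSpace Ω]
  [mU : MeasurableSpace (Matrix.unitaryGroup (Fin N) ℂ)]
  [BorelSpace (Matrix.unitaryGroup (Fin N) ℂ)]

noncomputable local instance matMS' : MeasurableSpace (Matrix (Fin N) (Fin N) ℂ) := borel _
local instance matBS' : BorelSpace (Matrix (Fin N) (Fin N) ℂ) := ⟨rfl⟩
local instance mat2c' : SecondCountableTopology (Matrix (Fin N) (Fin N) ℂ) :=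
  inferInstanceAs (SecondCountableTopology (Fin N → Fin N → ℂ))
local instance uni2c' : SecondCountableTopology (Matrix.unitaryGroup (Fin N) ℂ) :=
  TopologicalSpace.Subtype.secondCountableTopology (Matrix.unitaryGroup (Fin N) ℂ : Set (Matrix (Fin N) (Fin N) ℂ))

lemma meas_prodB' (P : Matrix (Fin N) (Fin N) ℂ) (S : ℕ → Ω → Matrix.unitaryGroup (Fin N) ℂ)
    (hmeas : ∀ i, Measurable (S i)) (L : ℕ) : Measurable (fun ω => prodB P (fun i => S i ω) L) := by
  refine (meas_prodB P S L).mono ?_ le_rfl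
  exact iSup₂_le fun i _ => (hmeas i).comap_le

lemma mN_meas (P : Matrix (Fin N) (Fin N) ℂ) (S : ℕ → Ω → Matrix.unitaryGroup (Fin N) ℂ)
    (hmeas : ∀ i, Measurable (S i)) (L k : ℕ) : Measurable (fun ω => mN P (fun i => S i ω) L k) := by
  have hc : Continuous (fun b : Matrix (Fin N) (Fin N) ℂ => ((b * bᴴ) ^ k).trace / (N:ℂ)) :=
    ((continuous_id.matrix_mul continuous_id.matrix_conjTranspose).pow k).matrix_trace.div_const _
  have h := hc.measurable.comp (meas_prodB' P S hmeas L)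
  exact h

lemma yN_meas (P : Matrix (Fin N) (Fin N) ℂ) (S : ℕ → Ω → Matrix.unitaryGroup (Fin N) ℂ)
    (hmeas : ∀ i, Measurable (S i)) (u : Fin N → ℂ) (L k : ℕ) :
    Measurable (fun ω => yN P (fun i => S i ω) u L k) := by
  have hX : Continuous (fun x : Matrix.unitaryGroup (Fin N) ℂ × Matrix (Fin N) (Fin N) ℂ =>
      (x.2 * x.2ᴴ) ^ k) :=
    (continuous_snd.matrix_mul continuous_snd.matrix_conjTranspose).pow k
  have hr : Continuous (fun x : Matrix.unitaryGroup (Fin N) ℂ × Matrix (Fin N) (Fin N) ℂ =>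
      rot ((x.2 * x.2ᴴ) ^ k) x.1) := by
    unfold rot
    exact ((continuous_subtype_val.comp continuous_fst).matrix_mul hX).matrix_mul
      (continuous_subtype_val.comp continuous_fst).matrix_conjTranspose
  have hQ := (Q_cont u).comp hr
  have h := hQ.measurable.comp ((hmeas L).prodMk (meas_prodB' P S hmeas L))
  exact h

lemma l1_bound (μ : Measure Ω) [IsProbabilityMeasure μ]
    (S : ℕ → Ω → Matrix.unitaryGroup (Fin N) ℂ) (hmeas : ∀ i, Measurable (S i))
    (hind : iIndepFun S μ) (hHaar : ∀ i, (μ.map (S i)).IsMulLeftInvariant)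
    (e : Fin N → ℂ) (he : star e ⬝ᵥ e = 1) (L k : ℕ) (hN : 0 < N) :
    ∫ ω, ‖yN (1 - E1 e) (fun i => S i ω) e L k - mN (1 - E1 e) (fun i => S i ω) L k‖ ∂μ
      ≤ (Real.sqrt (N + 1))⁻¹ := by
  set Z : Ω → ℝ := fun ω =>
    ‖yN (1 - E1 e) (fun i => S i ω) e L k - mN (1 - E1 e) (fun i => S i ω) L k‖ with hZ
  have hZm : Measurable Z :=
    ((yN_meas (1 - E1 e) S hmeas e L k).sub (mN_meas (1 - E1 e) S hmeas L k)).norm
  have hZ0 : ∀ ω, 0 ≤ Z ω := fun ω => norm_nonneg _
  have hZ2 : ∀ ω, Z ω ≤ 2 := by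
    intro ω
    refine (norm_sub_le _ _).trans ?_
    have h1 := yN_norm_le e he (fun i => S i ω) L k
    have h2 := mN_norm_le e he (fun i => S i ω) L k
    linarith
  have hZi : Integrable Z μ := Integrable.of_bound hZm.aestronglyMeasurable 2
    (Filter.Eventually.of_forall fun ω => by rw [Real.norm_eq_abs, abs_of_nonneg (hZ0 ω)]; exact hZ2 ω)
  have hZsq : Integrable (fun ω => Z ω ^ 2) μ :=
    Integrable.of_bound (hZm.pow_const 2).aestronglyMeasurable 4
    (Filter.Eventually.of_forall fun ω => by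
      rw [Real.norm_eq_abs, abs_of_nonneg (by positivity)]
      have := hZ0 ω
      have := hZ2 ω
      nlinarith)
  have hv := var_bound μ S hmeas hind hHaar (1 - E1 e) (P_herm e) (P_idem e he) L k e he hN
  have hvar : ∫ ω, Z ω ^ 2 ∂μ ≤ 1 / (N + 1) := by
    rw [integral_eq_lintegral_of_nonneg_ae (Filter.Eventually.of_forall fun ω => by positivity)
      hZsq.aestronglyMeasurable]
    exact ENNReal.toReal_le_of_le_ofReal (by positivity) hv
  have hs : 0 < Real.sqrt (N + 1) := Real.sqrt_pos.2 (by positivity)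
  have hss : Real.sqrt (N + 1) * Real.sqrt (N + 1) = N + 1 := Real.mul_self_sqrt (by positivity)
  set r := Real.sqrt (N + 1) with hr
  have hpt : ∀ ω, Z ω ≤ r⁻¹ / 2 + (r / 2) * Z ω ^ 2 := by
    intro ω
    have h3 : 0 ≤ (r * Z ω - 1) ^ 2 := sq_nonneg _
    have h4 : r⁻¹ / 2 + (r / 2) * Z ω ^ 2 - Z ω = (r * Z ω - 1) ^ 2 / (2 * r) := by
      field_simp
      ring
    have h5 : 0 ≤ (r * Z ω - 1) ^ 2 / (2 * r) := by positivity
    linarith
  calc ∫ ω, Z ω ∂μ ≤ ∫ ω, (r⁻¹ / 2 + (r / 2) * Z ω ^ 2) ∂μ :=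
        integral_mono hZi ((integrable_const _).add (hZsq.const_mul _)) hpt
    _ = r⁻¹ / 2 + (r / 2) * ∫ ω, Z ω ^ 2 ∂μ := by
        rw [integral_add (integrable_const _) (hZsq.const_mul _), integral_const_mul]
        simp
    _ ≤ r⁻¹ / 2 + (r / 2) * (1 / (N + 1)) := by gcongr
    _ = r⁻¹ := by
        rw [← hss]
        field_simp
        norm_num

end prob
end R977MH
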