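import Pool.Agent.R977.MH8

/-! The L¹ recursion and Grönwall. -/

namespace R977MH

open Finset Matrix MeasureTheory ProbabilityTheory

section pt
variable {N : ℕ}

lemma c_cast (t : ℝ) (q : ℕ) : c (fun k => ((mm t k : ℝ) : ℂ)) q = ((aa q t : ℝ) : ℂ) := by
  have h := c_map Complex.ofRealHom (mm t) q
  rw [c_mm] at h
  exact h

lemma mm_cast_norm {t : ℝ} (ht : 0 ≤ t) (k : ℕ) : ‖((mm t k : ℝ) : ℂ)‖ ≤ 1 := by
  rw [Complex.norm_real, Real.norm_eq_abs, abs_of_nonneg (mm_nonneg k ht)]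
  exact mm_le_one k ht

/-- pointwise one-step inequality -/
lemma step_pt (hN : 0 < N) (e : Fin N → ℂ) (he : star e ⬝ᵥ e = 1)
    (S : ℕ → Matrix.unitaryGroup (Fin N) ℂ) (L q : ℕ) :
    ‖mN (1 - E1 e) S (L+1) q - ((mm (((L+1 : ℕ) : ℝ) / N) q : ℝ) : ℂ)‖
      ≤ ‖mN (1 - E1 e) S L q - ((mm ((L:ℝ) / N) q : ℝ) : ℂ)‖
        + 4 ^ q / N * ∑ j ∈ range (q+1), (‖yN (1 - E1 e) S e L j - mN (1 - E1 e) S L j‖
          + ‖mN (1 - E1 e) S L j - ((mm ((L:ℝ) / N) j : ℝ) : ℂ)‖) + q / (N:ℝ) ^ 2 := by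
  have hNr : (0:ℝ) < N := by exact_mod_cast hN
  set t : ℝ := (L:ℝ) / N with ht
  have ht0 : 0 ≤ t := by positivity
  have hδ : ((L+1 : ℕ) : ℝ) / N = t + 1 / N := by rw [ht]; push_cast; ring
  rw [hδ, recursion e he]
  have h1 := mm_taylor q ht0 (δ := 1 / N) (by positivity)
  have h2 := c_lip (yN (1 - E1 e) S e L) (fun k => ((mm t k : ℝ) : ℂ))
    (fun k => yN_norm_le e he S L k) (fun k => mm_cast_norm ht0 k) q
  rw [c_cast] at h2
  have hid : mN (1 - E1 e) S L q - c (yN (1 - E1 e) S e L) q / N - ((mm (t + 1 / N) q : ℝ) : ℂ)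
      = (mN (1 - E1 e) S L q - ((mm t q : ℝ) : ℂ))
        - (c (yN (1 - E1 e) S e L) q - ((aa q t : ℝ) : ℂ)) / N
        - ((mm (t + 1 / N) q - mm t q + 1 / N * aa q t : ℝ) : ℂ) := by
    push_cast
    ring
  rw [hid]
  have h3 : ‖(c (yN (1 - E1 e) S e L) q - ((aa q t : ℝ) : ℂ)) / (N:ℂ)‖
      ≤ 4 ^ q / N * ∑ j ∈ range (q+1), (‖yN (1 - E1 e) S e L j - mN (1 - E1 e) S L j‖
          + ‖mN (1 - E1 e) S L j - ((mm t j : ℝ) : ℂ)‖) := by
    rw [norm_div, Complex.norm_natCast]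
    calc _ ≤ (4 ^ q * ∑ j ∈ range (q+1), ‖yN (1 - E1 e) S e L j - ((mm t j : ℝ) : ℂ)‖) / N := by
          gcongr
      _ = 4 ^ q / N * ∑ j ∈ range (q+1), ‖yN (1 - E1 e) S e L j - ((mm t j : ℝ) : ℂ)‖ := by ring
      _ ≤ _ := by
          gcongr with j hj
          have : yN (1 - E1 e) S e L j - ((mm t j : ℝ) : ℂ)
              = (yN (1 - E1 e) S e L j - mN (1 - E1 e) S L j)
                + (mN (1 - E1 e) S L j - ((mm t j : ℝ) : ℂ)) := by ring
          rw [this]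
          exact norm_add_le _ _
  have h4 : ‖((mm (t + 1 / N) q - mm t q + 1 / N * aa q t : ℝ) : ℂ)‖ ≤ q / (N:ℝ) ^ 2 := by
    rw [Complex.norm_real, Real.norm_eq_abs]
    calc _ ≤ q * (1 / (N:ℝ)) ^ 2 := h1
      _ = _ := by ring
  calc _ ≤ ‖mN (1 - E1 e) S L q - ((mm t q : ℝ) : ℂ)‖
        + ‖(c (yN (1 - E1 e) S e L) q - ((aa q t : ℝ) : ℂ)) / (N:ℂ)‖
        + ‖((mm (t + 1 / N) q - mm t q + 1 / N * aa q t : ℝ) : ℂ)‖ := by
        refine (norm_sub_le _ _).trans ?_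
        gcongr
        exact norm_sub_le _ _
    _ ≤ _ := by gcongr

end pt

section prob
variable {N : ℕ} {Ω : Type*} [mΩ : MeasurableSpace Ω]
  [mU : MeasurableSpace (Matrix.unitaryGroup (Fin N) ℂ)]
  [BorelSpace (Matrix.unitaryGroup (Fin N) ℂ)]

/-- L¹ error -/
noncomputable def DD (μ : Measure Ω) (S : ℕ → Ω → Matrix.unitaryGroup (Fin N) ℂ)
    (e : Fin N → ℂ) (q L : ℕ) : ℝ :=
  ∫ ω, ‖mN (1 - E1 e) (fun i => S i ω) L q - ((mm ((L:ℝ) / N) q : ℝ) : ℂ)‖ ∂μ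

lemma DD_nonneg (μ : Measure Ω) (S : ℕ → Ω → Matrix.unitaryGroup (Fin N) ℂ)
    (e : Fin N → ℂ) (q L : ℕ) : 0 ≤ DD μ S e q L := integral_nonneg fun _ => norm_nonneg _

lemma err_integrable (μ : Measure Ω) [IsProbabilityMeasure μ]
    (S : ℕ → Ω → Matrix.unitaryGroup (Fin N) ℂ) (hmeas : ∀ i, Measurable (S i))
    (e : Fin N → ℂ) (he : star e ⬝ᵥ e = 1) (q L : ℕ) (z : ℂ) :
    Integrable (fun ω => ‖mN (1 - E1 e) (fun i => S i ω) L q - z‖) μ := by
  refine Integrable.of_bound (((mN_meas (1 - E1 e) S hmeas L q).sub_const z).norm).aestronglyMeasurable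
    (1 + ‖z‖) (Filter.Eventually.of_forall fun ω => ?_)
  rw [Real.norm_eq_abs, abs_of_nonneg (norm_nonneg _)]
  refine (norm_sub_le _ _).trans ?_
  gcongr
  exact mN_norm_le e he (fun i => S i ω) L q

lemma yerr_integrable (μ : Measure Ω) [IsProbabilityMeasure μ]
    (S : ℕ → Ω → Matrix.unitaryGroup (Fin N) ℂ) (hmeas : ∀ i, Measurable (S i))
    (e : Fin N → ℂ) (he : star e ⬝ᵥ e = 1) (q L : ℕ) :
    Integrable (fun ω => ‖yN (1 - E1 e) (fun i => S i ω) e L q - mN (1 - E1 e) (fun i => S i ω) L q‖) μ := by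
  refine Integrable.of_bound
    (((yN_meas (1 - E1 e) S hmeas e L q).sub (mN_meas (1 - E1 e) S hmeas L q)).norm).aestronglyMeasurable
    2 (Filter.Eventually.of_forall fun ω => ?_)
  rw [Real.norm_eq_abs, abs_of_nonneg (norm_nonneg _)]
  refine (norm_sub_le _ _).trans ?_
  have h1 := yN_norm_le e he (fun i => S i ω) L q
  have h2 := mN_norm_le e he (fun i => S i ω) L q
  linarith

lemma DD_step (μ : Measure Ω) [IsProbabilityMeasure μ]
    (S : ℕ → Ω → Matrix.unitaryGroup (Fin N) ℂ) (hmeas : ∀ i, Measurable (S i))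
    (hind : iIndepFun S μ) (hHaar : ∀ i, (μ.map (S i)).IsMulLeftInvariant)
    (e : Fin N → ℂ) (he : star e ⬝ᵥ e = 1) (hN : 0 < N) (q L : ℕ) :
    DD μ S e q (L+1) ≤ DD μ S e q L
      + 4 ^ q / N * ∑ j ∈ range (q+1), ((Real.sqrt (N + 1))⁻¹ + DD μ S e j L) + q / (N:ℝ) ^ 2 := by
  have hi1 : ∀ j, Integrable (fun ω => ‖yN (1 - E1 e) (fun i => S i ω) e L j
      - mN (1 - E1 e) (fun i => S i ω) L j‖
      + ‖mN (1 - E1 e) (fun i => S i ω) L j - ((mm ((L:ℝ) / N) j : ℝ) : ℂ)‖) μ := fun j =>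
    (yerr_integrable μ S hmeas e he j L).add (err_integrable μ S hmeas e he j L _)
  have hi2 : Integrable (fun ω => 4 ^ q / (N:ℝ) * ∑ j ∈ range (q+1),
      (‖yN (1 - E1 e) (fun i => S i ω) e L j - mN (1 - E1 e) (fun i => S i ω) L j‖
      + ‖mN (1 - E1 e) (fun i => S i ω) L j - ((mm ((L:ℝ) / N) j : ℝ) : ℂ)‖)) μ :=
    (integrable_finsetSum _ fun j _ => hi1 j).const_mul _
  have hi3 : Integrable (fun ω => ‖mN (1 - E1 e) (fun i => S i ω) L q - ((mm ((L:ℝ) / N) q : ℝ) : ℂ)‖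
      + 4 ^ q / (N:ℝ) * ∑ j ∈ range (q+1),
      (‖yN (1 - E1 e) (fun i => S i ω) e L j - mN (1 - E1 e) (fun i => S i ω) L j‖
      + ‖mN (1 - E1 e) (fun i => S i ω) L j - ((mm ((L:ℝ) / N) j : ℝ) : ℂ)‖)) μ :=
    (err_integrable μ S hmeas e he q L _).add hi2
  calc DD μ S e q (L+1)
      ≤ ∫ ω, (‖mN (1 - E1 e) (fun i => S i ω) L q - ((mm ((L:ℝ) / N) q : ℝ) : ℂ)‖
        + 4 ^ q / (N:ℝ) * ∑ j ∈ range (q+1),
          (‖yN (1 - E1 e) (fun i => S i ω) e L j - mN (1 - E1 e) (fun i => S i ω) L j‖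
          + ‖mN (1 - E1 e) (fun i => S i ω) L j - ((mm ((L:ℝ) / N) j : ℝ) : ℂ)‖)
        + q / (N:ℝ) ^ 2) ∂μ := by
        unfold DD
        exact integral_mono (err_integrable μ S hmeas e he q (L+1) _) (hi3.add (integrable_const _))
          (fun ω => step_pt hN e he (fun i => S i ω) L q)
    _ = DD μ S e q L + 4 ^ q / N * ∑ j ∈ range (q+1),
          (∫ ω, ‖yN (1 - E1 e) (fun i => S i ω) e L j - mN (1 - E1 e) (fun i => S i ω) L j‖ ∂μ
            + DD μ S e j L) + q / (N:ℝ) ^ 2 := by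
        rw [integral_add hi3 (integrable_const _), integral_add (err_integrable μ S hmeas e he q L _) hi2,
          integral_const_mul, integral_finsetSum _ (fun j _ => hi1 j)]
        have : ∀ j ∈ range (q+1), ∫ ω, (‖yN (1 - E1 e) (fun i => S i ω) e L j
            - mN (1 - E1 e) (fun i => S i ω) L j‖
            + ‖mN (1 - E1 e) (fun i => S i ω) L j - ((mm ((L:ℝ) / N) j : ℝ) : ℂ)‖) ∂μ
            = ∫ ω, ‖yN (1 - E1 e) (fun i => S i ω) e L j - mN (1 - E1 e) (fun i => S i ω) L j‖ ∂μ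
            + DD μ S e j L := fun j _ => by
          rw [integral_add (yerr_integrable μ S hmeas e he j L) (err_integrable μ S hmeas e he j L _)]
          rfl
        rw [sum_congr rfl this]
        simp
        rfl
    _ ≤ _ := by
        gcongr with j hj
        exact l1_bound μ S hmeas hind hHaar e he L j hN

lemma DD_zero (μ : Measure Ω) (S : ℕ → Ω → Matrix.unitaryGroup (Fin N) ℂ)
    (e : Fin N → ℂ) (hN : 0 < N) (q : ℕ) : DD μ S e q 0 = 0 := by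
  unfold DD
  have h : mm (((0:ℕ):ℝ) / N) q = 1 := by
    rcases Nat.eq_zero_or_pos q with rfl | hq
    · rw [mm_zero]
    · rw [mm_formula q hq]
      simp only [Nat.cast_zero, zero_div, mul_zero, neg_zero, Real.exp_zero, one_mul]
      rw [sum_eq_single_of_mem 0 (mem_range.2 hq)]
      · simp
      · intro b _ hb
        simp [hb]
  simp_rw [mN_zero_L hN, h]
  simp

/-- Grönwall -/
lemma gronwall (a : ℕ → ℝ) (K ρ : ℝ) (hK : 0 ≤ K) (hρ : 0 ≤ ρ) (h0 : a 0 = 0)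
    (hs : ∀ L, a (L+1) ≤ (1 + K) * a L + ρ) (L : ℕ) : a L ≤ L * ρ * Real.exp (K * L) := by
  have h1 : ∀ L : ℕ, a L ≤ L * ρ * (1 + K) ^ L := by
    intro L
    induction L with
    | zero => simp [h0]
    | succ L ih =>
      have h2 : (1:ℝ) ≤ (1 + K) ^ (L+1) := one_le_pow₀ (by linarith)
      calc a (L+1) ≤ (1 + K) * a L + ρ := hs L
        _ ≤ (1 + K) * (L * ρ * (1 + K) ^ L) + ρ * (1 + K) ^ (L+1) := by
            have : ρ ≤ ρ * (1+K)^(L+1) := by nlinarith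
            gcongr
        _ = ((L+1 : ℕ):ℝ) * ρ * (1 + K) ^ (L+1) := by push_cast; ring
  refine (h1 L).trans ?_
  have h3 : (1 + K) ^ L ≤ Real.exp (K * L) := by
    calc (1 + K) ^ L ≤ (Real.exp K) ^ L := by
          gcongr
          linarith [Real.add_one_le_exp K]
      _ = Real.exp (K * L) := by rw [← Real.exp_nat_mul]; ring_nf
  gcongr

lemma DD_total (μ : Measure Ω) [IsProbabilityMeasure μ]
    (S : ℕ → Ω → Matrix.unitaryGroup (Fin N) ℂ) (hmeas : ∀ i, Measurable (S i))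
    (hind : iIndepFun S μ) (hHaar : ∀ i, (μ.map (S i)).IsMulLeftInvariant)
    (e : Fin N → ℂ) (he : star e ⬝ᵥ e = 1) (hN : 0 < N) (Qm L : ℕ) :
    ∑ q ∈ range (Qm+1), DD μ S e q L ≤
      L * (((Qm+1) * (4 ^ Qm * ((Qm+1) * (Real.sqrt (N + 1))⁻¹)) + (Qm+1) * (Qm / N)) / N)
        * Real.exp ((Qm+1) * 4 ^ Qm / N * L) := by
  have hNr : (0:ℝ) < N := by exact_mod_cast hN
  have hδ : 0 ≤ (Real.sqrt (N + 1))⁻¹ := by positivity
  apply gronwall (fun L => ∑ q ∈ range (Qm+1), DD μ S e q L)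
  · positivity
  · positivity
  · exact sum_eq_zero fun q _ => DD_zero μ S e hN q
  · intro L
    set T := ∑ q ∈ range (Qm+1), DD μ S e q L with hT
    have hT0 : 0 ≤ T := sum_nonneg fun q _ => DD_nonneg μ S e q L
    have h1 : ∀ q ∈ range (Qm+1), DD μ S e q (L+1) ≤ DD μ S e q L
        + (4 ^ Qm / N * ((Qm+1) * (Real.sqrt (N + 1))⁻¹ + T) + Qm / (N:ℝ) ^ 2) := by
      intro q hq
      rw [mem_range] at hq
      have h2 := DD_step μ S hmeas hind hHaar e he hN q L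
      refine h2.trans ?_
      rw [add_assoc]
      have h3 : ∑ j ∈ range (q+1), ((Real.sqrt (N + 1))⁻¹ + DD μ S e j L)
          ≤ (Qm+1) * (Real.sqrt (N + 1))⁻¹ + T := by
        rw [sum_add_distrib, sum_const, card_range, nsmul_eq_mul]
        have h4 : ((q+1 : ℕ):ℝ) ≤ Qm + 1 := by
          have : q ≤ Qm := by omega
          have : (q:ℝ) ≤ Qm := by exact_mod_cast this
          push_cast
          linarith
        have h5 : ∑ j ∈ range (q+1), DD μ S e j L ≤ T := by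
          apply sum_le_sum_of_subset_of_nonneg
          · intro j hj; rw [mem_range] at hj ⊢; omega
          · intros; exact DD_nonneg μ S e _ L
        gcongr
      have h6 : (4:ℝ) ^ q ≤ 4 ^ Qm := pow_le_pow_right₀ (by norm_num) (by omega)
      have h7 : (q:ℝ) ≤ Qm := by
        have : q ≤ Qm := by omega
        exact_mod_cast this
      have h8 : 0 ≤ ∑ j ∈ range (q+1), ((Real.sqrt (N + 1))⁻¹ + DD μ S e j L) :=
        sum_nonneg fun j _ => add_nonneg hδ (DD_nonneg μ S e j L)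
      gcongr
    calc ∑ q ∈ range (Qm+1), DD μ S e q (L+1)
        ≤ ∑ q ∈ range (Qm+1), (DD μ S e q L
          + (4 ^ Qm / N * ((Qm+1) * (Real.sqrt (N + 1))⁻¹ + T) + Qm / (N:ℝ) ^ 2)) := sum_le_sum h1
      _ = T + (Qm+1) * (4 ^ Qm / N * ((Qm+1) * (Real.sqrt (N + 1))⁻¹ + T) + Qm / (N:ℝ) ^ 2) := by
          rw [sum_add_distrib, sum_const, card_range, nsmul_eq_mul]
          push_cast
          ring
      _ = (1 + (Qm+1) * 4 ^ Qm / N) * T
          + ((Qm+1) * (4 ^ Qm * ((Qm+1) * (Real.sqrt (N + 1))⁻¹)) + (Qm+1) * (Qm / N)) / N := by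
          field_simp
          ring
      _ ≤ _ := le_rfl

end prob
end R977MH
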