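import Pool.Agent.TH985.WP.Tilt
import Pool.Agent.TH511.WP.Zc
import Pool.Agent.H894R3.SmallBall

/-! Symmetry `m(d,k) = m(k,d)` for Gaussian simplicial cones. -/

set_option autoImplicit false

namespace R977SA

open MeasureTheory ProbabilityTheory Matrix Set Filter Topology
open scoped ENNReal NNReal
open Pool.Agent.TH985.WP

/-- transposition preserves a product measure -/
lemma tr_mp (μ : Measure ℝ) [SigmaFinite μ] (m n : ℕ) :
    MeasurePreserving (fun (A : Fin m → Fin n → ℝ) (j : Fin n) (i : Fin m) => A i j)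
      (Measure.pi fun _ => Measure.pi fun _ => μ) (Measure.pi fun _ => Measure.pi fun _ => μ) := by
  have hm : Measurable (fun (A : Fin m → Fin n → ℝ) (j : Fin n) (i : Fin m) => A i j) := by
    fun_prop
  refine ⟨hm, ?_⟩
  symm
  refine Measure.pi_eq_generateFrom
    (C := fun _ => pi univ '' pi univ fun _ => {s : Set ℝ | MeasurableSet s})
    (fun _ => generateFrom_pi) (fun _ => isPiSystem_pi) (fun _ => ?_) ?_
  · exact Measure.FiniteSpanningSetsIn.pi fun _ => Measure.toFiniteSpanningSetsIn _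
  · intro s hs
    choose t ht hts using hs
    have hms : MeasurableSet (pi univ s) := by
      refine MeasurableSet.univ_pi fun j => ?_
      rw [← hts j]
      exact MeasurableSet.univ_pi fun i => ht j i (mem_univ _)
    rw [Measure.map_apply hm hms]
    have he : ((fun (A : Fin m → Fin n → ℝ) (j : Fin n) (i : Fin m) => A i j) ⁻¹' (pi univ s)) =
        pi univ (fun i => pi univ (fun j => t j i)) := by
      ext A
      simp only [mem_preimage, Set.mem_pi, mem_univ, forall_true_left]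
      constructor
      · intro h i j
        have := h j
        rw [← hts j] at this
        exact this i (mem_univ _)
      · intro h j
        rw [← hts j]
        intro i _
        exact h i j
    rw [he, Measure.pi_pi]
    simp_rw [Measure.pi_pi]
    rw [Finset.prod_comm]
    refine Finset.prod_congr rfl fun j _ => ?_
    rw [← hts j, Measure.pi_pi]

/-- the matrix whose columns are the vectors `G k` -/
def cm {a : ℕ} (G : Fin a → Fin a → ℝ) : Matrix (Fin a) (Fin a) ℝ := (Matrix.of G)ᵀ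

lemma cm_det {a : ℕ} (G : Fin a → Fin a → ℝ) : (cm G).det = (Matrix.of G).det := det_transpose _

lemma det_cont (a : ℕ) : Continuous fun G : Fin a → Fin a → ℝ => (Matrix.of G).det :=
  Continuous.matrix_det continuous_id

lemma cm_cont (a : ℕ) : Continuous fun G : Fin a → Fin a → ℝ => cm G :=
  Continuous.matrix_transpose (continuous_id (X := Matrix (Fin a) (Fin a) ℝ))

lemma inv_entry_meas {a : ℕ} (i j : Fin a) :
    Measurable fun G : Fin a → Fin a → ℝ => (cm G)⁻¹ i j := by
  have h : (fun G : Fin a → Fin a → ℝ => (cm G)⁻¹ i j) =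
      fun G => ((Matrix.of G).det)⁻¹ * (cm G).adjugate i j := by
    funext G
    rw [Matrix.inv_def, Ring.inverse_eq_inv', cm_det]
    rfl
  rw [h]
  exact ((det_cont a).measurable.inv).mul ((cm_cont a).matrix_adjugate.matrix_elem i j).measurable

lemma inv_mulVec_meas (a : ℕ) : Measurable
    (fun p : (Fin a → Fin a → ℝ) × (Fin a → ℝ) => (cm p.1)⁻¹ *ᵥ p.2) := by
  refine measurable_pi_lambda _ fun i => ?_
  simp only [mulVec, dotProduct]
  refine Finset.measurable_sum _ fun j _ => ?_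
  exact ((inv_entry_meas i j).comp measurable_fst).mul ((measurable_pi_apply j).comp measurable_snd)

lemma vol_mul (b a : ℕ) (P : Matrix (Fin a) (Fin a) ℝ) (hP : P.det ≠ 0) :
    Measure.map (fun (A : Fin b → Fin a → ℝ) j => P *ᵥ A j) volume =
      (ENNReal.ofReal |(P.det)⁻¹|) ^ b • (volume : Measure (Fin b → Fin a → ℝ)) := by
  have hc : Continuous (fun x : Fin a → ℝ => P *ᵥ x) := by fun_prop
  have h1 : Measure.map (fun x : Fin a → ℝ => P *ᵥ x) volume =
      ENNReal.ofReal |(P.det)⁻¹| • (volume : Measure (Fin a → ℝ)) := by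
    have := Real.map_matrix_volume_pi_eq_smul_volume_pi hP
    have h2 : ⇑(toLin' P) = fun x : Fin a → ℝ => P *ᵥ x := by
      funext x; simp
    rw [h2] at this
    exact this
  set c := ENNReal.ofReal |(P.det)⁻¹| with hcdef
  have hct : c ≠ ⊤ := ENNReal.ofReal_ne_top
  have hsf : SigmaFinite (c • (volume : Measure (Fin a → ℝ))) := by
    have e : c • (volume : Measure (Fin a → ℝ)) = c.toNNReal • (volume : Measure (Fin a → ℝ)) := by
      conv_lhs => rw [← ENNReal.coe_toNNReal hct]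
      rfl
    rw [e]
    infer_instance
  have hsf2 : SigmaFinite (Measure.map (fun x : Fin a → ℝ => P *ᵥ x) volume) := by
    rw [h1]; exact hsf
  have h3 : Measure.map (fun (A : Fin b → Fin a → ℝ) j => P *ᵥ A j) volume =
      Measure.pi (fun _ : Fin b => Measure.map (fun x : Fin a → ℝ => P *ᵥ x) volume) := by
    rw [volume_pi]
    exact Measure.pi_map_pi (μ := fun _ : Fin b => (volume : Measure (Fin a → ℝ)))
      (f := fun _ x => P *ᵥ x) (fun _ => hc.aemeasurable)
  rw [h3, h1]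
  refine Measure.pi_eq fun s hs => ?_
  rw [Measure.smul_apply, volume_pi, Measure.pi_pi]
  simp only [Measure.smul_apply, smul_eq_mul]
  rw [Finset.prod_mul_distrib, Finset.prod_const, Finset.card_univ, Fintype.card_fin]

/-- the Gaussian density -/
noncomputable def gd (a : ℕ) (x : Fin a → ℝ) : ℝ≥0∞ :=
  ENNReal.ofReal ((Real.sqrt (2 * Real.pi))⁻¹ ^ a * Real.exp (-(1 / 2) * (x ⬝ᵥ x)))

lemma dot_meas {X : Type*} [MeasurableSpace X] {a : ℕ} {f g : X → Fin a → ℝ} (hf : Measurable f)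
    (hg : Measurable g) : Measurable fun x => f x ⬝ᵥ g x := by
  unfold dotProduct
  fun_prop

lemma gd_meas (a : ℕ) : Measurable (gd a) := by
  unfold gd
  exact ENNReal.measurable_ofReal.comp
    (((dot_meas measurable_id measurable_id).const_mul _).exp.const_mul _)

lemma gm_eq (a : ℕ) : gm (Fin a) = (volume : Measure (Fin a → ℝ)).withDensity (gd a) := by
  rw [gm_density]
  congr 1
  funext x
  unfold gd
  rw [Fintype.card_fin]

lemma gmat_eq (b a : ℕ) : gmat (Fin b) (Fin a) =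
    (volume : Measure (Fin b → Fin a → ℝ)).withDensity (fun V => ∏ j, gd a (V j)) := by
  unfold gmat
  have h : SigmaFinite ((volume : Measure (Fin a → ℝ)).withDensity (gd a)) := by
    rw [← gm_eq]
    infer_instance
  rw [gm_eq]
  exact pi_withDensity (fun _ : Fin b => (volume : Measure (Fin a → ℝ))) (fun _ => gd a)
    (fun _ => gd_meas a)

/-- change of variables for the second family of vectors -/
lemma step2 (a b : ℕ) (P : Matrix (Fin a) (Fin a) ℝ) (hP : P.det ≠ 0)
    (F : (Fin b → Fin a → ℝ) → ℝ≥0∞) (hF : Measurable F) :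
    ∫⁻ V, F (fun j => P⁻¹ *ᵥ V j) ∂(gmat (Fin b) (Fin a)) =
      ENNReal.ofReal |P.det| ^ b * ∫⁻ A : Fin b → Fin a → ℝ, F A * ∏ j, gd a (P *ᵥ A j) := by
  have hm1 : Measurable (fun (V : Fin b → Fin a → ℝ) (j : Fin b) => P⁻¹ *ᵥ V j) := by
    have : Continuous (fun (V : Fin b → Fin a → ℝ) (j : Fin b) => P⁻¹ *ᵥ V j) := by fun_prop
    exact this.measurable
  have hm2 : Measurable (fun (V : Fin b → Fin a → ℝ) (j : Fin b) => P *ᵥ V j) := by
    have : Continuous (fun (V : Fin b → Fin a → ℝ) (j : Fin b) => P *ᵥ V j) := by fun_prop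
    exact this.measurable
  have hm3 : Measurable (fun V : Fin b → Fin a → ℝ => ∏ j, gd a (V j)) :=
    Finset.measurable_fun_prod _ fun j _ => (gd_meas a).comp (measurable_pi_apply j)
  have h0 := lintegral_withDensity_eq_lintegral_mul (volume : Measure (Fin b → Fin a → ℝ)) hm3
    (hF.comp hm1)
  rw [← gmat_eq] at h0
  refine h0.trans ?_
  have h1 := vol_mul b a P hP
  have hc0 : ENNReal.ofReal |(P.det)⁻¹| ≠ 0 := by
    rw [ne_eq, ENNReal.ofReal_eq_zero, not_le]
    exact abs_pos.2 (inv_ne_zero hP)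
  have h2 : (volume : Measure (Fin b → Fin a → ℝ)) = ENNReal.ofReal |P.det| ^ b •
      Measure.map (fun (A : Fin b → Fin a → ℝ) j => P *ᵥ A j) volume := by
    rw [h1, smul_smul, ← mul_pow, ← ENNReal.ofReal_mul (abs_nonneg _), ← abs_mul,
      mul_inv_cancel₀ hP, abs_one, ENNReal.ofReal_one, one_pow, one_smul]
  conv_lhs => rw [h2]
  rw [lintegral_smul_measure, lintegral_map (hm3.mul (hF.comp hm1)) hm2, smul_eq_mul]
  congr 1
  refine lintegral_congr fun A => ?_
  simp only [Pi.mul_apply, Function.comp]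
  have h4 : (fun j => P⁻¹ *ᵥ (P *ᵥ A j)) = A := by
    funext j
    rw [Matrix.mulVec_mulVec, Matrix.nonsing_inv_mul _ (isUnit_iff_ne_zero.2 hP), Matrix.one_mulVec]
  rw [h4, mul_comm]

lemma det_ae' (a : ℕ) : ∀ᵐ G ∂(gmat (Fin a) (Fin a)), (Matrix.of G).det ≠ 0 :=
  Pool.Agent.TH511.WP.det_ae a

/-- the weight of the matrix `A` -/
noncomputable def wt {b a : ℕ} (A : Fin b → Fin a → ℝ) : ℝ :=
  (1 + (Matrix.of A)ᵀ * Matrix.of A).det ^ (-(1 / 2) : ℝ)

lemma posdef {b a : ℕ} (A : Fin b → Fin a → ℝ) :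
    (1 + (Matrix.of A)ᵀ * Matrix.of A).PosDef := by
  refine Matrix.PosDef.add_posSemidef Matrix.PosDef.one ?_
  have := Matrix.posSemidef_conjTranspose_mul_self (Matrix.of A)
  simpa using this

lemma step4 (a b : ℕ) (A : Fin b → Fin a → ℝ) :
    ∫⁻ G, ENNReal.ofReal |(cm G).det| ^ b * ∏ j, gd a (cm G *ᵥ A j) ∂(gmat (Fin a) (Fin a)) =
      (ENNReal.ofReal ((Real.sqrt (2 * Real.pi))⁻¹ ^ a)) ^ b *
        (∫⁻ M, ENNReal.ofReal |(Matrix.of M).det| ^ b ∂(gmat (Fin a) (Fin a))) *
        ENNReal.ofReal (wt A) ^ (a + b) := by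
  set S : Matrix (Fin a) (Fin a) ℝ := (Matrix.of A)ᵀ * Matrix.of A with hS
  obtain ⟨L, hL1, hL2, hL3, hL4⟩ := exists_tilt S (posdef A)
  have hdm : Measurable fun M : Fin a → Fin a → ℝ => ENNReal.ofReal |(Matrix.of M).det| ^ b := by
    exact (ENNReal.measurable_ofReal.comp (det_cont a).abs.measurable).pow_const b
  have h1 := gmat_tilt (K := Fin a) S L hL1 (fun M => ENNReal.ofReal |(Matrix.of M).det| ^ b) hdm
  have h2 : ∀ M : Fin a → Fin a → ℝ, ENNReal.ofReal |(Matrix.of (fun k => L *ᵥ M k)).det| ^ b =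
      ENNReal.ofReal |L.det| ^ b * ENNReal.ofReal |(Matrix.of M).det| ^ b := by
    intro M
    have h1 : Matrix.of (fun k => L *ᵥ M k) = Matrix.of M * Lᵀ := by
      ext i j
      simp [Matrix.mul_apply, mulVec, dotProduct, mul_comm]
    rw [h1, Matrix.det_mul, Matrix.det_transpose, abs_mul, mul_comm,
      ENNReal.ofReal_mul (abs_nonneg _), mul_pow]
  simp_rw [h2] at h1
  rw [lintegral_const_mul _ hdm] at h1
  have h3 := (tr_mp (gaussianReal 0 1) a a)
  have h4 : ∀ G : Fin a → Fin a → ℝ, ENNReal.ofReal |(cm G).det| ^ b * ∏ j, gd a (cm G *ᵥ A j) =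
      (ENNReal.ofReal ((Real.sqrt (2 * Real.pi))⁻¹ ^ a)) ^ b *
      (fun M : Fin a → Fin a → ℝ => ENNReal.ofReal |(Matrix.of M).det| ^ b *
        ENNReal.ofReal (Real.exp (-(1 / 2) * ∑ k, M k ⬝ᵥ S *ᵥ M k)))
        ((fun (A : Fin a → Fin a → ℝ) (j : Fin a) (i : Fin a) => A i j) G) := by
    intro G
    simp only
    have e1 : (Matrix.of (fun (j : Fin a) (i : Fin a) => G i j)).det = (cm G).det := rfl
    rw [e1]
    have e2 : ∏ j, gd a (cm G *ᵥ A j) = (ENNReal.ofReal ((Real.sqrt (2 * Real.pi))⁻¹ ^ a)) ^ b *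
        ENNReal.ofReal (Real.exp (-(1 / 2) * ∑ j, (cm G *ᵥ A j) ⬝ᵥ (cm G *ᵥ A j))) := by
      unfold gd
      have : ∀ j, ENNReal.ofReal ((Real.sqrt (2 * Real.pi))⁻¹ ^ a *
          Real.exp (-(1 / 2) * ((cm G *ᵥ A j) ⬝ᵥ (cm G *ᵥ A j)))) =
          ENNReal.ofReal ((Real.sqrt (2 * Real.pi))⁻¹ ^ a) *
          ENNReal.ofReal (Real.exp (-(1 / 2) * ((cm G *ᵥ A j) ⬝ᵥ (cm G *ᵥ A j)))) := fun j =>
        ENNReal.ofReal_mul (by positivity)
      simp_rw [this]
      rw [Finset.prod_mul_distrib, Finset.prod_const, Finset.card_univ, Fintype.card_fin,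
        ← ENNReal.ofReal_prod_of_nonneg (fun _ _ => by positivity), ← Real.exp_sum,
        ← Finset.mul_sum]
    have e3 : ∑ j, (cm G *ᵥ A j) ⬝ᵥ (cm G *ᵥ A j) =
        ∑ k, (fun i => G i k) ⬝ᵥ S *ᵥ (fun i => G i k) := by
      have f1 : ∀ k, (fun i => G i k) ⬝ᵥ S *ᵥ (fun i => G i k) =
          ∑ j, (∑ i, A j i * G i k) ^ 2 := by
        intro k
        rw [hS, ← Matrix.mulVec_mulVec, Matrix.dotProduct_mulVec, Matrix.vecMul_transpose]
        simp [dotProduct, mulVec, sq]
      simp_rw [f1]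
      rw [Finset.sum_comm]
      refine Finset.sum_congr rfl fun j _ => ?_
      simp only [dotProduct, mulVec, cm, Matrix.transpose_apply, Matrix.of_apply]
      refine Finset.sum_congr rfl fun k _ => ?_
      rw [sq]
      congr 1 <;> exact Finset.sum_congr rfl fun i _ => mul_comm _ _
    rw [e2, e3]
    ring
  have hm5 : Measurable (fun M : Fin a → Fin a → ℝ => ENNReal.ofReal |(Matrix.of M).det| ^ b *
        ENNReal.ofReal (Real.exp (-(1 / 2) * ∑ k, M k ⬝ᵥ S *ᵥ M k))) := by
    refine hdm.mul (ENNReal.measurable_ofReal.comp ?_)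
    refine ((Finset.measurable_sum _ fun k _ => ?_).const_mul _).exp
    exact (measurable_quad S).comp (measurable_pi_apply k)
  have h3' : MeasurePreserving (fun (A : Fin a → Fin a → ℝ) (j : Fin a) (i : Fin a) => A i j)
      (gmat (Fin a) (Fin a)) (gmat (Fin a) (Fin a)) := h3
  refine (lintegral_congr h4).trans ?_
  refine (lintegral_const_mul _ (hm5.comp h3'.measurable)).trans ?_
  have h6 := h3'.lintegral_comp hm5
  refine (congrArg _ h6).trans ?_
  rw [h1]
  rw [Fintype.card_fin, hL4]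
  have : wt A = (1 + S).det ^ (-(1 / 2) : ℝ) := rfl
  rw [this, pow_add]
  ring

/-- the normalising constant -/
noncomputable def KK (a b : ℕ) : ℝ≥0∞ := (ENNReal.ofReal ((Real.sqrt (2 * Real.pi))⁻¹ ^ a)) ^ b *
        (∫⁻ M, ENNReal.ofReal |(Matrix.of M).det| ^ b ∂(gmat (Fin a) (Fin a)))

/-- density of the coordinate matrix -/
theorem key (a b : ℕ) (F : (Fin b → Fin a → ℝ) → ℝ≥0∞) (hF : Measurable F) :
    ∫⁻ G, ∫⁻ V, F (fun j => (cm G)⁻¹ *ᵥ V j) ∂(gmat (Fin b) (Fin a)) ∂(gmat (Fin a) (Fin a)) =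
      KK a b * ∫⁻ A : Fin b → Fin a → ℝ, F A * ENNReal.ofReal (wt A) ^ (a + b) := by
  have h1 : ∫⁻ G, ∫⁻ V, F (fun j => (cm G)⁻¹ *ᵥ V j) ∂(gmat (Fin b) (Fin a))
      ∂(gmat (Fin a) (Fin a)) =
      ∫⁻ G, (∫⁻ A : Fin b → Fin a → ℝ, ENNReal.ofReal |(cm G).det| ^ b *
        (F A * ∏ j, gd a (cm G *ᵥ A j))) ∂(gmat (Fin a) (Fin a)) := by
    refine lintegral_congr_ae ?_
    filter_upwards [det_ae' a] with G hG
    rw [← cm_det] at hG
    rw [step2 a b (cm G) hG F hF]
    rw [lintegral_const_mul]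
    refine hF.mul (Finset.measurable_fun_prod _ fun j _ => (gd_meas a).comp ?_)
    have : Continuous (fun (V : Fin b → Fin a → ℝ) => cm G *ᵥ V j) := by fun_prop
    exact this.measurable
  have hmm : ∀ j : Fin b, Measurable fun p : (Fin a → Fin a → ℝ) × (Fin b → Fin a → ℝ) =>
      cm p.1 *ᵥ p.2 j := by
    intro j
    have : Continuous fun p : (Fin a → Fin a → ℝ) × (Fin b → Fin a → ℝ) => cm p.1 *ᵥ p.2 j :=
      Continuous.matrix_mulVec ((cm_cont a).comp continuous_fst) (by fun_prop)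
    exact this.measurable
  have hdm : Measurable fun p : (Fin a → Fin a → ℝ) × (Fin b → Fin a → ℝ) =>
      ENNReal.ofReal |(cm p.1).det| ^ b := by
    simp_rw [cm_det]
    exact ((ENNReal.measurable_ofReal.comp (det_cont a).abs.measurable).pow_const b).comp
      measurable_fst
  rw [h1, lintegral_lintegral_swap]
  · have h2 : ∀ A : Fin b → Fin a → ℝ, ∫⁻ G, ENNReal.ofReal |(cm G).det| ^ b *
        (F A * ∏ j, gd a (cm G *ᵥ A j)) ∂(gmat (Fin a) (Fin a)) =
        KK a b * (F A * ENNReal.ofReal (wt A) ^ (a + b)) := by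
      intro A
      have h3 : ∀ G : Fin a → Fin a → ℝ, ENNReal.ofReal |(cm G).det| ^ b *
        (F A * ∏ j, gd a (cm G *ᵥ A j)) = F A * (ENNReal.ofReal |(cm G).det| ^ b *
          ∏ j, gd a (cm G *ᵥ A j)) := fun G => by ring
      simp_rw [h3]
      rw [lintegral_const_mul, step4]
      · unfold KK; ring
      · have hA : Measurable fun G : Fin a → Fin a → ℝ => (G, A) := measurable_id.prodMk measurable_const
        have := (hdm.comp hA).mul (Finset.measurable_fun_prod Finset.univ fun j _ =>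
          ((gd_meas a).comp (hmm j)).comp hA)
        exact this
    simp_rw [h2]
    rw [lintegral_const_mul]
    refine hF.mul (Measurable.pow_const (ENNReal.measurable_ofReal.comp ?_) _)
    unfold wt
    refine Measurable.pow_const ?_ _
    have : Continuous fun A : Fin b → Fin a → ℝ => (1 + (Matrix.of A)ᵀ * Matrix.of A).det := by
      refine Continuous.matrix_det ?_
      have hc : Continuous fun A : Fin b → Fin a → ℝ => (Matrix.of A) := continuous_id
      exact continuous_const.add (hc.matrix_transpose.matrix_mul hc)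
    exact this.measurable
  · refine Measurable.aemeasurable ?_
    refine hdm.mul ((hF.comp measurable_snd).mul ?_)
    exact Finset.measurable_fun_prod _ fun j _ => (gd_meas a).comp (hmm j)

lemma wt_tr {a b : ℕ} (A : Fin b → Fin a → ℝ) : wt (fun j i => A i j) = wt A := by
  unfold wt
  congr 1
  have : (Matrix.of fun (j : Fin a) (i : Fin b) => A i j) = (Matrix.of A)ᵀ := rfl
  rw [this, Matrix.transpose_transpose, Matrix.det_one_add_mul_comm]

/-- `E[γ(pos G)^b]`, lower integral form, in dimension `a` -/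
noncomputable def mt (a b : ℕ) : ℝ≥0∞ :=
  ∫⁻ G, (gm (Fin a) {z | ∀ i, 0 ≤ ((cm G)⁻¹ *ᵥ z) i}) ^ b ∂(gmat (Fin a) (Fin a))

lemma mt_eq (a b : ℕ) : mt a b = KK a b * ∫⁻ A : Fin b → Fin a → ℝ,
    {A | ∀ j i, 0 ≤ A j i}.indicator 1 A * ENNReal.ofReal (wt A) ^ (a + b) := by
  have hS : MeasurableSet {A : Fin b → Fin a → ℝ | ∀ j i, 0 ≤ A j i} := by
    have : {A : Fin b → Fin a → ℝ | ∀ j i, 0 ≤ A j i} = ⋂ j, ⋂ i, {A | 0 ≤ A j i} := by
      ext A; simp
    rw [this]
    refine MeasurableSet.iInter fun j => MeasurableSet.iInter fun i => ?_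
    exact measurableSet_le measurable_const (by fun_prop)
  rw [← key a b _ (measurable_one.indicator hS)]
  unfold mt
  refine lintegral_congr fun G => ?_
  have h1 : ∀ V : Fin b → Fin a → ℝ, {A : Fin b → Fin a → ℝ | ∀ j i, 0 ≤ A j i}.indicator
      (1 : (Fin b → Fin a → ℝ) → ℝ≥0∞) (fun j => (cm G)⁻¹ *ᵥ V j) =
      (pi univ fun _ : Fin b => {z | ∀ i, 0 ≤ ((cm G)⁻¹ *ᵥ z) i}).indicator 1 V := by
    intro V
    by_cases h : ∀ j i, 0 ≤ ((cm G)⁻¹ *ᵥ V j) i
    · rw [indicator_of_mem (by exact h), indicator_of_mem (by intro j _; exact h j)]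
      rfl
    · rw [indicator_of_notMem (by exact h), indicator_of_notMem]
      intro hV
      exact h fun j => hV j (mem_univ _)
  simp_rw [h1]
  have hS2 : MeasurableSet {z : Fin a → ℝ | ∀ i, 0 ≤ ((cm G)⁻¹ *ᵥ z) i} := by
    have : {z : Fin a → ℝ | ∀ i, 0 ≤ ((cm G)⁻¹ *ᵥ z) i} = ⋂ i, {z | 0 ≤ ((cm G)⁻¹ *ᵥ z) i} := by
      ext A; simp
    rw [this]
    refine MeasurableSet.iInter fun i => ?_
    have hc : Continuous (fun z : Fin a → ℝ => ((cm G)⁻¹ *ᵥ z) i) := by fun_prop
    exact measurableSet_le measurable_const hc.measurable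
  rw [lintegral_indicator_one (MeasurableSet.univ_pi fun _ => hS2)]
  unfold gmat
  rw [Measure.pi_pi, Finset.prod_const, Finset.card_univ, Fintype.card_fin]

lemma one_eq (a b : ℕ) : 1 = KK a b * ∫⁻ A : Fin b → Fin a → ℝ,
    ENNReal.ofReal (wt A) ^ (a + b) := by
  have := key a b (fun _ => 1) measurable_const
  simpa using this

theorem mt_symm (a b : ℕ) : mt a b = mt b a := by
  have htr : MeasurePreserving (fun (A : Fin b → Fin a → ℝ) (j : Fin a) (i : Fin b) => A i j)
      volume volume := tr_mp (volume : Measure ℝ) b a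
  have hemb : MeasurableEmbedding (fun (A : Fin b → Fin a → ℝ) (j : Fin a) (i : Fin b) => A i j) :=
    MeasurableEquiv.measurableEmbedding (⟨⟨fun A j i => A i j, fun A j i => A i j,
        fun _ => rfl, fun _ => rfl⟩, htr.measurable, (tr_mp (volume : Measure ℝ) a b).measurable⟩ :
        (Fin b → Fin a → ℝ) ≃ᵐ (Fin a → Fin b → ℝ))
  have e1 : ∫⁻ A : Fin b → Fin a → ℝ, ENNReal.ofReal (wt A) ^ (a + b) =
      ∫⁻ A : Fin a → Fin b → ℝ, ENNReal.ofReal (wt A) ^ (b + a) := by
    have h := htr.lintegral_comp_emb hemb (fun A : Fin a → Fin b → ℝ => ENNReal.ofReal (wt A) ^ (b + a))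
    refine Eq.trans ?_ h
    refine lintegral_congr fun A => ?_
    rw [wt_tr, add_comm]
  have e2 : ∫⁻ A : Fin b → Fin a → ℝ, {A | ∀ j i, 0 ≤ A j i}.indicator 1 A *
      ENNReal.ofReal (wt A) ^ (a + b) =
      ∫⁻ A : Fin a → Fin b → ℝ, {A | ∀ j i, 0 ≤ A j i}.indicator 1 A *
        ENNReal.ofReal (wt A) ^ (b + a) := by
    have h := htr.lintegral_comp_emb hemb (fun A : Fin a → Fin b → ℝ =>
      {A | ∀ j i, 0 ≤ A j i}.indicator 1 A * ENNReal.ofReal (wt A) ^ (b + a))
    refine Eq.trans ?_ h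
    refine lintegral_congr fun A => ?_
    rw [wt_tr, add_comm b a]
    congr 1
    by_cases hA : ∀ j i, 0 ≤ A j i
    · rw [indicator_of_mem (by exact hA), indicator_of_mem (by exact fun j i => hA i j)]
      rfl
    · rw [indicator_of_notMem (by exact hA), indicator_of_notMem]
      intro hV
      exact hA fun j i => hV i j
  have h1 := one_eq a b
  have h2 := one_eq b a
  rw [e1] at h1
  have hK : KK a b = KK b a := by
    set J := ∫⁻ A : Fin a → Fin b → ℝ, ENNReal.ofReal (wt A) ^ (b + a)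
    calc KK a b = KK a b * (KK b a * J) := by rw [← h2, mul_one]
      _ = KK b a * (KK a b * J) := by ring
      _ = KK b a := by rw [← h1, mul_one]
  rw [mt_eq, mt_eq, e2, hK]

end R977SA
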