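import Pool.Agent.R977.SA1

/-! One-dimensional Gaussian estimates and the one-step analysis of the cone. -/

set_option autoImplicit false

namespace R977SA

open MeasureTheory ProbabilityTheory Matrix Set Filter Topology
open scoped ENNReal NNReal
open Pool.Agent.TH985.WP

/-- the standard normal law -/
noncomputable abbrev g1 : Measure ℝ := gaussianReal 0 1

/-- its density -/
noncomputable def ph (t : ℝ) : ℝ := gaussianPDFReal 0 1 t

lemma ph_eq (t : ℝ) : ph t = (Real.sqrt (2 * Real.pi))⁻¹ * Real.exp (-(t ^ 2) / 2) := by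
  unfold ph gaussianPDFReal
  simp

lemma ph_pos (t : ℝ) : 0 < ph t := by rw [ph_eq]; positivity

lemma ph_cont : Continuous ph := by
  have : ph = fun t => (Real.sqrt (2 * Real.pi))⁻¹ * Real.exp (-(t ^ 2) / 2) := funext ph_eq
  rw [this]
  fun_prop

lemma ph_anti {s t : ℝ} (hs : 0 ≤ s) (hst : s ≤ t) : ph t ≤ ph s := by
  rw [ph_eq, ph_eq]
  gcongr

lemma ph_le (t : ℝ) : ph t ≤ ph 0 := by
  rw [ph_eq, ph_eq]
  refine mul_le_mul_of_nonneg_left (Real.exp_le_exp.2 ?_) (by positivity)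
  nlinarith [sq_nonneg t]

lemma g1_real (s : Set ℝ) : g1.real s = ∫ x in s, ph x := by
  have h := gaussianReal_apply_eq_integral 0 (v := 1) one_ne_zero s
  rw [measureReal_def, h, ENNReal.toReal_ofReal]
  · rfl
  · exact integral_nonneg fun x => (ph_pos x).le

lemma g1_Icc {c : ℝ} (hc : 0 ≤ c) :
    ph c * c ≤ g1.real (Icc 0 c) ∧ g1.real (Icc 0 c) ≤ ph 0 * c := by
  rw [g1_real]
  have hi : IntegrableOn ph (Icc 0 c) := ph_cont.continuousOn.integrableOn_Icc
  have hk : ∀ a : ℝ, ∫ _x in Icc 0 c, a = a * c := by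
    intro a
    rw [setIntegral_const, smul_eq_mul, mul_comm]
    simp [hc]
  constructor
  · rw [← hk (ph c)]
    refine setIntegral_mono_on (integrableOn_const (by simp)) hi measurableSet_Icc ?_
    intro x hx
    exact ph_anti hx.1 hx.2
  · rw [← hk (ph 0)]
    refine setIntegral_mono_on hi (integrableOn_const (by simp)) measurableSet_Icc ?_
    intro x _
    exact ph_le x

instance g1_null : NullSingletonClass g1 := nullSingletonClass_gaussianReal one_ne_zero

lemma g1_Ico (c : ℝ) : g1.real (Ico 0 c) = g1.real (Icc 0 c) := by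
  rw [measureReal_def, measureReal_def, measure_congr Ico_ae_eq_Icc]

/-- the mass of `[0,c)` -/
noncomputable def mm (c : ℝ) : ℝ := g1.real (Ico 0 c)

lemma mm_nonneg (c : ℝ) : 0 ≤ mm c := measureReal_nonneg

lemma mm_neg {c : ℝ} (hc : c ≤ 0) : mm c = 0 := by
  unfold mm
  rw [Ico_eq_empty (not_lt.2 hc)]
  simp

lemma mm_le (c : ℝ) : mm c ≤ ph 0 * |c| := by
  rcases le_total c 0 with h | h
  · rw [mm_neg h]
    exact mul_nonneg (ph_pos 0).le (abs_nonneg _)
  · unfold mm
    rw [g1_Ico, abs_of_nonneg h]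
    exact (g1_Icc h).2

lemma mm_lim (c : ℝ) : Tendsto (fun n : ℕ => (n : ℝ) * mm (c / n)) atTop (𝓝 (ph 0 * max c 0)) := by
  rcases le_total c 0 with h | h
  · rw [max_eq_right h, mul_zero]
    refine tendsto_const_nhds.congr fun n => ?_
    rw [mm_neg (div_nonpos_of_nonpos_of_nonneg h (Nat.cast_nonneg n)), mul_zero]
  · rw [max_eq_left h]
    have h1 : Tendsto (fun n : ℕ => ph (c / n) * c) atTop (𝓝 (ph 0 * c)) := by
      have : Tendsto (fun n : ℕ => c / (n : ℝ)) atTop (𝓝 0) := tendsto_const_div_atTop_nhds_zero_nat c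
      exact ((ph_cont.tendsto 0).comp this).mul_const c
    refine tendsto_of_tendsto_of_tendsto_of_le_of_le' h1 tendsto_const_nhds ?_ ?_
    · filter_upwards [eventually_gt_atTop 0] with n hn
      have hn' : (0 : ℝ) < n := by exact_mod_cast hn
      have h2 := (g1_Icc (div_nonneg h hn'.le)).1
      unfold mm
      rw [g1_Ico]
      calc ph (c / n) * c = n * (ph (c / n) * (c / n)) := by field_simp
        _ ≤ n * g1.real (Icc 0 (c / n)) := by gcongr
    · filter_upwards [eventually_gt_atTop 0] with n hn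
      have hn' : (0 : ℝ) < n := by exact_mod_cast hn
      have h2 := (g1_Icc (div_nonneg h hn'.le)).2
      unfold mm
      rw [g1_Ico]
      calc n * g1.real (Icc 0 (c / n)) ≤ n * (ph 0 * (c / n)) := by gcongr
        _ = ph 0 * c := by field_simp

lemma g1_nonneg_half : g1.real (Ici 0) = 1 / 2 := by
  have h1 : g1.map (fun x => -x) = g1 := by
    have := gaussianReal_map_neg (μ := 0) (v := 1)
    simpa using this
  have h2 : g1.real (Iic 0) = g1.real (Ici 0) := by
    rw [measureReal_def, measureReal_def]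
    conv_lhs => rw [← h1]
    rw [Measure.map_apply measurable_neg measurableSet_Iic]
    congr 2
    ext x
    simp
  have h3 : g1.real (Iio 0) = g1.real (Iic 0) := by
    rw [measureReal_def, measureReal_def, measure_congr Iio_ae_eq_Iic]
  have h4 : g1.real (Iio 0) + g1.real (Ici 0) = 1 := by
    have := measureReal_add_measureReal_compl (μ := g1) (s := Iio 0) measurableSet_Iio
    rw [compl_Iio] at this
    rw [this]
    simp
  linarith

/-- the constant of the lower bound -/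
noncomputable def kap : ℝ := 2 * ph 1 * g1.real (Iio (-1))

lemma kap_pos : 0 < kap := by
  unfold kap
  have h1 : 0 < g1.real (Iio (-1)) := by
    rw [measureReal_def, ENNReal.toReal_pos_iff]
    refine ⟨?_, measure_lt_top _ _⟩
    rw [pos_iff_ne_zero]
    intro h0
    have h2 : (volume : Measure ℝ) (Iio (-1)) = 0 :=
      gaussianReal_absolutelyContinuous' 0 one_ne_zero h0
    simp at h2
  have := ph_pos 1
  positivity

variable {n : ℕ}

/-- the region of the cone in the coordinates `(r, y)` -/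
def Aset (B : Matrix (Fin n) (Fin n) ℝ) (s : ℝ) (x : Fin n → ℝ) : Set (ℝ × (Fin n → ℝ)) :=
  {p | 0 ≤ p.1 ∧ ∀ i, p.1 * (B *ᵥ x) i ≤ s * (B *ᵥ p.2) i}

/-- twice the Gaussian measure of the region -/
noncomputable def ff (B : Matrix (Fin n) (Fin n) ℝ) (s : ℝ) (x : Fin n → ℝ) : ℝ :=
  2 * (g1.prod (gm (Fin n))).real (Aset B s x)

lemma big_closed (B : Matrix (Fin n) (Fin n) ℝ) :
    MeasurableSet {p : (ℝ × (Fin n → ℝ)) × (ℝ × (Fin n → ℝ)) | p.2 ∈ Aset B p.1.1 p.1.2} := by
  have : {p : (ℝ × (Fin n → ℝ)) × (ℝ × (Fin n → ℝ)) | p.2 ∈ Aset B p.1.1 p.1.2} =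
      {p | 0 ≤ p.2.1} ∩ ⋂ i, {p | p.2.1 * (B *ᵥ p.1.2) i ≤ p.1.1 * (B *ᵥ p.2.2) i} := by
    ext p
    simp [Aset]
  rw [this]
  refine IsClosed.measurableSet ?_
  refine IsClosed.inter (isClosed_le continuous_const (by fun_prop)) ?_
  refine isClosed_iInter fun i => ?_
  refine isClosed_le ?_ ?_
  · have h1 : Continuous fun p : (ℝ × (Fin n → ℝ)) × (ℝ × (Fin n → ℝ)) => (B *ᵥ p.1.2) i := by
      fun_prop
    fun_prop
  · fun_prop

lemma Aset_meas (B : Matrix (Fin n) (Fin n) ℝ) (s : ℝ) (x : Fin n → ℝ) :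
    MeasurableSet (Aset B s x) :=
  measurable_prodMk_left (x := (s, x)) (big_closed B)

lemma ff_meas (B : Matrix (Fin n) (Fin n) ℝ) : Measurable fun p : ℝ × (Fin n → ℝ) => ff B p.1 p.2 := by
  unfold ff
  have h := measurable_measure_prodMk_left (ν := g1.prod (gm (Fin n))) (big_closed B)
  exact (h.ennreal_toReal).const_mul 2

lemma ff_nonneg (B : Matrix (Fin n) (Fin n) ℝ) (s : ℝ) (x : Fin n → ℝ) : 0 ≤ ff B s x := by
  unfold ff
  positivity

/-- the complement in the half space -/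
lemma ff_compl (B : Matrix (Fin n) (Fin n) ℝ) (s : ℝ) (x : Fin n → ℝ) :
    1 - ff B s x = 2 * (g1.prod (gm (Fin n))).real
      {p | 0 ≤ p.1 ∧ ∃ i, s * (B *ᵥ p.2) i < p.1 * (B *ᵥ x) i} := by
  have h1 : (g1.prod (gm (Fin n))).real {p : ℝ × (Fin n → ℝ) | 0 ≤ p.1} = 1 / 2 := by
    have : {p : ℝ × (Fin n → ℝ) | 0 ≤ p.1} = Ici 0 ×ˢ univ := by
      ext p; simp
    rw [this, measureReal_prod_prod, g1_nonneg_half]
    simp
  have h2 : {p : ℝ × (Fin n → ℝ) | 0 ≤ p.1 ∧ ∃ i, s * (B *ᵥ p.2) i < p.1 * (B *ᵥ x) i} =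
      ({p : ℝ × (Fin n → ℝ) | 0 ≤ p.1} : Set (ℝ × (Fin n → ℝ))) \ Aset B s x := by
    ext p
    simp only [Aset, mem_ofPred_eq, Set.mem_sdiff, not_and, not_forall, not_le]
    constructor
    · rintro ⟨h, i, hi⟩
      exact ⟨h, fun _ => ⟨i, hi⟩⟩
    · rintro ⟨h, h'⟩
      exact ⟨h, h' h⟩
  have hs : Aset B s x ⊆ {p : ℝ × (Fin n → ℝ) | 0 ≤ p.1} := fun p hp => hp.1
  rw [h2, measureReal_sdiff hs (Aset_meas B s x), h1]
  unfold ff
  ring

/-- the size of `x` -/
noncomputable def SS (x : Fin n → ℝ) : ℝ := 1 + ∑ i, |x i|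

lemma SS_one (x : Fin n → ℝ) : 1 ≤ SS x := by
  unfold SS
  have : 0 ≤ ∑ i, |x i| := Finset.sum_nonneg fun i _ => abs_nonneg _
  linarith

/-- universal upper bound -/
lemma ff_le (B : Matrix (Fin (n + 1)) (Fin (n + 1)) ℝ) (hB : B.det ≠ 0) (s : ℝ) (hs : 0 ≤ s)
    (x : Fin (n + 1) → ℝ) : ff B s x ≤ 1 - kap * min s 1 / SS x := by
  rcases hs.eq_or_lt with rfl | hs
  · rw [min_eq_left zero_le_one, mul_zero, zero_div, sub_zero]
    have := ff_compl B 0 x
    have h2 : 0 ≤ (g1.prod (gm (Fin (n+1)))).real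
      {p | 0 ≤ p.1 ∧ ∃ i, 0 * (B *ᵥ p.2) i < p.1 * (B *ᵥ x) i} := measureReal_nonneg
    linarith
  set β : ℝ := Real.sqrt (∑ k, B 0 k ^ 2) with hβ
  have hβ0 : 0 < β := by
    rw [hβ, Real.sqrt_pos]
    by_contra hcon
    have h0 : ∑ k, B 0 k ^ 2 = 0 := le_antisymm (not_lt.1 hcon)
      (Finset.sum_nonneg fun k _ => sq_nonneg _)
    rw [Finset.sum_eq_zero_iff_of_nonneg (fun k _ => sq_nonneg _)] at h0
    apply hB
    refine Matrix.det_eq_zero_of_row_eq_zero 0 fun j => ?_
    have := h0 j (Finset.mem_univ _)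
    exact pow_eq_zero_iff (two_ne_zero) |>.1 this
  set ρ : ℝ := min s 1 / SS x with hρ
  have hS := SS_one x
  have hm0 : 0 < min s 1 := lt_min hs one_pos
  have hρ0 : 0 < ρ := div_pos hm0 (by linarith)
  have hρ1 : ρ ≤ 1 := by
    rw [hρ, div_le_one (by linarith)]
    exact (min_le_right _ _).trans hS
  have hρx : ρ * ∑ i, |x i| ≤ s := by
    have : ∑ i, |x i| ≤ SS x := by unfold SS; linarith
    calc ρ * ∑ i, |x i| ≤ ρ * SS x := by gcongr
      _ = min s 1 := by rw [hρ]; field_simp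
      _ ≤ s := min_le_left _ _
  have hsub : Icc 0 ρ ×ˢ {y : Fin (n + 1) → ℝ | (B *ᵥ y) 0 < -β} ⊆
      {p : ℝ × (Fin (n + 1) → ℝ) | 0 ≤ p.1 ∧ ∃ i, s * (B *ᵥ p.2) i < p.1 * (B *ᵥ x) i} := by
    rintro ⟨r, y⟩ ⟨hr, hy⟩
    simp only [mem_Icc, mem_ofPred_eq] at hr hy ⊢
    refine ⟨hr.1, 0, ?_⟩
    have h1 : |(B *ᵥ x) 0| ≤ β * ∑ i, |x i| := by
      simp only [mulVec, dotProduct]
      calc |∑ k, B 0 k * x k| ≤ ∑ k, |B 0 k * x k| := Finset.abs_sum_le_sum_abs _ _
        _ ≤ ∑ k, β * |x k| := by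
          refine Finset.sum_le_sum fun k _ => ?_
          rw [abs_mul]
          refine mul_le_mul_of_nonneg_right ?_ (abs_nonneg _)
          rw [hβ]
          apply Real.le_sqrt_of_sq_le
          rw [sq_abs]
          exact Finset.single_le_sum (f := fun k => B 0 k ^ 2) (fun k _ => sq_nonneg _)
            (Finset.mem_univ k)
        _ = β * ∑ i, |x i| := by rw [Finset.mul_sum]
    have h2 : -(s * β) ≤ r * (B *ᵥ x) 0 := by
      have h3 : -(β * ∑ i, |x i|) ≤ (B *ᵥ x) 0 := (abs_le.1 h1).1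
      have h4 : r * (β * ∑ i, |x i|) ≤ s * β := by
        calc r * (β * ∑ i, |x i|) ≤ ρ * (β * ∑ i, |x i|) := by
              refine mul_le_mul_of_nonneg_right hr.2 ?_
              exact mul_nonneg hβ0.le (Finset.sum_nonneg fun i _ => abs_nonneg _)
          _ = β * (ρ * ∑ i, |x i|) := by ring
          _ ≤ β * s := by gcongr
          _ = s * β := by ring
      nlinarith [hr.1]
    nlinarith
  have hmeas : (gm (Fin (n+1))).real {y : Fin (n + 1) → ℝ | (B *ᵥ y) 0 < -β} = g1.real (Iio (-1)) := by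
    have hc : Continuous (fun y : Fin (n + 1) → ℝ => (B *ᵥ y) 0) := by fun_prop
    have hms : MeasurableSet {y : Fin (n + 1) → ℝ | (B *ᵥ y) 0 < -β} :=
      measurableSet_lt hc.measurable measurable_const
    have h := gm_lin (fun k => B 0 k) ((Iio (-β)).indicator 1) (measurable_one.indicator measurableSet_Iio)
    rw [← hβ] at h
    have e1 : ∫⁻ y, (Iio (-β)).indicator 1 (∑ k, B 0 k * y k) ∂(gm (Fin (n+1))) =
        gm (Fin (n+1)) {y : Fin (n + 1) → ℝ | (B *ᵥ y) 0 < -β} := by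
      rw [← lintegral_indicator_one hms]
      refine lintegral_congr fun y => ?_
      by_cases hy : (B *ᵥ y) 0 < -β
      · rw [indicator_of_mem (by exact hy), indicator_of_mem (by exact hy)]
        rfl
      · rw [indicator_of_notMem (by exact hy), indicator_of_notMem (by exact hy)]
    have e2 : ∫⁻ t, (Iio (-β)).indicator 1 (β * t) ∂g1 = g1 (Iio (-1)) := by
      rw [← lintegral_indicator_one measurableSet_Iio]
      refine lintegral_congr fun t => ?_
      by_cases ht : t < -1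
      · rw [indicator_of_mem (show β * t ∈ Iio (-β) by rw [mem_Iio]; nlinarith),
          indicator_of_mem (by exact ht)]
        rfl
      · rw [indicator_of_notMem (show β * t ∉ Iio (-β) by rw [mem_Iio]; push Not at ht ⊢; nlinarith),
          indicator_of_notMem (by exact ht)]
    rw [measureReal_def, measureReal_def, ← e1, h, e2]
  have h5 := measureReal_mono (μ := g1.prod (gm (Fin (n+1)))) hsub
  rw [measureReal_prod_prod, hmeas] at h5
  have h6 := (g1_Icc hρ0.le).1
  have h7 := ph_anti hρ0.le hρ1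
  have h8 : ph 1 * ρ ≤ g1.real (Icc 0 ρ) := le_trans (by gcongr) h6
  have h9 := ff_compl B s x
  have h10 : kap * min s 1 / SS x = 2 * (ph 1 * ρ * g1.real (Iio (-1))) := by
    unfold kap
    rw [hρ]
    ring
  rw [h10]
  have h11 : ph 1 * ρ * g1.real (Iio (-1)) ≤ g1.real (Icc 0 ρ) * g1.real (Iio (-1)) := by
    gcongr
  linarith

end R977SA
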