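import Pool.Agent.R977.SA2

/-! Limits of the powers of the measure of the cone. -/

set_option autoImplicit false

namespace R977SA

open MeasureTheory ProbabilityTheory Matrix Set Filter Topology
open scoped ENNReal NNReal
open Pool.Agent.TH985.WP

variable {n : ℕ}

instance gm_prob' (k : ℕ) : IsProbabilityMeasure (gm (Fin k)) := by
  unfold gm; infer_instance

lemma strip_Ico (c : (Fin n → ℝ) → ℝ) (hc : Continuous c) :
    (g1.prod (gm (Fin n))).real {p | p.1 ∈ Ico 0 (c p.2)} = ∫ y, mm (c y) ∂(gm (Fin n)) := by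
  have hms : MeasurableSet {p : ℝ × (Fin n → ℝ) | p.1 ∈ Ico 0 (c p.2)} := by
    have : {p : ℝ × (Fin n → ℝ) | p.1 ∈ Ico 0 (c p.2)} = {p | 0 ≤ p.1} ∩ {p | p.1 < c p.2} := by
      ext p; simp
    rw [this]
    exact (measurableSet_le measurable_const measurable_fst).inter
      (measurableSet_lt measurable_fst (hc.measurable.comp measurable_snd))
  rw [measureReal_def, Measure.prod_apply_symm hms, ← integral_toReal]
  · rfl
  · exact (measurable_measure_prodMk_right hms).aemeasurable
  · exact Eventually.of_forall fun y => measure_lt_top _ _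

lemma strip_Icc (c : (Fin n → ℝ) → ℝ) (hc : Continuous c) :
    (g1.prod (gm (Fin n))).real {p | p.1 ∈ Icc 0 (c p.2)} = ∫ y, mm (c y) ∂(gm (Fin n)) := by
  have hms : MeasurableSet {p : ℝ × (Fin n → ℝ) | p.1 ∈ Icc 0 (c p.2)} := by
    have : {p : ℝ × (Fin n → ℝ) | p.1 ∈ Icc 0 (c p.2)} = {p | 0 ≤ p.1} ∩ {p | p.1 ≤ c p.2} := by
      ext p; simp
    rw [this]
    exact (measurableSet_le measurable_const measurable_fst).inter
      (measurableSet_le measurable_fst (hc.measurable.comp measurable_snd))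
  rw [measureReal_def, Measure.prod_apply_symm hms, ← integral_toReal]
  · refine integral_congr_ae (Eventually.of_forall fun y => ?_)
    show g1.real (Icc 0 (c y)) = g1.real (Ico 0 (c y))
    rw [g1_Ico]
  · exact (measurable_measure_prodMk_right hms).aemeasurable
  · exact Eventually.of_forall fun y => measure_lt_top _ _

lemma abs_int (k : ℕ) (i : Fin k) : Integrable (fun y : Fin k → ℝ => |y i|) (gm (Fin k)) := by
  have h1 : Integrable (fun t : ℝ => |t|) g1 := by
    have := (memLp_id_gaussianReal (μ := 0) (v := 1) 1)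
    have h : MemLp (id : ℝ → ℝ) 1 g1 := by simpa using this
    exact (memLp_one_iff_integrable.1 h).abs
  have h2 : MeasurePreserving (Function.eval i) (gm (Fin k)) g1 := by
    unfold gm
    exact measurePreserving_eval (fun _ : Fin k => g1) i
  exact h2.integrable_comp_of_integrable h1

lemma SS_int (k : ℕ) : Integrable (fun y : Fin k → ℝ => SS y) (gm (Fin k)) := by
  unfold SS
  exact (integrable_const _).add (integrable_finsetSum _ fun i _ => abs_int k i)

lemma SS_cont (k : ℕ) : Continuous (fun y : Fin k → ℝ => SS y) := by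
  unfold SS
  fun_prop

/-- the width function -/
noncomputable def hh (B : Matrix (Fin (n + 1)) (Fin (n + 1)) ℝ) (x y : Fin (n + 1) → ℝ) : ℝ :=
  Finset.univ.sup' Finset.univ_nonempty (fun i => (B *ᵥ y) i / (B *ᵥ x) i)

lemma hh_cont (B : Matrix (Fin (n + 1)) (Fin (n + 1)) ℝ) (x : Fin (n + 1) → ℝ) :
    Continuous (hh B x) := by
  unfold hh
  refine Continuous.finset_sup'_apply _ fun i _ => ?_
  have : Continuous fun y : Fin (n + 1) → ℝ => (B *ᵥ y) i := by fun_prop
  exact this.div_const _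

lemma lin_bound (B : Matrix (Fin (n + 1)) (Fin (n + 1)) ℝ) (x : Fin (n + 1) → ℝ) :
    ∃ C : ℝ, 0 ≤ C ∧ ∀ i y, |(B *ᵥ y) i / (B *ᵥ x) i| ≤ C * SS y := by
  refine ⟨∑ i, ∑ k, |B i k| * |(B *ᵥ x) i|⁻¹, by positivity, ?_⟩
  intro i y
  rw [abs_div, div_eq_mul_inv]
  have h1 : |(B *ᵥ y) i| ≤ (∑ k, |B i k|) * SS y := by
    simp only [mulVec, dotProduct]
    rw [Finset.sum_mul]
    refine (Finset.abs_sum_le_sum_abs _ _).trans (Finset.sum_le_sum fun k _ => ?_)
    rw [abs_mul]
    refine mul_le_mul_of_nonneg_left ?_ (abs_nonneg _)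
    unfold SS
    have : |y k| ≤ ∑ i, |y i| :=
      Finset.single_le_sum (f := fun i => |y i|) (fun i _ => abs_nonneg _) (Finset.mem_univ k)
    linarith
  have hS := SS_one y
  calc |(B *ᵥ y) i| * |(B *ᵥ x) i|⁻¹ ≤ ((∑ k, |B i k|) * SS y) * |(B *ᵥ x) i|⁻¹ := by gcongr
    _ = (∑ k, |B i k| * |(B *ᵥ x) i|⁻¹) * SS y := by rw [← Finset.sum_mul]; ring
    _ ≤ (∑ i, ∑ k, |B i k| * |(B *ᵥ x) i|⁻¹) * SS y := by
      refine mul_le_mul_of_nonneg_right ?_ (by linarith)
      exact Finset.single_le_sum (f := fun i => ∑ k, |B i k| * |(B *ᵥ x) i|⁻¹)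
        (fun i _ => by positivity) (Finset.mem_univ i)

lemma hh_int (B : Matrix (Fin (n + 1)) (Fin (n + 1)) ℝ) (x : Fin (n + 1) → ℝ) :
    Integrable (hh B x) (gm (Fin (n + 1))) := by
  obtain ⟨C, hC0, hC⟩ := lin_bound B x
  refine Integrable.mono' ((SS_int (n+1)).const_mul C) (hh_cont B x).aestronglyMeasurable ?_
  refine Eventually.of_forall fun y => ?_
  rw [Real.norm_eq_abs, abs_le]
  unfold hh
  constructor
  · refine le_trans ?_ (Finset.le_sup' (fun i => (B *ᵥ y) i / (B *ᵥ x) i) (Finset.mem_univ 0))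
    exact (abs_le.1 (hC 0 y)).1
  · exact Finset.sup'_le _ _ fun i _ => (abs_le.1 (hC i y)).2

/-- the exponential rate -/
noncomputable def gg (B : Matrix (Fin (n + 1)) (Fin (n + 1)) ℝ) (x : Fin (n + 1) → ℝ) : ℝ :=
  2 * ∫ y, ph 0 * max (hh B x y) 0 ∂(gm (Fin (n + 1)))

lemma ff_good (B : Matrix (Fin (n + 1)) (Fin (n + 1)) ℝ) (x : Fin (n + 1) → ℝ)
    (hx : ∀ i, (B *ᵥ x) i < 0) (s : ℝ) (hs : 0 < s) :
    1 - ff B s x = 2 * ∫ y, mm (s * hh B x y) ∂(gm (Fin (n + 1))) := by
  rw [ff_compl, ← strip_Ico _ ((hh_cont B x).const_mul s)]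
  congr 2
  ext p
  simp only [mem_ofPred_eq, mem_Ico]
  refine and_congr_right fun _ => ?_
  have h1 : p.1 < s * hh B x p.2 ↔ p.1 / s < hh B x p.2 := by
    rw [div_lt_iff₀ hs, mul_comm s]
  rw [h1]
  unfold hh
  rw [Finset.lt_sup'_iff]
  simp only [Finset.mem_univ, true_and]
  refine exists_congr fun i => ?_
  rw [lt_div_iff_of_neg (hx i), div_mul_eq_mul_div, lt_div_iff₀ hs, mul_comm s]

lemma ff_good_lim (B : Matrix (Fin (n + 1)) (Fin (n + 1)) ℝ) (x : Fin (n + 1) → ℝ)
    (hx : ∀ i, (B *ᵥ x) i < 0) (u : ℝ) (hu : 0 < u) :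
    Tendsto (fun d : ℕ => ff B (u / d) x ^ d) atTop (𝓝 (Real.exp (-(u * gg B x)))) := by
  have h1 : Tendsto (fun d : ℕ => (d : ℝ) * (1 - ff B (u / d) x)) atTop (𝓝 (u * gg B x)) := by
    have h2 : Tendsto (fun d : ℕ => ∫ y, (d : ℝ) * mm ((u * hh B x y) / d) ∂(gm (Fin (n + 1)))) atTop
        (𝓝 (∫ y, ph 0 * max (u * hh B x y) 0 ∂(gm (Fin (n + 1))))) := by
      refine tendsto_integral_of_dominated_convergence (fun y => ph 0 * |u * hh B x y|) ?_ ?_ ?_ ?_
      · intro d
        refine (Measurable.aestronglyMeasurable ?_)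
        refine Measurable.const_mul ?_ _
        have hmm : Measurable mm := by
          have hmono : Monotone mm := by
            intro a b hab
            unfold mm
            exact measureReal_mono (Ico_subset_Ico_right hab)
          exact hmono.measurable
        exact hmm.comp (((hh_cont B x).measurable.const_mul u).div_const _)
      · exact ((hh_int B x).const_mul u).abs.const_mul _
      · intro d
        refine Eventually.of_forall fun y => ?_
        rw [Real.norm_eq_abs, abs_of_nonneg (mul_nonneg (Nat.cast_nonneg _) (mm_nonneg _))]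
        rcases Nat.eq_zero_or_pos d with rfl | hd
        · simp only [Nat.cast_zero, zero_mul]
          have := ph_pos 0
          positivity
        · have hd' : (0 : ℝ) < d := by exact_mod_cast hd
          calc (d : ℝ) * mm (u * hh B x y / d) ≤ d * (ph 0 * |u * hh B x y / d|) := by
                gcongr; exact mm_le _
            _ = ph 0 * |u * hh B x y| := by
              rw [abs_div, abs_of_pos hd']; field_simp
      · exact Eventually.of_forall fun y => mm_lim _
    have h3 : ∫ y, ph 0 * max (u * hh B x y) 0 ∂(gm (Fin (n + 1))) =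
        u * ∫ y, ph 0 * max (hh B x y) 0 ∂(gm (Fin (n + 1))) := by
      rw [← integral_const_mul]
      refine integral_congr_ae (Eventually.of_forall fun y => ?_)
      have : max (u * hh B x y) 0 = u * max (hh B x y) 0 := by
        rw [mul_max_of_nonneg _ _ hu.le, mul_zero]
      simp only [this]
      ring
    rw [h3] at h2
    have h4 := h2.const_mul 2
    have h5 : 2 * (u * ∫ y, ph 0 * max (hh B x y) 0 ∂(gm (Fin (n + 1)))) = u * gg B x := by
      unfold gg; ring
    rw [h5] at h4
    refine h4.congr' ?_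
    filter_upwards [eventually_gt_atTop 0] with d hd
    have hd' : (0 : ℝ) < d := by exact_mod_cast hd
    rw [ff_good B x hx (u / d) (div_pos hu hd'), integral_const_mul]
    have : ∀ y, u / d * hh B x y = u * hh B x y / d := fun y => by ring
    simp_rw [this]
    ring
  have h6 : Tendsto (fun d : ℕ => (d : ℝ) * (-(1 - ff B (u / d) x))) atTop (𝓝 (-(u * gg B x))) := by
    refine h1.neg.congr fun d => by ring
  have h7 := Real.tendsto_one_add_pow_exp_of_tendsto h6
  refine h7.congr fun d => ?_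
  congr 1
  ring

lemma ff_bad_lim (B : Matrix (Fin (n + 1)) (Fin (n + 1)) ℝ) (x : Fin (n + 1) → ℝ)
    (i : Fin (n + 1)) (hx : 0 < (B *ᵥ x) i) (u : ℝ) (hu : 0 < u) :
    Tendsto (fun d : ℕ => ff B (u / d) x ^ d) atTop (𝓝 0) := by
  obtain ⟨C, hC0, hC⟩ := lin_bound B x
  set D : ℝ := ∫ y, ph 0 * (C * SS y) ∂(gm (Fin (n + 1))) with hD
  have hD0 : 0 ≤ D := by
    refine integral_nonneg fun y => ?_
    have := SS_one y
    have := ph_pos 0
    positivity
  have hc : Continuous fun y : Fin (n + 1) → ℝ => (B *ᵥ y) i / (B *ᵥ x) i := by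
    have : Continuous fun y : Fin (n + 1) → ℝ => (B *ᵥ y) i := by fun_prop
    exact this.div_const _
  have h1 : ∀ s : ℝ, 0 < s → ff B s x ≤ 2 * (s * D) := by
    intro s hs
    unfold ff
    have h2 : Aset B s x ⊆ {p | p.1 ∈ Icc 0 (s * ((B *ᵥ p.2) i / (B *ᵥ x) i))} := by
      rintro ⟨r, y⟩ ⟨h0, h1⟩
      refine ⟨h0, ?_⟩
      have := h1 i
      simp only at this ⊢
      rw [← mul_div_assoc, le_div_iff₀ hx]
      exact this
    have h3 := measureReal_mono (μ := g1.prod (gm (Fin (n+1)))) h2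
    rw [strip_Icc _ (hc.const_mul s)] at h3
    have h4 : ∫ y, mm (s * ((B *ᵥ y) i / (B *ᵥ x) i)) ∂(gm (Fin (n + 1))) ≤ s * D := by
      rw [hD, ← integral_const_mul]
      refine integral_mono_of_nonneg (Eventually.of_forall fun y => mm_nonneg _) ?_ ?_
      · exact (((SS_int (n+1)).const_mul C).const_mul _).const_mul _
      · refine Eventually.of_forall fun y => ?_
        calc mm (s * ((B *ᵥ y) i / (B *ᵥ x) i)) ≤ ph 0 * |s * ((B *ᵥ y) i / (B *ᵥ x) i)| := mm_le _
          _ = s * (ph 0 * |(B *ᵥ y) i / (B *ᵥ x) i|) := by rw [abs_mul, abs_of_pos hs]; ring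
          _ ≤ s * (ph 0 * (C * SS y)) := by
            have := ph_pos 0
            gcongr
            exact hC i y
    linarith
  have h5 : Tendsto (fun d : ℕ => 2 * (u / d * D)) atTop (𝓝 0) := by
    have := ((tendsto_const_div_atTop_nhds_zero_nat u).mul_const D).const_mul 2
    simpa using this
  have h6 : ∀ᶠ d : ℕ in atTop, ff B (u / d) x ≤ 1 / 2 := by
    filter_upwards [h5.eventually_le_const (show (0 : ℝ) < 1 / 2 by norm_num), eventually_gt_atTop 0]
      with d hd hd0
    exact (h1 _ (div_pos hu (by exact_mod_cast hd0))).trans hd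
  refine squeeze_zero' (Eventually.of_forall fun d => pow_nonneg (ff_nonneg B _ x) d) ?_
    (tendsto_pow_atTop_nhds_zero_of_lt_one (show (0 : ℝ) ≤ 1 / 2 by norm_num) (by norm_num))
  filter_upwards [h6] with d hd
  exact pow_le_pow_left₀ (ff_nonneg B _ x) hd d

end R977SA
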