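import Pool.Agent.R977.SA3

/-! The limit of the inner integral. -/

set_option autoImplicit false

namespace R977SA

open MeasureTheory ProbabilityTheory Matrix Set Filter Topology
open scoped ENNReal NNReal
open Pool.Agent.TH985.WP

variable {n : ℕ}

attribute [local irreducible] ff

lemma ff_meas_comp {X : Type*} [MeasurableSpace X] (B : Matrix (Fin n) (Fin n) ℝ) {f : X → ℝ}
    {g : X → Fin n → ℝ} (hf : Measurable f) (hg : Measurable g) :
    Measurable fun p => ff B (f p) (g p) := by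
  have h := (ff_meas B).comp (hf.prodMk hg)
  exact h

lemma exp_abs_int {c : ℝ} (hc : 0 < c) :
    Integrable (fun u : ℝ => Real.exp (-(c * |u|))) volume := by
  rw [← integrableOn_univ, ← Iic_union_Ioi (a := (0 : ℝ)), integrableOn_union]
  constructor
  · refine (integrableOn_exp_mul_Iic hc 0).congr_fun ?_ measurableSet_Iic
    intro x hx
    simp only
    rw [abs_of_nonpos hx]
    congr 1
    ring
  · refine (integrableOn_exp_mul_Ioi (neg_lt_zero.2 hc) 0).congr_fun ?_ measurableSet_Ioi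
    intro x hx
    simp only
    rw [abs_of_pos hx]
    congr 1
    ring

lemma exp_abs_val {c : ℝ} (hc : 0 < c) : ∫ u : ℝ, Real.exp (-(c * |u|)) = 2 / c := by
  rw [integral_comp_abs (f := fun u => Real.exp (-(c * u)))]
  have h := integral_exp_mul_Ioi (neg_lt_zero.2 hc) 0
  have h2 : ∫ x in Ioi (0 : ℝ), Real.exp (-(c * x)) = ∫ x in Ioi (0 : ℝ), Real.exp (-c * x) := by
    refine integral_congr_ae (Eventually.of_forall fun x => ?_)
    simp only
    congr 1
    ring
  rw [h2, h]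
  simp
  field_simp

lemma ff_pow_le (B : Matrix (Fin (n + 1)) (Fin (n + 1)) ℝ) (hB : B.det ≠ 0) (s : ℝ) (hs : 0 ≤ s)
    (x : Fin (n + 1) → ℝ) (d : ℕ) :
    ff B s x ^ d ≤ Real.exp (-(d * (kap * min s 1 / SS x))) := by
  have h1 : ff B s x ≤ Real.exp (-(kap * min s 1 / SS x)) := by
    refine (ff_le B hB s hs x).trans ?_
    have := Real.add_one_le_exp (-(kap * min s 1 / SS x))
    linarith
  calc ff B s x ^ d ≤ Real.exp (-(kap * min s 1 / SS x)) ^ d := pow_le_pow_left₀ (ff_nonneg B s x) h1 d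
    _ = _ := by
      rw [← Real.exp_nat_mul]
      congr 1
      ring

/-- the main part -/
noncomputable def ka (B : Matrix (Fin (n + 1)) (Fin (n + 1)) ℝ) (x : Fin (n + 1) → ℝ) (d : ℕ)
    (t : ℝ) : ℝ := if |t| ≤ 1 then ff B |t| x ^ d * ph t else 0

/-- the remainder -/
noncomputable def kr (B : Matrix (Fin (n + 1)) (Fin (n + 1)) ℝ) (x : Fin (n + 1) → ℝ) (d : ℕ)
    (t : ℝ) : ℝ := if |t| ≤ 1 then 0 else (d : ℝ) * ff B |t| x ^ d

/-- the inner integral -/
noncomputable def HH (B : Matrix (Fin (n + 1)) (Fin (n + 1)) ℝ) (d : ℕ) (x : Fin (n + 1) → ℝ) : ℝ :=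
  ∫ t, (d : ℝ) * ff B |t| x ^ d ∂g1

lemma ff_meas_t (B : Matrix (Fin (n + 1)) (Fin (n + 1)) ℝ) (x : Fin (n + 1) → ℝ) :
    Measurable fun t : ℝ => ff B |t| x :=
  ff_meas_comp B (by fun_prop) (by fun_prop)

lemma ff_le_one (B : Matrix (Fin (n + 1)) (Fin (n + 1)) ℝ) (hB : B.det ≠ 0) (s : ℝ) (hs : 0 ≤ s)
    (x : Fin (n + 1) → ℝ) : ff B s x ≤ 1 := by
  have h := ff_le B hB s hs x
  have h1 : 0 ≤ kap * min s 1 / SS x := by
    have := kap_pos
    have := SS_one x
    have : 0 ≤ min s 1 := le_min hs zero_le_one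
    positivity
  linarith

lemma ka_bound (B : Matrix (Fin (n + 1)) (Fin (n + 1)) ℝ) (hB : B.det ≠ 0) (x : Fin (n + 1) → ℝ)
    (d : ℕ) (hd : 0 < d) (u : ℝ) :
    |ka B x d (u / d)| ≤ ph 0 * Real.exp (-(kap / SS x * |u|)) := by
  have hd' : (0 : ℝ) < d := by exact_mod_cast hd
  unfold ka
  split_ifs with h
  · rw [abs_of_nonneg (mul_nonneg (pow_nonneg (ff_nonneg B _ x) d) (ph_pos _).le), mul_comm]
    have h1 := ff_pow_le B hB |u / d| (abs_nonneg _) x d
    rw [min_eq_left h] at h1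
    have h2 : (d : ℝ) * (kap * |u / d| / SS x) = kap / SS x * |u| := by
      rw [abs_div, abs_of_pos hd']
      field_simp
    rw [h2] at h1
    exact mul_le_mul (ph_le _) h1 (pow_nonneg (ff_nonneg B _ x) d) (ph_pos 0).le
  · rw [abs_zero]
    have := ph_pos 0
    positivity

lemma ka_meas (B : Matrix (Fin (n + 1)) (Fin (n + 1)) ℝ) (x : Fin (n + 1) → ℝ) (d : ℕ) :
    Measurable (ka B x d) := by
  unfold ka
  refine Measurable.ite ?_ ?_ measurable_const
  · exact measurableSet_le measurable_id.abs measurable_const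
  · exact ((ff_meas_t B x).pow_const d).mul ph_cont.measurable

lemma kr_meas (B : Matrix (Fin (n + 1)) (Fin (n + 1)) ℝ) (x : Fin (n + 1) → ℝ) (d : ℕ) :
    Measurable (kr B x d) := by
  unfold kr
  refine Measurable.ite ?_ measurable_const ?_
  · exact measurableSet_le measurable_id.abs measurable_const
  · exact ((ff_meas_t B x).pow_const d).const_mul _

lemma ka_scale (B : Matrix (Fin (n + 1)) (Fin (n + 1)) ℝ) (x : Fin (n + 1) → ℝ) (d : ℕ) :
    (d : ℝ) * ∫ t, ka B x d t = ∫ u : ℝ, ka B x d (u / d) := by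
  rw [Measure.integral_comp_div, smul_eq_mul, Nat.abs_cast]

lemma exp_bound {z : ℝ} (hz : 0 < z) (d : ℕ) : (d : ℝ) * Real.exp (-(d * z)) ≤ 1 / z := by
  rw [Real.exp_neg, ← div_eq_mul_inv, div_le_div_iff₀ (Real.exp_pos _) hz, one_mul]
  have := Real.add_one_le_exp ((d : ℝ) * z)
  linarith

lemma kr_bound (B : Matrix (Fin (n + 1)) (Fin (n + 1)) ℝ) (hB : B.det ≠ 0) (x : Fin (n + 1) → ℝ)
    (d : ℕ) (t : ℝ) : |kr B x d t| ≤ (d : ℝ) * Real.exp (-(d * (kap / SS x))) := by
  unfold kr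
  split_ifs with h
  · rw [abs_zero]; positivity
  · rw [abs_of_nonneg (mul_nonneg (Nat.cast_nonneg _) (pow_nonneg (ff_nonneg B _ x) d))]
    have h1 := ff_pow_le B hB |t| (abs_nonneg _) x d
    rw [min_eq_right (not_le.1 h).le, mul_one] at h1
    gcongr

lemma ka_int (B : Matrix (Fin (n + 1)) (Fin (n + 1)) ℝ) (hB : B.det ≠ 0) (x : Fin (n + 1) → ℝ)
    (d : ℕ) : Integrable (ka B x d) volume := by
  have h1 : Integrable ph volume := integrable_gaussianPDFReal 0 1
  refine h1.mono' (ka_meas B x d).aestronglyMeasurable (Eventually.of_forall fun t => ?_)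
  unfold ka
  split_ifs with h
  · rw [Real.norm_eq_abs, abs_of_nonneg (mul_nonneg (pow_nonneg (ff_nonneg B _ x) d) (ph_pos _).le)]
    have := pow_le_one₀ (n := d) (ff_nonneg B |t| x) (ff_le_one B hB |t| (abs_nonneg _) x)
    nlinarith [ph_pos t]
  · rw [norm_zero]; exact (ph_pos t).le

lemma HH_split (B : Matrix (Fin (n + 1)) (Fin (n + 1)) ℝ) (hB : B.det ≠ 0) (x : Fin (n + 1) → ℝ)
    (d : ℕ) : HH B d x = (d : ℝ) * (∫ t, ka B x d t) + ∫ t, kr B x d t ∂g1 := by
  have h1 : (d : ℝ) * (∫ t, ka B x d t) = ∫ t, (if |t| ≤ 1 then (d : ℝ) * ff B |t| x ^ d else 0) ∂g1 := by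
    rw [integral_gaussianReal_eq_integral_smul one_ne_zero, ← integral_const_mul]
    refine integral_congr_ae (Eventually.of_forall fun t => ?_)
    simp only [ka, smul_eq_mul]
    split_ifs with h
    · unfold ph; ring
    · simp
  have hi : ∀ f : ℝ → ℝ, Measurable f → (∀ t, |f t| ≤ d) → Integrable f g1 := by
    intro f hf hfb
    refine (integrable_const (d : ℝ)).mono' hf.aestronglyMeasurable (Eventually.of_forall hfb)
  have hb : ∀ t : ℝ, |(d : ℝ) * ff B |t| x ^ d| ≤ d := by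
    intro t
    rw [abs_of_nonneg (mul_nonneg (Nat.cast_nonneg _) (pow_nonneg (ff_nonneg B _ x) d))]
    have := pow_le_one₀ (n := d) (ff_nonneg B |t| x) (ff_le_one B hB |t| (abs_nonneg _) x)
    have hd : (0 : ℝ) ≤ d := Nat.cast_nonneg _
    nlinarith
  rw [h1, ← integral_add]
  · unfold HH
    refine integral_congr_ae (Eventually.of_forall fun t => ?_)
    simp only [kr]
    split_ifs with h <;> simp
  · refine hi _ ?_ ?_
    · refine Measurable.ite ?_ ?_ measurable_const
      · exact measurableSet_le measurable_id.abs measurable_const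
      · exact ((ff_meas_t B x).pow_const d).const_mul _
    · intro t
      split_ifs with h
      · exact hb t
      · rw [abs_zero]; exact Nat.cast_nonneg _
  · refine hi _ (kr_meas B x d) ?_
    intro t
    unfold kr
    split_ifs with h
    · rw [abs_zero]; exact Nat.cast_nonneg _
    · exact hb t

lemma kr_small (B : Matrix (Fin (n + 1)) (Fin (n + 1)) ℝ) (hB : B.det ≠ 0) (x : Fin (n + 1) → ℝ)
    (d : ℕ) : |∫ t, kr B x d t ∂g1| ≤ (d : ℝ) * Real.exp (-(d * (kap / SS x))) := by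
  have := norm_integral_le_of_norm_le_const (μ := g1) (f := kr B x d)
    (Eventually.of_forall fun t => kr_bound B hB x d t)
  simpa using this

lemma HH_nonneg (B : Matrix (Fin (n + 1)) (Fin (n + 1)) ℝ) (d : ℕ) (x : Fin (n + 1) → ℝ) :
    0 ≤ HH B d x :=
  integral_nonneg fun t => mul_nonneg (Nat.cast_nonneg _) (pow_nonneg (ff_nonneg B _ x) d)

/-- the constant of the uniform bound -/
noncomputable def CC : ℝ := (2 * ph 0 + 1) / kap

lemma CC_pos : 0 < CC := by
  unfold CC
  have := ph_pos 0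
  have := kap_pos
  positivity

lemma HH_le (B : Matrix (Fin (n + 1)) (Fin (n + 1)) ℝ) (hB : B.det ≠ 0) (x : Fin (n + 1) → ℝ)
    (d : ℕ) : HH B d x ≤ CC * SS x := by
  have hS := SS_one x
  have hk := kap_pos
  have hp := ph_pos 0
  rcases Nat.eq_zero_or_pos d with rfl | hd
  · unfold HH
    simp only [Nat.cast_zero, zero_mul, integral_zero]
    have := CC_pos
    positivity
  have hz : 0 < kap / SS x := by positivity
  rw [HH_split B hB, ka_scale]
  have h1 : ∫ u : ℝ, ka B x d (u / d) ≤ ph 0 * (2 / (kap / SS x)) := by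
    rw [← exp_abs_val hz, ← integral_const_mul]
    refine (Real.le_norm_self _).trans (norm_integral_le_of_norm_le (μ := volume)
      (f := fun u : ℝ => ka B x d (u / d)) ((exp_abs_int hz).const_mul _) ?_)
    exact Eventually.of_forall fun u => ka_bound B hB x d hd u
  have h2 := (le_abs_self _).trans ((kr_small B hB x d).trans (exp_bound hz d))
  have h3 : CC * SS x = ph 0 * (2 / (kap / SS x)) + 1 / (kap / SS x) := by
    unfold CC
    field_simp
  linarith

/-- the limit profile -/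
noncomputable def Fl (B : Matrix (Fin (n + 1)) (Fin (n + 1)) ℝ) (x : Fin (n + 1) → ℝ) (u : ℝ) : ℝ :=
  open Classical in
  if (∀ i, (B *ᵥ x) i < 0) then Real.exp (-(|u| * gg B x)) * ph 0 else 0

/-- generic points -/
def Gen (B : Matrix (Fin (n + 1)) (Fin (n + 1)) ℝ) (x : Fin (n + 1) → ℝ) : Prop :=
  ∀ i, (B *ᵥ x) i ≠ 0

lemma ka_lim (B : Matrix (Fin (n + 1)) (Fin (n + 1)) ℝ) (x : Fin (n + 1) → ℝ) (hx : Gen B x)
    (u : ℝ) (hu : u ≠ 0) : Tendsto (fun d : ℕ => ka B x d (u / d)) atTop (𝓝 (Fl B x u)) := by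
  have hu' : 0 < |u| := abs_pos.2 hu
  have h0 : Tendsto (fun d : ℕ => u / (d : ℝ)) atTop (𝓝 0) := tendsto_const_div_atTop_nhds_zero_nat u
  have h1 : Tendsto (fun d : ℕ => ph (u / d)) atTop (𝓝 (ph 0)) := (ph_cont.tendsto 0).comp h0
  have h2 : ∀ᶠ d : ℕ in atTop, ka B x d (u / d) = ff B (|u| / d) x ^ d * ph (u / d) := by
    have h3 : Tendsto (fun d : ℕ => |u / (d : ℝ)|) atTop (𝓝 0) := by simpa using h0.abs
    filter_upwards [h3.eventually_le_const (show (0 : ℝ) < 1 by norm_num)] with d hd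
    unfold ka
    rw [if_pos hd, abs_div, Nat.abs_cast]
  have h4 : Tendsto (fun d : ℕ => ff B (|u| / d) x ^ d * ph (u / d)) atTop (𝓝 (Fl B x u)) := by
    unfold Fl
    split_ifs with hg
    · exact (ff_good_lim B x hg |u| hu').mul h1
    · push Not at hg
      obtain ⟨i, hi⟩ := hg
      have := (ff_bad_lim B x i (lt_of_le_of_ne hi (hx i).symm) |u| hu').mul h1
      simpa using this
  exact h4.congr' (h2.mono fun d hd => hd.symm)

lemma HH_lim (B : Matrix (Fin (n + 1)) (Fin (n + 1)) ℝ) (hB : B.det ≠ 0) (x : Fin (n + 1) → ℝ)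
    (hx : Gen B x) : Tendsto (fun d : ℕ => HH B d x) atTop (𝓝 (∫ u, Fl B x u)) := by
  have hS := SS_one x
  have hk := kap_pos
  have hz : 0 < kap / SS x := by positivity
  have h1 : Tendsto (fun d : ℕ => ∫ u : ℝ, ka B x d (u / d)) atTop (𝓝 (∫ u, Fl B x u)) := by
    refine tendsto_integral_filter_of_dominated_convergence
      (fun u => ph 0 * Real.exp (-(kap / SS x * |u|))) ?_ ?_ ((exp_abs_int hz).const_mul _) ?_
    · exact Eventually.of_forall fun d =>
        ((ka_meas B x d).comp (measurable_id.div_const _)).aestronglyMeasurable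
    · filter_upwards [eventually_gt_atTop 0] with d hd
      exact Eventually.of_forall fun u => ka_bound B hB x d hd u
    · have : ∀ᵐ u : ℝ, u ≠ 0 := by
        rw [ae_iff]
        simp
      filter_upwards [this] with u hu
      exact ka_lim B x hx u hu
  have h2 : Tendsto (fun d : ℕ => ∫ t, kr B x d t ∂g1) atTop (𝓝 0) := by
    rw [tendsto_zero_iff_abs_tendsto_zero]
    have h3 : Tendsto (fun d : ℕ => (d : ℝ) * Real.exp (-(d * (kap / SS x)))) atTop (𝓝 0) := by
      have h4 := (Real.tendsto_pow_mul_exp_neg_atTop_nhds_zero 1)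
      have h5 : Tendsto (fun d : ℕ => (d : ℝ) * (kap / SS x)) atTop atTop :=
        tendsto_natCast_atTop_atTop.atTop_mul_const hz
      have h6 := (h4.comp h5).mul_const (kap / SS x)⁻¹
      rw [zero_mul] at h6
      refine h6.congr fun d => ?_
      simp only [Function.comp, pow_one]
      field_simp
    refine squeeze_zero (fun d => abs_nonneg _) (fun d => ?_) h3
    exact kr_small B hB x d
  have h7 := h1.add h2
  rw [add_zero] at h7
  refine h7.congr fun d => ?_
  rw [HH_split B hB, ka_scale]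

lemma HH_meas (B : Matrix (Fin (n + 1)) (Fin (n + 1)) ℝ) (d : ℕ) :
    StronglyMeasurable (fun x => HH B d x) := by
  unfold HH
  have h : Measurable (fun p : (Fin (n + 1) → ℝ) × ℝ => (d : ℝ) * ff B |p.2| p.1 ^ d) := by
    refine (Measurable.pow_const ?_ d).const_mul _
    exact ff_meas_comp B (by fun_prop) (by fun_prop)
  exact h.stronglyMeasurable.integral_prod_right'

/-- a row of `B y` is a Gaussian variable -/
lemma gm_row (B : Matrix (Fin (n + 1)) (Fin (n + 1)) ℝ) (i : Fin (n + 1)) (T : Set ℝ)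
    (hT : MeasurableSet T) : gm (Fin (n+1)) {y | (B *ᵥ y) i ∈ T} =
      g1 {t | Real.sqrt (∑ k, B i k ^ 2) * t ∈ T} := by
  have hc : Continuous (fun y : Fin (n + 1) → ℝ => (B *ᵥ y) i) := by fun_prop
  have hms : MeasurableSet {y : Fin (n + 1) → ℝ | (B *ᵥ y) i ∈ T} := hc.measurable hT
  have hc2 : Continuous (fun t : ℝ => Real.sqrt (∑ k, B i k ^ 2) * t) := by fun_prop
  have hms2 : MeasurableSet {t : ℝ | Real.sqrt (∑ k, B i k ^ 2) * t ∈ T} := hc2.measurable hT
  have h := gm_lin (fun k => B i k) (T.indicator 1) (measurable_one.indicator hT)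
  rw [← lintegral_indicator_one hms, ← lintegral_indicator_one hms2]
  exact h

lemma gen_ae (B : Matrix (Fin (n + 1)) (Fin (n + 1)) ℝ) (hB : B.det ≠ 0) :
    ∀ᵐ x ∂(gm (Fin (n + 1))), Gen B x := by
  unfold Gen
  rw [ae_all_iff]
  intro i
  have h := gm_row B i {0} (measurableSet_singleton 0)
  rw [ae_iff]
  have e : {a : Fin (n + 1) → ℝ | ¬ (B *ᵥ a) i ≠ 0} = {y | (B *ᵥ y) i ∈ ({0} : Set ℝ)} := by
    ext y; simp
  rw [e, h]
  have hβ0 : 0 < Real.sqrt (∑ k, B i k ^ 2) := by
    rw [Real.sqrt_pos]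
    by_contra hcon
    have h0 : ∑ k, B i k ^ 2 = 0 := le_antisymm (not_lt.1 hcon)
      (Finset.sum_nonneg fun k _ => sq_nonneg _)
    rw [Finset.sum_eq_zero_iff_of_nonneg (fun k _ => sq_nonneg _)] at h0
    apply hB
    refine Matrix.det_eq_zero_of_row_eq_zero i fun j => ?_
    have := h0 j (Finset.mem_univ _)
    exact pow_eq_zero_iff (two_ne_zero) |>.1 this
  have e2 : {t : ℝ | Real.sqrt (∑ k, B i k ^ 2) * t ∈ ({0} : Set ℝ)} = {0} := by
    ext t
    simp [hβ0.ne']
  rw [e2]
  exact measure_singleton 0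

instance g1_open : g1.IsOpenPosMeasure :=
  (gaussianReal_absolutelyContinuous' 0 one_ne_zero).isOpenPosMeasure

instance gm_open (k : ℕ) : (gm (Fin k)).IsOpenPosMeasure := by
  unfold gm; infer_instance

/-- the limit of the inner integral -/
noncomputable def LL (B : Matrix (Fin (n + 1)) (Fin (n + 1)) ℝ) : ℝ :=
  ∫ x, (∫ u, Fl B x u) ∂(gm (Fin (n + 1)))

/-- the uniform bound -/
noncomputable def KB (n : ℕ) : ℝ := ∫ x : Fin (n + 1) → ℝ, CC * SS x ∂(gm (Fin (n + 1)))

theorem JJ_lim (B : Matrix (Fin (n + 1)) (Fin (n + 1)) ℝ) (hB : B.det ≠ 0) :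
    Tendsto (fun d : ℕ => ∫ x, HH B d x ∂(gm (Fin (n + 1)))) atTop (𝓝 (LL B)) := by
  refine tendsto_integral_of_dominated_convergence (fun x => CC * SS x) ?_ ?_ ?_ ?_
  · intro d; exact (HH_meas B d).aestronglyMeasurable
  · exact (SS_int (n+1)).const_mul _
  · intro d
    refine Eventually.of_forall fun x => ?_
    rw [Real.norm_eq_abs, abs_of_nonneg (HH_nonneg B d x)]
    exact HH_le B hB x d
  · filter_upwards [gen_ae B hB] with x hx
    exact HH_lim B hB x hx

theorem JJ_le (B : Matrix (Fin (n + 1)) (Fin (n + 1)) ℝ) (hB : B.det ≠ 0) (d : ℕ) :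
    ∫ x, HH B d x ∂(gm (Fin (n + 1))) ≤ KB n := by
  refine integral_mono_of_nonneg (Eventually.of_forall fun x => HH_nonneg B d x)
    ((SS_int (n+1)).const_mul _) (Eventually.of_forall fun x => HH_le B hB x d)

lemma Fl_int (B : Matrix (Fin (n + 1)) (Fin (n + 1)) ℝ) (hB : B.det ≠ 0) (x : Fin (n + 1) → ℝ)
    (hx : ∀ i, (B *ᵥ x) i < 0) : Integrable (Fl B x) volume := by
  have hS := SS_one x
  have hk := kap_pos
  have hz : 0 < kap / SS x := by positivity
  refine ((exp_abs_int hz).const_mul (ph 0)).mono' ?_ ?_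
  · unfold Fl
    simp only [if_pos hx]
    refine Continuous.aestronglyMeasurable ?_
    fun_prop
  · have : ∀ᵐ u : ℝ, u ≠ 0 := by
      rw [ae_iff]
      simp
    filter_upwards [this] with u hu
    have hl := ka_lim B x (fun i => (hx i).ne) u hu
    refine le_of_tendsto hl.norm ?_
    filter_upwards [eventually_gt_atTop 0] with d hd
    exact ka_bound B hB x d hd u

lemma Fl_pos (B : Matrix (Fin (n + 1)) (Fin (n + 1)) ℝ) (hB : B.det ≠ 0) (x : Fin (n + 1) → ℝ)
    (hx : ∀ i, (B *ᵥ x) i < 0) : 0 < ∫ u, Fl B x u := by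
  have hpos : ∀ u, 0 < Fl B x u := by
    intro u
    unfold Fl
    rw [if_pos hx]
    exact mul_pos (Real.exp_pos _) (ph_pos 0)
  rw [integral_pos_iff_support_of_nonneg (fun u => (hpos u).le) (Fl_int B hB x hx)]
  have : Function.support (Fl B x) = univ := by
    ext u
    simp [(hpos u).ne']
  rw [this]
  simp

theorem LL_pos (B : Matrix (Fin (n + 1)) (Fin (n + 1)) ℝ) (hB : B.det ≠ 0) : 0 < LL B := by
  unfold LL
  have hnn : ∀ x, 0 ≤ ∫ u, Fl B x u := by
    intro x
    refine integral_nonneg fun u => ?_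
    unfold Fl
    split_ifs
    · exact mul_nonneg (Real.exp_pos _).le (ph_pos 0).le
    · exact le_rfl
  have hlim := gen_ae B hB
  have hint : Integrable (fun x => ∫ u, Fl B x u) (gm (Fin (n + 1))) := by
    refine ((SS_int (n+1)).const_mul CC).mono' ?_ ?_
    · refine aestronglyMeasurable_of_tendsto_ae atTop (f := fun (d : ℕ) x => HH B d x) ?_ ?_
      · intro d; exact (HH_meas B d).aestronglyMeasurable
      · filter_upwards [hlim] with x hx
        exact HH_lim B hB x hx
    · filter_upwards [hlim] with x hx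
      refine le_of_tendsto (HH_lim B hB x hx).norm (Eventually.of_forall fun d => ?_)
      rw [Real.norm_eq_abs, abs_of_nonneg (HH_nonneg B d x)]
      exact HH_le B hB x d
  rw [integral_pos_iff_support_of_nonneg hnn hint]
  have hsub : {x : Fin (n + 1) → ℝ | ∀ i, (B *ᵥ x) i < 0} ⊆
      Function.support (fun x => ∫ u, Fl B x u) := by
    intro x hx
    exact (Fl_pos B hB x hx).ne'
  refine lt_of_lt_of_le ?_ (measure_mono hsub)
  refine IsOpen.measure_pos _ ?_ ?_
  · have : {x : Fin (n + 1) → ℝ | ∀ i, (B *ᵥ x) i < 0} = ⋂ i, {x | (B *ᵥ x) i < 0} := by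
      ext x; simp
    rw [this]
    refine isOpen_iInter_of_finite fun i => ?_
    exact isOpen_lt (by fun_prop) continuous_const
  · refine ⟨B⁻¹ *ᵥ (fun _ => -1), fun i => ?_⟩
    rw [Matrix.mulVec_mulVec, Matrix.mul_nonsing_inv _ (isUnit_iff_ne_zero.2 hB), Matrix.one_mulVec]
    norm_num

end R977SA
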