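import Pool.Agent.R977.SA4

/-! Reduction of a Gaussian simplicial cone by a rotation; the limit of the moments. -/

set_option autoImplicit false

namespace R977SA

open MeasureTheory ProbabilityTheory Matrix Set Filter Topology
open scoped ENNReal NNReal
open Pool.Agent.TH985.WP

/-- the Gaussian measure of the cone generated by the vectors `G k` -/
noncomputable def al {k : ℕ} (G : Fin k → Fin k → ℝ) : ℝ :=
  (gm (Fin k)).real {z | ∀ i, 0 ≤ ((cm G)⁻¹ *ᵥ z) i}

lemma al_set_meas (k : ℕ) : MeasurableSet {p : (Fin k → Fin k → ℝ) × (Fin k → ℝ) |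
    ∀ i, 0 ≤ ((cm p.1)⁻¹ *ᵥ p.2) i} := by
  have : {p : (Fin k → Fin k → ℝ) × (Fin k → ℝ) | ∀ i, 0 ≤ ((cm p.1)⁻¹ *ᵥ p.2) i} =
      ⋂ i, {p | 0 ≤ ((cm p.1)⁻¹ *ᵥ p.2) i} := by
    ext p; simp
  rw [this]
  refine MeasurableSet.iInter fun i => ?_
  exact measurableSet_le measurable_const ((measurable_pi_apply i).comp (inv_mulVec_meas k))

lemma al_meas (k : ℕ) : Measurable (al : (Fin k → Fin k → ℝ) → ℝ) := by
  have h := measurable_measure_prodMk_left (ν := gm (Fin k)) (al_set_meas k)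
  exact h.ennreal_toReal

lemma al_nonneg {k : ℕ} (G : Fin k → Fin k → ℝ) : 0 ≤ al G := measureReal_nonneg

lemma al_le_one {k : ℕ} (G : Fin k → Fin k → ℝ) : al G ≤ 1 := measureReal_le_one

lemma set_meas {k : ℕ} (P : Matrix (Fin k) (Fin k) ℝ) :
    MeasurableSet {z : Fin k → ℝ | ∀ i, 0 ≤ (P *ᵥ z) i} := by
  have : {z : Fin k → ℝ | ∀ i, 0 ≤ (P *ᵥ z) i} = ⋂ i, {z | 0 ≤ (P *ᵥ z) i} := by
    ext p; simp
  rw [this]
  refine MeasurableSet.iInter fun i => ?_
  have hc : Continuous fun z : Fin k → ℝ => (P *ᵥ z) i := by fun_prop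
  exact measurableSet_le measurable_const hc.measurable

lemma cm_rot {k : ℕ} (O : Matrix (Fin k) (Fin k) ℝ) (G : Fin k → Fin k → ℝ) :
    cm (fun j => O *ᵥ G j) = O * cm G := by
  ext i j
  simp [cm, Matrix.mul_apply, mulVec, dotProduct]

/-- rotation invariance -/
lemma al_rot {k : ℕ} (O : Matrix (Fin k) (Fin k) ℝ) (hO : O * Oᵀ = 1) (G : Fin k → Fin k → ℝ) :
    al (fun j => O *ᵥ G j) = al G := by
  have hO2 : Oᵀ * O = 1 := mul_eq_one_comm.1 hO
  have hinv : O⁻¹ = Oᵀ := Matrix.inv_eq_right_inv hO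
  unfold al
  rw [cm_rot, Matrix.mul_inv_rev, hinv]
  have h := gm_rot Oᵀ (by rw [Matrix.transpose_transpose]; exact hO2)
  have h2 := h.measure_preimage (set_meas (cm G)⁻¹).nullMeasurableSet
  rw [measureReal_def, measureReal_def, ← h2]
  congr 2
  ext z
  simp [Matrix.mulVec_mulVec]

/-- splitting the first coordinate -/
lemma gm_split (k : ℕ) : MeasurePreserving (fun p : ℝ × (Fin k → ℝ) => (Fin.cons p.1 p.2 : Fin (k + 1) → ℝ))
    (g1.prod (gm (Fin k))) (gm (Fin (k + 1))) := by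
  have h := (measurePreserving_piFinSuccAbove (fun _ : Fin (k + 1) => g1) 0).symm
  have he : ⇑(MeasurableEquiv.piFinSuccAbove (fun _ : Fin (k + 1) => ℝ) 0).symm =
      fun p : ℝ × (Fin k → ℝ) => (Fin.cons p.1 p.2 : Fin (k + 1) → ℝ) := by
    funext p
    simp only [MeasurableEquiv.piFinSuccAbove_symm_apply, Fin.insertNthEquiv, Fin.insertNth_zero,
      Equiv.coe_fn_mk]
    rfl
  rw [he] at h
  exact h

lemma gmat_split (m k : ℕ) : MeasurePreserving
    (fun p : (Fin k → ℝ) × (Fin m → Fin k → ℝ) => (Fin.cons p.1 p.2 : Fin (m + 1) → Fin k → ℝ))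
    ((gm (Fin k)).prod (gmat (Fin m) (Fin k))) (gmat (Fin (m + 1)) (Fin k)) := by
  have h := (measurePreserving_piFinSuccAbove (fun _ : Fin (m + 1) => gm (Fin k)) 0).symm
  have he : ⇑(MeasurableEquiv.piFinSuccAbove (fun _ : Fin (m + 1) => (Fin k → ℝ)) 0).symm =
      fun p : (Fin k → ℝ) × (Fin m → Fin k → ℝ) =>
        (Fin.cons p.1 p.2 : Fin (m + 1) → Fin k → ℝ) := by
    funext p
    simp only [MeasurableEquiv.piFinSuccAbove_symm_apply, Fin.insertNthEquiv, Fin.insertNth_zero,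
      Equiv.coe_fn_mk]
    rfl
  rw [he] at h
  exact h

/-- the special family of generators -/
def Gs {m : ℕ} (t : ℝ) (x : Fin m → ℝ) (X : Fin m → Fin m → ℝ) : Fin (m + 1) → Fin (m + 1) → ℝ :=
  Fin.cons (Fin.cons t x : Fin (m + 1) → ℝ) (fun i => (Fin.cons 0 (X i) : Fin (m + 1) → ℝ))

lemma Gs_det {m : ℕ} (t : ℝ) (x : Fin m → ℝ) (X : Fin m → Fin m → ℝ) :
    (Matrix.of (Gs t x X)).det = t * (Matrix.of X).det := by
  rw [Matrix.det_succ_column_zero, Fin.sum_univ_succ]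
  have h1 : ∀ i : Fin m, (Matrix.of (Gs t x X)) i.succ 0 = 0 := by
    intro i
    simp [Gs]
  have h2 : (Matrix.of (Gs t x X)) 0 0 = t := by simp [Gs]
  have h3 : (Matrix.of (Gs t x X)).submatrix (Fin.succAbove 0) Fin.succ = Matrix.of X := by
    ext i j
    simp [Gs]
  rw [h2, h3]
  simp [h1]

lemma Gs_inv {m : ℕ} (t : ℝ) (ht : t ≠ 0) (x : Fin m → ℝ) (X : Fin m → Fin m → ℝ)
    (hX : (Matrix.of X).det ≠ 0) (r : ℝ) (y : Fin m → ℝ) :
    (cm (Gs t x X))⁻¹ *ᵥ (Fin.cons r y : Fin (m + 1) → ℝ) =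
      (Fin.cons (r / t) ((cm X)⁻¹ *ᵥ (y - (r / t) • x)) : Fin (m + 1) → ℝ) := by
  have hd : IsUnit (cm (Gs t x X)).det := by
    rw [cm_det, Gs_det]
    exact isUnit_iff_ne_zero.2 (mul_ne_zero ht hX)
  have hdX : IsUnit (cm X).det := by
    rw [cm_det]
    exact isUnit_iff_ne_zero.2 hX
  set c : Fin m → ℝ := (cm X)⁻¹ *ᵥ (y - (r / t) • x) with hc
  have h1 : cm X *ᵥ c = y - (r / t) • x := by
    rw [hc, Matrix.mulVec_mulVec, Matrix.mul_nonsing_inv _ hdX, Matrix.one_mulVec]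
  have h2 : cm (Gs t x X) *ᵥ (Fin.cons (r / t) c : Fin (m + 1) → ℝ) = Fin.cons r y := by
    funext j
    simp only [mulVec, dotProduct]
    rw [Fin.sum_univ_succ]
    refine Fin.cases ?_ (fun j => ?_) j
    · simp [cm, Gs]
      field_simp
    · have h3 := congrFun h1 j
      simp only [mulVec, dotProduct, Pi.sub_apply, Pi.smul_apply, smul_eq_mul] at h3
      simp only [cm, Gs, transpose_apply, of_apply, Fin.cons_zero, Fin.cons_succ] at h3 ⊢
      rw [h3]
      ring
  rw [← h2, Matrix.mulVec_mulVec, Matrix.nonsing_inv_mul _ hd, Matrix.one_mulVec]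

lemma al_ff {m : ℕ} (t : ℝ) (ht : t ≠ 0) (x : Fin m → ℝ) (X : Fin m → Fin m → ℝ)
    (hX : (Matrix.of X).det ≠ 0) : 2 * al (Gs t x X) = ff (cm X)⁻¹ |t| x := by
  unfold ff al
  congr 1
  have h1 := (gm_split m).measure_preimage (set_meas (cm (Gs t x X))⁻¹).nullMeasurableSet
  rw [measureReal_def, measureReal_def, ← h1]
  have h2 : ((fun p : ℝ × (Fin m → ℝ) => (Fin.cons p.1 p.2 : Fin (m + 1) → ℝ)) ⁻¹'
      {z | ∀ i, 0 ≤ ((cm (Gs t x X))⁻¹ *ᵥ z) i}) =
      {p | 0 ≤ p.1 / t ∧ ∀ i, p.1 / t * ((cm X)⁻¹ *ᵥ x) i ≤ ((cm X)⁻¹ *ᵥ p.2) i} := by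
    ext p
    simp only [mem_preimage, mem_ofPred_eq]
    rw [Gs_inv t ht x X hX, Fin.forall_fin_succ]
    simp only [Fin.cons_zero, Fin.cons_succ]
    refine and_congr_right fun _ => forall_congr' fun i => ?_
    rw [Matrix.mulVec_sub, Matrix.mulVec_smul]
    simp only [Pi.sub_apply, Pi.smul_apply, smul_eq_mul, sub_nonneg]
  rw [h2]
  rcases lt_or_gt_of_ne ht with hneg | hpos
  · have h3 : MeasurePreserving (fun r : ℝ => -r) g1 g1 := by
      refine ⟨measurable_neg, ?_⟩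
      have := gaussianReal_map_neg (μ := 0) (v := 1)
      simpa using this
    have h4 := h3.prod (MeasurePreserving.id (gm (Fin m)))
    rw [← h4.measure_preimage (Aset_meas (cm X)⁻¹ |t| x).nullMeasurableSet]
    congr 2
    ext p
    simp only [Aset, mem_preimage, mem_ofPred_eq]
    rw [abs_of_neg hneg]
    have ht' : 0 < -t := neg_pos.2 hneg
    refine and_congr ?_ (forall_congr' fun i => ?_)
    · rw [← neg_div_neg_eq, div_nonneg_iff]
      constructor
      · rintro (⟨h, _⟩ | ⟨_, h⟩)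
        · exact h
        · linarith
      · intro h
        exact Or.inl ⟨h, ht'.le⟩
    · rw [← neg_div_neg_eq, div_mul_eq_mul_div, div_le_iff₀ ht', mul_comm (((cm X)⁻¹ *ᵥ p.2) i)]
      exact Iff.rfl
  · congr 2
    ext p
    simp only [Aset, mem_ofPred_eq]
    rw [abs_of_pos hpos]
    refine and_congr ?_ (forall_congr' fun i => ?_)
    · constructor
      · intro h
        have := mul_nonneg h hpos.le
        rwa [div_mul_cancel₀ _ ht] at this
      · intro h
        exact div_nonneg h hpos.le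
    · rw [div_mul_eq_mul_div, div_le_iff₀ hpos, mul_comm (((cm X)⁻¹ *ᵥ p.2) i)]

/-- a rotation into the hyperplane -/
lemma exists_rot {m : ℕ} (G' : Fin m → Fin (m + 1) → ℝ) :
    ∃ O : Matrix (Fin (m + 1)) (Fin (m + 1)) ℝ, O * Oᵀ = 1 ∧ ∀ i, (O *ᵥ G' i) 0 = 0 := by
  obtain ⟨ν, hν0, hν⟩ : ∃ ν : Fin (m + 1) → ℝ, ν ≠ 0 ∧ ∀ i, G' i ⬝ᵥ ν = 0 := by
    have hdet : (Matrix.of (Fin.cons (0 : Fin (m + 1) → ℝ) G' : Fin (m + 1) → Fin (m + 1) → ℝ)).det = 0 := by
      refine Matrix.det_eq_zero_of_row_eq_zero 0 fun j => ?_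
      simp
    obtain ⟨v, hv0, hv⟩ := Matrix.exists_mulVec_eq_zero_iff.2 hdet
    refine ⟨v, hv0, fun i => ?_⟩
    have := congrFun hv i.succ
    simpa [mulVec, dotProduct] using this
  let w : EuclideanSpace ℝ (Fin (m + 1)) := WithLp.toLp 2 ν
  have hw : w ≠ 0 := by
    intro h
    apply hν0
    have := congrArg WithLp.ofLp h
    simpa [w] using this
  have hwn : ‖w‖ ≠ 0 := norm_ne_zero_iff.2 hw
  let v : Fin (m + 1) → EuclideanSpace ℝ (Fin (m + 1)) := fun _ => (‖w‖⁻¹) • w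
  have hv : Orthonormal ℝ (({0} : Set (Fin (m + 1))).domRestrict v) := by
    constructor
    · intro i
      simp only [Set.domRestrict_apply, v]
      rw [norm_smul, norm_inv, norm_norm, inv_mul_cancel₀ hwn]
    · intro i j hij
      exact absurd (Subsingleton.elim i j) hij
  obtain ⟨b, hb⟩ := hv.exists_orthonormalBasis_extension_of_card_eq (by simp)
  refine ⟨Matrix.of fun i j => b i j, ?_, ?_⟩
  · ext i j
    rw [Matrix.mul_apply, Matrix.one_apply]
    have h := orthonormal_iff_ite.1 b.orthonormal j i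
    rw [PiLp.inner_apply] at h
    simp only [RCLike.inner_apply, conj_trivial] at h
    simp only [of_apply, transpose_apply]
    rw [h]
    simp [eq_comm]
  · intro i
    have h0 := hb 0 (Set.mem_singleton 0)
    simp only [mulVec, dotProduct, of_apply]
    rw [h0]
    simp only [v]
    have : ∑ j, (‖w‖⁻¹ • w).ofLp j * G' i j = ‖w‖⁻¹ * (G' i ⬝ᵥ ν) := by
      simp only [dotProduct, Finset.mul_sum]
      refine Finset.sum_congr rfl fun j _ => ?_
      simp [w]
      ring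
    rw [this, hν i, mul_zero]

/-- the inner integral -/
noncomputable def JI (m d : ℕ) (G' : Fin m → Fin (m + 1) → ℝ) : ℝ :=
  ∫ g, (d : ℝ) * (2 * al (Fin.cons g G' : Fin (m + 1) → Fin (m + 1) → ℝ)) ^ d ∂(gm (Fin (m + 1)))

variable {n : ℕ}

lemma JI_eq (G' : Fin (n + 1) → Fin (n + 2) → ℝ) (g0 : Fin (n + 2) → ℝ)
    (h0 : (Matrix.of (Fin.cons g0 G' : Fin (n + 2) → Fin (n + 2) → ℝ)).det ≠ 0) :
    ∃ B : Matrix (Fin (n + 1)) (Fin (n + 1)) ℝ, B.det ≠ 0 ∧
      ∀ d, JI (n + 1) d G' = ∫ x, HH B d x ∂(gm (Fin (n + 1))) := by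
  obtain ⟨O, hO, hO0⟩ := exists_rot G'
  let X : Fin (n + 1) → Fin (n + 1) → ℝ := fun i j => (O *ᵥ G' i) j.succ
  have hX : ∀ i, (O *ᵥ G' i) = (Fin.cons 0 (X i) : Fin (n + 2) → ℝ) := by
    intro i
    funext j
    refine Fin.cases ?_ (fun j => ?_) j
    · rw [hO0]; rfl
    · rfl
  have hcons : ∀ g : Fin (n + 2) → ℝ, (fun j => O *ᵥ (Fin.cons g G' : Fin (n + 2) → Fin (n + 2) → ℝ) j) =
      Gs ((O *ᵥ g) 0) (fun j => (O *ᵥ g) j.succ) X := by
    intro g
    funext j
    refine Fin.cases ?_ (fun j => ?_) j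
    · simp only [Fin.cons_zero, Gs]
      funext i
      refine Fin.cases ?_ (fun i => ?_) i <;> rfl
    · simp only [Fin.cons_succ, Gs]
      rw [hX]
  have hdetX : (Matrix.of X).det ≠ 0 := by
    intro h
    have h1 : (cm (fun j => O *ᵥ (Fin.cons g0 G' : Fin (n + 2) → Fin (n + 2) → ℝ) j)).det = 0 := by
      rw [hcons, cm_det, Gs_det, h, mul_zero]
    rw [cm_rot, Matrix.det_mul, cm_det] at h1
    rcases mul_eq_zero.1 h1 with h2 | h2
    · have := congrArg Matrix.det hO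
      rw [Matrix.det_mul, h2, zero_mul, Matrix.det_one] at this
      exact zero_ne_one this
    · exact h0 h2
  have hB : (cm X)⁻¹.det ≠ 0 := by
    rw [Matrix.det_nonsing_inv, Ring.inverse_eq_inv', cm_det]
    exact inv_ne_zero hdetX
  refine ⟨(cm X)⁻¹, hB, fun d => ?_⟩
  unfold JI
  have h1 : ∀ g : Fin (n + 2) → ℝ, al (Fin.cons g G' : Fin (n + 2) → Fin (n + 2) → ℝ) =
      al (Gs ((O *ᵥ g) 0) (fun j => (O *ᵥ g) j.succ) X) := by
    intro g
    rw [← hcons, al_rot O hO]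
  simp_rw [h1]
  have hrot := gm_rot O hO
  have hm : Measurable (fun g : Fin (n + 2) → ℝ =>
      (d : ℝ) * (2 * al (Gs (g 0) (fun j => g j.succ) X)) ^ d) := by
    refine Measurable.const_mul (Measurable.pow_const (Measurable.const_mul ?_ _) _) _
    refine (al_meas (n + 2)).comp ?_
    refine measurable_pi_lambda _ fun j => ?_
    refine Fin.cases ?_ (fun j => ?_) j
    · simp only [Gs, Fin.cons_zero]
      refine measurable_pi_lambda _ fun i => ?_
      refine Fin.cases ?_ (fun i => ?_) i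
      · simp only [Fin.cons_zero]; fun_prop
      · simp only [Fin.cons_succ]; fun_prop
    · simp only [Gs, Fin.cons_succ]; fun_prop
  have h2 : ∫ g, (d : ℝ) * (2 * al (Gs ((O *ᵥ g) 0) (fun j => (O *ᵥ g) j.succ) X)) ^ d
      ∂(gm (Fin (n + 2))) = ∫ g, (d : ℝ) * (2 * al (Gs (g 0) (fun j => g j.succ) X)) ^ d
      ∂(gm (Fin (n + 2))) := by
    have h3 := integral_map (μ := gm (Fin (n + 2))) hrot.measurable.aemeasurable
      (f := fun g : Fin (n + 2) → ℝ => (d : ℝ) * (2 * al (Gs (g 0) (fun j => g j.succ) X)) ^ d)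
      hm.aestronglyMeasurable
    rw [hrot.map_eq] at h3
    exact h3.symm
  rw [h2]
  have hs := gm_split (n + 1)
  have h4 := integral_map (μ := g1.prod (gm (Fin (n + 1)))) hs.measurable.aemeasurable
      (f := fun g : Fin (n + 2) → ℝ => (d : ℝ) * (2 * al (Gs (g 0) (fun j => g j.succ) X)) ^ d)
      hm.aestronglyMeasurable
  rw [hs.map_eq] at h4
  rw [h4]
  have h5 : ∀ p : ℝ × (Fin (n + 1) → ℝ), (d : ℝ) * (2 * al (Gs ((Fin.cons p.1 p.2 : Fin (n + 2) → ℝ) 0)
      (fun j => (Fin.cons p.1 p.2 : Fin (n + 2) → ℝ) j.succ) X)) ^ d =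
      (d : ℝ) * (2 * al (Gs p.1 p.2 X)) ^ d := by
    intro p
    simp only [Fin.cons_zero, Fin.cons_succ]
  simp_rw [h5]
  have hm2 : Measurable (fun p : ℝ × (Fin (n + 1) → ℝ) => (d : ℝ) * (2 * al (Gs p.1 p.2 X)) ^ d) := by
    have := hm.comp hs.measurable
    have h6 : (fun p : ℝ × (Fin (n + 1) → ℝ) => (d : ℝ) * (2 * al (Gs p.1 p.2 X)) ^ d) =
        (fun g : Fin (n + 2) → ℝ => (d : ℝ) * (2 * al (Gs (g 0) (fun j => g j.succ) X)) ^ d) ∘
        (fun p : ℝ × (Fin (n + 1) → ℝ) => (Fin.cons p.1 p.2 : Fin (n + 2) → ℝ)) := by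
      funext p
      exact (h5 p).symm
    rw [h6]
    exact this
  rw [integral_prod_symm]
  · refine integral_congr_ae (Eventually.of_forall fun x => ?_)
    simp only
    unfold HH
    refine integral_congr_ae ?_
    have : ∀ᵐ t ∂g1, t ≠ 0 := by
      rw [ae_iff]
      simp
    filter_upwards [this] with t ht
    rw [al_ff t ht x X hdetX]
  · refine Integrable.mono' (integrable_const ((d : ℝ) * 2 ^ d)) hm2.aestronglyMeasurable ?_
    refine Eventually.of_forall fun p => ?_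
    have h0 := al_nonneg (Gs p.1 p.2 X)
    have h1 := al_le_one (Gs p.1 p.2 X)
    rw [Real.norm_eq_abs, abs_of_nonneg (by positivity)]
    gcongr
    linarith

/-- the moments `E[al^b]` in dimension `a` -/
noncomputable def MM (a b : ℕ) : ℝ := ∫ G, al G ^ b ∂(gmat (Fin a) (Fin a))

lemma MM_eq (a b : ℕ) : MM a b = (mt a b).toReal := by
  unfold MM mt
  rw [← integral_toReal]
  · refine integral_congr_ae (Eventually.of_forall fun G => ?_)
    simp only [al, measureReal_def, ENNReal.toReal_pow]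
  · exact ((measurable_measure_prodMk_left (ν := gm (Fin a)) (al_set_meas a)).pow_const b).aemeasurable
  · refine Eventually.of_forall fun G => ?_
    exact ENNReal.pow_lt_top (measure_lt_top _ _)

theorem MM_symm (a b : ℕ) : MM a b = MM b a := by
  rw [MM_eq, MM_eq, mt_symm]

lemma det_ae2 (m : ℕ) : ∀ᵐ G' ∂(gmat (Fin m) (Fin (m + 1))), ∃ g0 : Fin (m + 1) → ℝ,
    (Matrix.of (Fin.cons g0 G' : Fin (m + 1) → Fin (m + 1) → ℝ)).det ≠ 0 := by
  have h := det_ae' (m + 1)
  have hs := gmat_split m (m + 1)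
  have h1 : ∀ᵐ p ∂((gm (Fin (m + 1))).prod (gmat (Fin m) (Fin (m + 1)))),
      (Matrix.of (Fin.cons p.1 p.2 : Fin (m + 1) → Fin (m + 1) → ℝ)).det ≠ 0 :=
    hs.quasiMeasurePreserving.ae h
  have h2 : ∀ᵐ p ∂((gmat (Fin m) (Fin (m + 1))).prod (gm (Fin (m + 1)))),
      (Matrix.of (Fin.cons p.2 p.1 : Fin (m + 1) → Fin (m + 1) → ℝ)).det ≠ 0 :=
    (Measure.measurePreserving_swap (μ := gmat (Fin m) (Fin (m + 1))) (ν := gm (Fin (m + 1)))).quasiMeasurePreserving.ae h1
  have h3 := Measure.ae_ae_of_ae_prod h2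
  filter_upwards [h3] with G' hG'
  exact hG'.exists

/-- **the limit of the scaled moments** -/
theorem MM_lim (n : ℕ) : ∃ c : ℝ, 0 < c ∧
    Tendsto (fun d : ℕ => (d : ℝ) * 2 ^ d * MM (n + 2) d) atTop (𝓝 c) := by
  have hcm : Measurable (fun p : (Fin (n + 1) → Fin (n + 2) → ℝ) × (Fin (n + 2) → ℝ) =>
      (Fin.cons p.2 p.1 : Fin (n + 2) → Fin (n + 2) → ℝ)) := by
    refine measurable_pi_lambda _ fun j => ?_
    refine Fin.cases ?_ (fun j => ?_) j
    · simp only [Fin.cons_zero]; fun_prop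
    · simp only [Fin.cons_succ]; fun_prop
  have hJm : ∀ d, StronglyMeasurable (JI (n + 1) d) := by
    intro d
    unfold JI
    have h : Measurable (fun p : (Fin (n + 1) → Fin (n + 2) → ℝ) × (Fin (n + 2) → ℝ) =>
        (d : ℝ) * (2 * al (Fin.cons p.2 p.1 : Fin (n + 2) → Fin (n + 2) → ℝ)) ^ d) :=
      ((((al_meas (n + 2)).comp hcm).const_mul 2).pow_const d).const_mul _
    exact h.stronglyMeasurable.integral_prod_right'
  have hgood : ∀ᵐ G' ∂(gmat (Fin (n + 1)) (Fin (n + 2))), ∃ L : ℝ, 0 < L ∧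
      Tendsto (fun d => JI (n + 1) d G') atTop (𝓝 L) ∧ ∀ d, JI (n + 1) d G' ≤ KB n := by
    filter_upwards [det_ae2 (n + 1)] with G' hG'
    obtain ⟨g0, hg0⟩ := hG'
    obtain ⟨B, hB, hJ⟩ := JI_eq G' g0 hg0
    refine ⟨LL B, LL_pos B hB, ?_, ?_⟩
    · simp_rw [hJ]
      exact JJ_lim B hB
    · intro d
      rw [hJ]
      exact JJ_le B hB d
  classical
  let L : (Fin (n + 1) → Fin (n + 2) → ℝ) → ℝ := fun G' =>
    if h : ∃ L : ℝ, 0 < L ∧ Tendsto (fun d => JI (n + 1) d G') atTop (𝓝 L) ∧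
      ∀ d, JI (n + 1) d G' ≤ KB n then h.choose else 1
  have hLpos : ∀ G', 0 < L G' := by
    intro G'
    simp only [L]
    split_ifs with h
    · exact h.choose_spec.1
    · exact one_pos
  have hLlim : ∀ᵐ G' ∂(gmat (Fin (n + 1)) (Fin (n + 2))),
      Tendsto (fun d => JI (n + 1) d G') atTop (𝓝 (L G')) ∧ ∀ d, JI (n + 1) d G' ≤ KB n := by
    filter_upwards [hgood] with G' hG'
    simp only [L]
    rw [dif_pos hG']
    exact hG'.choose_spec.2
  have hJnn : ∀ d G', 0 ≤ JI (n + 1) d G' := by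
    intro d G'
    unfold JI
    refine integral_nonneg fun g => ?_
    have := al_nonneg (Fin.cons g G' : Fin (n + 2) → Fin (n + 2) → ℝ)
    positivity
  have hlim : Tendsto (fun d => ∫ G', JI (n + 1) d G' ∂(gmat (Fin (n + 1)) (Fin (n + 2)))) atTop
      (𝓝 (∫ G', L G' ∂(gmat (Fin (n + 1)) (Fin (n + 2))))) := by
    refine tendsto_integral_of_dominated_convergence (fun _ => KB n) ?_ (integrable_const _) ?_ ?_
    · intro d; exact (hJm d).aestronglyMeasurable
    · intro d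
      filter_upwards [hLlim] with G' hG'
      rw [Real.norm_eq_abs, abs_of_nonneg (hJnn d G')]
      exact hG'.2 d
    · filter_upwards [hLlim] with G' hG'
      exact hG'.1
  have hLint : Integrable L (gmat (Fin (n + 1)) (Fin (n + 2))) := by
    refine (integrable_const (KB n)).mono' ?_ ?_
    · refine aestronglyMeasurable_of_tendsto_ae atTop (f := fun d => JI (n + 1) d) ?_ ?_
      · intro d; exact (hJm d).aestronglyMeasurable
      · filter_upwards [hLlim] with G' hG'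
        exact hG'.1
    · filter_upwards [hLlim] with G' hG'
      refine le_of_tendsto hG'.1.norm (Eventually.of_forall fun d => ?_)
      rw [Real.norm_eq_abs, abs_of_nonneg (hJnn d G')]
      exact hG'.2 d
  refine ⟨∫ G', L G' ∂(gmat (Fin (n + 1)) (Fin (n + 2))), ?_, ?_⟩
  · rw [integral_pos_iff_support_of_nonneg (fun G' => (hLpos G').le) hLint]
    have : Function.support L = univ := by
      ext G'
      simp [(hLpos G').ne']
    rw [this]
    simp
  · refine hlim.congr fun d => ?_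
    unfold MM JI
    have hs := gmat_split (n + 1) (n + 2)
    have hm : Measurable (fun G : Fin (n + 2) → Fin (n + 2) → ℝ => (d : ℝ) * (2 * al G) ^ d) :=
      (((al_meas (n + 2)).const_mul 2).pow_const d).const_mul _
    have h4 := integral_map (μ := (gm (Fin (n + 2))).prod (gmat (Fin (n + 1)) (Fin (n + 2))))
      hs.measurable.aemeasurable
      (f := fun G : Fin (n + 2) → Fin (n + 2) → ℝ => (d : ℝ) * (2 * al G) ^ d)
      hm.aestronglyMeasurable
    rw [hs.map_eq] at h4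
    have h5 : (d : ℝ) * 2 ^ d * ∫ G, al G ^ d ∂(gmat (Fin (n + 2)) (Fin (n + 2))) =
        ∫ G, (d : ℝ) * (2 * al G) ^ d ∂(gmat (Fin (n + 2)) (Fin (n + 2))) := by
      rw [← integral_const_mul]
      refine integral_congr_ae (Eventually.of_forall fun G => ?_)
      simp only [mul_pow]
      ring
    rw [h5, h4, integral_prod_symm]
    refine Integrable.mono' (integrable_const ((d : ℝ) * 2 ^ d))
      (hm.comp hs.measurable).aestronglyMeasurable ?_
    refine Eventually.of_forall fun p => ?_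
    have h0 := al_nonneg (Fin.cons p.1 p.2 : Fin (n + 2) → Fin (n + 2) → ℝ)
    have h1 := al_le_one (Fin.cons p.1 p.2 : Fin (n + 2) → Fin (n + 2) → ℝ)
    show ‖(d : ℝ) * (2 * al (Fin.cons p.1 p.2 : Fin (n + 2) → Fin (n + 2) → ℝ)) ^ d‖ ≤ _
    rw [Real.norm_eq_abs, abs_of_nonneg (by positivity)]
    gcongr
    linarith

end R977SA
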