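import Pool.Agent.R977.SA5
import Pool.Agent.H988R2.Gauss

/-! From uniform vectors on the sphere to Gaussian vectors. -/

set_option autoImplicit false

namespace R977SA

open MeasureTheory ProbabilityTheory Matrix Set Filter Topology
open scoped ENNReal NNReal
open Pool.Agent.TH985.WP

/-- `ℝ^d` with its Euclidean structure -/
abbrev E (d : ℕ) := EuclideanSpace ℝ (Fin d)

/-- the unit sphere of `ℝ^d` -/
abbrev Sph (d : ℕ) := Metric.sphere (0 : E d) 1

/-- the uniform distribution on the unit sphere: the normalised surface measure -/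
noncomputable def unif (d : ℕ) : Measure (Sph d) :=
  ((volume : Measure (E d)).toSphere univ)⁻¹ • (volume : Measure (E d)).toSphere

/-- the positive hull of finitely many vectors -/
def posHull {d m : ℕ} (x : Fin m → E d) : Set (E d) :=
  {y | ∃ c : Fin m → ℝ, (∀ i, 0 ≤ c i) ∧ y = ∑ i, c i • x i}

/-- the solid angle of a cone: the probability that a uniform unit vector lies in it -/
noncomputable def solidAngle {d : ℕ} (C : Set (E d)) : ℝ := (unif d).real {u | (u : E d) ∈ C}

/-- the solid angle of the positive hull of `d` unit vectors -/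
noncomputable def alpha (d : ℕ) (U : Fin d → Sph d) : ℝ :=
  solidAngle (posHull fun i => (U i : E d))

variable {k : ℕ}

/-- normalisation -/
noncomputable def nrm (x : E (k + 1)) : Sph (k + 1) :=
  open Classical in
  if h : x = 0 then ⟨EuclideanSpace.single 0 1, by simp⟩
  else ⟨‖x‖⁻¹ • x, by
    rw [mem_sphere_zero_iff_norm, norm_smul, norm_inv, norm_norm,
      inv_mul_cancel₀ (norm_ne_zero_iff.2 h)]⟩

lemma nrm_coe (x : E (k + 1)) (hx : x ≠ 0) : (nrm x : E (k + 1)) = ‖x‖⁻¹ • x := by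
  unfold nrm
  rw [dif_neg hx]

lemma nrm_meas : Measurable (nrm : E (k + 1) → Sph (k + 1)) := by
  have hs : MeasurableSet (Metric.sphere (0 : E (k + 1)) 1) := Metric.isClosed_sphere.measurableSet
  rw [← (MeasurableEmbedding.subtype_coe hs).measurable_comp_iff]
  classical
  have : (Subtype.val ∘ (nrm : E (k + 1) → Sph (k + 1))) =
      fun x => if x = 0 then EuclideanSpace.single 0 1 else ‖x‖⁻¹ • x := by
    funext x
    simp only [Function.comp]
    by_cases hx : x = 0
    · simp [nrm, hx]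
    · rw [nrm_coe x hx, if_neg hx]
  rw [this]
  refine Measurable.ite (measurableSet_singleton 0) measurable_const ?_
  exact (measurable_norm.inv).smul measurable_id

lemma gauss_sphere (k : ℕ) : ∃ K : ℝ≥0∞, ∀ A : Set (Sph (k + 1)), MeasurableSet A →
    stdGaussian (E (k + 1)) (nrm ⁻¹' A) = (volume : Measure (E (k + 1))).toSphere A * K := by
  refine ⟨∫⁻ r : Ioi (0 : ℝ), ENNReal.ofReal (((Real.sqrt (2 * Real.pi))⁻¹) ^ (Fintype.card (Fin (k + 1))) *
    Real.exp (-(r : ℝ) ^ 2 / 2)) ∂(Measure.volumeIoiPow (Module.finrank ℝ (E (k + 1)) - 1)),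
    fun A hA => ?_⟩
  have h1 : stdGaussian (E (k + 1)) (nrm ⁻¹' A) = ∫⁻ x in ({0}ᶜ : Set (E (k + 1))),
      (nrm ⁻¹' A).indicator 1 x * ENNReal.ofReal (Pool.Agent.H988R2.gdens (Fin (k + 1)) x) := by
    rw [Pool.Agent.H988R2.stdGaussian_eq, withDensity_apply _ (nrm_meas hA),
      restrict_compl_singleton, ← lintegral_indicator (nrm_meas hA)]
    refine lintegral_congr fun x => ?_
    by_cases hx : x ∈ nrm ⁻¹' A
    · rw [indicator_of_mem hx, indicator_of_mem hx]
      simp
    · rw [indicator_of_notMem hx, indicator_of_notMem hx, zero_mul]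
  rw [h1, ← lintegral_subtype_comap (measurableSet_singleton 0).compl]
  have h2 := (volume : Measure (E (k + 1))).measurePreserving_homeomorphUnitSphereProd
  have hm1 : Measurable (fun ω : Sph (k + 1) => A.indicator (1 : Sph (k + 1) → ℝ≥0∞) ω) :=
    measurable_one.indicator hA
  have hm2 : Measurable (fun r : Ioi (0 : ℝ) => ENNReal.ofReal
      (((Real.sqrt (2 * Real.pi))⁻¹) ^ (Fintype.card (Fin (k + 1))) * Real.exp (-(r : ℝ) ^ 2 / 2))) := by
    refine ENNReal.measurable_ofReal.comp ?_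
    have : Continuous fun r : Ioi (0 : ℝ) =>
      (((Real.sqrt (2 * Real.pi))⁻¹) ^ (Fintype.card (Fin (k + 1))) * Real.exp (-(r : ℝ) ^ 2 / 2)) := by
      fun_prop
    exact this.measurable
  have h3 := h2.lintegral_comp ((hm1.comp measurable_fst).mul (hm2.comp measurable_snd))
  have h4 := lintegral_prod_mul (μ := (volume : Measure (E (k + 1))).toSphere)
    (ν := Measure.volumeIoiPow (Module.finrank ℝ (E (k + 1)) - 1)) hm1.aemeasurable hm2.aemeasurable
  rw [lintegral_indicator_one hA] at h4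
  rw [← h4]
  refine Eq.trans ?_ h3
  refine lintegral_congr fun x => ?_
  have hx : (x : E (k + 1)) ≠ 0 := x.2
  have e1 : (homeomorphUnitSphereProd (E (k + 1)) x).1 = nrm (x : E (k + 1)) := by
    apply Subtype.ext
    rw [homeomorphUnitSphereProd_apply_fst_coe, nrm_coe _ hx]
  have e2 : ((homeomorphUnitSphereProd (E (k + 1)) x).2 : ℝ) = ‖(x : E (k + 1))‖ := by
    rw [homeomorphUnitSphereProd_apply_snd_coe]
  simp only [Pi.mul_apply, Function.comp]
  rw [e1, e2]
  rfl

lemma unif_map (k : ℕ) : (stdGaussian (E (k + 1))).map nrm = unif (k + 1) := by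
  obtain ⟨K, hK⟩ := gauss_sphere k
  have h1 := hK univ MeasurableSet.univ
  rw [preimage_univ, measure_univ] at h1
  have h2 : K = ((volume : Measure (E (k + 1))).toSphere univ)⁻¹ := by
    refine ENNReal.eq_inv_of_mul_eq_one_left ?_
    rw [mul_comm]
    exact h1.symm
  ext A hA
  rw [Measure.map_apply nrm_meas hA, hK A hA, unif, Measure.smul_apply, smul_eq_mul, h2, mul_comm]

/-- normalisation in coordinates -/
noncomputable def NN (z : Fin (k + 1) → ℝ) : Sph (k + 1) := nrm (WithLp.toLp 2 z)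

lemma toLp_meas (d : ℕ) : Measurable (WithLp.toLp 2 : (Fin d → ℝ) → E d) :=
  (PiLp.volume_preserving_toLp (Fin d)).measurable

lemma ofLp_meas (d : ℕ) : Measurable (WithLp.ofLp : E d → (Fin d → ℝ)) :=
  (PiLp.volume_preserving_ofLp (Fin d)).measurable

lemma NN_meas : Measurable (NN : (Fin (k + 1) → ℝ) → Sph (k + 1)) := nrm_meas.comp (toLp_meas _)

lemma NN_map (k : ℕ) : (gm (Fin (k + 1))).map NN = unif (k + 1) := by
  rw [← unif_map, ← map_pi_eq_stdGaussian, Measure.map_map nrm_meas (toLp_meas _)]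
  rfl

instance unif_prob (k : ℕ) : IsProbabilityMeasure (unif (k + 1)) := by
  rw [← NN_map]
  exact Measure.isProbabilityMeasure_map NN_meas.aemeasurable

/-- the cone of an invertible matrix -/
lemma cone_eq {d : ℕ} (g : Fin d → Fin d → ℝ) (hg : (Matrix.of g).det ≠ 0) (z : Fin d → ℝ) :
    (∀ i, 0 ≤ ((cm g)⁻¹ *ᵥ z) i) ↔ ∃ c : Fin d → ℝ, (∀ i, 0 ≤ c i) ∧ z = ∑ i, c i • g i := by
  have hd : IsUnit (cm g).det := by
    rw [cm_det]; exact isUnit_iff_ne_zero.2 hg
  have hc : ∀ c : Fin d → ℝ, ∑ i, c i • g i = cm g *ᵥ c := by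
    intro c
    funext j
    simp [cm, mulVec, dotProduct, mul_comm]
  constructor
  · intro h
    refine ⟨(cm g)⁻¹ *ᵥ z, h, ?_⟩
    rw [hc, Matrix.mulVec_mulVec, Matrix.mul_nonsing_inv _ hd, Matrix.one_mulVec]
  · rintro ⟨c, hc0, rfl⟩
    rw [hc, Matrix.mulVec_mulVec, Matrix.nonsing_inv_mul _ hd, Matrix.one_mulVec]
    exact hc0

lemma posHull_eq {d : ℕ} (x : Fin d → E d) (hx : (Matrix.of fun i => (x i).ofLp).det ≠ 0) :
    posHull x = {y : E d | ∀ i, 0 ≤ ((cm fun i => (x i).ofLp)⁻¹ *ᵥ y.ofLp) i} := by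
  ext y
  simp only [posHull, mem_ofPred_eq]
  rw [cone_eq _ hx]
  refine exists_congr fun c => and_congr_right fun _ => ?_
  constructor
  · rintro rfl
    simp
  · intro h
    apply (WithLp.equiv 2 (Fin d → ℝ)).injective
    simp only [WithLp.equiv_apply]
    rw [h]
    simp

lemma gm_zero (k : ℕ) : ∀ᵐ z ∂(gm (Fin (k + 1))), z ≠ 0 := by
  have h1 : gm (Fin (k + 1)) ≪ volume := by
    rw [gm_eq]
    exact withDensity_absolutelyContinuous _ _
  have h2 : ∀ᵐ z : Fin (k + 1) → ℝ, z ≠ 0 := by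
    rw [ae_iff]
    simp
  exact h1.ae_le h2

/-- the solid angle is the Gaussian measure -/
lemma alpha_eq (U : Fin (k + 1) → Sph (k + 1))
    (hU : (Matrix.of fun i => (U i : E (k + 1)).ofLp).det ≠ 0) :
    alpha (k + 1) U = al (fun i => (U i : E (k + 1)).ofLp) := by
  unfold alpha solidAngle al
  rw [posHull_eq _ hU]
  have hms : MeasurableSet {u : Sph (k + 1) | (u : E (k + 1)) ∈
      {y : E (k + 1) | ∀ i, 0 ≤ ((cm fun i => (U i : E (k + 1)).ofLp)⁻¹ *ᵥ y.ofLp) i}} := by
    have h := (set_meas (cm fun i => (U i : E (k + 1)).ofLp)⁻¹)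
    exact measurable_subtype_coe ((ofLp_meas _) h)
  rw [measureReal_def, ← NN_map, Measure.map_apply NN_meas hms, measureReal_def]
  congr 1
  refine measure_congr ?_
  filter_upwards [gm_zero k] with z hz
  have hz' : (WithLp.toLp 2 z : E (k + 1)) ≠ 0 := by
    intro h
    apply hz
    have := congrArg WithLp.ofLp h
    simpa using this
  apply propext
  show (∀ i, 0 ≤ ((cm fun i => (U i : E (k + 1)).ofLp)⁻¹ *ᵥ (NN z : E (k + 1)).ofLp) i) ↔
    ∀ i, 0 ≤ ((cm fun i => (U i : E (k + 1)).ofLp)⁻¹ *ᵥ z) i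
  unfold NN
  rw [nrm_coe _ hz']
  have hpos : 0 < ‖(WithLp.toLp 2 z : E (k + 1))‖⁻¹ := inv_pos.2 (norm_pos_iff.2 hz')
  have e : (‖(WithLp.toLp 2 z : E (k + 1))‖⁻¹ • (WithLp.toLp 2 z : E (k + 1))).ofLp =
      ‖(WithLp.toLp 2 z : E (k + 1))‖⁻¹ • z := by simp
  rw [e, Matrix.mulVec_smul]
  refine forall_congr' fun i => ?_
  rw [Pi.smul_apply, smul_eq_mul, mul_nonneg_iff_of_pos_left hpos]

lemma row_ne {d : ℕ} (g : Fin d → Fin d → ℝ) (hg : (Matrix.of g).det ≠ 0) (i : Fin d) :
    g i ≠ 0 := by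
  intro h
  apply hg
  refine Matrix.det_eq_zero_of_row_eq_zero i fun j => ?_
  simp [h]

/-- scaling the generators -/
lemma al_scale {d : ℕ} (a : Fin d → ℝ) (ha : ∀ i, 0 < a i) (g : Fin d → Fin d → ℝ)
    (hg : (Matrix.of g).det ≠ 0) : (Matrix.of fun i => a i • g i).det ≠ 0 ∧
    al (fun i => a i • g i) = al g := by
  have hdet : (Matrix.of fun i => a i • g i).det ≠ 0 := by
    have : (Matrix.of fun i => a i • g i) = Matrix.diagonal a * Matrix.of g := by
      ext i j
      simp [Matrix.diagonal_mul]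
    rw [this, Matrix.det_mul, Matrix.det_diagonal]
    exact mul_ne_zero (Finset.prod_ne_zero_iff.2 fun i _ => (ha i).ne') hg
  refine ⟨hdet, ?_⟩
  unfold al
  congr 1
  ext z
  simp only [mem_ofPred_eq]
  rw [cone_eq _ hdet, cone_eq _ hg]
  constructor
  · rintro ⟨c, hc, rfl⟩
    refine ⟨fun i => c i * a i, fun i => mul_nonneg (hc i) (ha i).le, ?_⟩
    refine Finset.sum_congr rfl fun i _ => ?_
    rw [smul_smul]
  · rintro ⟨c, hc, rfl⟩
    refine ⟨fun i => c i / a i, fun i => div_nonneg (hc i) (ha i).le, ?_⟩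
    refine Finset.sum_congr rfl fun i _ => ?_
    rw [smul_smul, div_mul_cancel₀ _ (ha i).ne']

lemma al_NN (g : Fin (k + 1) → Fin (k + 1) → ℝ) (hg : (Matrix.of g).det ≠ 0) :
    (Matrix.of fun i => (NN (g i) : E (k + 1)).ofLp).det ≠ 0 ∧
      al (fun i => (NN (g i) : E (k + 1)).ofLp) = al g := by
  have hne : ∀ i, (WithLp.toLp 2 (g i) : E (k + 1)) ≠ 0 := by
    intro i h
    apply row_ne g hg i
    have := congrArg WithLp.ofLp h
    simpa using this
  have e : (fun i => (NN (g i) : E (k + 1)).ofLp) =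
      fun i => ‖(WithLp.toLp 2 (g i) : E (k + 1))‖⁻¹ • g i := by
    funext i
    unfold NN
    rw [nrm_coe _ (hne i)]
    simp
  rw [e]
  exact al_scale _ (fun i => inv_pos.2 (norm_pos_iff.2 (hne i))) g hg

lemma pi_unif (k : ℕ) : Measure.pi (fun _ : Fin (k + 1) => unif (k + 1)) =
    (gmat (Fin (k + 1)) (Fin (k + 1))).map (fun g i => NN (g i)) := by
  unfold gmat
  have h := Measure.pi_map_pi (μ := fun _ : Fin (k + 1) => gm (Fin (k + 1)))
    (f := fun _ => (NN : (Fin (k + 1) → ℝ) → Sph (k + 1)))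
    (hμ := by intro i; rw [NN_map]; infer_instance) (fun _ => NN_meas.aemeasurable)
  rw [h]
  simp_rw [NN_map]

lemma NNpi_meas (k : ℕ) : Measurable (fun (g : Fin (k + 1) → Fin (k + 1) → ℝ) i => NN (g i)) :=
  measurable_pi_lambda _ fun i => NN_meas.comp (measurable_pi_apply i)

lemma aU_meas (k : ℕ) : Measurable (fun U : Fin (k + 1) → Sph (k + 1) =>
    fun i => (U i : E (k + 1)).ofLp) :=
  measurable_pi_lambda _ fun i => (ofLp_meas _).comp (measurable_subtype_coe.comp (measurable_pi_apply i))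

lemma alpha_ae (k : ℕ) : alpha (k + 1) =ᵐ[Measure.pi (fun _ : Fin (k + 1) => unif (k + 1))]
    fun U => al (fun i => (U i : E (k + 1)).ofLp) := by
  have h : ∀ᵐ U ∂(Measure.pi (fun _ : Fin (k + 1) => unif (k + 1))),
      (Matrix.of fun i => (U i : E (k + 1)).ofLp).det ≠ 0 := by
    rw [pi_unif, ae_map_iff (NNpi_meas k).aemeasurable]
    · filter_upwards [det_ae' (k + 1)] with g hg
      exact (al_NN g hg).1
    · have := ((det_cont (k + 1)).measurable.comp (aU_meas k)) (measurableSet_singleton (0 : ℝ)).compl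
      exact this
  filter_upwards [h] with U hU
  exact alpha_eq U hU

/-- **the law of the solid angle** -/
theorem alpha_law (k : ℕ) : (Measure.pi (fun _ : Fin (k + 1) => unif (k + 1))).map (alpha (k + 1)) =
    (gmat (Fin (k + 1)) (Fin (k + 1))).map al := by
  rw [Measure.map_congr (alpha_ae k), pi_unif]
  refine (Measure.map_map (μ := gmat (Fin (k + 1)) (Fin (k + 1)))
    ((al_meas (k + 1)).comp (aU_meas k)) (NNpi_meas k)).trans ?_
  refine Measure.map_congr ?_
  filter_upwards [det_ae' (k + 1)] with g hg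
  exact (al_NN g hg).2

end R977SA
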