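import Pool.Agent.R977.SA6

/-! From moments to vague convergence. -/

set_option autoImplicit false

namespace R977SA

open MeasureTheory ProbabilityTheory Matrix Set Filter Topology
open scoped ENNReal NNReal
open Pool.Agent.TH985.WP

/-- the functional `h ↦ 2^d d E[h(α_d) α_d^2]` -/
noncomputable def TT (d : ℕ) (h : ℝ → ℝ) : ℝ :=
  (d : ℝ) * 2 ^ d * ∫ G, h (al G) * al G ^ 2 ∂(gmat (Fin d) (Fin d))

lemma TT_int (d : ℕ) (h : ℝ → ℝ) (hh : Continuous h) :
    Integrable (fun G => h (al G) * al G ^ 2) (gmat (Fin d) (Fin d)) := by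
  obtain ⟨C, hC⟩ := (isCompact_Icc (a := (0 : ℝ)) (b := 1)).exists_bound_of_continuousOn hh.continuousOn
  refine (integrable_const C).mono' ?_ (Eventually.of_forall fun G => ?_)
  · exact ((hh.measurable.comp (al_meas d)).mul ((al_meas d).pow_const 2)).aestronglyMeasurable
  · have h0 := al_nonneg G
    have h1 := al_le_one G
    have h2 := hC (al G) ⟨h0, h1⟩
    rw [norm_mul, Real.norm_eq_abs (al G ^ 2), abs_of_nonneg (by positivity)]
    have h3 : al G ^ 2 ≤ 1 := pow_le_one₀ h0 h1
    calc ‖h (al G)‖ * al G ^ 2 ≤ ‖h (al G)‖ * 1 := by gcongr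
      _ ≤ C := by rw [mul_one]; exact h2

lemma TT_add (d : ℕ) (h g : ℝ → ℝ) (hh : Continuous h) (hg : Continuous g) :
    TT d (fun x => h x + g x) = TT d h + TT d g := by
  unfold TT
  rw [← mul_add, ← integral_add (TT_int d h hh) (TT_int d g hg)]
  congr 1
  refine integral_congr_ae (Eventually.of_forall fun G => ?_)
  simp only
  ring

lemma TT_smul (d : ℕ) (c : ℝ) (h : ℝ → ℝ) : TT d (fun x => c * h x) = c * TT d h := by
  unfold TT
  have : ∀ G : Fin d → Fin d → ℝ, c * h (al G) * al G ^ 2 = c * (h (al G) * al G ^ 2) := fun G => by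
    ring
  simp_rw [this]
  rw [integral_const_mul]
  ring

lemma TT_mono (d : ℕ) (h g : ℝ → ℝ) (hh : Continuous h) (hg : Continuous g)
    (hle : ∀ x ∈ Icc (0 : ℝ) 1, h x ≤ g x) : TT d h ≤ TT d g := by
  unfold TT
  refine mul_le_mul_of_nonneg_left ?_ (by positivity)
  refine integral_mono (TT_int d h hh) (TT_int d g hg) fun G => ?_
  exact mul_le_mul_of_nonneg_right (hle _ ⟨al_nonneg G, al_le_one G⟩) (by positivity)

lemma TT_pow (j : ℕ) : ∃ c : ℝ, 0 < c ∧ Tendsto (fun d => TT d (fun x => x ^ j)) atTop (𝓝 c) := by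
  obtain ⟨c, hc, hl⟩ := MM_lim j
  refine ⟨c, hc, hl.congr fun d => ?_⟩
  rw [MM_symm]
  unfold MM TT
  congr 1
  refine integral_congr_ae (Eventually.of_forall fun G => ?_)
  simp only
  ring

lemma TT_poly (p : Polynomial ℝ) : ∃ l : ℝ, Tendsto (fun d => TT d (fun x => p.eval x)) atTop (𝓝 l) := by
  induction p using Polynomial.induction_on' with
  | add p q hp hq =>
    obtain ⟨l1, h1⟩ := hp
    obtain ⟨l2, h2⟩ := hq
    refine ⟨l1 + l2, (h1.add h2).congr fun d => ?_⟩
    rw [← TT_add d _ _ p.continuous q.continuous]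
    simp
  | monomial n a =>
    obtain ⟨c, _, hl⟩ := TT_pow n
    refine ⟨a * c, (hl.const_mul a).congr fun d => ?_⟩
    rw [← TT_smul]
    simp

lemma TT_near (d : ℕ) (h g : ℝ → ℝ) (hh : Continuous h) (hg : Continuous g) (ε : ℝ)
    (hle : ∀ x ∈ Icc (0 : ℝ) 1, |h x - g x| ≤ ε) : |TT d h - TT d g| ≤ ε * TT d (fun x => x ^ 0) := by
  have h1 : TT d h ≤ TT d g + ε * TT d (fun x => x ^ 0) := by
    rw [← TT_smul, ← TT_add d _ _ hg (by fun_prop)]
    refine TT_mono d _ _ hh (by fun_prop) fun x hx => ?_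
    have := (abs_le.1 (hle x hx)).2
    simp only [pow_zero, mul_one]
    linarith
  have h2 : TT d g ≤ TT d h + ε * TT d (fun x => x ^ 0) := by
    rw [← TT_smul, ← TT_add d _ _ hh (by fun_prop)]
    refine TT_mono d _ _ hg (by fun_prop) fun x hx => ?_
    have := (abs_le.1 (hle x hx)).1
    simp only [pow_zero, mul_one]
    linarith
  rw [abs_le]
  constructor <;> linarith

lemma TT_conv (h : ℝ → ℝ) (hh : Continuous h) : ∃ l : ℝ, Tendsto (fun d => TT d h) atTop (𝓝 l) := by
  obtain ⟨c, hc, hl⟩ := TT_pow 0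
  obtain ⟨M0, hM0⟩ := hl.bddAbove_range
  set M := max M0 1 with hM
  have hMb : ∀ d, TT d (fun x => x ^ 0) ≤ M := fun d => (hM0 (mem_range_self d)).trans (le_max_left _ _)
  have hM1 : 1 ≤ M := le_max_right _ _
  refine cauchySeq_tendsto_of_complete ?_
  rw [Metric.cauchySeq_iff]
  intro ε hε
  obtain ⟨p, hp⟩ := exists_polynomial_near_of_continuousOn 0 1 h hh.continuousOn (ε / (4 * M))
    (by positivity)
  obtain ⟨l, hlp⟩ := TT_poly p
  obtain ⟨N, hN⟩ := Metric.cauchySeq_iff.1 hlp.cauchySeq (ε / 4) (by positivity)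
  refine ⟨N, fun m hm n hn => ?_⟩
  have h1 := hN m hm n hn
  have hb : ∀ d, |TT d (fun x => p.eval x) - TT d h| ≤ ε / 4 := by
    intro d
    refine (TT_near d _ _ p.continuous hh (ε / (4 * M)) fun x hx => (hp x hx).le).trans ?_
    calc ε / (4 * M) * TT d (fun x => x ^ 0) ≤ ε / (4 * M) * M := by
          refine mul_le_mul_of_nonneg_left (hMb d) (by positivity)
      _ = ε / 4 := by field_simp
  have h2 := hb m
  have h3 := hb n
  rw [Real.dist_eq] at h1 ⊢
  rw [abs_lt] at h1 ⊢
  rw [abs_le] at h2 h3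
  constructor <;> linarith

/-- the measure `μ_d` on `(0, ∞)`: `μ_d(A) = 2^d d P[α_d ∈ A]` -/
noncomputable def muD (d : ℕ) : Measure (Ioi (0 : ℝ)) :=
  ((2 : ℝ≥0∞) ^ d * d) • ((Measure.pi (fun _ : Fin d => unif d)).map (alpha d)).comap Subtype.val

/-- the transform `f(x)/x^2`, extended by zero -/
noncomputable def FF (f : Ioi (0 : ℝ) → ℝ) : ℝ → ℝ :=
  Function.extend Subtype.val (fun y : Ioi (0 : ℝ) => f y / (y : ℝ) ^ 2) 0

lemma FF_cont (f : Ioi (0 : ℝ) → ℝ) (hf : Continuous f) (hs : HasCompactSupport f) :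
    Continuous (FF f) := by
  refine HasCompactSupport.continuous_extend_zero isOpen_Ioi ?_ ?_
  · refine hf.div (by fun_prop) fun y => ?_
    have : (0 : ℝ) < y := y.2
    positivity
  · refine hs.mono' ?_
    intro y hy
    refine subset_tsupport _ ?_
    intro h0
    apply hy
    simp [h0]

lemma FF_pos (f : Ioi (0 : ℝ) → ℝ) (y : Ioi (0 : ℝ)) : FF f y = f y / (y : ℝ) ^ 2 := by
  unfold FF
  rw [Subtype.val_injective.extend_apply]

lemma FF_neg (f : Ioi (0 : ℝ) → ℝ) (x : ℝ) (hx : x ∉ Ioi (0 : ℝ)) : FF f x = 0 := by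
  unfold FF
  rw [Function.extend_apply']
  · rfl
  · rintro ⟨y, rfl⟩
    exact hx y.2

lemma muD_integral (k : ℕ) (f : Ioi (0 : ℝ) → ℝ) (hf : Continuous f) (hs : HasCompactSupport f) :
    ∫ y, f y ∂(muD (k + 1)) = TT (k + 1) (FF f) := by
  unfold muD
  rw [integral_smul_measure, alpha_law]
  have h1 : ∀ y : Ioi (0 : ℝ), f y = (fun x : ℝ => FF f x * x ^ 2) y := by
    intro y
    simp only
    rw [FF_pos]
    have : (0 : ℝ) < y := y.2
    field_simp
  simp_rw [h1]
  rw [integral_subtype_comap measurableSet_Ioi (fun x : ℝ => FF f x * x ^ 2),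
    setIntegral_eq_integral_of_forall_compl_eq_zero]
  · rw [integral_map (al_meas _).aemeasurable]
    · unfold TT
      rw [smul_eq_mul]
      congr 1
      rw [ENNReal.toReal_mul, ENNReal.toReal_pow, ENNReal.toReal_natCast, ENNReal.toReal_ofNat,
        mul_comm]
    · exact ((FF_cont f hf hs).mul (by fun_prop)).aestronglyMeasurable
  · intro x hx
    rw [FF_neg f x hx, zero_mul]

/-- **vague convergence** -/
theorem vague : ∃ μ : Measure (Ioi (0 : ℝ)), IsLocallyFiniteMeasure μ ∧ μ ≠ 0 ∧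
    ∀ f : Ioi (0 : ℝ) → ℝ, Continuous f → HasCompactSupport f →
      Tendsto (fun d : ℕ => ∫ x, f x ∂(muD d)) atTop (𝓝 (∫ x, f x ∂μ)) := by
  have hlc : LocallyCompactSpace (Ioi (0 : ℝ)) := isOpen_Ioi.locallyCompactSpace
  have hex : ∀ f : CompactlySupportedContinuousMap (Ioi (0 : ℝ)) ℝ, ∃ l : ℝ,
      Tendsto (fun d => TT d (FF f)) atTop (𝓝 l) := fun f =>
    TT_conv _ (FF_cont f f.continuous f.hasCompactSupport)
  choose l hl using hex
  have hadd : ∀ f g, l (f + g) = l f + l g := by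
    intro f g
    refine tendsto_nhds_unique (hl (f + g)) (((hl f).add (hl g)).congr fun d => ?_)
    rw [← TT_add d _ _ (FF_cont f f.continuous f.hasCompactSupport)
      (FF_cont g g.continuous g.hasCompactSupport)]
    congr 1
    funext x
    by_cases hx : x ∈ Ioi (0 : ℝ)
    · rw [CompactlySupportedContinuousMap.coe_add, FF_pos f ⟨x, hx⟩, FF_pos g ⟨x, hx⟩,
        FF_pos (⇑f + ⇑g) ⟨x, hx⟩]
      simp [add_div]
    · rw [CompactlySupportedContinuousMap.coe_add, FF_neg f x hx, FF_neg g x hx,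
        FF_neg (⇑f + ⇑g) x hx, add_zero]
  have hsmul : ∀ (c : ℝ) f, l (c • f) = c * l f := by
    intro c f
    refine tendsto_nhds_unique (hl (c • f)) (((hl f).const_mul c).congr fun d => ?_)
    rw [← TT_smul]
    congr 1
    funext x
    by_cases hx : x ∈ Ioi (0 : ℝ)
    · rw [CompactlySupportedContinuousMap.coe_smul, FF_pos f ⟨x, hx⟩, FF_pos (c • ⇑f) ⟨x, hx⟩]
      simp [mul_div_assoc]
    · rw [CompactlySupportedContinuousMap.coe_smul, FF_neg f x hx, FF_neg (c • ⇑f) x hx, mul_zero]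
  let Λ0 : CompactlySupportedContinuousMap (Ioi (0 : ℝ)) ℝ →ₗ[ℝ] ℝ :=
    { toFun := l
      map_add' := hadd
      map_smul' := by intro c f; simpa using hsmul c f }
  have hpos : ∀ f : CompactlySupportedContinuousMap (Ioi (0 : ℝ)) ℝ, 0 ≤ f → 0 ≤ Λ0 f := by
    intro f hf
    refine ge_of_tendsto (hl f) (Eventually.of_forall fun d => ?_)
    have h1 := TT_mono d (fun x => 0 * x) (FF f) (by fun_prop)
      (FF_cont f f.continuous f.hasCompactSupport) (by
        intro x _
        rw [zero_mul]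
        by_cases hx : x ∈ Ioi (0 : ℝ)
        · rw [FF_pos f ⟨x, hx⟩]
          have : 0 ≤ f ⟨x, hx⟩ := hf ⟨x, hx⟩
          positivity
        · rw [FF_neg f x hx])
    have h2 : TT d (fun x => 0 * x) = 0 := by
      rw [TT_smul d 0 (fun x => x), zero_mul]
    linarith
  let Λ := PositiveLinearMap.mk₀ Λ0 hpos
  have hint : ∀ f : CompactlySupportedContinuousMap (Ioi (0 : ℝ)) ℝ,
      ∫ x, f x ∂(RealRMK.rieszMeasure Λ) = l f := fun f => RealRMK.integral_rieszMeasure Λ f
  have hconv : ∀ f : CompactlySupportedContinuousMap (Ioi (0 : ℝ)) ℝ,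
      Tendsto (fun d : ℕ => ∫ x, f x ∂(muD d)) atTop (𝓝 (l f)) := by
    intro f
    refine (hl f).congr' ?_
    filter_upwards [eventually_gt_atTop 0] with d hd
    obtain ⟨k, rfl⟩ : ∃ k, d = k + 1 := ⟨d - 1, by omega⟩
    rw [muD_integral k f f.continuous f.hasCompactSupport]
  refine ⟨RealRMK.rieszMeasure Λ, inferInstance, ?_, ?_⟩
  · intro hzero
    obtain ⟨c0, hc0, hl0⟩ := TT_pow 0
    obtain ⟨c1, hc1, hl1⟩ := TT_pow 1
    set ε : ℝ := c1 / (2 * c0) with hε
    have hε0 : 0 < ε := by positivity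
    -- the cut-off function
    let g : Ioi (0 : ℝ) → ℝ := fun y => (y : ℝ) ^ 3 *
      max 0 (min 1 (min (2 * (y : ℝ) / ε - 1) (2 - (y : ℝ))))
    have hgc : Continuous g := by
      simp only [g]
      fun_prop
    have hgs : HasCompactSupport g := by
      have hK : IsCompact (Subtype.val ⁻¹' Icc (ε / 2) 2 : Set (Ioi (0 : ℝ))) := by
        rw [Subtype.isCompact_iff, Subtype.image_preimage_coe]
        have : Ioi (0 : ℝ) ∩ Icc (ε / 2) 2 = Icc (ε / 2) 2 := by
          apply inter_eq_right.2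
          intro x hx
          exact lt_of_lt_of_le (by positivity) hx.1
        rw [this]
        exact isCompact_Icc
      refine HasCompactSupport.intro hK ?_
      intro y hy
      simp only [g]
      have hy' : (y : ℝ) < ε / 2 ∨ 2 < (y : ℝ) := by
        by_contra hcon
        push Not at hcon
        exact hy ⟨hcon.1, hcon.2⟩
      have : min 1 (min (2 * (y : ℝ) / ε - 1) (2 - (y : ℝ))) ≤ 0 := by
        rcases hy' with h | h
        · refine (min_le_right _ _).trans ((min_le_left _ _).trans ?_)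
          have : 2 * (y : ℝ) / ε ≤ 1 := by
            rw [div_le_one hε0]; linarith
          linarith
        · refine (min_le_right _ _).trans ((min_le_right _ _).trans ?_)
          linarith
      rw [max_eq_left this, mul_zero]
    let gc : CompactlySupportedContinuousMap (Ioi (0 : ℝ)) ℝ := ⟨⟨g, hgc⟩, hgs⟩
    have h1 : l gc = 0 := by
      rw [← hint gc, hzero]
      simp
    have h2 : Tendsto (fun d => TT d (FF g)) atTop (𝓝 0) := by
      rw [← h1]
      exact hl gc
    have h3 : ∀ d, TT d (fun x => x ^ 1) ≤ TT d (FF g) + ε * TT d (fun x => x ^ 0) := by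
      intro d
      have hF := FF_cont g hgc hgs
      rw [← TT_smul, ← TT_add d _ _ hF (by fun_prop)]
      refine TT_mono d _ _ (by fun_prop) (by fun_prop) fun x hx => ?_
      simp only [pow_one, pow_zero, mul_one]
      rcases hx.1.eq_or_lt with h0 | h0
      · rw [← h0, FF_neg g 0 (by simp)]
        linarith
      · rw [FF_pos g ⟨x, h0⟩]
        simp only [g]
        rcases le_or_gt ε x with hxe | hxe
        · have h5 : max 0 (min 1 (min (2 * x / ε - 1) (2 - x))) = 1 := by
            have h6 : 1 ≤ x / ε := by rw [one_le_div hε0]; exact hxe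
            have h7 : 1 ≤ 2 * x / ε - 1 := by
              rw [mul_div_assoc]; linarith
            have h8 : 1 ≤ 2 - x := by linarith [hx.2]
            rw [min_eq_left (le_min h7 h8)]
            exact max_eq_right zero_le_one
          rw [h5]
          have : x ^ 3 * 1 / x ^ 2 = x := by field_simp
          rw [this]
          linarith
        · have : 0 ≤ x ^ 3 * max 0 (min 1 (min (2 * x / ε - 1) (2 - x))) / x ^ 2 := by
            have : 0 ≤ max 0 (min 1 (min (2 * x / ε - 1) (2 - x))) := le_max_left _ _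
            positivity
          linarith
    have h4 := le_of_tendsto_of_tendsto' hl1 (h2.add (hl0.const_mul ε)) h3
    rw [zero_add, hε] at h4
    have h5 : c1 / (2 * c0) * c0 = c1 / 2 := by field_simp
    rw [h5] at h4
    linarith
  · intro f hf hs
    have h1 := hconv ⟨⟨f, hf⟩, hs⟩
    rw [← hint ⟨⟨f, hf⟩, hs⟩] at h1
    exact h1

end R977SA
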