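import Pool.Agent.R974.Span.BM

open MeasureTheory ProbabilityTheory Filter Topology Set
open scoped ENNReal NNReal

namespace Pool.Agent.R977.SpanReg

open Pool.Agent.R974.Span

/-- extension of a path to the real line -/
noncomputable def ext (f : ℝ≥0 → ℝ) (x : ℝ) : ℝ := f x.toNNReal

lemma continuous_ext {f : ℝ≥0 → ℝ} (hf : Continuous f) : Continuous (ext f) :=
  hf.comp continuous_real_toNNReal

/-- the path has a positive increment over some interval of length `u` inside `[0,1]` -/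
def Pos (g : ℝ → ℝ) (u : ℝ) : Prop := ∃ s, 0 ≤ s ∧ s + u ≤ 1 ∧ g s < g (s + u)

lemma mem_Sp {f : ℝ≥0 → ℝ} {u : ℝ} :
    u ∈ Sp f ↔ ∃ s : ℝ, 0 ≤ s ∧ 0 ≤ u ∧ s + u ≤ 1 ∧ ext f s = ext f (s + u) := by
  constructor
  · rintro ⟨s, t, h1, h2, h3, rfl⟩
    have h1' : (s:ℝ) ≤ t := by exact_mod_cast h1
    have h2' : (t:ℝ) ≤ 1 := by exact_mod_cast h2
    refine ⟨s, s.2, by linarith, by linarith, ?_⟩
    have e : (s:ℝ) + ((t:ℝ) - s) = t := by ring
    rw [e]
    simp only [ext, Real.toNNReal_coe]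
    exact h3
  · rintro ⟨s, h1, h2, h3, h4⟩
    refine ⟨s.toNNReal, (s + u).toNNReal, Real.toNNReal_le_toNNReal (by linarith), ?_, h4, ?_⟩
    · rw [Real.toNNReal_le_iff_le_coe]; simpa using h3
    · rw [Real.coe_toNNReal _ h1, Real.coe_toNNReal _ (by linarith)]; ring

lemma pos_open {g : ℝ → ℝ} (hg : Continuous g) {u : ℝ} (hu : u < 1) (h : Pos g u) :
    ∀ᶠ v in 𝓝 u, Pos g v := by
  obtain ⟨s, hs0, hs1, hs⟩ := h
  obtain ⟨r, hr0, hr1, hr⟩ : ∃ r, 0 ≤ r ∧ r + u < 1 ∧ g r < g (r + u) := by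
    rcases hs0.eq_or_lt with h0 | h0
    · exact ⟨s, hs0, by rw [← h0]; linarith, hs⟩
    · have hc : Continuous fun r => g (r + u) := by fun_prop
      have h1 : ∀ᶠ r in 𝓝 s, g r < g (r + u) := (isOpen_lt hg hc).mem_nhds hs
      have h2 : ∀ᶠ r in 𝓝 s, 0 < r := lt_mem_nhds h0
      have h3 : ∀ᶠ r in 𝓝[<] s, (g r < g (r + u) ∧ 0 < r) ∧ r < s :=
        ((h1.and h2).filter_mono nhdsWithin_le_nhds).and self_mem_nhdsWithin
      obtain ⟨r, ⟨h4, h5⟩, h6⟩ := h3.exists
      exact ⟨r, h5.le, by linarith, h4⟩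
  have hc : Continuous fun v => g (r + v) := by fun_prop
  have h1 : ∀ᶠ v in 𝓝 u, g r < g (r + v) := (isOpen_lt continuous_const hc).mem_nhds hr
  have h2 : ∀ᶠ v in 𝓝 u, v < 1 - r := gt_mem_nhds (by linarith)
  filter_upwards [h1, h2] with v hv1 hv2 using ⟨r, hr0, by linarith, hv1⟩

lemma both_mem {f : ℝ≥0 → ℝ} (hf : Continuous f) {u : ℝ} (hu : 0 ≤ u) (h1 : Pos (ext f) u)
    (h2 : Pos (fun x => -ext f x) u) : u ∈ Sp f := by
  obtain ⟨s, hs0, hs1, hs⟩ := h1
  obtain ⟨t, ht0, ht1, ht⟩ := h2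
  have hg := continuous_ext hf
  have hc : Continuous (fun x => ext f (x + u) - ext f x) := by fun_prop
  have h3 := intermediate_value_uIcc (a := s) (b := t) hc.continuousOn
  have h4 : (0:ℝ) ∈ uIcc (ext f (s + u) - ext f s) (ext f (t + u) - ext f t) := by
    rw [mem_uIcc]
    right
    constructor <;> linarith
  obtain ⟨x, hx, hx0⟩ := h3 h4
  rw [mem_uIcc] at hx
  refine mem_Sp.2 ⟨x, ?_, hu, ?_, by linarith⟩
  · rcases hx with hx | hx <;> linarith
  · rcases hx with hx | hx <;> linarith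

lemma both_interior {f : ℝ≥0 → ℝ} (hf : Continuous f) {u : ℝ} (hu : 0 < u) (hu1 : u < 1)
    (h1 : Pos (ext f) u) (h2 : Pos (fun x => -ext f x) u) : u ∈ interior (Sp f) := by
  rw [mem_interior_iff_mem_nhds]
  filter_upwards [pos_open (continuous_ext hf) hu1 h1, pos_open (continuous_ext hf).neg hu1 h2,
    lt_mem_nhds hu] with v hv1 hv2 hv3 using both_mem hf hv3.le hv1 hv2

lemma step {g : ℝ → ℝ} (hg : Continuous g) {x y : ℝ} (hxy : x < y) (h : g x < g y) :
    ∃ δ > 0, ∀ h, 0 < h → h < δ → ∃ s, x ≤ s ∧ s + h ≤ y ∧ g s < g (s + h) := by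
  have h1 : ∀ᶠ z in 𝓝 y, g x < g z := (isOpen_lt continuous_const hg).mem_nhds h
  obtain ⟨δ, hδ, h2⟩ := Metric.eventually_nhds_iff.1 h1
  refine ⟨δ, hδ, fun h hh hhδ => ?_⟩
  by_contra hcon
  push Not at hcon
  set n : ℕ := ⌊(y - x) / h⌋₊ with hn
  have hn1 : (n:ℝ) * h ≤ y - x := by
    have := Nat.floor_le (a := (y - x) / h) (div_nonneg (by linarith) hh.le)
    rwa [le_div_iff₀ hh] at this
  have hn2 : y - x < ((n:ℝ) + 1) * h := by
    have := Nat.lt_floor_add_one ((y - x) / h)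
    rwa [div_lt_iff₀ hh] at this
  have h3 : ∀ k : ℕ, k ≤ n → g (x + k * h) ≤ g x := by
    intro k
    induction k with
    | zero => intro _; simp
    | succ k ih =>
      intro hk
      have h4 := ih (by omega)
      have h5 : ((k:ℝ) + 1) * h ≤ n * h := by
        apply mul_le_mul_of_nonneg_right _ hh.le
        exact_mod_cast hk
      have h6 := hcon (x + k * h) (by have : (0:ℝ) ≤ k * h := by positivity
                                      linarith) (by nlinarith)
      have e : x + ((k + 1 : ℕ) : ℝ) * h = x + k * h + h := by push_cast; ring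
      rw [e]
      linarith
  have h4 := h3 n le_rfl
  have h5 : g x < g (x + n * h) := by
    apply h2
    rw [Real.dist_eq, abs_lt]
    constructor <;> nlinarith
  linarith

/-- the path is not monotone on any interval `[0,q]` -/
def NonMon (f : ℝ≥0 → ℝ) : Prop :=
  ∀ q : ℝ≥0, 0 < q → (∃ x y, x < y ∧ y ≤ q ∧ f x < f y) ∧ (∃ x y, x < y ∧ y ≤ q ∧ f y < f x)

lemma near {f : ℝ≥0 → ℝ} (hf : Continuous f) (hm : NonMon f) {u : ℝ} (hu0 : 0 ≤ u) (hu1 : u < 1)
    (hz : ∀ s, 0 ≤ s → s + u ≤ 1 → ext f s = ext f (s + u)) :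
    ∃ δ > 0, ∀ h, 0 < h → h < δ → u + h ∈ interior (Sp f) := by
  obtain ⟨⟨x, y, hxy, hy, hxy'⟩, ⟨z, w, hzw, hw, hzw'⟩⟩ := hm (1 - u).toNNReal (by simpa using hu1)
  have hy' : (y:ℝ) ≤ 1 - u := by
    have : (y:ℝ) ≤ ((1 - u).toNNReal : ℝ≥0) := by exact_mod_cast hy
    rwa [Real.coe_toNNReal _ (by linarith)] at this
  have hw' : (w:ℝ) ≤ 1 - u := by
    have : (w:ℝ) ≤ ((1 - u).toNNReal : ℝ≥0) := by exact_mod_cast hw
    rwa [Real.coe_toNNReal _ (by linarith)] at this
  have hg := continuous_ext hf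
  obtain ⟨δ1, hδ1, h1⟩ := step hg (x := x) (y := y) (by exact_mod_cast hxy)
    (by simpa [ext, Real.toNNReal_coe] using hxy')
  obtain ⟨δ2, hδ2, h2⟩ := step hg.neg (x := z) (y := w) (by exact_mod_cast hzw)
    (by simpa [ext, Real.toNNReal_coe] using hzw')
  refine ⟨min (1 - u) (min δ1 δ2), lt_min (by linarith) (lt_min hδ1 hδ2), fun h hh hhδ => ?_⟩
  have hd0 : h < 1 - u := hhδ.trans_le (min_le_left _ _)
  have hd1 : h < δ1 := hhδ.trans_le ((min_le_right _ _).trans (min_le_left _ _))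
  have hd2 : h < δ2 := hhδ.trans_le ((min_le_right _ _).trans (min_le_right _ _))
  have hx0 : (0:ℝ) ≤ x := x.2
  have hz0 : (0:ℝ) ≤ z := z.2
  apply both_interior hf (by linarith) (by linarith)
  · obtain ⟨s, hs1, hs2, hs3⟩ := h1 h hh hd1
    refine ⟨s, by linarith, by linarith, ?_⟩
    have := hz (s + h) (by linarith) (by linarith)
    have e : s + (u + h) = s + h + u := by ring
    rw [e, ← this]
    exact hs3
  · obtain ⟨s, hs1, hs2, hs3⟩ := h2 h hh hd2
    refine ⟨s, by linarith, by linarith, ?_⟩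
    have := hz (s + h) (by linarith) (by linarith)
    have e : s + (u + h) = s + h + u := by ring
    simp only
    rw [e, ← this]
    exact hs3

theorem sub_closure {f : ℝ≥0 → ℝ} (hf : Continuous f) (hnd : NDG f) (hm : NonMon f)
    (h01 : f 0 ≠ f 1) : Sp f ⊆ closure (interior (Sp f)) := by
  intro u hu
  obtain ⟨s, t, hst, ht1, hfst, hu'⟩ := hu
  have hst' : (s:ℝ) ≤ t := by exact_mod_cast hst
  have ht1' : (t:ℝ) ≤ 1 := by exact_mod_cast ht1
  have hs0 : (0:ℝ) ≤ s := s.2
  rw [Metric.mem_closure_iff]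
  intro ε hε
  by_contra hcon
  push Not at hcon
  rcases hst.eq_or_lt with heq | hlt
  · subst heq
    have hu0 : u = 0 := by rw [hu']; ring
    obtain ⟨δ, hδ, h1⟩ := near hf hm le_rfl zero_lt_one (fun s _ _ => by rw [add_zero])
    have h2 := h1 (min (δ / 2) (ε / 2)) (lt_min (by linarith) (by linarith))
      (by have := min_le_left (δ / 2) (ε / 2); linarith)
    have h3 := hcon _ h2
    rw [hu0, Real.dist_eq, zero_add, zero_sub, abs_neg, abs_of_pos
      (lt_min (by linarith) (by linarith))] at h3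
    have := min_le_right (δ / 2) (ε / 2)
    linarith
  · have hlt' : (s:ℝ) < t := by exact_mod_cast hlt
    have hu1 : u < 1 := by
      by_contra h
      have e1 : (t:ℝ) = 1 := by linarith
      have e2 : (s:ℝ) = 0 := by linarith
      have e1' : t = 1 := by exact_mod_cast e1
      have e2' : s = 0 := by exact_mod_cast e2
      exact h01 (by rw [← e1', ← e2']; exact hfst)
    have hu0 : 0 < u := by linarith
    set e : ℝ := min ε (min u (1 - u)) with he
    have he0 : 0 < e := lt_min hε (lt_min hu0 (by linarith))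
    have he1 : e ≤ ε := min_le_left _ _
    have he2 : e ≤ u := (min_le_right _ _).trans (min_le_left _ _)
    have he3 : e ≤ 1 - u := (min_le_right _ _).trans (min_le_right _ _)
    have hg := continuous_ext hf
    have hnot : ∀ v ∈ Ioo (u - e) (u + e), v ∉ interior (Sp f) := by
      intro v hv hv2
      have h3 := hcon v hv2
      rw [Real.dist_eq] at h3
      have : |u - v| < e := by rw [abs_lt]; constructor <;> linarith [hv.1, hv.2]
      linarith
    have hbad : ∀ v ∈ Ioo (u - e) (u + e), Pos (ext f) v → Pos (fun x => -ext f x) v → False := by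
      intro v hv h1 h2
      exact hnot v hv (both_interior hf (by linarith [hv.1]) (by linarith [hv.2]) h1 h2)
    obtain ⟨⟨s1, t1, hs1, ht1, hs1r, ht1r, h1⟩, ⟨s2, t2, hs2, ht2, hs2r, ht2r, h2⟩⟩ :=
      hnd s t hlt ht1 hfst (e / 2) (by linarith)
    rw [abs_lt] at hs1r ht1r hs2r ht2r
    have hpre := isPreconnected_Ioo (a := u - e) (b := u + e) (interior {v | Pos (ext f) v})
      (interior {v | Pos (fun x => -ext f x) v}) isOpen_interior isOpen_interior
    have hin1 : ((t1:ℝ) - s1) ∈ Ioo (u - e) (u + e) := by constructor <;> linarith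
    have hin2 : ((t2:ℝ) - s2) ∈ Ioo (u - e) (u + e) := by constructor <;> linarith
    have hp1 : Pos (ext f) ((t1:ℝ) - s1) := by
      refine ⟨s1, s1.2, ?_, ?_⟩
      · have : (t1:ℝ) ≤ 1 := by exact_mod_cast ht1
        linarith
      · have e1 : (s1:ℝ) + ((t1:ℝ) - s1) = t1 := by ring
        rw [e1]
        simpa [ext, Real.toNNReal_coe] using h1
    have hp2 : Pos (fun x => -ext f x) ((t2:ℝ) - s2) := by
      refine ⟨s2, s2.2, ?_, ?_⟩
      · have : (t2:ℝ) ≤ 1 := by exact_mod_cast ht2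
        linarith
      · have e1 : (s2:ℝ) + ((t2:ℝ) - s2) = t2 := by ring
        simp only
        rw [e1]
        simpa [ext, Real.toNNReal_coe] using h2
    have hI1 : ∀ v ∈ Ioo (u - e) (u + e), Pos (ext f) v → v ∈ interior {v | Pos (ext f) v} := by
      intro v hv h
      rw [mem_interior_iff_mem_nhds]
      exact pos_open hg (by linarith [hv.2]) h
    have hI2 : ∀ v ∈ Ioo (u - e) (u + e), Pos (fun x => -ext f x) v →
        v ∈ interior {v | Pos (fun x => -ext f x) v} := by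
      intro v hv h
      rw [mem_interior_iff_mem_nhds]
      exact pos_open hg.neg (by linarith [hv.2]) h
    by_cases hcov : Ioo (u - e) (u + e) ⊆ interior {v | Pos (ext f) v} ∪
        interior {v | Pos (fun x => -ext f x) v}
    · obtain ⟨w, hw1, hw2, hw3⟩ := hpre hcov ⟨_, hin1, hI1 _ hin1 hp1⟩ ⟨_, hin2, hI2 _ hin2 hp2⟩
      have hw2' : w ∈ {v | Pos (ext f) v} := interior_subset hw2
      have hw3' : w ∈ {v | Pos (fun x => -ext f x) v} := interior_subset hw3
      exact hbad w hw1 hw2' hw3'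
    · rw [Set.not_subset] at hcov
      obtain ⟨w, hw1, hw2⟩ := hcov
      have hn1 : ¬ Pos (ext f) w := fun h => hw2 (Or.inl (hI1 w hw1 h))
      have hn2 : ¬ Pos (fun x => -ext f x) w := fun h => hw2 (Or.inr (hI2 w hw1 h))
      obtain ⟨δ, hδ, h3⟩ := near hf hm (u := w) (by linarith [hw1.1]) (by linarith [hw1.2]) (by
        intro s hs1 hs2
        by_contra hne
        rcases lt_or_gt_of_ne hne with h | h
        · exact hn1 ⟨s, hs1, hs2, h⟩
        · exact hn2 ⟨s, hs1, hs2, by simpa using h⟩)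
      have hw1' := hw1.2
      have hw1'' := hw1.1
      have hpos : 0 < min (δ / 2) ((u + e - w) / 2) := lt_min (by linarith) (by linarith)
      have h4 := h3 (min (δ / 2) ((u + e - w) / 2)) hpos
        (by have := min_le_left (δ / 2) ((u + e - w) / 2); linarith)
      refine hnot _ ⟨?_, ?_⟩ h4
      · linarith
      · have := min_le_right (δ / 2) ((u + e - w) / 2)
        linarith

theorem regular {f : ℝ≥0 → ℝ} (hf : Continuous f) (hnd : NDG f) (hm : NonMon f)
    (h01 : f 0 ≠ f 1) : Sp f = closure (interior (Sp f)) :=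
  Subset.antisymm (sub_closure hf hnd hm h01)
    (closure_minimal interior_subset (isCompact_Sp hf).isClosed)

section
variable {Ω : Type*} [MeasurableSpace Ω] {P : Measure Ω} {B : ℝ≥0 → Ω → ℝ}

lemma gaussian_half {v : ℝ≥0} (hv : v ≠ 0) : gaussianReal 0 v (Iic 0) = 1 / 2 := by
  have h1 : gaussianReal 0 v (Ici 0) = gaussianReal 0 v (Iic 0) := by
    have h2 : (gaussianReal 0 v).map (fun x => -x) = gaussianReal 0 v := by
      rw [gaussianReal_map_neg, neg_zero]
    conv_rhs => rw [← h2]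
    rw [Measure.map_apply measurable_neg measurableSet_Iic]
    congr 1
    ext x
    simp
  have h3 := measure_union_add_inter (μ := gaussianReal 0 v) (Iic (0:ℝ)) (measurableSet_Ici (a := (0:ℝ)))
  have h4 : Iic (0:ℝ) ∪ Ici 0 = univ := Iic_union_Ici
  have h5 : Iic (0:ℝ) ∩ Ici 0 = {0} := by
    ext x; simp [le_antisymm_iff]
  have h6 : gaussianReal 0 v {(0:ℝ)} = 0 := by
    have := nullSingletonClass_gaussianReal (μ := 0) hv
    exact measure_singleton 0
  rw [h4, h5, h6, h1, measure_univ, add_zero] at h3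
  rw [← two_mul] at h3
  rw [ENNReal.eq_div_iff (by norm_num) (by norm_num)]
  exact h3.symm

lemma incr_half (hB : GBM B P) {s t : ℝ≥0} (h : s < t) :
    P ((fun ω => B t ω - B s ω) ⁻¹' Iic 0) = 1 / 2 := by
  have h1 := (hB.pre.hasLaw_sub t s).map_eq
  have h2 : (fun ω => B t ω - B s ω) = B t - B s := rfl
  rw [h2, ← Measure.map_apply ((hB.meas t).sub (hB.meas s)) measurableSet_Iic, h1]
  apply gaussian_half
  rw [ne_eq, nndist_eq_zero]
  intro h3
  exact h.ne' (Subtype.ext h3)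

lemma ae_nonmon_half (hB : GBM B P) {q : ℝ≥0} (hq : 0 < q) :
    ∀ᵐ ω ∂P, ∃ x y, x < y ∧ y ≤ q ∧ B x ω < B y ω := by
  rw [ae_iff]
  have hbound : ∀ n : ℕ, 0 < n → P {ω | ¬ ∃ x y, x < y ∧ y ≤ q ∧ B x ω < B y ω} ≤ (1 / 2) ^ n := by
    intro n hn
    have hn' : (0:ℝ≥0) < n := by exact_mod_cast hn
    set τ : ℕ → ℝ≥0 := fun i => q * i / n with hτ
    have hmono : StrictMono τ := by
      apply strictMono_nat_of_lt_succ
      intro i
      simp only [hτ]
      gcongr
      simp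
    have hind := hB.pre.hasIndepIncrements.nat hmono.monotone
    have h1 := hind.measure_inter_preimage_eq_mul (Finset.range n) (sets := fun _ => Iic 0)
      (fun _ _ => measurableSet_Iic)
    have h2 : ∀ i ∈ Finset.range n, P ((fun ω => B (τ (i + 1)) ω - B (τ i) ω) ⁻¹' Iic 0) = 1 / 2 :=
      fun i _ => incr_half hB (hmono (Nat.lt_succ_self i))
    rw [Finset.prod_congr rfl h2, Finset.prod_const, Finset.card_range] at h1
    rw [← h1]
    apply measure_mono
    intro ω hω
    simp only [Set.mem_ofPred_eq] at hω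
    push Not at hω
    simp only [mem_iInter, mem_preimage, mem_Iic, Finset.mem_range]
    intro i hi
    have h3 := hω (τ i) (τ (i + 1)) (hmono (Nat.lt_succ_self i)) (by
      have h4 : τ (i + 1) ≤ τ n := hmono.monotone (by omega)
      have h5 : τ n = q := by
        simp only [hτ]
        rw [mul_div_assoc, div_self hn'.ne', mul_one]
      rwa [h5] at h4)
    linarith
  have h3 : Tendsto (fun n : ℕ => ((1:ℝ≥0∞) / 2) ^ n) atTop (𝓝 0) := by
    apply ENNReal.tendsto_pow_atTop_nhds_zero_of_lt_one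
    rw [ENNReal.div_lt_iff (by norm_num) (by norm_num)]
    norm_num
  apply le_antisymm _ zero_le
  exact ge_of_tendsto h3 (by filter_upwards [eventually_gt_atTop 0] with n hn using hbound n hn)

lemma ae_nonmon (hB : GBM B P) : ∀ᵐ ω ∂P, NonMon (fun t => B t ω) := by
  have h1 : ∀ᵐ ω ∂P, ∀ n : ℕ, ∃ x y, x < y ∧ y ≤ (1 / ((n:ℝ≥0) + 1)) ∧ B x ω < B y ω :=
    ae_all_iff.2 fun n => ae_nonmon_half hB (by positivity)
  have h2 : ∀ᵐ ω ∂P, ∀ n : ℕ, ∃ x y, x < y ∧ y ≤ (1 / ((n:ℝ≥0) + 1)) ∧ (-B) x ω < (-B) y ω :=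
    ae_all_iff.2 fun n => ae_nonmon_half hB.neg (by positivity)
  filter_upwards [h1, h2] with ω h3 h4 q hq
  obtain ⟨n, hn⟩ := exists_nat_one_div_lt hq
  obtain ⟨x, y, h5, h6, h7⟩ := h3 n
  obtain ⟨z, w, h8, h9, h10⟩ := h4 n
  refine ⟨⟨x, y, h5, h6.trans hn.le, h7⟩, ⟨z, w, h8, h9.trans hn.le, ?_⟩⟩
  simpa using h10

/-- almost surely, the span set of Brownian motion on `[0,1]` is the closure of its interior -/
theorem ae_regular (hB : GBM B P) :
    ∀ᵐ ω ∂P, Sp (fun t => B t ω) = closure (interior (Sp (fun t => B t ω))) := by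
  have h1 : ∀ᵐ ω ∂P, B 1 ω ≠ 0 := by
    rw [ae_iff]
    simpa using eval_noatom hB zero_lt_one 0
  filter_upwards [ae_ndg hB, ae_nonmon hB, h1] with ω h2 h3 h4
  refine regular (hB.cont ω) h2 h3 ?_
  rw [hB.zero ω]
  exact h4.symm

end

end Pool.Agent.R977.SpanReg
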